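import Pool.Agent.W396.Il.Basic

set_option autoImplicit false

/-!
Convex bodies with the symmetries of the simplex.

Points `x : α → ℝ`, the additional coordinate is `T x = - ∑ x a`; so `x` and `T x` are centred
barycentric coordinates of a simplex of dimension `n = card α`.
-/

namespace Pool.Agent.W396.Il

open Set Finset

variable {α : Type*} [Fintype α] [DecidableEq α]

/-- the additional coordinate -/
noncomputable def TT (x : α → ℝ) : ℝ := - ∑ a, x a

/-- the sum of the differences -/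
noncomputable def Dl (C : Finset α) (c : α → ℝ) : ℝ := ∑ i ∈ C, ∑ j ∈ Cᶜ, (c i - c j)

/-- the directions -/
noncomputable def wd (C : Finset α) (η : ℝ) : α → ℝ :=
  fun a => if a ∈ C then -((Cᶜ.card : ℝ)) - η else (C.card : ℝ) - η

theorem sum_wd (C : Finset α) (η : ℝ) (c : α → ℝ) :
    ∑ a, c a * wd C η a = - Dl C c - η * ∑ a, c a := by
  have h1 : ∑ a, c a * wd C η a = ∑ a ∈ C, c a * (-((Cᶜ.card : ℝ)) - η) +
      ∑ a ∈ Cᶜ, c a * ((C.card : ℝ) - η) := by
    rw [← Finset.sum_add_sum_compl C]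
    congr 1
    · refine Finset.sum_congr rfl fun a ha => ?_
      rw [wd, if_pos ha]
    · refine Finset.sum_congr rfl fun a ha => ?_
      rw [wd, if_neg (Finset.mem_compl.1 ha)]
  have h2 : Dl C c = (Cᶜ.card : ℝ) * ∑ a ∈ C, c a - (C.card : ℝ) * ∑ a ∈ Cᶜ, c a := by
    unfold Dl
    simp only [Finset.sum_sub_distrib, Finset.sum_const, nsmul_eq_mul, Finset.mul_sum]
  rw [h1, h2, ← Finset.sum_mul, ← Finset.sum_mul, ← Finset.sum_add_sum_compl C]
  ring

theorem term_le {C : Finset α} {c : α → ℝ} (h : ∀ i ∈ C, ∀ j, j ∉ C → c j ≤ c i) {i j : α}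
    (hi : i ∈ C) (hj : j ∉ C) : c i - c j ≤ Dl C c := by
  unfold Dl
  have h1 : c i - c j ≤ ∑ j ∈ Cᶜ, (c i - c j) :=
    Finset.single_le_sum (f := fun j => c i - c j)
      (fun k hk => sub_nonneg.2 (h i hi k (Finset.mem_compl.1 hk))) (Finset.mem_compl.2 hj)
  refine h1.trans (Finset.single_le_sum (f := fun i => ∑ j ∈ Cᶜ, (c i - c j)) ?_ hi)
  intro k hk
  exact Finset.sum_nonneg fun l hl => sub_nonneg.2 (h k hk l (Finset.mem_compl.1 hl))

theorem Dl_nonneg {C : Finset α} {c : α → ℝ} (h : ∀ i ∈ C, ∀ j, j ∉ C → c j ≤ c i) :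
    0 ≤ Dl C c :=
  Finset.sum_nonneg fun k hk =>
    Finset.sum_nonneg fun l hl => sub_nonneg.2 (h k hk l (Finset.mem_compl.1 hl))

theorem row_le {C : Finset α} {c : α → ℝ} (h : ∀ i ∈ C, ∀ j, j ∉ C → c j ≤ c i) {i : α}
    (hi : i ∈ C) : ∑ j ∈ Cᶜ, (c i - c j) ≤ Dl C c := by
  unfold Dl
  refine Finset.single_le_sum (f := fun i => ∑ j ∈ Cᶜ, (c i - c j)) ?_ hi
  intro k hk
  exact Finset.sum_nonneg fun l hl => sub_nonneg.2 (h k hk l (Finset.mem_compl.1 hl))

/-- if `Dl = 0` then `c` is constant -/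
theorem const_of_Dl {C : Finset α} {c : α → ℝ} (h : ∀ i ∈ C, ∀ j, j ∉ C → c j ≤ c i)
    {i0 j0 : α} (hi : i0 ∈ C) (hj : j0 ∉ C) (h0 : Dl C c = 0) (a : α) : c a = c j0 := by
  by_cases ha : a ∈ C
  · have h1 := term_le h ha hj
    have h2 := h a ha j0 hj
    linarith
  · have h1 := term_le h hi ha
    have h2 := h i0 hi a ha
    have h3 := term_le h hi hj
    have h4 := h i0 hi j0 hj
    linarith

/-- low type, positive `η` -/
theorem alg_low {C : Finset α} {c : α → ℝ} (h : ∀ i ∈ C, ∀ j, j ∉ C → c j ≤ c i)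
    {i0 j0 : α} (hi : i0 ∈ C) (hj : j0 ∉ C) (hC : ∀ i ∈ C, 0 ≤ c i) (hc : c ≠ 0) {η : ℝ}
    (h0 : 0 < η) (h1 : η < 1) : - Dl C c - η * ∑ a, c a < 0 := by
  rcases (Dl_nonneg h).eq_or_lt with hD | hD
  · have hconst := const_of_Dl h hi hj hD.symm
    have hpos : 0 < c j0 := by
      have h2 := hC i0 hi
      rw [hconst i0] at h2
      refine lt_of_le_of_ne h2 fun h3 => hc ?_
      ext a
      rw [hconst a, ← h3]; rfl
    have hs : 0 < ∑ a, c a := by
      refine Finset.sum_pos (fun a _ => by rw [hconst a]; exact hpos) ⟨j0, Finset.mem_univ _⟩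
    rw [← hD]
    nlinarith
  · have h2 : ∑ a, c a = ∑ a ∈ C, c a + ∑ a ∈ Cᶜ, c a := (Finset.sum_add_sum_compl C c).symm
    have h3 : 0 ≤ ∑ a ∈ C, c a := Finset.sum_nonneg hC
    have h4 : - ∑ a ∈ Cᶜ, c a ≤ Dl C c := by
      refine le_trans ?_ (row_le h hi)
      rw [← Finset.sum_neg_distrib]
      refine Finset.sum_le_sum fun j _ => ?_
      have := hC i0 hi
      linarith
    rw [h2]
    nlinarith

/-- separated type -/
theorem alg_sep {C : Finset α} {c : α → ℝ} (h : ∀ i ∈ C, ∀ j, j ∉ C → c j ≤ c i)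
    {i0 j0 : α} (hi : i0 ∈ C) (hj : j0 ∉ C) (hi0 : 0 ≤ c i0) (hj0 : c j0 ≤ 0) (hc : c ≠ 0) {η : ℝ}
    (hη : |η| * Fintype.card α < 1) : - Dl C c - η * ∑ a, c a < 0 := by
  have hb : ∀ a, |c a| ≤ Dl C c := by
    intro a
    rw [abs_le]
    by_cases ha : a ∈ C
    · have h1 := term_le h ha hj
      have h2 := h a ha j0 hj
      have h3 := term_le h hi hj
      constructor <;> linarith
    · have h1 := term_le h hi ha
      have h2 := h i0 hi a ha
      have h3 := term_le h hi hj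
      constructor <;> linarith
  have hD : 0 < Dl C c := by
    refine lt_of_le_of_ne (Dl_nonneg h) fun h1 => hc ?_
    ext a
    have := hb a
    rw [← h1] at this
    exact abs_nonpos_iff.1 this
  have hs : |∑ a, c a| ≤ Fintype.card α * Dl C c := by
    refine (Finset.abs_sum_le_sum_abs _ _).trans ?_
    refine (Finset.sum_le_sum fun a _ => hb a).trans ?_
    rw [Finset.sum_const, Finset.card_univ, nsmul_eq_mul]
  have h5 : -(η * ∑ a, c a) ≤ |η| * (Fintype.card α * Dl C c) := by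
    refine (neg_le_abs _).trans ?_
    rw [abs_mul]
    exact mul_le_mul_of_nonneg_left hs (abs_nonneg _)
  nlinarith

theorem Dl_compl (C : Finset α) (c : α → ℝ) : Dl Cᶜ (-c) = Dl C c := by
  unfold Dl
  rw [compl_compl, Finset.sum_comm]
  refine Finset.sum_congr rfl fun i _ => Finset.sum_congr rfl fun j _ => ?_
  simp only [Pi.neg_apply]
  ring

theorem wd_compl (C : Finset α) (η : ℝ) : wd Cᶜ η = - wd C (-η) := by
  ext a
  simp only [wd, compl_compl, Pi.neg_apply, Finset.mem_compl]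
  by_cases ha : a ∈ C
  · rw [if_neg (by simpa using ha), if_pos ha]; ring
  · rw [if_pos ha, if_neg ha]; ring

/-- a convex body with the symmetries of the simplex -/
structure SBody (K : Set (α → ℝ)) : Prop where
  conv : Convex ℝ K
  comp : IsCompact K
  int : (interior K).Nonempty
  perm : ∀ σ : Equiv.Perm α, ∀ x ∈ K, (fun a => x (σ a)) ∈ K
  swz : ∀ a, ∀ x ∈ K, Function.update x a (TT x) ∈ K

variable {K : Set (α → ℝ)}

omit [DecidableEq α] in
theorem TT_neg (x : α → ℝ) : TT (-x) = - TT x := by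
  simp [TT]

theorem SBody.neg (h : SBody K) : SBody (-K) where
  conv := h.conv.neg
  comp := h.comp.neg
  int := by
    obtain ⟨y, hy⟩ := h.int
    refine ⟨-y, ?_⟩
    have : -(interior K) = interior (-K) := by
      rw [← Set.image_neg_eq_neg, ← Set.image_neg_eq_neg]
      exact (Homeomorph.neg _).image_interior K
    rw [← this]
    simpa using hy
  perm := by
    intro σ x hx
    exact h.perm σ _ hx
  swz := by
    intro a x hx
    have h1 := h.swz a _ hx
    rw [Set.mem_neg]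
    convert h1 using 1
    ext b
    by_cases hb : b = a
    · subst hb; simp [TT_neg]
    · simp [Function.update_of_ne hb]

/-! ### averages -/

theorem perm_sum_eq (g : α → ℝ) (a b : α) :
    ∑ σ : Equiv.Perm α, g (σ a) = ∑ σ : Equiv.Perm α, g (σ b) := by
  refine Fintype.sum_equiv (Equiv.mulRight (Equiv.swap a b)) _ _ fun σ => ?_
  simp

theorem perm_sum (g : α → ℝ) (a : α) :
    (Fintype.card α : ℝ) * ∑ σ : Equiv.Perm α, g (σ a) =
      (Fintype.card (Equiv.Perm α) : ℝ) * ∑ b, g b := by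
  have h1 : ∑ b : α, ∑ σ : Equiv.Perm α, g (σ b) =
      (Fintype.card α : ℝ) * ∑ σ : Equiv.Perm α, g (σ a) := by
    rw [Finset.sum_congr rfl (fun b _ => perm_sum_eq g b a), Finset.sum_const, Finset.card_univ,
      nsmul_eq_mul]
  rw [← h1, Finset.sum_comm,
    Finset.sum_congr rfl (fun (σ : Equiv.Perm α) _ => Equiv.sum_comp σ g), Finset.sum_const,
    Finset.card_univ, nsmul_eq_mul]

theorem avg_mem {S : Set (α → ℝ)} (hS : Convex ℝ S)
    (hp : ∀ σ : Equiv.Perm α, ∀ x ∈ S, (fun a => x (σ a)) ∈ S) (hn : 0 < Fintype.card α)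
    {x : α → ℝ} (hx : x ∈ S) : (fun _ => (∑ a, x a) / Fintype.card α) ∈ S := by
  have hn0 : (0 : ℝ) < Fintype.card α := by exact_mod_cast hn
  obtain ⟨N, hN⟩ : ∃ N : ℝ, N = (Fintype.card (Equiv.Perm α) : ℝ) := ⟨_, rfl⟩
  have hN0 : 0 < N := by
    rw [hN]
    exact_mod_cast Fintype.card_pos
  have h1 : ∑ σ : Equiv.Perm α, (1 / N) • (fun i => x (σ i)) ∈ S := by
    refine hS.sum_mem (fun _ _ => by positivity) ?_ (fun σ _ => hp _ x hx)
    rw [Finset.sum_const, Finset.card_univ, nsmul_eq_mul]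
    field_simp
    exact hN.symm
  convert h1 using 1
  ext a
  rw [← Finset.smul_sum, Pi.smul_apply, Finset.sum_apply, smul_eq_mul]
  have e3 := perm_sum x a
  rw [← hN] at e3
  field_simp
  linarith

theorem perm_int (h : SBody K) (σ : Equiv.Perm α) {x : α → ℝ} (hx : x ∈ interior K) :
    (fun a => x (σ a)) ∈ interior K := by
  have h1 : (fun x : α → ℝ => fun a => x (σ a)) '' (interior K) ⊆ interior K := by
    refine interior_maximal ?_ ?_
    · rintro _ ⟨y, hy, rfl⟩
      exact h.perm σ y (interior_subset hy)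
    · exact (Homeomorph.piCongrLeft (Y := fun _ : α => ℝ) σ.symm).isOpenMap _ isOpen_interior |> fun h2 => by
        convert h2 using 1
        ext y
        simp only [Set.mem_image]
        constructor
        · rintro ⟨z, hz, rfl⟩
          refine ⟨z, hz, ?_⟩
          ext a
          simp [Homeomorph.piCongrLeft, Equiv.piCongrLeft, Equiv.piCongrLeft']
        · rintro ⟨z, hz, rfl⟩
          refine ⟨z, hz, ?_⟩
          ext a
          simp [Homeomorph.piCongrLeft, Equiv.piCongrLeft, Equiv.piCongrLeft']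
  exact h1 ⟨x, hx, rfl⟩

end Pool.Agent.W396.Il
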