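import Pool.Agent.W396.Il.An

set_option autoImplicit false

/-!
Convex bodies with the symmetries of the simplex, second part.
-/

namespace Pool.Agent.W396.Il

open Set Finset

variable {α : Type*} [Fintype α] [DecidableEq α] {K : Set (α → ℝ)}

theorem sum_update (x : α → ℝ) (a : α) (t : ℝ) :
    ∑ b, Function.update x a t b = ∑ b, x b - x a + t := by
  rw [Finset.sum_update_of_mem (Finset.mem_univ a), ← Finset.sum_add_sum_compl {a} x,
    Finset.sum_singleton, Finset.compl_eq_univ_sdiff]
  ring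

theorem TT_update (x : α → ℝ) (a : α) : TT (Function.update x a (TT x)) = x a := by
  rw [TT, sum_update, TT]
  ring

theorem SBody.avg (h : SBody K) [Nonempty α] {x : α → ℝ} (hx : x ∈ K) :
    (fun _ => - TT x / Fintype.card α) ∈ K := by
  have := avg_mem h.conv h.perm Fintype.card_pos hx
  simpa [TT] using this

theorem zero_int (h : SBody K) [Nonempty α] : (0 : α → ℝ) ∈ interior K := by
  obtain ⟨y, hy⟩ := h.int
  have hn0 : (0 : ℝ) < Fintype.card α := by exact_mod_cast Fintype.card_pos
  have h1 := avg_mem h.conv.interior (fun σ x hx => perm_int h σ hx) Fintype.card_pos hy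
  obtain ⟨s, hs⟩ : ∃ s : ℝ, s = (∑ a, y a) / Fintype.card α := ⟨_, rfl⟩
  rw [← hs] at h1
  obtain ⟨a⟩ := ‹Nonempty α›
  haveI : Nonempty α := ⟨a⟩
  have h2 := h.avg (h.swz a _ (interior_subset h1))
  rw [TT_update] at h2
  have h3 := h.conv.combo_interior_self_mem_interior h1 h2 (a := 1 / (Fintype.card α + 1))
    (b := Fintype.card α / (Fintype.card α + 1)) (by positivity) (by positivity)
    (by field_simp; ring)
  convert h3 using 1
  ext b
  simp only [Pi.zero_apply, Pi.add_apply, Pi.smul_apply, smul_eq_mul]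
  field_simp
  ring

theorem ill_of_int {K : Set (α → ℝ)} {x : α → ℝ} (hx : x ∈ interior K) (v : α → ℝ) :
    Ill K v x := by
  have h1 : Filter.Tendsto (fun ε : ℝ => x + ε • v) (nhdsWithin 0 (Ioi 0)) (nhds x) := by
    have h2 : Continuous (fun ε : ℝ => x + ε • v) := by fun_prop
    have h3 := h2.tendsto 0
    rw [zero_smul, add_zero] at h3
    exact h3.mono_left nhdsWithin_le_nhds
  have h4 := (h1.eventually (isOpen_interior.mem_nhds hx)).and self_mem_nhdsWithin
  obtain ⟨ε, h5, h6⟩ := h4.exists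
  exact ⟨ε, h6, h5⟩

/-- `c` is an outer normal of `K` at `x`. -/
def Nrm (K : Set (α → ℝ)) (x c : α → ℝ) : Prop :=
  ∀ y ∈ K, ∑ a, c a * y a ≤ ∑ a, c a * x a

theorem ill_of_nrm {K : Set (α → ℝ)} (hK : Convex ℝ K) (hi : (interior K).Nonempty) {x v : α → ℝ}
    (hx : x ∈ K) (h : ∀ c : α → ℝ, c ≠ 0 → Nrm K x c → ∑ a, c a * v a < 0) : Ill K v x := by
  refine ill_of_normal hK hi hx fun f hf hle => ?_
  have key : ∀ y : α → ℝ, f y = ∑ a, f (Pi.single a 1) * y a := by
    intro y
    conv_lhs => rw [pi_eq_sum_univ y]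
    rw [map_sum]
    refine Finset.sum_congr rfl fun a _ => ?_
    rw [map_smul, smul_eq_mul, mul_comm]
    congr 2
    ext b
    simp [Pi.single_apply, eq_comm]
  rw [key]
  refine h _ ?_ fun y hy => ?_
  · intro h0
    apply hf
    ext y
    rw [key y]
    have : ∀ a, f (Pi.single a 1) = 0 := fun a => congrFun h0 a
    simp [this]
  · rw [← key, ← key]
    exact hle y hy

theorem Nrm.le (h : SBody K) {x c : α → ℝ} (hx : x ∈ K) (hc : Nrm K x c) {a b : α}
    (hab : x b < x a) : c b ≤ c a := by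
  have hne : a ≠ b := by rintro rfl; exact lt_irrefl _ hab
  have h1 := hc _ (h.perm (Equiv.swap a b) x hx)
  rw [← Finset.sum_add_sum_compl {a, b} , ← Finset.sum_add_sum_compl {a, b} (fun i => c i * x i),
    Finset.sum_pair hne, Finset.sum_pair hne] at h1
  have h2 : ∑ i ∈ ({a, b} : Finset α)ᶜ, c i * x (Equiv.swap a b i) =
      ∑ i ∈ ({a, b} : Finset α)ᶜ, c i * x i := by
    refine Finset.sum_congr rfl fun i hi => ?_
    simp only [Finset.mem_compl, Finset.mem_insert, Finset.mem_singleton, not_or] at hi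
    rw [Equiv.swap_apply_of_ne_of_ne hi.1 hi.2]
  rw [h2, Equiv.swap_apply_left, Equiv.swap_apply_right] at h1
  by_contra hcon
  push Not at hcon
  nlinarith [mul_pos (sub_pos.2 hab) (sub_pos.2 hcon)]

theorem Nrm.swz (h : SBody K) {x c : α → ℝ} (hx : x ∈ K) (hc : Nrm K x c) (a : α) :
    0 ≤ c a * (x a - TT x) := by
  have h1 := hc _ (h.swz a x hx)
  have h2 : ∑ i, c i * Function.update x a (TT x) i = ∑ i, c i * x i - c a * x a + c a * TT x := by
    have := sum_update (fun i => c i * x i) a (c a * TT x)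
    rw [← this]
    refine Finset.sum_congr rfl fun i _ => ?_
    by_cases hi : i = a
    · subst hi; simp
    · simp [Function.update_of_ne hi]
  rw [h2] at h1
  linarith

theorem Nrm.pos (h : SBody K) {x c : α → ℝ} (hx : x ∈ K) (hc : Nrm K x c) {a : α}
    (ha : TT x < x a) : 0 ≤ c a := by
  have h1 := hc.swz h hx a
  by_contra hcon
  push Not at hcon
  nlinarith [mul_pos (sub_pos.2 ha) (neg_pos.2 hcon)]

theorem Nrm.neg (h : SBody K) {x c : α → ℝ} (hx : x ∈ K) (hc : Nrm K x c) {a : α}
    (ha : x a < TT x) : c a ≤ 0 := by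
  have h1 := hc.swz h hx a
  by_contra hcon
  push Not at hcon
  nlinarith [mul_pos (sub_pos.2 ha) hcon]

/-- the three types of points -/
def Sep (C : Finset α) (x : α → ℝ) : Prop :=
  (∀ i ∈ C, ∀ j, j ∉ C → x j < x i) ∧ (∃ i ∈ C, TT x < x i) ∧ ∃ j, j ∉ C ∧ x j < TT x

def Low (C : Finset α) (x : α → ℝ) : Prop :=
  (∀ i ∈ C, TT x < x i) ∧ (∀ j, j ∉ C → x j = TT x)

def High (C : Finset α) (x : α → ℝ) : Prop :=
  (∀ i ∈ C, x i = TT x) ∧ (∀ j, j ∉ C → x j < TT x)

theorem continuous_TT : Continuous (TT : (α → ℝ) → ℝ) := by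
  unfold TT
  fun_prop

/-- one direction serves all points of the three types, first case -/
theorem exists_eta_aux (h : SBody K) {C : Finset α} (hC : C.Nonempty) (hC' : C ≠ Finset.univ)
    (hQ : ¬ ∃ x ∈ K, (∀ j, j ∉ C → x j = TT x) ∧ ∀ y ∈ K, TT x ≤ TT y) :
    ∃ η : ℝ, ∀ x ∈ K, Sep C x ∨ Low C x ∨ High C x → Ill K (wd C η) x := by
  obtain ⟨i0, hi0⟩ := hC
  obtain ⟨j0, hj0⟩ : ∃ j0, j0 ∉ C := by
    by_contra hcon
    push Not at hcon
    exact hC' (Finset.eq_univ_iff_forall.2 hcon)
  haveI : Nonempty α := ⟨i0⟩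
  have hn0 : (0 : ℝ) < Fintype.card α := by exact_mod_cast Fintype.card_pos
  have hn1 : (1 : ℝ) ≤ Fintype.card α := by exact_mod_cast Fintype.card_pos
  have hKne : K.Nonempty := h.int.mono interior_subset
  -- the minimum
  obtain ⟨xm, hxm, hmin⟩ := h.comp.exists_isMinOn hKne continuous_TT.continuousOn
  have hmin' : ∀ y ∈ K, TT xm ≤ TT y := fun y hy => hmin hy
  obtain ⟨m, hm⟩ : ∃ m, m = TT xm := ⟨_, rfl⟩
  rw [← hm] at hmin'
  -- the gap
  obtain ⟨δ, hδ, hgap⟩ : ∃ δ : ℝ, 0 < δ ∧ ∀ x ∈ K, (∀ j, j ∉ C → x j = TT x) → m + δ ≤ TT x := by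
    by_cases hX : ∃ x ∈ K, ∀ j, j ∉ C → x j = TT x
    · have hcl : IsClosed {x : α → ℝ | ∀ j, j ∉ C → x j = TT x} := by
        have : {x : α → ℝ | ∀ j, j ∉ C → x j = TT x} =
            ⋂ j, ⋂ (_ : j ∉ C), {x : α → ℝ | x j = TT x} := by
          ext x; simp
        rw [this]
        exact isClosed_iInter fun j => isClosed_iInter fun _ =>
          isClosed_eq (continuous_apply j) continuous_TT
      have hcp := h.comp.inter_right hcl
      obtain ⟨x1, hx1, hx1'⟩ := hX
      obtain ⟨x0, hx0, hx0m⟩ := hcp.exists_isMinOn ⟨x1, hx1, hx1'⟩ continuous_TT.continuousOn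
      refine ⟨TT x0 - m, ?_, fun x hx hx' => ?_⟩
      · rw [sub_pos]
        refine lt_of_le_of_ne (hmin' x0 hx0.1) fun h5 => hQ ⟨x0, hx0.1, hx0.2, ?_⟩
        rw [← h5]
        exact hmin'
      · have : TT x0 ≤ TT x := hx0m ⟨hx, hx'⟩
        linarith
    · push Not at hX
      refine ⟨1, one_pos, fun x hx hx' => ?_⟩
      obtain ⟨j, h1, h2⟩ := hX x hx
      exact absurd (hx' j h1) h2
  -- a bound
  obtain ⟨B, hB0, hB⟩ : ∃ B : ℝ, 0 < B ∧ ∀ x ∈ K, ∀ a, x a - TT x ≤ B := by
    have h1 : ∀ a : α, ∃ B : ℝ, ∀ x ∈ K, x a - TT x ≤ B := by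
      intro a
      obtain ⟨B, hB⟩ := (h.comp.image_of_continuousOn
        ((continuous_apply a).sub continuous_TT).continuousOn).bddAbove
      exact ⟨B, fun x hx => hB (mem_image_of_mem _ hx)⟩
    choose B hB using h1
    refine ⟨1 + ∑ a, |B a|, by positivity, fun x hx a => ?_⟩
    have h2 : |B a| ≤ ∑ a, |B a| :=
      Finset.single_le_sum (f := fun a => |B a|) (fun _ _ => abs_nonneg _) (Finset.mem_univ a)
    have h3 := hB a x hx
    have h4 := le_abs_self (B a)
    linarith
  obtain ⟨n, hn⟩ : ∃ n : ℝ, n = Fintype.card α := ⟨_, rfl⟩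
  rw [← hn] at hn0 hn1
  obtain ⟨r, hr⟩ : ∃ r : ℝ, r = 1 / (1 + n + n ^ 2 * B / δ) := ⟨_, rfl⟩
  have hden : 0 < n ^ 2 * B / δ := by positivity
  have hr0 : 0 < r := by rw [hr]; positivity
  have hrD : r * (1 + n + n ^ 2 * B / δ) = 1 := by
    rw [hr]; field_simp
  have hr1 : r < 1 := by nlinarith [mul_pos hr0 hden, mul_pos hr0 hn0]
  have hrn : r * n < 1 := by nlinarith [mul_pos hr0 hden, mul_pos hr0 hn0]
  have hrB : r * (n ^ 2 * B / δ) < 1 := by nlinarith [mul_pos hr0 hden, mul_pos hr0 hn0]
  refine ⟨-r, fun x hx htype => ?_⟩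
  refine ill_of_nrm h.conv h.int hx fun c hc0 hc => ?_
  rw [sum_wd]
  rcases htype with hS | hL | hH
  · obtain ⟨h1, ⟨i, hi, h2⟩, ⟨j, hj, h3⟩⟩ := hS
    refine alg_sep (fun i hi j hj => hc.le h hx (h1 i hi j hj)) hi hj (hc.pos h hx h2)
      (hc.neg h hx h3) hc0 ?_
    rw [abs_neg, abs_of_pos hr0, ← hn]
    exact hrn
  · obtain ⟨h1, h2⟩ := hL
    have hle : ∀ i ∈ C, ∀ j, j ∉ C → c j ≤ c i := fun i hi j hj => hc.le h hx (by
      rw [h2 j hj]; exact h1 i hi)
    have hg := hgap x hx h2
    obtain ⟨S, hS⟩ : ∃ S : ℝ, S = ∑ a, c a := ⟨_, rfl⟩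
    obtain ⟨t, ht⟩ : ∃ t : ℝ, t = TT x := ⟨_, rfl⟩
    have hp := hc _ (h.avg hxm)
    rw [← Finset.sum_mul, ← hm, ← hn, ← hS] at hp
    -- the sum
    have e1 : ∑ a, c a * x a = ∑ a ∈ C, c a * (x a - t) + t * S := by
      have e2 : ∑ a, c a * (x a - t) = ∑ a ∈ C, c a * (x a - t) := by
        rw [← Finset.sum_add_sum_compl C]
        have : ∑ a ∈ Cᶜ, c a * (x a - t) = 0 :=
          Finset.sum_eq_zero fun a ha => by
            rw [h2 a (Finset.mem_compl.1 ha), ht, sub_self, mul_zero]
        rw [this, add_zero]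
      rw [← e2, hS, Finset.mul_sum, ← Finset.sum_add_distrib]
      refine Finset.sum_congr rfl fun a _ => ?_
      ring
    have e3 : ∑ a ∈ C, (x a - t) = -(n + 1) * t := by
      have e2 : ∑ a, (x a - t) = ∑ a ∈ C, (x a - t) := by
        rw [← Finset.sum_add_sum_compl C]
        have : ∑ a ∈ Cᶜ, (x a - t) = 0 :=
          Finset.sum_eq_zero fun a ha => by
            rw [h2 a (Finset.mem_compl.1 ha), ht, sub_self]
        rw [this, add_zero]
      rw [← e2, Finset.sum_sub_distrib, Finset.sum_const, Finset.card_univ, nsmul_eq_mul, ← hn]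
      have : ∑ a, x a = - t := by rw [ht, TT, neg_neg]
      rw [this]
      ring
    have hD0 := Dl_nonneg hle
    -- bound of the average
    have hci : ∀ i ∈ C, c i - S / n ≤ Dl C c := by
      intro i hi
      have h5 : ∀ a, c i - Dl C c ≤ c a := by
        intro a
        by_cases ha : a ∈ C
        · have := term_le hle hi hj0
          have := hle a ha j0 hj0
          linarith
        · have := term_le hle hi ha
          linarith
      have h6 : n * (c i - Dl C c) ≤ S := by
        rw [hS, hn]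
        have := Finset.sum_le_sum (s := Finset.univ) fun a _ => h5 a
        rwa [Finset.sum_const, Finset.card_univ, nsmul_eq_mul] at this
      have h7 : c i - Dl C c ≤ S / n := by
        rw [le_div_iff₀ hn0]; linarith
      linarith
    have e4 : ∑ a ∈ C, (c a - S / n) * (x a - t) ≤ n * (Dl C c * B) := by
      have h8 : ∑ a ∈ C, (c a - S / n) * (x a - t) ≤ ∑ a ∈ C, Dl C c * B := by
        refine Finset.sum_le_sum fun a ha => ?_
        have h9 : 0 ≤ x a - t := by rw [ht]; exact (sub_pos.2 (h1 a ha)).le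
        have h10 : x a - t ≤ B := by rw [ht]; exact hB x hx a
        calc (c a - S / n) * (x a - t) ≤ Dl C c * (x a - t) :=
              mul_le_mul_of_nonneg_right (hci a ha) h9
          _ ≤ Dl C c * B := mul_le_mul_of_nonneg_left h10 hD0
      rw [Finset.sum_const, nsmul_eq_mul] at h8
      refine h8.trans (mul_le_mul_of_nonneg_right ?_ (by positivity))
      rw [hn]
      exact_mod_cast Finset.card_le_univ C
    have e5 : ∑ a ∈ C, (c a - S / n) * (x a - t) =
        ∑ a ∈ C, c a * (x a - t) + S / n * ((n + 1) * t) := by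
      have : ∑ a ∈ C, (c a - S / n) * (x a - t) =
          ∑ a ∈ C, c a * (x a - t) - S / n * ∑ a ∈ C, (x a - t) := by
        rw [Finset.mul_sum, ← Finset.sum_sub_distrib]
        refine Finset.sum_congr rfl fun a _ => ?_
        ring
      rw [this, e3]
      ring
    have e6 : S / n * (t - m) ≤ n * (Dl C c * B) := by
      refine le_trans ?_ e4
      rw [e5]
      rw [e1] at hp
      have : S / n * (t - m) = S * (-m / n) - t * S + S / n * ((n + 1) * t) := by
        field_simp
        ring
      rw [this]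
      linarith
    have hDpos : 0 < Dl C c := by
      refine lt_of_le_of_ne hD0 fun h11 => ?_
      have hconst := const_of_Dl hle hi0 hj0 h11.symm
      have hnn : 0 ≤ c j0 := by
        rw [← hconst i0]
        exact hc.pos h hx (h1 i0 hi0)
      have hpos : 0 < c j0 := by
        refine lt_of_le_of_ne hnn fun h12 => hc0 ?_
        ext a
        rw [hconst a, ← h12]; rfl
      have hSn : S = n * c j0 := by
        rw [hS, hn]
        rw [Finset.sum_congr rfl fun a _ => hconst a, Finset.sum_const, Finset.card_univ,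
          nsmul_eq_mul]
      rw [← h11, hSn, mul_div_cancel_left₀ _ hn0.ne', zero_mul, mul_zero, ht] at e6
      nlinarith
    rw [← hS]
    rcases le_or_gt S 0 with hSn | hSp
    · nlinarith
    · have h13 : S / n * δ ≤ n * (Dl C c * B) := by
        refine le_trans (mul_le_mul_of_nonneg_left ?_ (by positivity)) e6
        rw [ht]; linarith
      have h14 : S ≤ (n ^ 2 * B / δ) * Dl C c := by
        rw [div_mul_eq_mul_div, div_le_iff₀ hn0] at h13
        rw [div_mul_eq_mul_div, le_div_iff₀ hδ]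
        nlinarith
      have h15 : r * S ≤ r * ((n ^ 2 * B / δ) * Dl C c) := mul_le_mul_of_nonneg_left h14 hr0.le
      nlinarith
  · obtain ⟨h1, h2⟩ := hH
    have hle : ∀ i ∈ C, ∀ j, j ∉ C → c j ≤ c i := fun i hi j hj => hc.le h hx (by
      rw [h1 i hi]; exact h2 j hj)
    have := alg_low (C := Cᶜ) (c := -c) (i0 := j0) (j0 := i0) (η := r)
      (fun i hi j hj => by
        simp only [Pi.neg_apply, neg_le_neg_iff]
        exact hle j (by simpa using hj) i (by simpa using hi))
      (by simpa using hj0) (by simpa using hi0)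
      (fun i hi => by
        simp only [Pi.neg_apply]
        have := hc.neg h hx (h2 i (by simpa using hi))
        linarith)
      (by simpa using hc0) hr0 hr1
    rw [Dl_compl] at this
    simp only [Pi.neg_apply, Finset.sum_neg_distrib] at this
    linarith

theorem ill_neg {K : Set (α → ℝ)} {v x : α → ℝ} (h : Ill (-K) v (-x)) : Ill K (-v) x := by
  obtain ⟨ε, hε, h1⟩ := h
  refine ⟨ε, hε, ?_⟩
  have : -(interior K) = interior (-K) := by
    rw [← Set.image_neg_eq_neg, ← Set.image_neg_eq_neg]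
    exact (Homeomorph.neg _).image_interior K
  rw [← this, Set.mem_neg] at h1
  convert h1 using 1
  rw [smul_neg, neg_add, neg_neg]

theorem exists_eta (h : SBody K) {C : Finset α} (hC : C.Nonempty) (hC' : C ≠ Finset.univ) :
    ∃ η : ℝ, ∀ x ∈ K, Sep C x ∨ Low C x ∨ High C x → Ill K (wd C η) x := by
  by_cases hQ : ∃ x ∈ K, (∀ j, j ∉ C → x j = TT x) ∧ ∀ y ∈ K, TT x ≤ TT y
  · by_cases hP : ∃ x ∈ K, (∀ i ∈ C, x i = TT x) ∧ ∀ y ∈ K, TT y ≤ TT x
    · exfalso
      obtain ⟨x, hx, hx1, hx2⟩ := hQ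
      obtain ⟨z, hz, hz1, hz2⟩ := hP
      haveI : Nonempty α := ⟨hC.choose⟩
      have h0 := interior_subset (zero_int h)
      -- `TT z > 0`
      have hMpos : 0 < TT z := by
        have := ill_of_int (zero_int h) (fun _ => (-1 : ℝ))
        obtain ⟨ε, hε, h1⟩ := this
        refine lt_of_lt_of_le ?_ (hz2 _ (interior_subset h1))
        have hn0 : (0 : ℝ) < Fintype.card α := by exact_mod_cast Fintype.card_pos
        simp only [TT, Pi.add_apply, Pi.zero_apply, Pi.smul_apply, smul_eq_mul, zero_add,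
          Finset.sum_const, Finset.card_univ, nsmul_eq_mul]
        nlinarith
      have hmneg : TT x < 0 := by
        have := ill_of_int (zero_int h) (fun _ => (1 : ℝ))
        obtain ⟨ε, hε, h1⟩ := this
        refine lt_of_le_of_lt (hx2 _ (interior_subset h1)) ?_
        have hn0 : (0 : ℝ) < Fintype.card α := by exact_mod_cast Fintype.card_pos
        simp only [TT, Pi.add_apply, Pi.zero_apply, Pi.smul_apply, smul_eq_mul, zero_add,
          Finset.sum_const, Finset.card_univ, nsmul_eq_mul]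
        nlinarith
      -- coordinates
      have hup : ∀ y ∈ K, ∀ a, y a ≤ TT z := by
        intro y hy a
        rw [← TT_update y a]
        exact hz2 _ (h.swz a y hy)
      have hlo : ∀ y ∈ K, ∀ a, TT x ≤ y a := by
        intro y hy a
        rw [← TT_update y a]
        exact hx2 _ (h.swz a y hy)
      have e1 : TT z = -(C.card * TT z + ∑ j ∈ Cᶜ, z j) := by
        conv_lhs => rw [TT, ← Finset.sum_add_sum_compl C]
        rw [Finset.sum_congr rfl hz1, Finset.sum_const, nsmul_eq_mul]
      have e2 : TT x = -(∑ i ∈ C, x i + Cᶜ.card * TT x) := by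
        conv_lhs => rw [TT, ← Finset.sum_add_sum_compl C]
        rw [Finset.sum_congr rfl (fun j hj => hx1 j (Finset.mem_compl.1 hj)), Finset.sum_const,
          nsmul_eq_mul]
      have e3 : Cᶜ.card * TT x ≤ ∑ j ∈ Cᶜ, z j := by
        have := Finset.sum_le_sum (s := Cᶜ) fun j _ => hlo z hz j
        rwa [Finset.sum_const, nsmul_eq_mul] at this
      have e4 : ∑ i ∈ C, x i ≤ C.card * TT z := by
        have := Finset.sum_le_sum (s := C) fun j _ => hup x hx j
        rwa [Finset.sum_const, nsmul_eq_mul] at this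
      linarith
    · -- mirror
      have hQ' : ¬ ∃ x ∈ -K, (∀ j, j ∉ Cᶜ → x j = TT x) ∧ ∀ y ∈ -K, TT x ≤ TT y := by
        rintro ⟨x, hx, h1, h2⟩
        refine hP ⟨-x, hx, fun i hi => ?_, fun y hy => ?_⟩
        · rw [TT_neg, Pi.neg_apply, h1 i (by simpa using hi)]
        · have := h2 (-y) (by simpa using hy)
          rw [TT_neg] at this ⊢
          linarith
      obtain ⟨η, hη⟩ := exists_eta_aux h.neg (C := Cᶜ)
        (by
          rw [Finset.nonempty_iff_ne_empty]
          simpa using hC')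
        (by
          intro h1
          rw [Finset.compl_eq_univ_iff] at h1
          exact hC.ne_empty h1) hQ'
      refine ⟨-η, fun x hx ht => ?_⟩
      have h3 : Ill (-K) (wd Cᶜ η) (-x) := by
        refine hη (-x) (by simpa using hx) ?_
        rcases ht with ⟨h1, ⟨i, hi, h2⟩, ⟨j, hj, h3⟩⟩ | ⟨h1, h2⟩ | ⟨h1, h2⟩
        · left
          refine ⟨fun i hi j hj => ?_, ⟨j, by simpa using hj, ?_⟩, ⟨i, by simpa using hi, ?_⟩⟩
          · simp only [Pi.neg_apply, neg_lt_neg_iff]
            exact h1 j (by simpa using hj) i (by simpa using hi)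
          · rw [TT_neg, Pi.neg_apply]; linarith
          · rw [TT_neg, Pi.neg_apply]; linarith
        · right; right
          refine ⟨fun i hi => ?_, fun j hj => ?_⟩
          · rw [TT_neg, Pi.neg_apply, h2 i (by simpa using hi)]
          · rw [TT_neg, Pi.neg_apply]
            have := h1 j (by simpa using hj)
            linarith
        · right; left
          refine ⟨fun i hi => ?_, fun j hj => ?_⟩
          · rw [TT_neg, Pi.neg_apply]
            have := h2 i (by simpa using hi)
            linarith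
          · rw [TT_neg, Pi.neg_apply, h1 j (by simpa using hj)]
      have h4 := ill_neg h3
      rw [wd_compl, neg_neg] at h4
      exact h4
  · exact exists_eta_aux h hC hC' hQ

/-- Convex bodies with the symmetries of the simplex are covered by `2 ^ n` translates of their
interior. -/
theorem SBody.cov (h : SBody K) [Nonempty α] : Cov (2 ^ Fintype.card α) K := by
  classical
  have hex : ∀ C : Finset α, ∃ η : ℝ, C.Nonempty → C ≠ Finset.univ →
      ∀ x ∈ K, Sep C x ∨ Low C x ∨ High C x → Ill K (wd C η) x := by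
    intro C
    by_cases h1 : C.Nonempty ∧ C ≠ Finset.univ
    · obtain ⟨η, hη⟩ := exists_eta h h1.1 h1.2
      exact ⟨η, fun _ _ => hη⟩
    · exact ⟨0, fun h2 h3 => absurd ⟨h2, h3⟩ h1⟩
  choose η hη using hex
  have hmain := cov_of_ill h.conv h.comp
    (fun C : Finset α => if C = ∅ then wd C (-1) else if C = Finset.univ then wd C 1
      else wd C (η C)) ?_
  · rwa [Fintype.card_finset] at hmain
  intro x hx
  obtain ⟨C, hC⟩ : ∃ C : Finset α, C = Finset.univ.filter fun a => TT x < x a := ⟨_, rfl⟩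
  have hmem : ∀ a, a ∈ C ↔ TT x < x a := by intro a; rw [hC]; simp
  by_cases hCe : C = ∅
  · -- no coordinate is above
    have hle : ∀ a, x a ≤ TT x := by
      intro a
      by_contra hcon
      push Not at hcon
      have := (hmem a).2 hcon
      rw [hCe] at this
      exact absurd this (Finset.notMem_empty a)
    obtain ⟨D, hD⟩ : ∃ D : Finset α, D = Finset.univ.filter fun a => x a = TT x := ⟨_, rfl⟩
    have hmemD : ∀ a, a ∈ D ↔ x a = TT x := by intro a; rw [hD]; simp
    have hlt : ∀ a, a ∉ D → x a < TT x := fun a ha =>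
      lt_of_le_of_ne (hle a) fun h1 => ha ((hmemD a).2 h1)
    by_cases hDe : D = ∅
    · refine ⟨∅, ?_⟩
      simp only [if_true]
      refine ill_of_nrm h.conv h.int hx fun c hc0 hc => ?_
      have h1 : ∀ a, c a ≤ 0 := fun a => hc.neg h hx (hlt a (by rw [hDe]; exact Finset.notMem_empty a))
      have h2 : ∑ a, c a * wd ∅ (-1) a = ∑ a, c a := by
        refine Finset.sum_congr rfl fun a _ => ?_
        simp [wd]
      rw [h2]
      obtain ⟨a, ha⟩ : ∃ a, c a ≠ 0 := by
        by_contra hcon
        push Not at hcon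
        exact hc0 (funext hcon)
      exact Finset.sum_neg' (fun a _ => h1 a) ⟨a, Finset.mem_univ _, lt_of_le_of_ne (h1 a) ha⟩
    by_cases hDu : D = Finset.univ
    · -- `x = 0`
      have hall : ∀ a, x a = TT x := fun a => (hmemD a).1 (by rw [hDu]; exact Finset.mem_univ a)
      have h1 : TT x = - (Fintype.card α * TT x) := by
        conv_lhs => rw [TT, Finset.sum_congr rfl fun a _ => hall a]
        rw [Finset.sum_const, Finset.card_univ, nsmul_eq_mul]
      have hn0 : (0 : ℝ) < Fintype.card α := by exact_mod_cast Fintype.card_pos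
      have h2 : TT x = 0 := by
        have : (1 + (Fintype.card α : ℝ)) * TT x = 0 := by linarith
        rcases mul_eq_zero.1 this with h3 | h3
        · linarith
        · exact h3
      have h3 : x = 0 := by
        ext a
        rw [hall a, h2]; rfl
      refine ⟨∅, ?_⟩
      rw [h3]
      exact ill_of_int (zero_int h) _
    · refine ⟨D, ?_⟩
      simp only [hDe, hDu, if_false]
      exact hη D (Finset.nonempty_iff_ne_empty.2 hDe) hDu x hx
        (Or.inr (Or.inr ⟨fun i hi => (hmemD i).1 hi, hlt⟩))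
  by_cases hCu : C = Finset.univ
  · refine ⟨Finset.univ, ?_⟩
    have hne : (Finset.univ : Finset α) ≠ ∅ := Finset.univ_nonempty.ne_empty
    simp only [hne, if_false, if_true]
    refine ill_of_nrm h.conv h.int hx fun c hc0 hc => ?_
    have h1 : ∀ a, 0 ≤ c a := fun a => hc.pos h hx ((hmem a).1 (by rw [hCu]; exact Finset.mem_univ a))
    have h2 : ∑ a, c a * wd Finset.univ 1 a = - ∑ a, c a := by
      rw [← Finset.sum_neg_distrib]
      refine Finset.sum_congr rfl fun a _ => ?_
      simp [wd]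
    rw [h2, neg_lt_zero]
    obtain ⟨a, ha⟩ : ∃ a, c a ≠ 0 := by
      by_contra hcon
      push Not at hcon
      exact hc0 (funext hcon)
    exact Finset.sum_pos' (fun a _ => h1 a) ⟨a, Finset.mem_univ _, lt_of_le_of_ne (h1 a) ha.symm⟩
  · refine ⟨C, ?_⟩
    simp only [hCe, hCu, if_false]
    refine hη C (Finset.nonempty_iff_ne_empty.2 hCe) hCu x hx ?_
    have hge : ∀ j, j ∉ C → x j ≤ TT x := fun j hj => by
      by_contra hcon
      push Not at hcon
      exact hj ((hmem j).2 hcon)
    by_cases hex : ∃ j, j ∉ C ∧ x j < TT x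
    · left
      obtain ⟨i, hi⟩ := Finset.nonempty_iff_ne_empty.2 hCe
      exact ⟨fun i hi j hj => (hge j hj).trans_lt ((hmem i).1 hi), ⟨i, hi, (hmem i).1 hi⟩, hex⟩
    · right; left
      push Not at hex
      exact ⟨fun i hi => (hmem i).1 hi, fun j hj => le_antisymm (hge j hj) (hex j hj)⟩

end Pool.Agent.W396.Il
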