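import Mathlib

set_option autoImplicit false

/-!
Illumination of a convex body by finitely many directions gives a covering by translates of the
interior; a criterion for illumination by supporting functionals.
-/

namespace Pool.Agent.W396.Il

open Set

variable {E : Type*} [NormedAddCommGroup E] [NormedSpace ℝ E]

/-- `K` is covered by at most `N` translates of its interior. -/
def Cov (N : ℕ) (K : Set E) : Prop :=
  ∃ T : Finset E, T.card ≤ N ∧ K ⊆ ⋃ t ∈ T, (fun x => t + x) '' interior K

/-- From a point of `K` one can go to an interior point in the direction `v`. -/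
def Ill (K : Set E) (v x : E) : Prop := ∃ ε : ℝ, 0 < ε ∧ x + ε • v ∈ interior K

theorem Ill.shrink {K : Set E} (hK : Convex ℝ K) {v x : E} (hx : x ∈ K) {ε : ℝ} (_hε : 0 < ε)
    (h : x + ε • v ∈ interior K) {δ : ℝ} (hδ : 0 < δ) (hδε : δ ≤ ε) :
    x + δ • v ∈ interior K := by
  have h1 := hK.combo_self_interior_mem_interior hx h (a := 1 - δ / ε) (b := δ / ε)
    (by rw [sub_nonneg, div_le_one (by linarith)]; exact hδε) (by positivity) (by ring)
  have h2 : (1 - δ / ε) • x + (δ / ε) • (x + ε • v) = x + δ • v := by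
    rw [smul_add, ← add_assoc, ← add_smul, sub_add_cancel, one_smul, smul_smul,
      div_mul_cancel₀ _ (by linarith : ε ≠ 0)]
  rwa [h2] at h1

/-- Finitely many illuminating directions. -/
theorem cov_of_ill {K : Set E} (hK : Convex ℝ K) (hKc : IsCompact K) {ι : Type*} [Fintype ι]
    (v : ι → E) (h : ∀ x ∈ K, ∃ i, Ill K (v i) x) : Cov (Fintype.card ι) K := by
  classical
  -- open cover indexed by direction and positive number
  have hcov : K ⊆ ⋃ p : ι × {ε : ℝ // 0 < ε}, (fun x => x + p.2.1 • v p.1) ⁻¹' interior K := by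
    intro x hx
    obtain ⟨i, ε, hε, hi⟩ := h x hx
    exact mem_iUnion.2 ⟨(i, ⟨ε, hε⟩), hi⟩
  obtain ⟨t, ht⟩ := hKc.elim_finite_subcover _
    (fun p : ι × {ε : ℝ // 0 < ε} => isOpen_interior.preimage (by fun_prop)) hcov
  obtain ⟨δ, hδ, hδt⟩ : ∃ δ : ℝ, 0 < δ ∧ ∀ p ∈ t, δ ≤ p.2.1 := by
    clear ht
    induction t using Finset.induction_on with
    | empty => exact ⟨1, one_pos, by simp⟩
    | insert p s hp ih =>
      obtain ⟨δ, hδ, hs⟩ := ih
      refine ⟨min δ p.2.1, lt_min hδ p.2.2, ?_⟩
      intro q hq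
      rcases Finset.mem_insert.1 hq with rfl | hq
      · exact min_le_right _ _
      · exact (min_le_left _ _).trans (hs q hq)
  refine ⟨Finset.univ.image (fun i => -(δ • v i)), Finset.card_image_le.trans (by simp), ?_⟩
  intro x hx
  obtain ⟨p, hp, hpx⟩ := mem_iUnion₂.1 (ht hx)
  have h1 := Ill.shrink hK hx p.2.2 hpx hδ (hδt p hp)
  refine mem_iUnion₂.2 ⟨-(δ • v p.1), Finset.mem_image_of_mem _ (Finset.mem_univ _),
    x + δ • v p.1, h1, ?_⟩
  simp

/-- Criterion for illumination. -/
theorem ill_of_normal {K : Set E} (hK : Convex ℝ K) (hKi : (interior K).Nonempty) {x v : E}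
    (hx : x ∈ K)
    (h : ∀ f : E →L[ℝ] ℝ, f ≠ 0 → (∀ y ∈ K, f y ≤ f x) → f v < 0) : Ill K v x := by
  by_contra hcon
  have hdisj : Disjoint (interior K) ((fun ε : ℝ => x + ε • v) '' Ioi 0) := by
    rw [Set.disjoint_left]
    rintro y hy ⟨ε, hε, rfl⟩
    exact hcon ⟨ε, hε, hy⟩
  have hconv : Convex ℝ ((fun ε : ℝ => x + ε • v) '' Ioi 0) := by
    have : (fun ε : ℝ => x + ε • v) '' Ioi 0 = (fun y => x + y) '' ((LinearMap.toSpanSingleton ℝ E v) '' Ioi 0) := by
      rw [image_image]
      rfl
    rw [this]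
    exact ((convex_Ioi 0).linear_image _).translate x
  obtain ⟨f, u, h1, h2⟩ := geometric_hahn_banach_open hK.interior isOpen_interior hconv hdisj
  have h3 : ∀ ε : ℝ, 0 < ε → u ≤ f x + ε * f v := by
    intro ε hε
    have := h2 _ (mem_image_of_mem _ (show ε ∈ Ioi (0:ℝ) from hε))
    rwa [map_add, map_smul, smul_eq_mul] at this
  obtain ⟨a, ha⟩ := hKi
  have hle : ∀ y ∈ K, f y ≤ u := by
    intro y hy
    by_contra hcy
    push Not at hcy
    -- a combination of y and a
    have hfa := h1 a ha
    obtain ⟨t, ht0, ht1, ht2⟩ : ∃ t : ℝ, 0 < t ∧ t < 1 ∧ u ≤ (1 - t) * f y + t * f a := by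
      refine ⟨(f y - u) / (2 * (f y - f a)), by
        apply div_pos <;> linarith, ?_, ?_⟩
      · rw [div_lt_one (by linarith)]; linarith
      · have h5 : (f y - u) / (2 * (f y - f a)) * (f y - f a) = (f y - u) / 2 := by
          have : f y - f a ≠ 0 := by linarith
          field_simp
        nlinarith
    have h4 := hK.combo_self_interior_mem_interior hy ha (a := 1 - t) (b := t) (by linarith) ht0
      (by ring)
    have h5 := h1 _ h4
    rw [map_add, map_smul, map_smul, smul_eq_mul, smul_eq_mul] at h5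
    linarith
  have hux : u ≤ f x := by
    by_contra hcx
    push Not at hcx
    rcases le_or_gt (f v) 0 with hv | hv
    · have := h3 1 one_pos
      linarith
    · have := h3 ((u - f x) / (2 * f v)) (by apply div_pos <;> linarith)
      have h6 : (u - f x) / (2 * f v) * f v = (u - f x) / 2 := by field_simp
      linarith
  have hfne : f ≠ 0 := by
    rintro rfl
    have := h1 a ha
    simp at this hux
    linarith
  have h7 := h f hfne (fun y hy => (hle y hy).trans hux)
  have h8 := h3 1 one_pos
  have h9 := hle x hx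
  linarith

end Pool.Agent.W396.Il
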