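import Pool.Agent.W396.Il.Cox6

set_option autoImplicit false

/-!
Simple systems of finite root systems (unit roots).
-/

namespace Pool.Agent.W396.Il.Ch

open Finset Cox

variable {E : Type*} [NormedAddCommGroup E] [InnerProductSpace ℝ E]

/-- a finite set of unit vectors, stable under its reflections -/
structure RS (R : Finset E) : Prop where
  unit : ∀ r ∈ R, inner ℝ r r = (1 : ℝ)
  st : ∀ r ∈ R, ∀ x ∈ R, x - (2 * inner ℝ r x) • r ∈ R

theorem RS.neg {R : Finset E} (h : RS R) {r : E} (hr : r ∈ R) : -r ∈ R := by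
  have := h.st r hr r hr
  rw [h.unit r hr] at this
  convert this using 1
  module

/-- nonnegative combinations -/
def Cone (D : Finset E) (x : E) : Prop :=
  ∃ c : E → ℝ, (∀ d ∈ D, 0 ≤ c d) ∧ x = ∑ d ∈ D, c d • d

theorem cone_self {D : Finset E} {x : E} (hx : x ∈ D) : Cone D x := by
  classical
  refine ⟨fun d => if d = x then 1 else 0, fun d _ => ?_, ?_⟩
  · show (0 : ℝ) ≤ if d = x then 1 else 0
    split_ifs <;> norm_num
  simp only [ite_smul, one_smul, zero_smul]
  rw [Finset.sum_ite_eq' D x, if_pos hx]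

theorem Cone.trans {D D' : Finset E} {x : E} (h : ∀ d ∈ D, Cone D' d) (hx : Cone D x) :
    Cone D' x := by
  classical
  obtain ⟨c, hc, hx⟩ := hx
  have h' : ∀ d : E, ∃ e : E → ℝ, d ∈ D → (∀ d' ∈ D', 0 ≤ e d') ∧ d = ∑ d' ∈ D', e d' • d' := by
    intro d
    by_cases hd : d ∈ D
    · obtain ⟨e, he⟩ := h d hd
      exact ⟨e, fun _ => he⟩
    · exact ⟨fun _ => 0, fun h => absurd h hd⟩
  choose e he using h'
  refine ⟨fun d' => ∑ d ∈ D, c d * e d d', fun d' hd' =>
    Finset.sum_nonneg fun d hd => mul_nonneg (hc d hd) ((he d hd).1 d' hd'), ?_⟩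
  rw [hx]
  calc ∑ d ∈ D, c d • d = ∑ d ∈ D, c d • ∑ d' ∈ D', e d d' • d' :=
        Finset.sum_congr rfl fun d hd => by rw [← (he d hd).2]
    _ = ∑ d ∈ D, ∑ d' ∈ D', (c d * e d d') • d' := by
        refine Finset.sum_congr rfl fun d _ => ?_
        rw [Finset.smul_sum]
        refine Finset.sum_congr rfl fun d' _ => ?_
        rw [smul_smul]
    _ = ∑ d' ∈ D', ∑ d ∈ D, (c d * e d d') • d' := Finset.sum_comm
    _ = _ := by
        refine Finset.sum_congr rfl fun d' _ => ?_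
        rw [Finset.sum_smul]

/-- a simple system with all its properties -/
structure Simple (R : Finset E) (f : E →ₗ[ℝ] ℝ) (D : Finset E) : Prop where
  sub : D ⊆ R
  pos : ∀ d ∈ D, 0 < f d
  cone : ∀ r ∈ R, 0 < f r → Cone D r
  not : ∀ d ∈ D, ∀ c : E → ℝ, (∀ x ∈ D, 0 ≤ c x) → d = ∑ x ∈ D, c x • x → ∀ a ∈ D, a ≠ d → c a = 0

theorem exists_simple {R : Finset E} {f : E →ₗ[ℝ] ℝ} (hf : ∀ r ∈ R, f r ≠ 0) :
    ∃ D, Simple R f D := by
  classical
  obtain ⟨P, hP⟩ : ∃ P : Finset E, P = R.filter fun r => 0 < f r := ⟨_, rfl⟩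
  have hPm : ∀ r, r ∈ P ↔ r ∈ R ∧ 0 < f r := by intro r; rw [hP]; simp
  obtain ⟨D, hD, hmin⟩ := Finset.exists_min_image (P.powerset.filter fun D => ∀ x ∈ P, Cone D x)
    Finset.card ⟨P, by
      rw [Finset.mem_filter, Finset.mem_powerset]
      exact ⟨subset_rfl, fun x hx => cone_self hx⟩⟩
  rw [Finset.mem_filter, Finset.mem_powerset] at hD
  obtain ⟨hDP, hDc⟩ := hD
  have hpos : ∀ d ∈ D, 0 < f d := fun d hd => ((hPm d).1 (hDP hd)).2
  have hnot : ∀ d ∈ D, ¬ Cone (D.erase d) d := by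
    intro d hd hc
    have h1 := hmin (D.erase d) (by
      rw [Finset.mem_filter, Finset.mem_powerset]
      refine ⟨(Finset.erase_subset _ _).trans hDP, fun x hx => Cone.trans ?_ (hDc x hx)⟩
      intro y hy
      by_cases hyd : y = d
      · rw [hyd]; exact hc
      · exact cone_self (Finset.mem_erase.2 ⟨hyd, hy⟩))
    have h2 := Finset.card_erase_lt_of_mem hd
    omega
  refine ⟨D, fun x hx => ((hPm x).1 (hDP hx)).1, hpos,
    fun r hr hfr => hDc r ((hPm r).2 ⟨hr, hfr⟩), ?_⟩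
  intro d hd c hc hdc a ha had
  rw [← Finset.add_sum_erase _ _ hd] at hdc
  have h1 : 1 ≤ c d := by
    by_contra hlt
    push Not at hlt
    apply hnot d hd
    refine ⟨fun x => (1 - c d)⁻¹ * c x, fun x hx =>
      mul_nonneg (inv_nonneg.2 (by linarith)) (hc x (Finset.mem_of_mem_erase hx)), ?_⟩
    have h2 : (1 - c d) • d = ∑ x ∈ D.erase d, c x • x := by
      rw [sub_smul, one_smul]
      exact sub_eq_of_eq_add' hdc
    calc d = (1 - c d)⁻¹ • ((1 - c d) • d) := by
          rw [smul_smul, inv_mul_cancel₀ (by linarith), one_smul]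
      _ = _ := by
          rw [h2, Finset.smul_sum]
          refine Finset.sum_congr rfl fun x _ => ?_
          rw [smul_smul]
  have h3 := congrArg f hdc
  rw [map_add, map_smul, map_sum, smul_eq_mul] at h3
  have h4 : ∑ x ∈ D.erase d, f (c x • x) ≤ 0 := by
    have := hpos d hd
    nlinarith
  have h5 : ∀ x ∈ D.erase d, 0 ≤ f (c x • x) := fun x hx => by
    rw [map_smul, smul_eq_mul]
    exact mul_nonneg (hc x (Finset.mem_of_mem_erase hx)) (hpos x (Finset.mem_of_mem_erase hx)).le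
  have h6 : c a * f a ≤ 0 := by
    have := Finset.single_le_sum h5 (Finset.mem_erase.2 ⟨had, ha⟩)
    rw [map_smul, smul_eq_mul] at this
    linarith
  have h7 := hpos a ha
  have h8 := hc a ha
  rcases h8.eq_or_lt with h9 | h9
  · exact h9.symm
  · nlinarith [mul_pos h9 h7]

theorem Simple.obtuse {R : Finset E} (hR : RS R) {f : E →ₗ[ℝ] ℝ} (hf : ∀ r ∈ R, f r ≠ 0)
    {D : Finset E} (h : Simple R f D) {a b : E} (ha : a ∈ D) (hb : b ∈ D) (hab : a ≠ b) :
    inner ℝ a b ≤ (0 : ℝ) := by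
  classical
  by_contra hcon
  push Not at hcon
  obtain ⟨t, ht⟩ : ∃ t : ℝ, t = inner ℝ a b := ⟨_, rfl⟩
  rw [← ht] at hcon
  have h1 := hR.st a (h.sub ha) b (h.sub hb)
  rw [← ht] at h1
  obtain ⟨g, hg⟩ : ∃ g, g = b - (2 * t) • a := ⟨_, rfl⟩
  rw [← hg] at h1
  rcases lt_or_gt_of_ne (hf g h1) with h2 | h2
  · -- `-g` is positive
    obtain ⟨c, hc, hgc⟩ := h.cone (-g) (hR.neg h1) (by rw [map_neg]; linarith)
    have h3 : a = ∑ x ∈ D, ((2 * t)⁻¹ * (c x + if x = b then 1 else 0)) • x := by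
      have h4 : (2 * t) • a = ∑ x ∈ D, (c x + if x = b then 1 else 0) • x := by
        simp only [add_smul, ite_smul, one_smul, zero_smul]
        rw [Finset.sum_add_distrib, ← hgc, Finset.sum_ite_eq' D b, if_pos hb, hg]
        module
      calc a = (2 * t)⁻¹ • ((2 * t) • a) := by
            rw [smul_smul, inv_mul_cancel₀ (by linarith), one_smul]
        _ = _ := by
            rw [h4, Finset.smul_sum]
            refine Finset.sum_congr rfl fun x _ => ?_
            rw [smul_smul]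
    have h5 := h.not a ha (fun x => (2 * t)⁻¹ * (c x + if x = b then 1 else 0)) ?_ h3 b hb hab.symm
    · simp only [if_true] at h5
      have h6 := hc b hb
      have h7 : 0 < (2 * t)⁻¹ * (c b + 1) := mul_pos (by positivity) (by linarith)
      linarith
    · intro x hx
      have := hc x hx
      refine mul_nonneg (by positivity) ?_
      split_ifs <;> linarith
  · obtain ⟨c, hc, hgc⟩ := h.cone g h1 h2
    have h3 : b = ∑ x ∈ D, (c x + if x = a then 2 * t else 0) • x := by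
      simp only [add_smul, ite_smul, zero_smul]
      rw [Finset.sum_add_distrib, ← hgc, Finset.sum_ite_eq' D a, if_pos ha, hg]
      module
    have h5 := h.not b hb (fun x => c x + if x = a then 2 * t else 0) ?_ h3 a ha hab
    · simp only [if_true] at h5
      have h6 := hc a ha
      linarith
    · intro x hx
      have := hc x hx
      show (0 : ℝ) ≤ c x + if x = a then 2 * t else 0
      split_ifs <;> linarith

theorem posdef_inner : (LinearMap.BilinMap.toQuadraticMap (innerₗ E)).PosDef := by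
  intro x hx
  rw [LinearMap.BilinMap.toQuadraticMap_apply, innerₗ_apply_apply]
  exact real_inner_self_pos.2 hx

theorem Simple.li {R : Finset E} (hR : RS R) {f : E →ₗ[ℝ] ℝ} (hf : ∀ r ∈ R, f r ≠ 0)
    {D : Finset E} (h : Simple R f D) : LinearIndependent ℝ (fun x : {x // x ∈ D} => (x : E)) := by
  refine LinearMap.BilinForm.linearIndependent_of_pairwise_le_zero (innerₗ E) posdef_inner f _
    (fun x => h.pos _ x.2) ?_
  intro x y hxy
  rw [innerₗ_apply_apply]
  exact h.obtuse hR hf x.2 y.2 fun h1 => hxy (Subtype.ext h1)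

theorem Simple.basis {R : Finset E} (hR : RS R) {f : E →ₗ[ℝ] ℝ} (hf : ∀ r ∈ R, f r ≠ 0)
    (hspan : Submodule.span ℝ (R : Set E) = ⊤)
    {D : Finset E} (h : Simple R f D) :
    ∃ B : Module.Basis {x // x ∈ D} ℝ E, (∀ x, B x = (x : E)) ∧
      ∀ r ∈ R, (∀ x, 0 ≤ B.repr r x) ∨ ∀ x, B.repr r x ≤ 0 := by
  classical
  have hcone : ∀ x, Cone D x → x ∈ Submodule.span ℝ (Set.range fun x : {x // x ∈ D} => (x : E)) := by
    rintro x ⟨c, -, rfl⟩
    refine Submodule.sum_mem _ fun d hd => Submodule.smul_mem _ _ (Submodule.subset_span ⟨⟨d, hd⟩, rfl⟩)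
  have hsp : ⊤ ≤ Submodule.span ℝ (Set.range fun x : {x // x ∈ D} => (x : E)) := by
    rw [← hspan, Submodule.span_le]
    intro r hr
    rcases lt_or_gt_of_ne (hf r hr) with h1 | h1
    · have := hcone _ (h.cone (-r) (hR.neg hr) (by rw [map_neg]; linarith))
      have h2 := Submodule.neg_mem _ this
      rwa [neg_neg] at h2
    · exact hcone _ (h.cone r hr h1)
  obtain ⟨B, hB⟩ : ∃ B : Module.Basis {x // x ∈ D} ℝ E, ∀ x, B x = (x : E) :=
    ⟨Module.Basis.mk (h.li hR hf) hsp, fun x => by simp⟩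
  refine ⟨B, hB, ?_⟩
  have hc : ∀ x, Cone D x → ∀ i, 0 ≤ B.repr x i := by
    rintro x ⟨c, hc, rfl⟩ i
    have h1 : ∑ d ∈ D, c d • d = ∑ d : {x // x ∈ D}, c d • B d := by
      rw [← Finset.sum_coe_sort D]
      exact Finset.sum_congr rfl fun d _ => by rw [hB]
    rw [h1, map_sum]
    simp only [map_smul, B.repr_self]
    rw [Finsupp.finsetSum_apply]
    refine Finset.sum_nonneg fun d _ => ?_
    rw [Finsupp.smul_apply, Finsupp.single_apply, smul_eq_mul]
    refine mul_nonneg (hc d d.2) ?_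
    split_ifs <;> norm_num
  intro r hr
  rcases lt_or_gt_of_ne (hf r hr) with h1 | h1
  · right
    intro x
    have := hc _ (h.cone (-r) (hR.neg hr) (by rw [map_neg]; linarith)) x
    rw [map_neg, Finsupp.neg_apply] at this
    linarith
  · left
    exact hc _ (h.cone r hr h1)

section B

variable {R : Finset E} {D : Finset E} {B : Module.Basis {x // x ∈ D} ℝ E}

/-- the roots in the plane of two simple roots -/
theorem pair_sign (hB : ∀ x, B x = (x : E))
    (hs : ∀ r ∈ R, (∀ x, 0 ≤ B.repr r x) ∨ ∀ x, B.repr r x ≤ 0) {a b : {x // x ∈ D}}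
    (hab : a ≠ b) {x y : ℝ} (h : x • (a : E) + y • (b : E) ∈ R) : (0 ≤ x ∧ 0 ≤ y) ∨
      (x ≤ 0 ∧ y ≤ 0) := by
  have e1 : B.repr (x • (a : E) + y • (b : E)) a = x := by
    rw [← hB a, ← hB b, map_add, map_smul, map_smul, B.repr_self, B.repr_self]
    simp [Finsupp.single_apply, hab.symm]
  have e2 : B.repr (x • (a : E) + y • (b : E)) b = y := by
    rw [← hB a, ← hB b, map_add, map_smul, map_smul, B.repr_self, B.repr_self]
    simp [Finsupp.single_apply, hab]
  rcases hs _ h with h1 | h1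
  · left
    have h2 := h1 a
    have h3 := h1 b
    rw [e1] at h2
    rw [e2] at h3
    exact ⟨h2, h3⟩
  · right
    have h2 := h1 a
    have h3 := h1 b
    rw [e1] at h2
    rw [e2] at h3
    exact ⟨h2, h3⟩

/-- the possible angles -/
theorem angles (hR : RS R) (hsub : D ⊆ R) (hB : ∀ x, B x = (x : E))
    (hs : ∀ r ∈ R, (∀ x, 0 ≤ B.repr r x) ∨ ∀ x, B.repr r x ≤ 0) {a b : {x // x ∈ D}}
    (hab : a ≠ b) (hle : inner ℝ (a : E) (b : E) ≤ (0 : ℝ)) :
    inner ℝ (a : E) (b : E) = (0 : ℝ) ∨ inner ℝ (a : E) (b : E) = -(1 / 2 : ℝ) ∨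
    inner ℝ (a : E) (b : E) = -(√2 / 2 : ℝ) ∨ inner ℝ (a : E) (b : E) = -((1 + √5) / 4 : ℝ) ∨
    inner ℝ (a : E) (b : E) ≤ -(√3 / 2 : ℝ) := by
  obtain ⟨t, ht⟩ : ∃ t : ℝ, t = - (2 * inner ℝ (a : E) (b : E)) := ⟨_, rfl⟩
  have hg : inner ℝ (a : E) (b : E) = - (t / 2) := by rw [ht]; ring
  have hg' : inner ℝ (b : E) (a : E) = - (t / 2) := by rw [real_inner_comm]; exact hg
  have ua : inner ℝ (a : E) (a : E) = (1 : ℝ) := hR.unit _ (hsub a.2)
  have ub : inner ℝ (b : E) (b : E) = (1 : ℝ) := hR.unit _ (hsub b.2)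
  -- the reflections in the plane
  have sa : ∀ x y : ℝ, x • (a : E) + y • (b : E) ∈ R →
      (-x + t * y) • (a : E) + y • (b : E) ∈ R := by
    intro x y h
    have := hR.st _ (hsub a.2) _ h
    rw [inner_add_right, inner_smul_right, inner_smul_right, ua, hg] at this
    convert this using 1
    module
  have sb : ∀ x y : ℝ, x • (a : E) + y • (b : E) ∈ R →
      x • (a : E) + (-y + t * x) • (b : E) ∈ R := by
    intro x y h
    have := hR.st _ (hsub b.2) _ h
    rw [inner_add_right, inner_smul_right, inner_smul_right, ub, hg'] at this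
    convert this using 1
    module
  have r0 : (0 : ℝ) • (a : E) + (1 : ℝ) • (b : E) ∈ R := by
    rw [zero_smul, zero_add, one_smul]; exact hsub b.2
  have r1 := sa _ _ r0
  have r2 := sb _ _ r1
  have r3 := sa _ _ r2
  have r4 := sb _ _ r3
  have r5 := sa _ _ r4
  have p2 := pair_sign hB hs hab r2
  have p3 := pair_sign hB hs hab r3
  have p4 := pair_sign hB hs hab r4
  have p5 := pair_sign hB hs hab r5
  have ht0 : 0 ≤ t := by rw [ht]; linarith
  rcases ht0.eq_or_lt with h0 | h0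
  · left
    rw [hg, ← h0]; norm_num
  right
  -- `t ≥ 1`
  have q1 : 1 ≤ t := by
    rcases p2 with ⟨_, h⟩ | ⟨h, _⟩
    · nlinarith
    · nlinarith
  rcases q1.eq_or_lt with h1 | h1
  · left
    rw [hg, ← h1]
  right
  have hs2 := sqrt2_mul
  have hs2' := sqrt2_pos
  have q2 : 2 ≤ t ^ 2 := by
    rcases p3 with ⟨h, _⟩ | ⟨_, h⟩
    · by_contra hcon
      push Not at hcon
      have : 0 ≤ t * (t ^ 2 - 2) := by nlinarith
      nlinarith
    · nlinarith
  have q2' : √2 ≤ t := by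
    by_contra hcon
    push Not at hcon
    nlinarith
  rcases q2'.eq_or_lt with h2 | h2
  · left
    rw [hg, ← h2]
  right
  have q3 : 2 < t ^ 2 := by nlinarith
  have hs5 : √5 * √5 = (5 : ℝ) := Real.mul_self_sqrt (by norm_num)
  have hs5' : (0 : ℝ) < √5 := Real.sqrt_pos.2 (by norm_num)
  have q4 : 0 ≤ t ^ 4 - 3 * t ^ 2 + 1 := by
    rcases p4 with ⟨_, h⟩ | ⟨h, _⟩
    · nlinarith
    · exfalso
      have : 0 < t * (t ^ 2 - 2) := mul_pos h0 (by linarith)
      nlinarith
  have q5 : (1 + √5) / 2 ≤ t := by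
    by_contra hcon
    push Not at hcon
    -- `t ^ 2 - t - 1 < 0`
    have h3 : t ^ 2 - t - 1 < 0 := by
      have h4 : t ^ 2 - t - 1 = (t - (1 + √5) / 2) * (t - (1 - √5) / 2) := by nlinarith
      rw [h4]
      exact mul_neg_of_neg_of_pos (by linarith) (by linarith)
    have h5 : t ^ 4 - 3 * t ^ 2 + 1 = (t ^ 2 - t - 1) * (t ^ 2 + t - 1) := by ring
    have h6 : 0 < t ^ 2 + t - 1 := by nlinarith
    nlinarith [mul_pos (neg_pos.2 h3) h6]
  rcases q5.eq_or_lt with h3 | h3
  · left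
    rw [hg, ← h3]; ring
  right
  have q6 : 0 < t ^ 4 - 3 * t ^ 2 + 1 := by
    have h5 : t ^ 4 - 3 * t ^ 2 + 1 = (t ^ 2 - t - 1) * (t ^ 2 + t - 1) := by ring
    have h4 : t ^ 2 - t - 1 = (t - (1 + √5) / 2) * (t - (1 - √5) / 2) := by nlinarith
    rw [h5, h4]
    exact mul_pos (mul_pos (by linarith) (by linarith)) (by nlinarith)
  have q7 : 0 ≤ t ^ 5 - 4 * t ^ 3 + 3 * t := by
    rcases p5 with ⟨h, _⟩ | ⟨_, h⟩
    · nlinarith
    · exfalso
      nlinarith
  have q8 : 3 ≤ t ^ 2 := by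
    by_contra hcon
    push Not at hcon
    have h5 : t ^ 5 - 4 * t ^ 3 + 3 * t = t * ((t ^ 2 - 1) * (t ^ 2 - 3)) := by ring
    have h6 : 0 < t * ((t ^ 2 - 1) * (3 - t ^ 2)) :=
      mul_pos h0 (mul_pos (by linarith) (by linarith))
    nlinarith
  have hs3 : √3 * √3 = (3 : ℝ) := Real.mul_self_sqrt (by norm_num)
  have hs3' : (0 : ℝ) < √3 := Real.sqrt_pos.2 (by norm_num)
  have q9 : √3 ≤ t := by
    by_contra hcon
    push Not at hcon
    nlinarith
  rw [hg]
  linarith

/-- positive roots with coordinates on both sides of an orthogonal splitting do not exist -/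
theorem no_mixed_aux (hR : RS R) (hsub : D ⊆ R) (hB : ∀ x, B x = (x : E))
    (hs : ∀ r ∈ R, (∀ x, 0 ≤ B.repr r x) ∨ ∀ x, B.repr r x ≤ 0) (A : {x // x ∈ D} → Prop)
    (hA : ∀ a b, A a → ¬ A b → inner ℝ (a : E) (b : E) = (0 : ℝ)) {r : E} (hr : r ∈ R)
    (h0 : ∀ x, 0 ≤ B.repr r x) {d : {x // x ∈ D}} (hd : A d) (hrd : 0 < inner ℝ (d : E) r)
    {b : {x // x ∈ D}} (hb : ¬ A b) (hrb : 0 < B.repr r b) :
    ∃ r' ∈ R, (∀ x, 0 ≤ B.repr r' x) ∧ (∃ a, A a ∧ 0 < B.repr r' a) ∧ (∃ b, ¬ A b ∧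
      0 < B.repr r' b) ∧ ∑ x, B.repr r' x < ∑ x, B.repr r x := by
  classical
  obtain ⟨r', hr'⟩ : ∃ r', r' = r - (2 * inner ℝ (d : E) r) • (d : E) := ⟨_, rfl⟩
  have h1 : r' ∈ R := hr' ▸ hR.st _ (hsub d.2) _ hr
  have hc : ∀ x, B.repr r' x = B.repr r x - if x = d then 2 * inner ℝ (d : E) r else 0 := by
    intro x
    rw [hr', map_sub, map_smul, ← hB d, B.repr_self, Finsupp.sub_apply, Finsupp.smul_apply,
      Finsupp.single_apply, smul_eq_mul]
    by_cases hx : x = d
    · rw [if_pos hx, if_pos hx.symm, mul_one]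
    · rw [if_neg hx, if_neg (fun h => hx h.symm), mul_zero]
  have hbd : b ≠ d := by rintro rfl; exact hb hd
  have hcb : B.repr r' b = B.repr r b := by rw [hc, if_neg hbd, sub_zero]
  have h2 : ∀ x, 0 ≤ B.repr r' x := by
    rcases hs r' h1 with h | h
    · exact h
    · have := h b
      rw [hcb] at this
      linarith
  refine ⟨r', h1, h2, ?_, ⟨b, hb, by rw [hcb]; exact hrb⟩, ?_⟩
  · by_contra hcon
    push Not at hcon
    have h3 : ∀ a, A a → a ≠ d → B.repr r a = 0 := by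
      intro a ha had
      have := hcon a ha
      rw [hc, if_neg had, sub_zero] at this
      exact le_antisymm this (h0 a)
    have h4 : B.repr r d = 2 * inner ℝ (d : E) r := by
      have h5 := hcon d hd
      have h6 := h2 d
      rw [hc, if_pos rfl] at h5 h6
      linarith
    have h7 : inner ℝ (d : E) r = B.repr r d := by
      conv_lhs => rw [← B.sum_repr r]
      rw [inner_sum, Finset.sum_eq_single d]
      · rw [inner_smul_right, hB, hR.unit _ (hsub d.2), mul_one]
      · intro x _ hxd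
        rw [inner_smul_right, hB]
        by_cases hx : A x
        · rw [h3 x hx hxd, zero_mul]
        · rw [hA d x hd hx, mul_zero]
      · intro h; exact absurd (Finset.mem_univ d) h
    linarith
  · simp only [hc, Finset.sum_sub_distrib]
    rw [Finset.sum_ite_eq' Finset.univ d, if_pos (Finset.mem_univ _)]
    linarith

theorem no_mixed (hR : RS R) (hsub : D ⊆ R) (hB : ∀ x, B x = (x : E))
    (hs : ∀ r ∈ R, (∀ x, 0 ≤ B.repr r x) ∨ ∀ x, B.repr r x ≤ 0) (A : {x // x ∈ D} → Prop)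
    (hA : ∀ a b, A a → ¬ A b → inner ℝ (a : E) (b : E) = (0 : ℝ)) {r : E} (hr : r ∈ R)
    (h0 : ∀ x, 0 ≤ B.repr r x) (h1 : ∃ a, A a ∧ 0 < B.repr r a)
    (h2 : ∃ b, ¬ A b ∧ 0 < B.repr r b) : False := by
  classical
  obtain ⟨P, hP⟩ : ∃ P : Finset E, P = R.filter fun r => (∀ x, 0 ≤ B.repr r x) ∧
    (∃ a, A a ∧ 0 < B.repr r a) ∧ (∃ b, ¬ A b ∧ 0 < B.repr r b) := ⟨_, rfl⟩
  have hPm : ∀ r, r ∈ P ↔ r ∈ R ∧ (∀ x, 0 ≤ B.repr r x) ∧
    (∃ a, A a ∧ 0 < B.repr r a) ∧ (∃ b, ¬ A b ∧ 0 < B.repr r b) := by intro r; rw [hP]; simp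
  obtain ⟨r, hr, hmin⟩ := Finset.exists_min_image P (fun r => ∑ x, B.repr r x)
    ⟨r, (hPm r).2 ⟨hr, h0, h1, h2⟩⟩
  obtain ⟨hrR, h0, ⟨a, ha, hra⟩, ⟨b, hb, hrb⟩⟩ := (hPm r).1 hr
  -- a simple root with positive product and positive coordinate
  obtain ⟨d, hd, hcd⟩ : ∃ d : {x // x ∈ D}, 0 < inner ℝ (d : E) r ∧ 0 < B.repr r d := by
    by_contra hcon
    push Not at hcon
    have h3 : inner ℝ r r ≤ (0 : ℝ) := by
      conv_lhs => enter [2]; rw [← B.sum_repr r]
      rw [sum_inner]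
      refine Finset.sum_nonpos fun d _ => ?_
      rw [inner_smul_left, hB]
      simp only [RCLike.conj_to_real]
      rcases (h0 d).eq_or_lt with h4 | h4
      · rw [← h4, zero_mul]
      · have h5 : inner ℝ (d : E) r ≤ (0 : ℝ) := by
          by_contra h6
          push Not at h6
          have := hcon d h6
          linarith
        exact mul_nonpos_of_nonneg_of_nonpos h4.le h5
    rw [hR.unit r hrR] at h3
    norm_num at h3
  by_cases hAd : A d
  · obtain ⟨r', h3, h4, h5, h6, h7⟩ := no_mixed_aux hR hsub hB hs A hA hrR h0 hAd hd hb hrb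
    have := hmin r' ((hPm r').2 ⟨h3, h4, h5, h6⟩)
    linarith
  · obtain ⟨r', h3, h4, h5, h6, h7⟩ := no_mixed_aux hR hsub hB hs (fun x => ¬ A x)
      (fun x y hx hy => by
        rw [real_inner_comm]
        exact hA y x (not_not.1 hy) hx) hrR h0 hAd hd (b := a) (not_not.2 ha) hra
    obtain ⟨b', hb', hb''⟩ := h6
    have := hmin r' ((hPm r').2 ⟨h3, h4, ⟨b', not_not.1 hb', hb''⟩, h5⟩)
    linarith

end B

/-- irreducibility of a set of vectors -/
def Irr (R : Finset E) : Prop :=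
  ∀ S ⊆ R, S.Nonempty → S ≠ R → ∃ r ∈ S, ∃ r' ∈ R, r' ∉ S ∧ inner ℝ r r' ≠ (0 : ℝ)

open Classical in
/-- the main statement on simple systems -/
theorem exists_sys {R : Finset E} (hR : RS R) (hspan : Submodule.span ℝ (R : Set E) = ⊤)
    (hirr : Irr R) (hne : R.Nonempty) : ∃ D ⊆ R, Sys (fun x : {x // x ∈ D} => (x : E)) ∧
      Fine (fun x : {x // x ∈ D} => (x : E)) ∧
      Conn (fun x : {x // x ∈ D} => (x : E)) Finset.univ ∧ Module.finrank ℝ E = D.card := by
  obtain ⟨f, hf⟩ := Module.exists_dual_forall_apply_ne_zero (K := ℝ)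
    (fun r : {x // x ∈ R} => (r : E)) (fun r h0 => by
      have := hR.unit _ r.2
      rw [h0, inner_zero_left] at this
      norm_num at this)
  have hf' : ∀ r ∈ R, f r ≠ 0 := fun r hr => hf ⟨r, hr⟩
  obtain ⟨D, hD⟩ := exists_simple (R := R) (f := f) hf'
  obtain ⟨B, hB, hs⟩ := hD.basis hR hf' hspan
  have hang : ∀ a b : {x // x ∈ D}, a ≠ b → _ := fun a b hab =>
    angles hR hD.sub hB hs hab (hD.obtuse hR hf' a.2 b.2 fun h => hab (Subtype.ext h))
  have hs2 := sqrt2_mul
  have hs2' := sqrt2_pos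
  have hs3 : √3 * √3 = (3 : ℝ) := Real.mul_self_sqrt (by norm_num)
  have hs3' : (0 : ℝ) < √3 := Real.sqrt_pos.2 (by norm_num)
  have hs5 : √5 * √5 = (5 : ℝ) := Real.mul_self_sqrt (by norm_num)
  have hs5' : (0 : ℝ) < √5 := Real.sqrt_pos.2 (by norm_num)
  have c0 : √2 ≤ 3 / 2 := by
    by_contra hc
    push Not at hc
    nlinarith
  have c0' : 2 ≤ √5 := by
    by_contra hc
    push Not at hc
    nlinarith
  have c1 : √2 / 2 ≤ (1 + √5) / 4 := by linarith
  have c2 : √2 / 2 ≤ √3 / 2 := by nlinarith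
  have hgt := sqrt2_gt
  refine ⟨D, hD.sub, ⟨hD.li hR hf', fun i => hR.unit _ (hD.sub i.2), ?_⟩, ?_, ?_, ?_⟩
  · intro i j hij
    rcases hang i j hij with h | h | h | h | h
    · exact Or.inl h
    · exact Or.inr (Or.inl h)
    · exact Or.inr (Or.inr h.le)
    · exact Or.inr (Or.inr (by rw [h]; linarith))
    · exact Or.inr (Or.inr (by linarith))
  · intro i j hij hle
    rcases hang i j hij with h | h | h | h | h
    · rw [h] at hle; linarith
    · rw [h] at hle; linarith
    · exact Or.inl h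
    · exact Or.inr (Or.inl h)
    · exact Or.inr (Or.inr h)
  · constructor
    · rw [Finset.univ_nonempty_iff]
      by_contra hcon
      rw [not_nonempty_iff] at hcon
      obtain ⟨r, hr⟩ := hne
      have h1 : r = 0 := by
        rw [← B.sum_repr r]
        simp
      have := hR.unit r hr
      rw [h1, inner_zero_left] at this
      norm_num at this
    · intro A _ hAne hA
      by_contra hcon
      push Not at hcon
      have hA' : ∀ a b, a ∈ A → ¬ b ∈ A → inner ℝ (a : E) (b : E) = (0 : ℝ) := fun a b ha hb =>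
        hcon a ha b (Finset.mem_univ b) hb
      have hpure : ∀ r ∈ R, (∀ x, 0 ≤ B.repr r x) → (∀ a ∈ A, B.repr r a = 0) ∨
          ∀ b, b ∉ A → B.repr r b = 0 := by
        intro r hr h0
        by_contra hc
        push Not at hc
        obtain ⟨⟨a, ha, ha'⟩, ⟨b, hb, hb'⟩⟩ := hc
        exact no_mixed hR hD.sub hB hs (fun x => x ∈ A) hA' hr h0
          ⟨a, ha, lt_of_le_of_ne (h0 a) ha'.symm⟩ ⟨b, hb, lt_of_le_of_ne (h0 b) hb'.symm⟩
      have hpure' : ∀ r ∈ R, (∀ a ∈ A, B.repr r a = 0) ∨ ∀ b, b ∉ A → B.repr r b = 0 := by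
        intro r hr
        rcases hs r hr with h | h
        · exact hpure r hr h
        · have h1 := hpure (-r) (hR.neg hr) (fun x => by
            rw [map_neg, Finsupp.neg_apply]; linarith [h x])
          simpa only [map_neg, Finsupp.neg_apply, neg_eq_zero] using h1
      obtain ⟨S, hS⟩ : ∃ S : Finset E, S = R.filter fun r => ∀ b, b ∉ A → B.repr r b = 0 :=
        ⟨_, rfl⟩
      have hSm : ∀ r, r ∈ S ↔ r ∈ R ∧ ∀ b, b ∉ A → B.repr r b = 0 := by intro r; rw [hS]; simp
      have h1 : S.Nonempty := by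
        obtain ⟨a, ha⟩ := hAne
        refine ⟨a, (hSm a).2 ⟨hD.sub a.2, fun b hb => ?_⟩⟩
        rw [← hB a, B.repr_self, Finsupp.single_apply, if_neg]
        rintro rfl; exact hb ha
      have h2 : S ≠ R := by
        intro h3
        apply hA
        rw [Finset.eq_univ_iff_forall]
        intro x
        by_contra hx
        have h4 : (x : E) ∈ S := h3 ▸ hD.sub x.2
        have h5 := ((hSm _).1 h4).2 x hx
        rw [← hB x, B.repr_self, Finsupp.single_eq_same] at h5
        exact one_ne_zero h5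
      obtain ⟨r, hr, r', hr', hr'S, h0⟩ := hirr S (by rw [hS]; exact Finset.filter_subset _ _) h1 h2
      apply h0
      have hrA := ((hSm r).1 hr).2
      have hrB : ∀ a ∈ A, B.repr r' a = 0 := by
        rcases hpure' r' hr' with h | h
        · exact h
        · exact absurd ((hSm r').2 ⟨hr', h⟩) hr'S
      rw [← B.sum_repr r, ← B.sum_repr r', sum_inner]
      refine Finset.sum_eq_zero fun x _ => ?_
      rw [inner_sum]
      refine Finset.sum_eq_zero fun y _ => ?_
      rw [inner_smul_left, inner_smul_right, hB, hB]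
      by_cases hx : x ∈ A
      · by_cases hy : y ∈ A
        · rw [hrB y hy]; simp
        · rw [hA' x y hx hy]; simp
      · rw [hrA x hx]; simp
  · rw [Module.finrank_eq_card_basis B, Fintype.card_coe]

end Pool.Agent.W396.Il.Ch
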