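import Mathlib

set_option autoImplicit false

/-!
Classification of connected simple systems (positive definite Coxeter graphs): the shape of the
graph.
-/

namespace Pool.Agent.W396.Il.Cox

open Finset

variable {E : Type*} [NormedAddCommGroup E] [InnerProductSpace ℝ E] {ι : Type*} [DecidableEq ι]

/-- a simple system -/
structure Sys (b : ι → E) : Prop where
  li : LinearIndependent ℝ b
  unit : ∀ i, inner ℝ (b i) (b i) = 1
  val : ∀ i j, i ≠ j → inner ℝ (b i) (b j) = 0 ∨ inner ℝ (b i) (b j) = -(1 / 2) ∨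
    inner ℝ (b i) (b j) ≤ -(√2 / 2)

/-- connected subsets -/
def Conn (b : ι → E) (S : Finset ι) : Prop :=
  S.Nonempty ∧ ∀ A ⊆ S, A.Nonempty → A ≠ S → ∃ i ∈ A, ∃ j ∈ S, j ∉ A ∧ inner ℝ (b i) (b j) ≠ 0

theorem sqrt2_gt : (1 : ℝ) / 2 < √2 / 2 := by
  have : (1 : ℝ) < √2 := by
    rw [show (1 : ℝ) = √1 by simp]
    exact Real.sqrt_lt_sqrt (by norm_num) (by norm_num)
  linarith

variable {b : ι → E}

theorem Sys.nonpos (h : Sys b) {i j : ι} (hij : i ≠ j) : inner ℝ (b i) (b j) ≤ 0 := by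
  have h1 := sqrt2_gt
  rcases h.val i j hij with h | h | h <;> linarith

theorem Sys.le_half (h : Sys b) {i j : ι} (hij : i ≠ j) (h0 : inner ℝ (b i) (b j) ≠ 0) :
    inner ℝ (b i) (b j) ≤ -(1 / 2) := by
  have h1 := sqrt2_gt
  rcases h.val i j hij with h | h | h
  · exact absurd h h0
  · linarith
  · linarith

/-- every nonempty set of nodes contains a node with at most one neighbour in the set -/
theorem Sys.exists_leaf (h : Sys b) (C : Finset ι) (hC : C.Nonempty) :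
    ∃ i ∈ C, ∀ j ∈ C, ∀ k ∈ C, j ≠ i → k ≠ i → inner ℝ (b i) (b j) ≠ 0 →
      inner ℝ (b i) (b k) ≠ 0 → j = k := by
  by_contra hcon
  push Not at hcon
  -- the sum of the vectors has nonpositive square
  have h1 : inner ℝ (∑ i ∈ C, b i) (∑ j ∈ C, b j) ≤ 0 := by
    rw [sum_inner]
    refine Finset.sum_nonpos fun i hi => ?_
    rw [inner_sum]
    obtain ⟨j, hj, k, hk, hji, hki, hj0, hk0, hjk⟩ := hcon i hi
    rw [← Finset.add_sum_erase _ _ hi, ← Finset.add_sum_erase _ _ (Finset.mem_erase.2 ⟨hji, hj⟩),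
      ← Finset.add_sum_erase _ _ (Finset.mem_erase.2 ⟨hjk.symm, Finset.mem_erase.2 ⟨hki, hk⟩⟩)]
    have e1 := h.unit i
    have e2 := h.le_half hji.symm hj0
    have e3 := h.le_half hki.symm hk0
    have e4 : ∑ x ∈ ((C.erase i).erase j).erase k, inner ℝ (b i) (b x) ≤ 0 := by
      refine Finset.sum_nonpos fun x hx => h.nonpos ?_
      have := Finset.ne_of_mem_erase (Finset.mem_of_mem_erase (Finset.mem_of_mem_erase hx))
      exact this.symm
    linarith
  have h2 : ∑ i ∈ C, b i = 0 := real_inner_self_nonpos.1 h1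
  obtain ⟨i, hi⟩ := hC
  have h3 := linearIndependent_iff'.1 h.li C (fun _ => 1) (by simpa using h2) i hi
  exact one_ne_zero h3

/-- removal of a leaf -/
theorem Sys.remove_leaf (h : Sys b) {S : Finset ι} (hS : Conn b S) (h2 : 2 ≤ S.card) :
    ∃ v ∈ S, ∃ u ∈ S.erase v, inner ℝ (b v) (b u) ≠ 0 ∧
      (∀ x ∈ S.erase v, x ≠ u → inner ℝ (b v) (b x) = 0) ∧ Conn b (S.erase v) := by
  obtain ⟨v, hv, hleaf⟩ := h.exists_leaf S hS.1
  have hne : ({v} : Finset ι) ≠ S := by
    rintro rfl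
    simp at h2
  obtain ⟨i, hi, u, hu, huv, h0⟩ := hS.2 {v} (by simpa using hv) ⟨v, by simp⟩ hne
  rw [Finset.mem_singleton] at hi huv
  subst hi
  refine ⟨i, hv, u, Finset.mem_erase.2 ⟨huv, hu⟩, h0, ?_, ⟨u, Finset.mem_erase.2 ⟨huv, hu⟩⟩, ?_⟩
  · intro x hx hxu
    by_contra hx0
    exact hxu (hleaf x (Finset.mem_of_mem_erase hx) u hu (Finset.ne_of_mem_erase hx) huv hx0 h0)
  · intro A hA hAne hAS
    by_cases huA : u ∈ A
    · -- use `A ∪ {i}`
      obtain ⟨p, hp, q, hq, hqA, hpq⟩ := hS.2 (insert i A) (by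
        intro x hx
        rcases Finset.mem_insert.1 hx with rfl | hx
        · exact hv
        · exact Finset.mem_of_mem_erase (hA hx)) ⟨i, Finset.mem_insert_self _ _⟩ (by
        intro h3
        apply hAS
        rw [← h3, Finset.erase_insert]
        intro h4
        exact (Finset.mem_erase.1 (hA h4)).1 rfl)
      rw [Finset.mem_insert, not_or] at hqA
      rcases Finset.mem_insert.1 hp with rfl | hp
      · have h5 : q = u := by
          by_contra hqu
          exact hqu (hleaf q hq u hu hqA.1 huv hpq h0)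
        exact absurd (h5 ▸ huA) hqA.2
      · exact ⟨p, hp, q, Finset.mem_erase.2 ⟨hqA.1, hq⟩, hqA.2, hpq⟩
    · obtain ⟨p, hp, q, hq, hqA, hpq⟩ := hS.2 A (fun x hx => Finset.mem_of_mem_erase (hA hx)) hAne
        (by
          rintro rfl
          exact huA hu)
      refine ⟨p, hp, q, Finset.mem_erase.2 ⟨?_, hq⟩, hqA, hpq⟩
      rintro rfl
      have hpi : p ≠ q := Finset.ne_of_mem_erase (hA hp)
      have h5 : p = u := by
        by_contra hpu
        exact hpu (hleaf p (Finset.mem_of_mem_erase (hA hp)) u hu hpi huv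
          (by rwa [real_inner_comm]) h0)
      exact huA (h5 ▸ hp)

/-! ### paths -/

/-- a path with the weights `ω` -/
structure IsP (b : ι → E) (f : ℕ → ι) (k : ℕ) (ω : ℕ → ℝ) : Prop where
  inj : ∀ i j, i < k → j < k → f i = f j → i = j
  adj : ∀ i, i + 1 < k → inner ℝ (b (f i)) (b (f (i + 1))) = - ω i
  non : ∀ i j, i + 1 < j → j < k → inner ℝ (b (f i)) (b (f j)) = 0

theorem IsP.non' {f : ℕ → ι} {k : ℕ} {ω : ℕ → ℝ} (h : IsP b f k ω) {i j : ℕ} (hij : i + 1 < j)
    (hj : j < k) : inner ℝ (b (f j)) (b (f i)) = 0 := by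
  rw [real_inner_comm]; exact h.non i j hij hj

/-- reversal of a path -/
theorem IsP.rev {f : ℕ → ι} {k : ℕ} {ω : ℕ → ℝ} (h : IsP b f k ω) :
    IsP b (fun i => f (k - 1 - i)) k (fun i => ω (k - 2 - i)) where
  inj := by
    intro i j hi hj hij
    have := h.inj (k - 1 - i) (k - 1 - j) (by omega) (by omega) hij
    omega
  adj := by
    intro i hi
    have := h.adj (k - 2 - i) (by omega)
    rw [real_inner_comm] at this
    rw [← this]
    congr 3 <;> omega
  non := by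
    intro i j hij hj
    exact h.non' (by omega) (by omega)

/-- the sum along a segment -/
noncomputable def seg (b : ι → E) (f : ℕ → ι) (i j : ℕ) : E := ∑ t ∈ Finset.Icc i j, b (f t)

theorem seg_succ (f : ℕ → ι) {i j : ℕ} (h : i ≤ j) :
    seg b f i (j + 1) = seg b f i j + b (f (j + 1)) := by
  unfold seg
  rw [Finset.sum_Icc_succ_top (by omega)]

theorem seg_self' (f : ℕ → ι) (i : ℕ) : seg b f i i = b (f i) := by
  simp [seg]

theorem seg_inner (f : ℕ → ι) {i j i0 : ℕ} (h1 : i ≤ i0) (h2 : i0 ≤ j) (x : E) {w : ℝ}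
    (hw : inner ℝ x (b (f i0)) = w) (h0 : ∀ t, i ≤ t → t ≤ j → t ≠ i0 →
      inner ℝ x (b (f t)) = 0) : inner ℝ x (seg b f i j) = w := by
  unfold seg
  rw [inner_sum, Finset.sum_eq_single_of_mem i0 (Finset.mem_Icc.2 ⟨h1, h2⟩), hw]
  intro t ht hne
  rw [Finset.mem_Icc] at ht
  exact h0 t ht.1 ht.2 hne

theorem IsP.seg_right {f : ℕ → ι} {k : ℕ} {ω : ℕ → ℝ} (h : IsP b f k ω) {i j : ℕ} (hij : i ≤ j)
    (hj : j + 1 < k) : inner ℝ (b (f (j + 1))) (seg b f i j) = - ω j := by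
  refine seg_inner f hij le_rfl _ ?_ ?_
  · rw [real_inner_comm]; exact h.adj j hj
  · intro t h1 h2 h3
    exact h.non' (by omega) hj

theorem IsP.seg_left {f : ℕ → ι} {k : ℕ} {ω : ℕ → ℝ} (h : IsP b f k ω) {i j : ℕ}
    (hij : i + 1 ≤ j) (hj : j < k) : inner ℝ (b (f i)) (seg b f (i + 1) j) = - ω i := by
  refine seg_inner f le_rfl hij _ (h.adj i (by omega)) ?_
  intro t h1 h2 h3
  exact h.non i t (by omega) (by omega)

theorem IsP.seg_self {f : ℕ → ι} {k : ℕ} {ω : ℕ → ℝ} (h : IsP b f k ω) (hb : Sys b) {i j : ℕ}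
    (hij : i ≤ j) (hj : j < k) (hω : ∀ t, i ≤ t → t < j → ω t = 1 / 2) :
    inner ℝ (seg b f i j) (seg b f i j) = 1 := by
  induction j with
  | zero =>
    obtain rfl : i = 0 := by omega
    rw [seg_self']
    exact hb.unit _
  | succ j ih =>
    rcases Nat.lt_or_ge j i with h1 | h1
    · obtain rfl : i = j + 1 := by omega
      rw [seg_self']
      exact hb.unit _
    · rw [seg_succ f h1, inner_add_left, inner_add_right, inner_add_right,
        ih h1 (by omega) (fun t h2 h3 => hω t h2 (by omega)), hb.unit,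
        real_inner_comm, h.seg_right h1 hj, hω j h1 (by omega)]
      norm_num

/-- vectors of nonpositive square -/
theorem bad {M : Submodule ℝ E} {v y : E} (hv : v ∉ M) (hy : y ∈ M) {c : ℝ} (hc : c ≠ 0)
    (h : inner ℝ (c • v + y) (c • v + y) ≤ 0) : False := by
  have h1 : c • v + y = 0 := real_inner_self_nonpos.1 h
  apply hv
  have h2 : v = - (c⁻¹ • y) := by
    have h3 : c • v = - y := eq_neg_of_add_eq_zero_left h1
    calc v = c⁻¹ • (c • v) := by rw [smul_smul, inv_mul_cancel₀ hc, one_smul]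
      _ = _ := by rw [h3, smul_neg]
  rw [h2]
  exact M.neg_mem (M.smul_mem _ hy)

theorem quad3 (x1 x2 x3 : E) (c1 c2 c3 : ℝ) :
    inner ℝ (c1 • x1 + (c2 • x2 + c3 • x3)) (c1 • x1 + (c2 • x2 + c3 • x3)) =
      c1 ^ 2 * inner ℝ x1 x1 + c2 ^ 2 * inner ℝ x2 x2 + c3 ^ 2 * inner ℝ x3 x3 +
      2 * (c1 * c2 * inner ℝ x1 x2 + c1 * c3 * inner ℝ x1 x3 + c2 * c3 * inner ℝ x2 x3) := by
  simp only [inner_add_left, inner_add_right, inner_smul_left, inner_smul_right,
    RCLike.conj_to_real]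
  rw [real_inner_comm x1 x2, real_inner_comm x1 x3, real_inner_comm x2 x3]
  ring

theorem quad4 (x1 x2 x3 x4 : E) (c1 c2 c3 c4 : ℝ) :
    inner ℝ (c1 • x1 + (c2 • x2 + c3 • x3 + c4 • x4)) (c1 • x1 + (c2 • x2 + c3 • x3 + c4 • x4)) =
      c1 ^ 2 * inner ℝ x1 x1 + c2 ^ 2 * inner ℝ x2 x2 + c3 ^ 2 * inner ℝ x3 x3 +
      c4 ^ 2 * inner ℝ x4 x4 +
      2 * (c1 * c2 * inner ℝ x1 x2 + c1 * c3 * inner ℝ x1 x3 + c1 * c4 * inner ℝ x1 x4 +
        c2 * c3 * inner ℝ x2 x3 + c2 * c4 * inner ℝ x2 x4 + c3 * c4 * inner ℝ x3 x4) := by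
  simp only [inner_add_left, inner_add_right, inner_smul_left, inner_smul_right,
    RCLike.conj_to_real]
  rw [real_inner_comm x1 x2, real_inner_comm x1 x3, real_inner_comm x1 x4, real_inner_comm x2 x3,
    real_inner_comm x2 x4, real_inner_comm x3 x4]
  ring

theorem quad5 (x1 x2 x3 x4 x5 : E) (c1 c2 c3 c4 c5 : ℝ) :
    inner ℝ (c1 • x1 + (c2 • x2 + c3 • x3 + c4 • x4 + c5 • x5))
      (c1 • x1 + (c2 • x2 + c3 • x3 + c4 • x4 + c5 • x5)) =
      c1 ^ 2 * inner ℝ x1 x1 + c2 ^ 2 * inner ℝ x2 x2 + c3 ^ 2 * inner ℝ x3 x3 +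
      c4 ^ 2 * inner ℝ x4 x4 + c5 ^ 2 * inner ℝ x5 x5 +
      2 * (c1 * c2 * inner ℝ x1 x2 + c1 * c3 * inner ℝ x1 x3 + c1 * c4 * inner ℝ x1 x4 +
        c1 * c5 * inner ℝ x1 x5 +
        c2 * c3 * inner ℝ x2 x3 + c2 * c4 * inner ℝ x2 x4 + c2 * c5 * inner ℝ x2 x5 +
        c3 * c4 * inner ℝ x3 x4 + c3 * c5 * inner ℝ x3 x5 + c4 * c5 * inner ℝ x4 x5) := by
  simp only [inner_add_left, inner_add_right, inner_smul_left, inner_smul_right,
    RCLike.conj_to_real]
  rw [real_inner_comm x1 x2, real_inner_comm x1 x3, real_inner_comm x1 x4, real_inner_comm x1 x5,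
    real_inner_comm x2 x3, real_inner_comm x2 x4, real_inner_comm x2 x5, real_inner_comm x3 x4,
    real_inner_comm x3 x5, real_inner_comm x4 x5]
  ring

/-! ### adding a leaf -/

/-- `v` is attached to the set `S` at the node `u` with weight `w` -/
structure Att (b : ι → E) (S : Finset ι) (v u : ι) (w : ℝ) : Prop where
  vS : v ∉ S
  uS : u ∈ S
  eq : inner ℝ (b v) (b u) = - w
  zero : ∀ x ∈ S, x ≠ u → inner ℝ (b v) (b x) = 0
  wt : w = 1 / 2 ∨ √2 / 2 ≤ w

theorem Att.half_le {S : Finset ι} {v u : ι} {w : ℝ} (h : Att b S v u w) : 1 / 2 ≤ w := by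
  have := sqrt2_gt
  rcases h.wt with h | h <;> linarith

/-- the nodes of a path -/
def nodes (f : ℕ → ι) (k : ℕ) : Finset ι := (Finset.range k).image f

theorem mem_nodes {f : ℕ → ι} {k : ℕ} {x : ι} : x ∈ nodes f k ↔ ∃ i < k, f i = x := by
  simp [nodes]

theorem nodes_rev (f : ℕ → ι) (k : ℕ) : nodes (fun i => f (k - 1 - i)) k = nodes f k := by
  ext x
  rw [mem_nodes, mem_nodes]
  constructor
  · rintro ⟨i, hi, h⟩
    exact ⟨k - 1 - i, by omega, h⟩
  · rintro ⟨i, hi, h⟩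
    refine ⟨k - 1 - i, by omega, ?_⟩
    rw [← h]
    congr 1
    omega

theorem nodes_succ (f : ℕ → ι) (k : ℕ) : nodes f (k + 1) = insert (f k) (nodes f k) := by
  simp [nodes, Finset.range_add_one]

/-- a simple path -/
def TyA (b : ι → E) (S : Finset ι) : Prop :=
  ∃ (f : ℕ → ι) (k : ℕ), IsP b f k (fun _ => 1 / 2) ∧ S = nodes f k

/-- a path with one special edge -/
def TyB (b : ι → E) (S : Finset ι) : Prop :=
  ∃ (f : ℕ → ι) (k j : ℕ) (w : ℝ), IsP b f k (fun i => if i = j then w else 1 / 2) ∧ j + 1 < k ∧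
    √2 / 2 ≤ w ∧ S = nodes f k

/-- a path with one additional node attached at the inner node `j` -/
structure IsT (b : ι → E) (f : ℕ → ι) (k : ℕ) (e : ι) (j : ℕ) : Prop where
  path : IsP b f k (fun _ => 1 / 2)
  j1 : 1 ≤ j
  j2 : j + 1 < k
  ne : e ∉ nodes f k
  adj : inner ℝ (b e) (b (f j)) = - (1 / 2)
  non : ∀ i < k, i ≠ j → inner ℝ (b e) (b (f i)) = 0

def TyT (b : ι → E) (S : Finset ι) : Prop :=
  ∃ (f : ℕ → ι) (k : ℕ) (e : ι) (j : ℕ), IsT b f k e j ∧ S = insert e (nodes f k)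

/-- extension of a path at its end -/
theorem IsP.snoc {f : ℕ → ι} {k : ℕ} {ω : ℕ → ℝ} (h : IsP b f k ω) {v : ι} {w : ℝ} (hk : 0 < k)
    (hv : v ∉ nodes f k) (h1 : inner ℝ (b v) (b (f (k - 1))) = - w)
    (h2 : ∀ i < k, i ≠ k - 1 → inner ℝ (b v) (b (f i)) = 0) :
    IsP b (fun i => if i < k then f i else v) (k + 1) (fun i => if i < k - 1 then ω i else w) where
  inj := by
    intro i j hi hj hij
    split_ifs at hij with h3 h4 h4
    · exact h.inj i j h3 h4 hij
    · exact absurd (mem_nodes.2 ⟨i, h3, hij⟩) hv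
    · exact absurd (mem_nodes.2 ⟨j, h4, hij.symm⟩) hv
    · omega
  adj := by
    intro i hi
    by_cases h3 : i < k - 1
    · rw [if_pos (by omega), if_pos (by omega), if_pos h3]
      exact h.adj i (by omega)
    · obtain rfl : i = k - 1 := by omega
      rw [if_pos (by omega), if_neg (by omega), if_neg h3, real_inner_comm]
      exact h1
  non := by
    intro i j hij hj
    rw [if_pos (by omega)]
    by_cases h3 : j < k
    · rw [if_pos h3]
      exact h.non i j hij h3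
    · rw [if_neg h3, real_inner_comm]
      exact h2 i (by omega) (by omega)

theorem nodes_snoc (f : ℕ → ι) (k : ℕ) (v : ι) :
    nodes (fun i => if i < k then f i else v) (k + 1) = insert v (nodes f k) := by
  rw [nodes_succ]
  simp only [lt_irrefl, if_false]
  congr 1
  unfold nodes
  refine Finset.image_congr fun i hi => ?_
  rw [Finset.coe_range, Set.mem_Iio] at hi
  rw [if_pos hi]

theorem IsP.congr {f : ℕ → ι} {k : ℕ} {ω ω' : ℕ → ℝ} (h : IsP b f k ω)
    (h1 : ∀ i, i + 1 < k → ω i = ω' i) : IsP b f k ω' where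
  inj := h.inj
  adj := fun i hi => by rw [h.adj i hi, h1 i hi]
  non := h.non

end Pool.Agent.W396.Il.Cox
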