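import Pool.Agent.W396.Il.Cox

set_option autoImplicit false

/-!
Classification of connected simple systems: adding a leaf.
-/

namespace Pool.Agent.W396.Il.Cox

open Finset

variable {E : Type*} [NormedAddCommGroup E] [InnerProductSpace ℝ E] {ι : Type*} [DecidableEq ι]
variable {b : ι → E}

theorem sqrt2_mul : √2 * √2 = (2 : ℝ) := Real.mul_self_sqrt (by norm_num)

theorem sqrt2_pos : (0 : ℝ) < √2 := Real.sqrt_pos.2 (by norm_num)

theorem sqrt2_w {w : ℝ} (h : √2 / 2 ≤ w) : 1 ≤ √2 * w := by
  have h1 := sqrt2_mul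
  have h2 := sqrt2_pos
  nlinarith [mul_le_mul_of_nonneg_left h h2.le]

/-- membership in the span of the nodes -/
theorem mem_sp {S : Finset ι} {x : ι} (h : x ∈ S) : b x ∈ Submodule.span ℝ (b '' (S : Set ι)) :=
  Submodule.subset_span ⟨x, h, rfl⟩

theorem notMem_sp (hb : Sys b) {S : Finset ι} {v : ι} (h : v ∉ S) :
    b v ∉ Submodule.span ℝ (b '' (S : Set ι)) :=
  hb.li.notMem_span_image (by simpa using h)

theorem seg_mem {S : Finset ι} {f : ℕ → ι} {i j : ℕ} (h : ∀ t, i ≤ t → t ≤ j → f t ∈ S) :
    seg b f i j ∈ Submodule.span ℝ (b '' (S : Set ι)) := by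
  unfold seg
  refine Submodule.sum_mem _ fun t ht => mem_sp ?_
  rw [Finset.mem_Icc] at ht
  exact h t ht.1 ht.2

theorem seg_zero {f : ℕ → ι} {i j : ℕ} {x : E} (h : ∀ t, i ≤ t → t ≤ j → inner ℝ x (b (f t)) = 0) :
    inner ℝ x (seg b f i j) = 0 := by
  unfold seg
  rw [inner_sum]
  refine Finset.sum_eq_zero fun t ht => ?_
  rw [Finset.mem_Icc] at ht
  exact h t ht.1 ht.2

theorem f_mem {f : ℕ → ι} {k i : ℕ} (h : i < k) : f i ∈ nodes f k := mem_nodes.2 ⟨i, h, rfl⟩

theorem IsP.ne {f : ℕ → ι} {k : ℕ} {ω : ℕ → ℝ} (h : IsP b f k ω) {i j : ℕ} (hi : i < k)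
    (hj : j < k) (hij : i ≠ j) : f i ≠ f j := fun h1 => hij (h.inj i j hi hj h1)

/-- simple path, special leaf at an inner node -/
theorem bad1 (hb : Sys b) {f : ℕ → ι} {k : ℕ} (h : IsP b f k (fun _ => 1 / 2)) {v : ι} {w : ℝ}
    {i : ℕ} (hi : i + 2 < k) (ha : Att b (nodes f k) v (f (i + 1)) w) (hw : √2 / 2 ≤ w) : False := by
  have a1 := h.adj i (by omega)
  have a2 := h.adj (i + 1) (by omega)
  have a3 := h.non i (i + 2) (by omega) (by omega)
  have a4 := ha.eq
  have a5 := ha.zero (f i) (f_mem (by omega)) (h.ne (by omega) (by omega) (by omega))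
  have a6 := ha.zero (f (i + 2)) (f_mem (by omega)) (h.ne (by omega) (by omega) (by omega))
  refine bad (c := √2) (notMem_sp hb ha.vS)
    (y := (1 : ℝ) • b (f i) + (2 : ℝ) • b (f (i + 1)) + (1 : ℝ) • b (f (i + 2))) ?_
    sqrt2_pos.ne' ?_
  · exact Submodule.add_mem _ (Submodule.add_mem _ (Submodule.smul_mem _ _ (mem_sp (f_mem (by omega))))
      (Submodule.smul_mem _ _ (mem_sp (f_mem (by omega)))))
      (Submodule.smul_mem _ _ (mem_sp (f_mem (by omega))))
  · rw [quad4, hb.unit, hb.unit, hb.unit, hb.unit, a5, a4, a6, a1, a3, a2]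
    have := sqrt2_mul
    have := sqrt2_w hw
    nlinarith

/-- path with a special edge, leaf at an inner node, first case -/
theorem bad2 (hb : Sys b) {f : ℕ → ι} {k j : ℕ} {w w' : ℝ}
    (h : IsP b f k (fun i => if i = j then w else 1 / 2)) (hw : √2 / 2 ≤ w) {v : ι}
    {i : ℕ} (hi : i + 1 ≤ j) (hj : j + 1 < k) (ha : Att b (nodes f k) v (f (i + 1)) w') : False := by
  have a1 := h.seg_self hb (i := i + 1) (j := j) hi (by omega) (fun t h1 h2 => if_neg (by omega))
  have a2 := h.seg_left (i := i) (j := j) hi (by omega)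
  rw [if_neg (by omega)] at a2
  have a3 := h.seg_right (i := i + 1) (j := j) hi hj
  rw [if_pos rfl, real_inner_comm] at a3
  have a4 : inner ℝ (b v) (seg b f (i + 1) j) = - w' := by
    refine seg_inner f le_rfl hi _ ha.eq ?_
    intro t h1 h2 h3
    exact ha.zero _ (f_mem (by omega)) (h.ne (by omega) (by omega) h3)
  have a5 := ha.zero (f i) (f_mem (by omega)) (h.ne (by omega) (by omega) (by omega))
  have a6 := ha.zero (f (j + 1)) (f_mem (by omega)) (h.ne (by omega) (by omega) (by omega))
  have a7 := h.non i (j + 1) (by omega) (by omega)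
  have a8 := ha.half_le
  refine bad (c := 1) (notMem_sp hb ha.vS)
    (y := (1 : ℝ) • b (f i) + (2 : ℝ) • seg b f (i + 1) j + (√2 : ℝ) • b (f (j + 1))) ?_
    one_ne_zero ?_
  · exact Submodule.add_mem _ (Submodule.add_mem _ (Submodule.smul_mem _ _ (mem_sp (f_mem (by omega))))
      (Submodule.smul_mem _ _ (seg_mem fun t h1 h2 => f_mem (by omega))))
      (Submodule.smul_mem _ _ (mem_sp (f_mem (by omega))))
  · rw [quad4, hb.unit, hb.unit, hb.unit, a1, a5, a4, a6, a2, a7, a3]
    have := sqrt2_mul
    have := sqrt2_w hw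
    nlinarith

/-- path with a special edge, leaf at an inner node, second case -/
theorem bad2' (hb : Sys b) {f : ℕ → ι} {k j : ℕ} {w w' : ℝ}
    (h : IsP b f k (fun i => if i = j then w else 1 / 2)) (hw : √2 / 2 ≤ w) {v : ι}
    {i0 : ℕ} (hi : j + 1 ≤ i0) (hj : i0 + 1 < k) (ha : Att b (nodes f k) v (f i0) w') : False := by
  have a1 := h.seg_self hb (i := j + 1) (j := i0) hi (by omega) (fun t h1 h2 => if_neg (by omega))
  have a2 := h.seg_left (i := j) (j := i0) hi (by omega)
  rw [if_pos rfl] at a2
  have a3 := h.seg_right (i := j + 1) (j := i0) hi hj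
  rw [if_neg (by omega), real_inner_comm] at a3
  have a4 : inner ℝ (b v) (seg b f (j + 1) i0) = - w' := by
    refine seg_inner f hi le_rfl _ ha.eq ?_
    intro t h1 h2 h3
    exact ha.zero _ (f_mem (by omega)) (h.ne (by omega) (by omega) h3)
  have a5 := ha.zero (f j) (f_mem (by omega)) (h.ne (by omega) (by omega) (by omega))
  have a6 := ha.zero (f (i0 + 1)) (f_mem (by omega)) (h.ne (by omega) (by omega) (by omega))
  have a7 := h.non j (i0 + 1) (by omega) (by omega)
  have a8 := ha.half_le
  refine bad (c := 1) (notMem_sp hb ha.vS)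
    (y := (√2 : ℝ) • b (f j) + (2 : ℝ) • seg b f (j + 1) i0 + (1 : ℝ) • b (f (i0 + 1))) ?_
    one_ne_zero ?_
  · exact Submodule.add_mem _ (Submodule.add_mem _ (Submodule.smul_mem _ _ (mem_sp (f_mem (by omega))))
      (Submodule.smul_mem _ _ (seg_mem fun t h1 h2 => f_mem (by omega))))
      (Submodule.smul_mem _ _ (mem_sp (f_mem (by omega))))
  · rw [quad4, hb.unit, hb.unit, hb.unit, a1, a5, a4, a6, a2, a7, a3]
    have := sqrt2_mul
    have := sqrt2_w hw
    nlinarith

/-- path with a special edge, special leaf at the end -/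
theorem bad3 (hb : Sys b) {f : ℕ → ι} {k j : ℕ} {w w' : ℝ}
    (h : IsP b f k (fun i => if i = j then w else 1 / 2)) (hw : √2 / 2 ≤ w) {v : ι}
    (hj : j + 1 < k) (ha : Att b (nodes f k) v (f (k - 1)) w') (hw' : √2 / 2 ≤ w') : False := by
  have a1 := h.seg_self hb (i := j + 1) (j := k - 1) (by omega) (by omega)
    (fun t h1 h2 => if_neg (by omega))
  have a2 := h.seg_left (i := j) (j := k - 1) (by omega) (by omega)
  rw [if_pos rfl] at a2
  have a4 : inner ℝ (b v) (seg b f (j + 1) (k - 1)) = - w' := by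
    refine seg_inner f (by omega) le_rfl _ ha.eq ?_
    intro t h1 h2 h3
    exact ha.zero _ (f_mem (by omega)) (h.ne (by omega) (by omega) h3)
  have a5 := ha.zero (f j) (f_mem (by omega)) (h.ne (by omega) (by omega) (by omega))
  refine bad (c := 1) (notMem_sp hb ha.vS)
    (y := (1 : ℝ) • b (f j) + (√2 : ℝ) • seg b f (j + 1) (k - 1)) ?_
    one_ne_zero ?_
  · exact Submodule.add_mem _ (Submodule.smul_mem _ _ (mem_sp (f_mem (by omega))))
      (Submodule.smul_mem _ _ (seg_mem fun t h1 h2 => f_mem (by omega)))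
  · rw [quad3, hb.unit, hb.unit, a1, a5, a4, a2]
    have := sqrt2_mul
    have := sqrt2_w hw
    have := sqrt2_w hw'
    nlinarith

/-! ### trees with one branch node -/

theorem IsT.rev {f : ℕ → ι} {k : ℕ} {e : ι} {j : ℕ} (h : IsT b f k e j) :
    IsT b (fun i => f (k - 1 - i)) k e (k - 1 - j) where
  path := h.path.rev
  j1 := by have := h.j2; omega
  j2 := by have := h.j1; have := h.j2; omega
  ne := by rw [nodes_rev]; exact h.ne
  adj := by
    have := h.j2
    rw [show k - 1 - (k - 1 - j) = j by omega]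
    exact h.adj
  non := by
    intro i hi hij
    have := h.j2
    exact h.non _ (by omega) (by omega)

section T

variable {f : ℕ → ι} {k : ℕ} {e : ι} {j : ℕ}

theorem IsT.seg_e (h : IsT b f k e j) {i i' : ℕ} (h1 : i ≤ j) (h2 : j ≤ i') (h3 : i' < k) :
    inner ℝ (b e) (seg b f i i') = - (1 / 2) := by
  refine seg_inner f h1 h2 _ h.adj ?_
  intro t h4 h5 h6
  exact h.non t (by omega) h6

theorem mT {i : ℕ} (hi : i < k) : f i ∈ insert e (nodes f k) :=
  Finset.mem_insert_of_mem (f_mem hi)

/-- leaf at an inner node before the branch node -/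
theorem bad4 (hb : Sys b) (h : IsT b f k e j) {v : ι} {w : ℝ} {i : ℕ} (hi : i + 1 ≤ j)
    (ha : Att b (insert e (nodes f k)) v (f (i + 1)) w) : False := by
  have hj := h.j2
  have a1 := h.path.seg_self hb (i := i + 1) (j := j) hi (by omega) (fun t h1 h2 => rfl)
  have a2 := h.path.seg_left (i := i) (j := j) hi (by omega)
  have a3 := h.path.seg_right (i := i + 1) (j := j) hi hj
  rw [real_inner_comm] at a3
  have a4 : inner ℝ (b v) (seg b f (i + 1) j) = - w := by
    refine seg_inner f le_rfl hi _ ha.eq ?_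
    intro t h1 h2 h3
    exact ha.zero _ (mT (by omega)) (h.path.ne (by omega) (by omega) h3)
  have a5 := ha.zero (f i) (mT (by omega)) (h.path.ne (by omega) (by omega) (by omega))
  have a6 := ha.zero (f (j + 1)) (mT (by omega)) (h.path.ne (by omega) (by omega) (by omega))
  have hne : e ≠ f (i + 1) := fun h1 => h.ne (h1 ▸ f_mem (by omega))
  have a7 := ha.zero e (Finset.mem_insert_self _ _) hne
  have a8 := ha.half_le
  have a9 := h.path.non i (j + 1) (by omega) (by omega)
  have b1 := h.non i (by omega) (by omega)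
  have b2 := h.non (j + 1) (by omega) (by omega)
  have b3 := h.seg_e (i := i + 1) (i' := j) hi le_rfl (by omega)
  rw [real_inner_comm] at b1 b2 b3
  refine bad (c := 1) (notMem_sp hb ha.vS)
    (y := (1 : ℝ) • b (f i) + (2 : ℝ) • seg b f (i + 1) j + (1 : ℝ) • b (f (j + 1)) +
      (1 : ℝ) • b e) ?_ one_ne_zero ?_
  · exact Submodule.add_mem _ (Submodule.add_mem _ (Submodule.add_mem _
      (Submodule.smul_mem _ _ (mem_sp (mT (by omega))))
      (Submodule.smul_mem _ _ (seg_mem fun t h1 h2 => mT (by omega))))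
      (Submodule.smul_mem _ _ (mem_sp (mT (by omega)))))
      (Submodule.smul_mem _ _ (mem_sp (Finset.mem_insert_self _ _)))
  · rw [quad5, hb.unit, hb.unit, hb.unit, hb.unit, a1, a5, a4, a6, a7, a2, a9, b1, a3, b3, b2]
    nlinarith

/-- special leaf at the first node of the path -/
theorem bad6 (hb : Sys b) (h : IsT b f k e j) {v : ι} {w : ℝ}
    (ha : Att b (insert e (nodes f k)) v (f 0) w) (hw : √2 / 2 ≤ w) : False := by
  have hj := h.j2
  have hj1 := h.j1
  have a1 := h.path.seg_self hb (i := 0) (j := j) (by omega) (by omega) (fun t h1 h2 => rfl)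
  have a3 := h.path.seg_right (i := 0) (j := j) (by omega) hj
  rw [real_inner_comm] at a3
  have a4 : inner ℝ (b v) (seg b f 0 j) = - w := by
    refine seg_inner f le_rfl (by omega) _ ha.eq ?_
    intro t h1 h2 h3
    exact ha.zero _ (mT (by omega)) (h.path.ne (by omega) (by omega) h3)
  have a6 := ha.zero (f (j + 1)) (mT (by omega)) (h.path.ne (by omega) (by omega) (by omega))
  have hne : e ≠ f 0 := fun h1 => h.ne (h1 ▸ f_mem (by omega))
  have a7 := ha.zero e (Finset.mem_insert_self _ _) hne
  have b2 := h.non (j + 1) (by omega) (by omega)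
  have b3 := h.seg_e (i := 0) (i' := j) (by omega) le_rfl (by omega)
  rw [real_inner_comm] at b2 b3
  refine bad (c := √2) (notMem_sp hb ha.vS)
    (y := (2 : ℝ) • seg b f 0 j + (1 : ℝ) • b (f (j + 1)) + (1 : ℝ) • b e) ?_ sqrt2_pos.ne' ?_
  · exact Submodule.add_mem _ (Submodule.add_mem _
      (Submodule.smul_mem _ _ (seg_mem fun t h1 h2 => mT (by omega)))
      (Submodule.smul_mem _ _ (mem_sp (mT (by omega)))))
      (Submodule.smul_mem _ _ (mem_sp (Finset.mem_insert_self _ _)))
  · rw [quad4, hb.unit, hb.unit, hb.unit, a1, a4, a6, a7, a3, b3, b2]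
    have := sqrt2_mul
    have := sqrt2_w hw
    nlinarith

/-- special leaf at the additional node -/
theorem bad7 (hb : Sys b) (h : IsT b f k e (j + 1)) {v : ι} {w : ℝ}
    (ha : Att b (insert e (nodes f k)) v e w) (hw : √2 / 2 ≤ w) : False := by
  have hj := h.j2
  have hne : ∀ i < k, f i ≠ e := fun i hi h1 => h.ne (h1 ▸ f_mem hi)
  have a1 := ha.eq
  have a2 := ha.zero (f j) (mT (by omega)) (hne _ (by omega))
  have a3 := ha.zero (f (j + 1)) (mT (by omega)) (hne _ (by omega))
  have a4 := ha.zero (f (j + 2)) (mT (by omega)) (hne _ (by omega))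
  have b1 := h.non j (by omega) (by omega)
  have b2 := h.adj
  have b3 := h.non (j + 2) (by omega) (by omega)
  have c1 := h.path.adj j (by omega)
  have c2 := h.path.adj (j + 1) (by omega)
  have c3 := h.path.non j (j + 2) (by omega) (by omega)
  refine bad (c := √2) (notMem_sp hb ha.vS)
    (y := (2 : ℝ) • b e + (1 : ℝ) • b (f j) + (2 : ℝ) • b (f (j + 1)) +
      (1 : ℝ) • b (f (j + 2))) ?_ sqrt2_pos.ne' ?_
  · exact Submodule.add_mem _ (Submodule.add_mem _ (Submodule.add_mem _
      (Submodule.smul_mem _ _ (mem_sp (Finset.mem_insert_self _ _)))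
      (Submodule.smul_mem _ _ (mem_sp (mT (by omega)))))
      (Submodule.smul_mem _ _ (mem_sp (mT (by omega)))))
      (Submodule.smul_mem _ _ (mem_sp (mT (by omega))))
  · rw [quad5, hb.unit, hb.unit, hb.unit, hb.unit, hb.unit, a1, a2, a3, a4, b1, b2, b3, c1, c3, c2]
    have := sqrt2_mul
    have := sqrt2_w hw
    nlinarith

/-- leaf at the additional node, three long arms -/
theorem bad8 (hb : Sys b) (h : IsT b f k e (j + 2)) (hk : j + 4 < k) {v : ι} {w : ℝ}
    (ha : Att b (insert e (nodes f k)) v e w) : False := by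
  have hne : ∀ i < k, f i ≠ e := fun i hi h1 => h.ne (h1 ▸ f_mem hi)
  have a0 := ha.half_le
  have a1 := ha.eq
  have a2 := ha.zero (f j) (mT (by omega)) (hne _ (by omega))
  have a3 := ha.zero (f (j + 1)) (mT (by omega)) (hne _ (by omega))
  have a4 := ha.zero (f (j + 2)) (mT (by omega)) (hne _ (by omega))
  have a5 := ha.zero (f (j + 3)) (mT (by omega)) (hne _ (by omega))
  have a6 := ha.zero (f (j + 4)) (mT (by omega)) (hne _ (by omega))
  have b1 := h.non j (by omega) (by omega)
  have b2 := h.non (j + 1) (by omega) (by omega)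
  have b3 := h.adj
  have b4 := h.non (j + 3) (by omega) (by omega)
  have b5 := h.non (j + 4) (by omega) (by omega)
  have c1 := h.path.adj j (by omega)
  have c2 := h.path.adj (j + 1) (by omega)
  have c3 := h.path.adj (j + 2) (by omega)
  have c4 := h.path.adj (j + 3) (by omega)
  have d1 := h.path.non' (i := j) (j := j + 2) (by omega) (by omega)
  have d2 := h.path.non j (j + 3) (by omega) (by omega)
  have d3 := h.path.non j (j + 4) (by omega) (by omega)
  have d4 := h.path.non (j + 1) (j + 3) (by omega) (by omega)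
  have d5 := h.path.non (j + 1) (j + 4) (by omega) (by omega)
  have d6 := h.path.non (j + 2) (j + 4) (by omega) (by omega)
  obtain ⟨p, hp⟩ : ∃ p, p = b (f j) + (2 : ℝ) • b (f (j + 1)) := ⟨_, rfl⟩
  obtain ⟨q, hq⟩ : ∃ q, q = (2 : ℝ) • b (f (j + 3)) + b (f (j + 4)) := ⟨_, rfl⟩
  have hpp : inner ℝ p p = (3 : ℝ) := by
    rw [hp]
    simp only [inner_add_left, inner_add_right, inner_smul_left, inner_smul_right,
      RCLike.conj_to_real, hb.unit, c1]
    rw [real_inner_comm, c1]
    norm_num
  have hqq : inner ℝ q q = (3 : ℝ) := by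
    rw [hq]
    simp only [inner_add_left, inner_add_right, inner_smul_left, inner_smul_right,
      RCLike.conj_to_real, hb.unit, c4]
    rw [real_inner_comm, c4]
    norm_num
  have hpq : inner ℝ p q = (0 : ℝ) := by
    rw [hp, hq]
    simp only [inner_add_left, inner_add_right, inner_smul_left, inner_smul_right,
      RCLike.conj_to_real, d2, d3, d4, d5]
    norm_num
  have hcp : inner ℝ (b (f (j + 2))) p = (-1 : ℝ) := by
    rw [hp]
    rw [real_inner_comm] at c2
    simp only [inner_add_right, inner_smul_right, d1, c2]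
    norm_num
  have hcq : inner ℝ (b (f (j + 2))) q = (-1 : ℝ) := by
    rw [hq]
    simp only [inner_add_right, inner_smul_right, d6, c3]
    norm_num
  have hep : inner ℝ (b e) p = (0 : ℝ) := by
    rw [hp]; simp only [inner_add_right, inner_smul_right, b1, b2]; norm_num
  have heq : inner ℝ (b e) q = (0 : ℝ) := by
    rw [hq]; simp only [inner_add_right, inner_smul_right, b4, b5]; norm_num
  have hvp : inner ℝ (b v) p = (0 : ℝ) := by
    rw [hp]; simp only [inner_add_right, inner_smul_right, a2, a3]; norm_num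
  have hvq : inner ℝ (b v) q = (0 : ℝ) := by
    rw [hq]; simp only [inner_add_right, inner_smul_right, a5, a6]; norm_num
  refine bad (c := 1) (notMem_sp hb ha.vS)
    (y := (2 : ℝ) • b e + (3 : ℝ) • b (f (j + 2)) + (1 : ℝ) • p + (1 : ℝ) • q) ?_ one_ne_zero ?_
  · refine Submodule.add_mem _ (Submodule.add_mem _ (Submodule.add_mem _
      (Submodule.smul_mem _ _ (mem_sp (Finset.mem_insert_self _ _)))
      (Submodule.smul_mem _ _ (mem_sp (mT (by omega)))))
      (Submodule.smul_mem _ _ ?_)) (Submodule.smul_mem _ _ ?_)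
    · rw [hp]
      exact Submodule.add_mem _ (mem_sp (mT (by omega)))
        (Submodule.smul_mem _ _ (mem_sp (mT (by omega))))
    · rw [hq]
      exact Submodule.add_mem _ (Submodule.smul_mem _ _ (mem_sp (mT (by omega))))
        (mem_sp (mT (by omega)))
  · rw [quad5, hb.unit, hb.unit, hb.unit, hpp, hqq, a1, a4, hvp, hvq, b3, hep, heq, hcp, hcq, hpq]
    nlinarith

end T

/-! ### the induction step -/

theorem tyA_leaf (hb : Sys b) {S : Finset ι} {v u : ι} {w : ℝ} (hS : TyA b S)
    (ha : Att b S v u w) : TyA b (insert v S) ∨ TyB b (insert v S) ∨ TyT b (insert v S) := by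
  obtain ⟨f, k, hP, rfl⟩ := hS
  -- the leaf at the end
  have hend : ∀ (f : ℕ → ι), IsP b f k (fun _ => 1 / 2) → Att b (nodes f k) v (f (k - 1)) w →
      0 < k → TyA b (insert v (nodes f k)) ∨ TyB b (insert v (nodes f k)) := by
    intro f hP ha hk
    have h1 := hP.snoc hk ha.vS ha.eq (fun i hi hne => ha.zero _ (f_mem hi)
      (hP.ne hi (by omega) hne))
    rcases ha.wt with hw | hw
    · left
      refine ⟨_, _, h1.congr ?_, (nodes_snoc f k v).symm⟩
      intro i hi
      split_ifs
      · rfl
      · exact hw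
    · right
      refine ⟨_, _, k - 1, w, h1.congr ?_, by omega, hw, (nodes_snoc f k v).symm⟩
      intro i hi
      by_cases h2 : i < k - 1
      · rw [if_pos h2, if_neg (by omega)]
      · rw [if_neg h2, if_pos (by omega)]
  obtain ⟨i0, hi0, rfl⟩ := mem_nodes.1 ha.uS
  rcases Nat.lt_or_ge i0 (k - 1) with h1 | h1
  · rcases Nat.eq_zero_or_pos i0 with h2 | h2
    · subst h2
      have h3 := hend _ hP.rev (by
        rw [nodes_rev, show k - 1 - (k - 1) = 0 by omega]
        exact ha) (by omega)
      rw [nodes_rev] at h3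
      rcases h3 with h3 | h3
      · exact Or.inl h3
      · exact Or.inr (Or.inl h3)
    · rcases ha.wt with hw | hw
      · right; right
        refine ⟨f, k, v, i0, ⟨hP, h2, by omega, ha.vS, ?_, ?_⟩, rfl⟩
        · rw [ha.eq, hw]
        · intro i hi hne
          exact ha.zero _ (f_mem hi) (hP.ne hi hi0 hne)
      · exfalso
        obtain ⟨i, rfl⟩ : ∃ i, i0 = i + 1 := ⟨i0 - 1, by omega⟩
        exact bad1 hb hP (by omega) ha hw
  · obtain rfl : i0 = k - 1 := by omega
    rcases hend f hP ha (by omega) with h3 | h3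
    · exact Or.inl h3
    · exact Or.inr (Or.inl h3)

theorem tyB_leaf (hb : Sys b) {S : Finset ι} {v u : ι} {w : ℝ} (hS : TyB b S)
    (ha : Att b S v u w) : TyB b (insert v S) := by
  obtain ⟨f, k, j, w0, hP, hj, hw0, rfl⟩ := hS
  -- the leaf at the end
  have hend : ∀ (f : ℕ → ι) (j : ℕ), j + 1 < k → IsP b f k (fun i => if i = j then w0 else 1 / 2) →
      Att b (nodes f k) v (f (k - 1)) w → TyB b (insert v (nodes f k)) := by
    intro f j hj hP ha
    have h1 := hP.snoc (by omega) ha.vS ha.eq (fun i hi hne => ha.zero _ (f_mem hi)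
      (hP.ne hi (by omega) hne))
    rcases ha.wt with hw | hw
    · refine ⟨_, _, j, w0, h1.congr ?_, by omega, hw0, (nodes_snoc f k v).symm⟩
      intro i hi
      by_cases h2 : i < k - 1
      · rw [if_pos h2]
      · rw [if_neg h2, if_neg (by omega)]
        exact hw
    · exact absurd hw (fun _ => bad3 hb hP hw0 hj ha hw)
  obtain ⟨i0, hi0, rfl⟩ := mem_nodes.1 ha.uS
  rcases Nat.lt_or_ge i0 (k - 1) with h1 | h1
  · rcases Nat.eq_zero_or_pos i0 with h2 | h2
    · subst h2
      have h3 := hend _ (k - 2 - j) (by omega) (hP.rev.congr ?_) (by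
        rw [nodes_rev, show k - 1 - (k - 1) = 0 by omega]
        exact ha)
      · rw [nodes_rev] at h3
        exact h3
      · intro i hi
        by_cases h4 : k - 2 - i = j
        · rw [if_pos h4, if_pos (by omega)]
        · rw [if_neg h4, if_neg (by omega)]
    · exfalso
      rcases Nat.lt_or_ge j i0 with h3 | h3
      · exact bad2' hb hP hw0 h3 (by omega) ha
      · obtain ⟨i, rfl⟩ : ∃ i, i0 = i + 1 := ⟨i0 - 1, by omega⟩
        exact bad2 hb hP hw0 h3 hj ha
  · obtain rfl : i0 = k - 1 := by omega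
    exact hend f j hj hP ha

theorem tyT_leaf (hb : Sys b) {S : Finset ι} {v u : ι} {w : ℝ} (hS : TyT b S)
    (ha : Att b S v u w) : TyT b (insert v S) := by
  obtain ⟨f, k, e, j, hT, rfl⟩ := hS
  have hvf : ∀ (f : ℕ → ι), Att b (insert e (nodes f k)) v u w → v ∉ nodes f k := fun f ha h =>
    ha.vS (Finset.mem_insert_of_mem h)
  -- the leaf at the end
  have hend : ∀ (f : ℕ → ι) (j : ℕ), IsT b f k e j →
      Att b (insert e (nodes f k)) v (f (k - 1)) w → w = 1 / 2 →
      TyT b (insert v (insert e (nodes f k))) := by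
    intro f j hT ha hw
    have hj2 := hT.j2
    have h1 := hT.path.snoc (by omega) (fun h => ha.vS (Finset.mem_insert_of_mem h)) ha.eq
      (fun i hi hne => ha.zero _ (mT hi) (hT.path.ne hi (by omega) hne))
    refine ⟨_, _, e, j, ⟨h1.congr ?_, hT.j1, by omega, ?_, ?_, ?_⟩, ?_⟩
    · intro i hi
      split_ifs
      · rfl
      · exact hw
    · rw [nodes_snoc, Finset.mem_insert, not_or]
      exact ⟨fun h => ha.vS (h ▸ Finset.mem_insert_self _ _), hT.ne⟩
    · rw [if_pos (by omega)]
      exact hT.adj
    · intro i hi hne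
      by_cases h2 : i < k
      · rw [if_pos h2]
        exact hT.non i h2 hne
      · rw [if_neg h2, real_inner_comm]
        refine ha.zero e (Finset.mem_insert_self _ _) fun h => hT.ne (h ▸ f_mem (by omega))
    · rw [nodes_snoc, Finset.insert_comm]
  -- the special leaf at the end
  have hend' : w = 1 / 2 ∨ √2 / 2 ≤ w := ha.wt
  -- short arm
  have hshort : ∀ (f : ℕ → ι), IsT b f k e 1 → Att b (insert e (nodes f k)) v e w → w = 1 / 2 →
      TyT b (insert v (insert e (nodes f k))) := by
    intro f hT ha hw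
    have hk := hT.j2
    have hne : ∀ i < k, f i ≠ e := fun i hi h1 => hT.ne (h1 ▸ f_mem hi)
    have hve : v ≠ e := fun h => ha.vS (h ▸ Finset.mem_insert_self _ _)
    have hvn : ∀ i < k, f i ≠ v := fun i hi h => ha.vS (h ▸ mT hi)
    obtain ⟨f', hf'⟩ : ∃ f' : ℕ → ι, f' = fun i => if i = 0 then v else if i = 1 then e else
      f (i - 1) := ⟨_, rfl⟩
    have f0 : f' 0 = v := by rw [hf']; simp
    have f1 : f' 1 = e := by rw [hf']; simp
    have f2 : ∀ i, 2 ≤ i → f' i = f (i - 1) := by
      intro i hi
      rw [hf']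
      show (if i = 0 then v else if i = 1 then e else f (i - 1)) = f (i - 1)
      rw [if_neg (by omega), if_neg (by omega)]
    refine ⟨f', k + 1, f 0, 2, ⟨⟨?_, ?_, ?_⟩, by norm_num, by omega, ?_, ?_, ?_⟩, ?_⟩
    · intro i i' hi hi' h
      rcases Nat.lt_or_ge i 2 with h1 | h1 <;> rcases Nat.lt_or_ge i' 2 with h2 | h2
      · have h3 : i = 0 ∨ i = 1 := by omega
        have h4 : i' = 0 ∨ i' = 1 := by omega
        rcases h3 with rfl | rfl <;> rcases h4 with rfl | rfl
        · rfl
        · rw [f0, f1] at h; exact absurd h hve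
        · rw [f0, f1] at h; exact absurd h.symm hve
        · rfl
      · rw [f2 i' h2] at h
        have h3 : i = 0 ∨ i = 1 := by omega
        rcases h3 with rfl | rfl
        · rw [f0] at h; exact absurd h.symm (hvn _ (by omega))
        · rw [f1] at h; exact absurd h.symm (hne _ (by omega))
      · rw [f2 i h1] at h
        have h3 : i' = 0 ∨ i' = 1 := by omega
        rcases h3 with rfl | rfl
        · rw [f0] at h; exact absurd h (hvn _ (by omega))
        · rw [f1] at h; exact absurd h (hne _ (by omega))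
      · rw [f2 i h1, f2 i' h2] at h
        have := hT.path.inj _ _ (by omega) (by omega) h
        omega
    · intro i hi
      rcases Nat.lt_or_ge i 2 with h1 | h1
      · have h3 : i = 0 ∨ i = 1 := by omega
        rcases h3 with rfl | rfl
        · rw [f0, f1, ha.eq, hw]
        · rw [f1, f2 2 le_rfl]
          exact hT.adj
      · rw [f2 i h1, f2 (i + 1) (by omega)]
        have := hT.path.adj (i - 1) (by omega)
        rw [show i + 1 - 1 = i - 1 + 1 by omega]
        exact this
    · intro i i' hii hi'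
      rcases Nat.lt_or_ge i 2 with h1 | h1
      · have h3 : i = 0 ∨ i = 1 := by omega
        rcases h3 with rfl | rfl
        · rw [f0, f2 i' (by omega)]
          exact ha.zero _ (mT (by omega)) (hne _ (by omega))
        · rw [f1, f2 i' (by omega)]
          exact hT.non _ (by omega) (by omega)
      · rw [f2 i h1, f2 i' (by omega)]
        exact hT.path.non _ _ (by omega) (by omega)
    · intro h
      obtain ⟨i, hi, h⟩ := mem_nodes.1 h
      rcases Nat.lt_or_ge i 2 with h1 | h1
      · have h3 : i = 0 ∨ i = 1 := by omega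
        rcases h3 with rfl | rfl
        · rw [f0] at h; exact hvn 0 (by omega) h.symm
        · rw [f1] at h; exact hne 0 (by omega) h.symm
      · rw [f2 i h1] at h
        have := hT.path.inj _ _ (by omega) (by omega) h
        omega
    · rw [f2 2 le_rfl]
      exact hT.path.adj 0 (by omega)
    · intro i hi hi2
      rcases Nat.lt_or_ge i 2 with h1 | h1
      · have h3 : i = 0 ∨ i = 1 := by omega
        rcases h3 with rfl | rfl
        · rw [f0, real_inner_comm]
          exact ha.zero _ (mT (by omega)) (hne _ (by omega))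
        · rw [f1, real_inner_comm]
          exact hT.non 0 (by omega) (by omega)
      · rw [f2 i h1]
        exact hT.path.non _ _ (by omega) (by omega)
    · ext x
      simp only [Finset.mem_insert, mem_nodes]
      constructor
      · rintro (rfl | rfl | ⟨i, hi, rfl⟩)
        · exact Or.inr ⟨0, by omega, f0⟩
        · exact Or.inr ⟨1, by omega, f1⟩
        · rcases Nat.eq_zero_or_pos i with h1 | h1
          · left; rw [h1]
          · right
            refine ⟨i + 1, by omega, ?_⟩
            rw [f2 _ (by omega)]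
            rfl
      · rintro (rfl | ⟨i, hi, rfl⟩)
        · exact Or.inr (Or.inr ⟨0, by omega, rfl⟩)
        · rcases Nat.lt_or_ge i 2 with h1 | h1
          · have h3 : i = 0 ∨ i = 1 := by omega
            rcases h3 with rfl | rfl
            · exact Or.inl f0
            · exact Or.inr (Or.inl f1)
          · rw [f2 i h1]
            exact Or.inr (Or.inr ⟨i - 1, by omega, rfl⟩)
  have hj1 := hT.j1
  have hj2 := hT.j2
  have hTr := hT.rev
  have hnr := nodes_rev f k
  rcases Finset.mem_insert.1 ha.uS with hu | hu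
  · -- at the additional node
    subst hu
    rcases ha.wt with hw | hw
    · by_cases h1 : j = 1
      · subst h1
        exact hshort f hT ha hw
      · by_cases h2 : j + 2 = k
        · have h3 : k - 1 - j = 1 := by omega
          rw [h3] at hTr
          rw [← hnr] at ha ⊢
          exact hshort _ hTr ha hw
        · exfalso
          obtain ⟨i, rfl⟩ : ∃ i, j = i + 2 := ⟨j - 2, by omega⟩
          exact bad8 hb hT (by omega) ha
    · exfalso
      obtain ⟨i, rfl⟩ : ∃ i, j = i + 1 := ⟨j - 1, by omega⟩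
      exact bad7 hb hT ha hw
  · obtain ⟨i0, hi0, rfl⟩ := mem_nodes.1 hu
    rcases Nat.lt_or_ge i0 (k - 1) with h1 | h1
    · rcases Nat.eq_zero_or_pos i0 with h2 | h2
      · subst h2
        rcases ha.wt with hw | hw
        · have h3 := hend _ _ hTr (by
            rw [hnr, show k - 1 - (k - 1) = 0 by omega]
            exact ha) hw
          rw [hnr] at h3
          exact h3
        · exact absurd hw fun _ => bad6 hb hT ha hw
      · exfalso
        rcases Nat.lt_or_ge j i0 with h3 | h3
        · -- reversed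
          obtain ⟨i, hi⟩ : ∃ i, k - 1 - i0 = i + 1 := ⟨k - 2 - i0, by omega⟩
          refine bad4 hb hTr (i := i) (w := w) (v := v) (by omega) ?_
          rw [hnr, show k - 1 - (i + 1) = i0 by omega]
          exact ha
        · obtain ⟨i, rfl⟩ : ∃ i, i0 = i + 1 := ⟨i0 - 1, by omega⟩
          exact bad4 hb hT h3 ha
    · obtain rfl : i0 = k - 1 := by omega
      rcases ha.wt with hw | hw
      · exact hend f j hT ha hw
      · exfalso
        refine bad6 hb hTr (w := w) (v := v) ?_ hw
        rw [hnr]
        simpa using ha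

/-- the shape of a connected simple system -/
theorem shape (hb : Sys b) : ∀ (N : ℕ) (S : Finset ι), S.card = N → Conn b S →
    TyA b S ∨ TyB b S ∨ TyT b S := by
  intro N
  induction N with
  | zero =>
    intro S hS hc
    have := hc.1.card_pos
    omega
  | succ N ih =>
    intro S hS hc
    rcases Nat.eq_zero_or_pos N with h0 | h0
    · subst h0
      obtain ⟨x, rfl⟩ := Finset.card_eq_one.1 hS
      left
      refine ⟨fun _ => x, 1, ⟨?_, ?_, ?_⟩, ?_⟩
      · intro i j hi hj _
        omega
      · intro i hi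
        omega
      · intro i j hi hj
        omega
      · ext y
        simp [nodes]
    · obtain ⟨v, hv, u, hu, huv, hz, hc'⟩ := hb.remove_leaf hc (by omega)
      have hcard : (S.erase v).card = N := by rw [Finset.card_erase_of_mem hv]; omega
      have hne : v ≠ u := (Finset.ne_of_mem_erase hu).symm
      obtain ⟨w, hw⟩ : ∃ w, w = - inner ℝ (b v) (b u) := ⟨_, rfl⟩
      have ha : Att b (S.erase v) v u w := by
        refine ⟨Finset.notMem_erase v S, hu, by rw [hw, neg_neg], hz, ?_⟩
        rcases hb.val v u hne with h | h | h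
        · exact absurd h huv
        · left; rw [hw, h]; norm_num
        · right; rw [hw]; linarith
      have hS' : S = insert v (S.erase v) := (Finset.insert_erase hv).symm
      rw [hS']
      rcases ih _ hcard hc' with h | h | h
      · exact tyA_leaf hb h ha
      · exact Or.inr (Or.inl (tyB_leaf hb h ha))
      · exact Or.inr (Or.inr (tyT_leaf hb h ha))

end Pool.Agent.W396.Il.Cox
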