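import Pool.Agent.W396.Il.E6
import Pool.Agent.W396.Il.Cox2

set_option autoImplicit false
set_option maxRecDepth 4000

/-!
Covering of bodies preserved by reflections, in the language of unit roots of a Euclidean space.
-/

namespace Pool.Agent.W396.Il

open Set Finset

variable {E : Type*} [NormedAddCommGroup E] [InnerProductSpace ℝ E] {K : Set E}

/-- `r` is a unit vector and `K` is invariant under the orthogonal reflection in `r` -/
structure U (K : Set E) (r : E) : Prop where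
  unit : inner ℝ r r = (1 : ℝ)
  inv : ∀ x ∈ K, x - (2 * inner ℝ r x) • r ∈ K

theorem U.refl {r s : E} (hr : U K r) (hs : U K s) : U K (s - (2 * inner ℝ r s) • r) where
  unit := by
    simp only [inner_sub_left, inner_sub_right, inner_smul_left, inner_smul_right,
      RCLike.conj_to_real, hr.unit, hs.unit, real_inner_comm r s]
    ring
  inv := by
    intro x hx
    have h1 := hr.inv _ (hs.inv _ (hr.inv x hx))
    convert h1 using 1
    simp only [inner_sub_left, inner_sub_right, inner_smul_left, inner_smul_right,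
      RCLike.conj_to_real, hr.unit, hs.unit, real_inner_comm r s]
    module

theorem U.neg {r : E} (hr : U K r) : U K (-r) where
  unit := by rw [inner_neg_neg]; exact hr.unit
  inv := by
    intro x hx
    have := hr.inv x hx
    convert this using 1
    rw [inner_neg_left]
    module

theorem U.add {r s : E} (hr : U K r) (hs : U K s) (h : inner ℝ r s = -(1 / 2 : ℝ)) :
    U K (r + s) := by
  have := hr.refl hs
  rw [h] at this
  convert this using 1
  module

/-- the functional of a unit root -/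
noncomputable def fn (r : E) : E →ₗ[ℝ] ℝ := (2 : ℝ) • (innerₗ E r)

theorem fn_apply (r x : E) : fn r x = 2 * inner ℝ r x := by
  simp [fn]

theorem U.fn_inv {r : E} (h : U K r) : ∀ x ∈ K, x - fn r x • r ∈ K := by
  intro x hx
  rw [fn_apply]
  exact h.inv x hx

theorem engA {n : ℕ} (hn : 0 < n) (r : Fin n → E) (hr : ∀ i, U K (r i))
    (hG : ∀ i j : Fin n, inner ℝ (r i) (r j) = if i = j then (1 : ℝ) else
      if i.val + 1 = j.val ∨ j.val + 1 = i.val then -(1 / 2) else 0)
    (hli : LinearIndependent ℝ r) (hd : Module.finrank ℝ E = n)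
    (hK : Convex ℝ K) (hKc : IsCompact K) (hKi : (interior K).Nonempty) : Cov (2 ^ n) K := by
  haveI : Nonempty (Fin n) := ⟨⟨0, hn⟩⟩
  obtain ⟨B, hB⟩ : ∃ B : Module.Basis (Fin n) ℝ E, ∀ i, B i = r i :=
    ⟨basisOfLinearIndependentOfCardEqFinrank hli (by rw [Fintype.card_fin, hd]), fun i => by simp⟩
  refine cov_typeA hn B (fun i => fn (r i)) ?_ hK hKc hKi ?_
  · intro i j
    rw [fn_apply, hB, hG]
    split_ifs <;> norm_num
  · intro i x hx
    rw [hB]
    exact (hr i).fn_inv x hx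

theorem engD {m : ℕ} (r : Fin (m + 4) → E) (hr : ∀ i, U K (r i))
    (hG : ∀ i j : Fin (m + 4), inner ℝ (r i) (r j) = if i = j then (1 : ℝ) else
      if i.val + 1 = j.val ∧ j.val + 2 < m + 4 then -(1 / 2) else
      if j.val + 1 = i.val ∧ i.val + 2 < m + 4 then -(1 / 2) else
      if i.val + 3 = m + 4 ∧ (j.val + 2 = m + 4 ∨ j.val + 1 = m + 4) then -(1 / 2) else
      if j.val + 3 = m + 4 ∧ (i.val + 2 = m + 4 ∨ i.val + 1 = m + 4) then -(1 / 2) else 0)
    (hli : LinearIndependent ℝ r) (hd : Module.finrank ℝ E = m + 4)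
    (hK : Convex ℝ K) (hKc : IsCompact K) (hKi : (interior K).Nonempty) :
    Cov (2 ^ (m + 4)) K := by
  obtain ⟨B, hB⟩ : ∃ B : Module.Basis (Fin (m + 4)) ℝ E, ∀ i, B i = r i :=
    ⟨basisOfLinearIndependentOfCardEqFinrank hli (by rw [Fintype.card_fin, hd]), fun i => by simp⟩
  refine cov_typeD B (fun i => fn (r i)) ?_ hK hKc hKi ?_
  · intro i j
    rw [fn_apply, hB, hG]
    split_ifs <;> norm_num
  · intro i x hx
    rw [hB]
    exact (hr i).fn_inv x hx

/-- independence of vectors with given Gram matrix: if `G x = 0` only for `x = 0` -/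
theorem li_of_gram {n : ℕ} (r : Fin n → E) (G : Fin n → Fin n → ℝ)
    (hG : ∀ i j, inner ℝ (r i) (r j) = G i j)
    (h : ∀ x : Fin n → ℝ, (∀ i, ∑ j, G i j * x j = 0) → x = 0) : LinearIndependent ℝ r := by
  rw [Fintype.linearIndependent_iff]
  intro g hg i
  have h1 : g = 0 := by
    apply h
    intro i
    have h2 : inner ℝ (r i) (∑ j, g j • r j) = (0 : ℝ) := by rw [hg, inner_zero_right]
    rw [inner_sum] at h2
    rw [← h2]
    refine Finset.sum_congr rfl fun j _ => ?_
    rw [inner_smul_right, hG]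
    ring
  rw [h1]; rfl

/-- type `E₆` -/
theorem engE6 (r : Fin 6 → E) (hr : ∀ i, U K (r i))
    (hG : ∀ i j : Fin 6, inner ℝ (r i) (r j) = ((CartanMatrix.E₆ i j : ℤ) : ℝ) / 2)
    (hli : LinearIndependent ℝ r) (hd : Module.finrank ℝ E = 6)
    (hK : Convex ℝ K) (hKc : IsCompact K) (hKi : (interior K).Nonempty) : Cov 64 K := by
  obtain ⟨B, hB⟩ : ∃ B : Module.Basis (Fin 6) ℝ E, ∀ i, B i = r i :=
    ⟨basisOfLinearIndependentOfCardEqFinrank hli (by rw [Fintype.card_fin, hd]), fun i => by simp⟩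
  obtain ⟨e, he⟩ := exists_equiv B (LinearMap.pi fun k : Fin 6 => fn (r k)) (by
    rw [← LinearMap.ker_eq_bot, LinearMap.ker_eq_bot']
    intro x hx
    have h1 : ∀ i, inner ℝ (r i) x = (0 : ℝ) := by
      intro i
      have := congrFun hx i
      simp only [LinearMap.pi_apply, fn_apply, Pi.zero_apply] at this
      linarith
    have h2 : inner ℝ x x = (0 : ℝ) := by
      conv_lhs => rw [← B.sum_repr x]
      rw [sum_inner]
      refine Finset.sum_eq_zero fun i _ => ?_
      rw [inner_smul_left, hB]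
      conv_lhs => rw [B.sum_repr x]
      rw [h1, mul_zero]
    exact inner_self_eq_zero.1 h2)
  refine Cov.of_image e ?_
  have he' : ∀ x (k : Fin 6), e x k = 2 * inner ℝ (r k) x := fun x k => by
    rw [he]; exact fn_apply _ _
  have hE : E6.EBody (e '' K) := by
    refine ⟨hK.linear_image e.toLinearMap, hKc.image e.continuous, ?_, ?_⟩
    · have h1 : interior (e '' K) = e '' interior K := (e.toHomeomorph.image_interior K).symm
      rw [h1]
      exact hKi.image _
    · rintro i _ ⟨x, hx, rfl⟩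
      refine ⟨_, (hr i).inv x hx, ?_⟩
      rw [E6.sU_eq]
      ext j
      rw [he', inner_sub_right, inner_smul_right, hG, Pi.sub_apply, Pi.smul_apply, smul_eq_mul,
        he', he']
      have h2 : ((CartanMatrix.E₆ j i : ℤ) : ℝ) = E6.gw (E6.un i) j := by
        fin_cases i <;> fin_cases j <;> simp [CartanMatrix.E₆, E6.gw, E6.un]
      rw [h2]
      ring
  exact hE.cov

/-! ### simply laced systems -/

/-- integral combinations -/
noncomputable def ev {n : ℕ} (c : Fin n → E) (x : Fin n → ℤ) : E := ∑ i, (x i : ℝ) • c i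

theorem ev_add {n : ℕ} (c : Fin n → E) (x y : Fin n → ℤ) : ev c (x + y) = ev c x + ev c y := by
  unfold ev
  rw [← Finset.sum_add_distrib]
  refine Finset.sum_congr rfl fun i _ => ?_
  rw [Pi.add_apply]
  push_cast
  rw [add_smul]

theorem ev_neg {n : ℕ} (c : Fin n → E) (x : Fin n → ℤ) : ev c (-x) = - ev c x := by
  unfold ev
  rw [← Finset.sum_neg_distrib]
  refine Finset.sum_congr rfl fun i _ => ?_
  rw [Pi.neg_apply]
  push_cast
  rw [neg_smul]

theorem ev_single {n : ℕ} (c : Fin n → E) (i : Fin n) : ev c (Pi.single i 1) = c i := by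
  unfold ev
  rw [Finset.sum_eq_single i]
  · simp
  · intro j _ hj
    rw [Pi.single_eq_of_ne hj]; simp
  · simp

/-- the integral bilinear form -/
def bf {n : ℕ} (C : Matrix (Fin n) (Fin n) ℤ) (x y : Fin n → ℤ) : ℤ :=
  ∑ i, ∑ j, x i * C i j * y j

theorem inner_ev {n : ℕ} {c : Fin n → E} {C : Matrix (Fin n) (Fin n) ℤ}
    (hG : ∀ i j : Fin n, inner ℝ (c i) (c j) = ((C i j : ℤ) : ℝ) / 2) (x y : Fin n → ℤ) :
    inner ℝ (ev c x) (ev c y) = (bf C x y : ℝ) / 2 := by
  unfold ev bf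
  rw [sum_inner]
  push_cast
  rw [Finset.sum_div]
  refine Finset.sum_congr rfl fun i _ => ?_
  rw [inner_sum, Finset.sum_div]
  refine Finset.sum_congr rfl fun j _ => ?_
  rw [inner_smul_left, inner_smul_right, hG]
  simp only [RCLike.conj_to_real]
  ring

theorem U_ev_add {n : ℕ} {c : Fin n → E} {C : Matrix (Fin n) (Fin n) ℤ}
    (hG : ∀ i j : Fin n, inner ℝ (c i) (c j) = ((C i j : ℤ) : ℝ) / 2) {x y z : Fin n → ℤ}
    (hx : U K (ev c x)) (hy : U K (ev c y)) (h : bf C x y = -1) (hz : x + y = z) :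
    U K (ev c z) := by
  rw [← hz, ev_add]
  refine hx.add hy ?_
  rw [inner_ev hG, h]
  norm_num

/-- type `E₇`: the subsystem `A₇` -/
theorem engE7 (c : Fin 7 → E) (hc : ∀ i, U K (c i))
    (hG : ∀ i j : Fin 7, inner ℝ (c i) (c j) = ((CartanMatrix.E₇ i j : ℤ) : ℝ) / 2)
    (hd : Module.finrank ℝ E = 7)
    (hK : Convex ℝ K) (hKc : IsCompact K) (hKi : (interior K).Nonempty) : Cov (2 ^ 7) K := by
  have s : ∀ i, U K (ev c (Pi.single i 1)) := fun i => by rw [ev_single]; exact hc i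
  have t1 : U K (ev c ![0, 0, 1, 1, 0, 0, 0]) := U_ev_add hG (s 3) (s 2) (by decide) (by decide)
  have t2 : U K (ev c ![0, 0, 1, 1, 1, 0, 0]) := U_ev_add hG (s 4) t1 (by decide) (by decide)
  have t3 : U K (ev c ![0, 0, 1, 1, 1, 1, 0]) := U_ev_add hG (s 5) t2 (by decide) (by decide)
  have t4 : U K (ev c ![0, 1, 1, 1, 1, 1, 0]) := U_ev_add hG (s 1) t3 (by decide) (by decide)
  have t5 : U K (ev c ![1, 1, 1, 1, 1, 1, 0]) := U_ev_add hG t4 (s 0) (by decide) (by decide)
  have t6 : U K (ev c ![1, 1, 1, 1, 1, 1, 1]) := U_ev_add hG (s 6) t5 (by decide) (by decide)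
  have t7 : U K (ev c ![1, 1, 2, 2, 2, 1, 1]) := U_ev_add hG t6 t2 (by decide) (by decide)
  have t8 : U K (ev c ![1, 1, 2, 3, 2, 1, 1]) := U_ev_add hG t7 (s 3) (by decide) (by decide)
  have t9 : U K (ev c ![2, 2, 3, 4, 3, 2, 1]) := U_ev_add hG t5 t8 (by decide) (by decide)
  have t10 := t9.neg
  rw [← ev_neg] at t10
  obtain ⟨X, hX⟩ : ∃ X : Fin 7 → (Fin 7 → ℤ), X = ![-![2, 2, 3, 4, 3, 2, 1], Pi.single 0 1,
    Pi.single 2 1, Pi.single 3 1, Pi.single 4 1, Pi.single 5 1, Pi.single 6 1] := ⟨_, rfl⟩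
  have hGX : ∀ i j, inner ℝ (ev c (X i)) (ev c (X j)) = (if i = j then (1 : ℝ) else
      if i.val + 1 = j.val ∨ j.val + 1 = i.val then -(1 / 2) else 0) := by
    have h1 : ∀ i j, bf CartanMatrix.E₇ (X i) (X j) = if i = j then (2 : ℤ) else
      if i.val + 1 = j.val ∨ j.val + 1 = i.val then -1 else 0 := by
      rw [hX]; decide +kernel
    intro i j
    rw [inner_ev hG, h1]
    push_cast
    split_ifs <;> norm_num
  refine engA (by norm_num) (fun i => ev c (X i)) ?_ hGX ?_ hd hK hKc hKi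
  · intro i
    rw [hX]
    fin_cases i
    · exact t10
    · exact s 0
    · exact s 2
    · exact s 3
    · exact s 4
    · exact s 5
    · exact s 6
  · refine li_of_gram _ _ hGX fun x hx => ?_
    have e0 := hx 0
    have e1 := hx 1
    have e2 := hx 2
    have e3 := hx 3
    have e4 := hx 4
    have e5 := hx 5
    have e6 := hx 6
    rw [Fin.sum_univ_seven] at e0 e1 e2 e3 e4 e5 e6
    simp at e0 e1 e2 e3 e4 e5 e6
    ext i
    fin_cases i <;> simp <;> linarith

/-- type `E₈`: the subsystem `A₈` -/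
theorem engE8 (c : Fin 8 → E) (hc : ∀ i, U K (c i))
    (hG : ∀ i j : Fin 8, inner ℝ (c i) (c j) = ((CartanMatrix.E₈ i j : ℤ) : ℝ) / 2)
    (hd : Module.finrank ℝ E = 8)
    (hK : Convex ℝ K) (hKc : IsCompact K) (hKi : (interior K).Nonempty) : Cov (2 ^ 8) K := by
  have s : ∀ i, U K (ev c (Pi.single i 1)) := fun i => by rw [ev_single]; exact hc i
  have t1 : U K (ev c ![0, 0, 0, 0, 1, 1, 0, 0]) := U_ev_add hG (s 5) (s 4) (by decide) (by decide)
  have t2 : U K (ev c ![0, 0, 1, 1, 0, 0, 0, 0]) := U_ev_add hG (s 2) (s 3) (by decide) (by decide)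
  have t3 : U K (ev c ![0, 1, 1, 1, 0, 0, 0, 0]) := U_ev_add hG (s 1) t2 (by decide) (by decide)
  have t4 : U K (ev c ![0, 1, 1, 1, 1, 1, 0, 0]) := U_ev_add hG t1 t3 (by decide) (by decide)
  have t5 : U K (ev c ![0, 1, 1, 1, 1, 1, 1, 0]) := U_ev_add hG (s 6) t4 (by decide) (by decide)
  have t6 : U K (ev c ![0, 1, 1, 1, 1, 1, 1, 1]) := U_ev_add hG (s 7) t5 (by decide) (by decide)
  have t7 : U K (ev c ![0, 1, 1, 2, 1, 1, 1, 1]) := U_ev_add hG (s 3) t6 (by decide) (by decide)
  have t8 : U K (ev c ![1, 1, 1, 2, 1, 1, 1, 1]) := U_ev_add hG t7 (s 0) (by decide) (by decide)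
  have t9 : U K (ev c ![1, 1, 1, 2, 2, 1, 1, 1]) := U_ev_add hG (s 4) t8 (by decide) (by decide)
  have t10 : U K (ev c ![0, 0, 1, 1, 1, 1, 0, 0]) := U_ev_add hG t1 t2 (by decide) (by decide)
  have t11 : U K (ev c ![1, 1, 2, 3, 3, 2, 1, 1]) := U_ev_add hG t9 t10 (by decide) (by decide)
  have t12 : U K (ev c ![1, 2, 2, 3, 2, 2, 2, 1]) := U_ev_add hG t8 t5 (by decide) (by decide)
  have t13 : U K (ev c ![2, 3, 4, 6, 5, 4, 3, 2]) := U_ev_add hG t11 t12 (by decide) (by decide)
  have t14 := t13.neg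
  rw [← ev_neg] at t14
  obtain ⟨X, hX⟩ : ∃ X : Fin 8 → (Fin 8 → ℤ), X = ![-![2, 3, 4, 6, 5, 4, 3, 2], Pi.single 7 1,
    Pi.single 6 1, Pi.single 5 1, Pi.single 4 1, Pi.single 3 1, Pi.single 2 1,
    Pi.single 0 1] := ⟨_, rfl⟩
  have hGX : ∀ i j, inner ℝ (ev c (X i)) (ev c (X j)) = (if i = j then (1 : ℝ) else
      if i.val + 1 = j.val ∨ j.val + 1 = i.val then -(1 / 2) else 0) := by
    have h1 : ∀ i j, bf CartanMatrix.E₈ (X i) (X j) = if i = j then (2 : ℤ) else
      if i.val + 1 = j.val ∨ j.val + 1 = i.val then -1 else 0 := by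
      rw [hX]; decide +kernel
    intro i j
    rw [inner_ev hG, h1]
    push_cast
    split_ifs <;> norm_num
  refine engA (by norm_num) (fun i => ev c (X i)) ?_ hGX ?_ hd hK hKc hKi
  · intro i
    rw [hX]
    fin_cases i
    · exact t14
    · exact s 7
    · exact s 6
    · exact s 5
    · exact s 4
    · exact s 3
    · exact s 2
    · exact s 0
  · refine li_of_gram _ _ hGX fun x hx => ?_
    have e0 := hx 0
    have e1 := hx 1
    have e2 := hx 2
    have e3 := hx 3
    have e4 := hx 4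
    have e5 := hx 5
    have e6 := hx 6
    have e7 := hx 7
    rw [Fin.sum_univ_eight] at e0 e1 e2 e3 e4 e5 e6 e7
    simp at e0 e1 e2 e3 e4 e5 e6 e7
    ext i
    fin_cases i <;> simp <;> linarith

end Pool.Agent.W396.Il
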