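import Pool.Agent.W396.Il.Cox3

set_option autoImplicit false
set_option maxRecDepth 4000

/-!
Covering for every connected simple system of rank at least four.
-/

namespace Pool.Agent.W396.Il

open Set Finset Cox

variable {E : Type*} [NormedAddCommGroup E] [InnerProductSpace ℝ E] {K : Set E}

/-- `D₄` from four vectors -/
theorem engD4 (r0 r1 r2 r3 : E) (h0 : U K r0) (h1 : U K r1) (h2 : U K r2) (h3 : U K r3)
    (g01 : inner ℝ r0 r1 = -(1 / 2 : ℝ)) (g02 : inner ℝ r0 r2 = (0 : ℝ))
    (g03 : inner ℝ r0 r3 = (0 : ℝ)) (g12 : inner ℝ r1 r2 = -(1 / 2 : ℝ))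
    (g13 : inner ℝ r1 r3 = -(1 / 2 : ℝ)) (g23 : inner ℝ r2 r3 = (0 : ℝ))
    (hd : Module.finrank ℝ E = 4)
    (hK : Convex ℝ K) (hKc : IsCompact K) (hKi : (interior K).Nonempty) : Cov (2 ^ 4) K := by
  have g10 : inner ℝ r1 r0 = -(1 / 2 : ℝ) := by rw [real_inner_comm]; exact g01
  have g20 : inner ℝ r2 r0 = (0 : ℝ) := by rw [real_inner_comm]; exact g02
  have g30 : inner ℝ r3 r0 = (0 : ℝ) := by rw [real_inner_comm]; exact g03
  have g21 : inner ℝ r2 r1 = -(1 / 2 : ℝ) := by rw [real_inner_comm]; exact g12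
  have g31 : inner ℝ r3 r1 = -(1 / 2 : ℝ) := by rw [real_inner_comm]; exact g13
  have g32 : inner ℝ r3 r2 = (0 : ℝ) := by rw [real_inner_comm]; exact g23
  have hG : ∀ i j : Fin 4, inner ℝ (![r0, r1, r2, r3] i) (![r0, r1, r2, r3] j) =
      (!![1, -(1 / 2), 0, 0; -(1 / 2), 1, -(1 / 2), -(1 / 2); 0, -(1 / 2), 1, 0;
        0, -(1 / 2), 0, (1 : ℝ)] : Matrix (Fin 4) (Fin 4) ℝ) i j := by
    intro i j
    fin_cases i <;> fin_cases j
    · exact h0.unit
    · exact g01
    · exact g02
    · exact g03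
    · exact g10
    · exact h1.unit
    · exact g12
    · exact g13
    · exact g20
    · exact g21
    · exact h2.unit
    · exact g23
    · exact g30
    · exact g31
    · exact g32
    · exact h3.unit
  refine engD (m := 0) ![r0, r1, r2, r3] ?_ ?_ ?_ hd hK hKc hKi
  · intro i
    fin_cases i
    · exact h0
    · exact h1
    · exact h2
    · exact h3
  · intro i j
    rw [hG]
    fin_cases i <;> fin_cases j <;> simp
  · refine li_of_gram _ _ hG fun x hx => ?_
    have e0 := hx 0
    have e1 := hx 1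
    have e2 := hx 2
    have e3 := hx 3
    rw [Fin.sum_univ_four] at e0 e1 e2 e3
    simp at e0 e1 e2 e3
    ext i
    fin_cases i <;> simp <;> linarith

/-- type `F₄` -/
theorem engF4 (c0 c1 c2 c3 : E) (h0 : U K c0) (h1 : U K c1) (h2 : U K c2) (h3 : U K c3)
    (g01 : inner ℝ c0 c1 = -(1 / 2 : ℝ)) (g02 : inner ℝ c0 c2 = (0 : ℝ))
    (g03 : inner ℝ c0 c3 = (0 : ℝ)) (g12 : inner ℝ c1 c2 = -(√2 / 2 : ℝ))
    (g13 : inner ℝ c1 c3 = (0 : ℝ)) (g23 : inner ℝ c2 c3 = -(1 / 2 : ℝ))
    (hd : Module.finrank ℝ E = 4)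
    (hK : Convex ℝ K) (hKc : IsCompact K) (hKi : (interior K).Nonempty) : Cov (2 ^ 4) K := by
  have g10 : inner ℝ c1 c0 = -(1 / 2 : ℝ) := by rw [real_inner_comm]; exact g01
  have g20 : inner ℝ c2 c0 = (0 : ℝ) := by rw [real_inner_comm]; exact g02
  have g30 : inner ℝ c3 c0 = (0 : ℝ) := by rw [real_inner_comm]; exact g03
  have g21 : inner ℝ c2 c1 = -(√2 / 2 : ℝ) := by rw [real_inner_comm]; exact g12
  have g31 : inner ℝ c3 c1 = (0 : ℝ) := by rw [real_inner_comm]; exact g13
  have g32 : inner ℝ c3 c2 = -(1 / 2 : ℝ) := by rw [real_inner_comm]; exact g23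
  have hs := sqrt2_mul
  have t1 : U K (c1 + √2 • c2) := by
    have := h2.refl h1
    rw [g21] at this
    convert this using 1
    module
  have t2 : U K (c1 + √2 • c2 + √2 • c3) := by
    have := h3.refl t1
    rw [inner_add_right, inner_smul_right, g31, g32] at this
    convert this using 1
    module
  refine engD4 c1 c0 (c1 + √2 • c2) (c1 + √2 • c2 + √2 • c3) h1 h0 t1 t2 g10 ?_ ?_ ?_ ?_ ?_
    hd hK hKc hKi <;>
  · simp only [inner_add_left, inner_add_right, inner_smul_left, inner_smul_right,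
        RCLike.conj_to_real,
        h0.unit, h1.unit, h2.unit, h3.unit, g01, g02, g03, g12, g13, g23, g10, g20, g30, g21, g31,
        g32]
    nlinarith

/-- type `H₄` -/
theorem engH4 (c0 c1 c2 c3 : E) (h0 : U K c0) (h1 : U K c1) (h2 : U K c2) (h3 : U K c3) {τ : ℝ}
    (hτ : τ ^ 2 = τ + 1)
    (g01 : inner ℝ c0 c1 = -(1 / 2 : ℝ)) (g02 : inner ℝ c0 c2 = (0 : ℝ))
    (g03 : inner ℝ c0 c3 = (0 : ℝ)) (g12 : inner ℝ c1 c2 = -(1 / 2 : ℝ))
    (g13 : inner ℝ c1 c3 = (0 : ℝ)) (g23 : inner ℝ c2 c3 = -(τ / 2 : ℝ))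
    (hd : Module.finrank ℝ E = 4)
    (hK : Convex ℝ K) (hKc : IsCompact K) (hKi : (interior K).Nonempty) : Cov (2 ^ 4) K := by
  have g10 : inner ℝ c1 c0 = -(1 / 2 : ℝ) := by rw [real_inner_comm]; exact g01
  have g20 : inner ℝ c2 c0 = (0 : ℝ) := by rw [real_inner_comm]; exact g02
  have g30 : inner ℝ c3 c0 = (0 : ℝ) := by rw [real_inner_comm]; exact g03
  have g21 : inner ℝ c2 c1 = -(1 / 2 : ℝ) := by rw [real_inner_comm]; exact g12
  have g31 : inner ℝ c3 c1 = (0 : ℝ) := by rw [real_inner_comm]; exact g13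
  have g32 : inner ℝ c3 c2 = -(τ / 2 : ℝ) := by rw [real_inner_comm]; exact g23
  have hτ3 : τ ^ 3 = 2 * τ + 1 := by linear_combination (τ + 1) * hτ
  have hτ4 : τ ^ 4 = 3 * τ + 2 := by linear_combination (τ ^ 2 + τ + 2) * hτ
  have u1 : U K (c2 + τ • c3) := by
    have := h3.refl h2
    rw [g32] at this
    convert this using 1
    module
  have v1 : U K (τ • c2 + τ • c3) := by
    have := h2.refl u1
    rw [inner_add_right, inner_smul_right, h2.unit, g23] at this
    convert this using 1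
    match_scalars <;> nlinarith
  have v2 : U K (τ • c1 + τ • c2 + τ • c3) := by
    have := h1.refl v1
    rw [inner_add_right, inner_smul_right, inner_smul_right, g12, g13] at this
    convert this using 1
    module
  have w1 : U K (c1 + c2) := h1.add h2 g12
  have w2 : U K (c1 + c2 + τ • c3) := by
    have := h3.refl w1
    rw [inner_add_right, g31, g32] at this
    convert this using 1
    module
  have w3 : U K (c1 + (1 + τ) • c2 + τ • c3) := by
    have := h2.refl w2
    rw [inner_add_right, inner_add_right, inner_smul_right, g21, h2.unit, g23] at this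
    convert this using 1
    match_scalars <;> nlinarith
  have z1 : U K (τ • c2 + c3) := by
    have := h2.refl h3
    rw [g23] at this
    convert this using 1
    module
  have z2 : U K (τ • c1 + τ • c2 + c3) := by
    have := h1.refl z1
    rw [inner_add_right, inner_smul_right, g12, g13] at this
    convert this using 1
    module
  have z3 : U K (τ • c0 + τ • c1 + τ • c2 + c3) := by
    have := h0.refl z2
    rw [inner_add_right, inner_add_right, inner_smul_right, inner_smul_right, g01, g02, g03] at this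
    convert this using 1
    module
  refine engD4 (c2 + τ • c3) (τ • c0 + τ • c1 + τ • c2 + c3) (c1 + (1 + τ) • c2 + τ • c3)
    (τ • c1 + τ • c2 + τ • c3) u1 z3 w3 v2 ?_ ?_ ?_ ?_ ?_ ?_ hd hK hKc hKi <;>
  · simp only [inner_add_left, inner_add_right, inner_smul_left, inner_smul_right,
        RCLike.conj_to_real,
        h0.unit, h1.unit, h2.unit, h3.unit, g01, g02, g03, g12, g13, g23, g10, g20, g30, g21, g31,
        g32]
    nlinarith [hτ, hτ3, hτ4]

end Pool.Agent.W396.Il
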