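import Pool.Agent.W396.Il.Cox4

set_option autoImplicit false
set_option maxRecDepth 4000

/-!
Covering for every connected simple system of rank at least four.
-/

namespace Pool.Agent.W396.Il

open Set Finset Cox

variable {E : Type*} [NormedAddCommGroup E] [InnerProductSpace ℝ E] {K : Set E}
variable {ι : Type*} [Fintype ι] [DecidableEq ι] {b : ι → E}

omit [Fintype ι] in
/-- Gram matrix of a path -/
theorem gramP (hb : Sys b) {f : ℕ → ι} {k : ℕ} {ω : ℕ → ℝ} (h : IsP b f k ω) {i j : ℕ}
    (hi : i < k) (hj : j < k) : inner ℝ (b (f i)) (b (f j)) =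
      if i = j then (1 : ℝ) else if i + 1 = j then - ω i else if j + 1 = i then - ω j else 0 := by
  rcases lt_trichotomy i j with h1 | h1 | h1
  · rw [if_neg (by omega)]
    by_cases h2 : i + 1 = j
    · rw [if_pos h2, ← h2]
      exact h.adj i (by omega)
    · rw [if_neg h2, if_neg (by omega)]
      exact h.non i j (by omega) hj
  · rw [if_pos h1, h1]
    exact hb.unit _
  · rw [if_neg (by omega), if_neg (by omega)]
    by_cases h2 : j + 1 = i
    · rw [if_pos h2, ← h2, real_inner_comm]
      exact h.adj j (by omega)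
    · rw [if_neg h2]
      exact h.non' (by omega) hi

theorem span_top (hb : Sys b) (hd : Module.finrank ℝ E = Fintype.card ι) [Nonempty ι] :
    ⊤ ≤ Submodule.span ℝ (Set.range b) := by
  rw [hb.li.span_eq_top_of_card_eq_finrank hd.symm]

/-- type `A` -/
theorem fin_A (hb : Sys b) (hU : ∀ i, U K (b i)) (hd : Module.finrank ℝ E = Fintype.card ι)
    {f : ℕ → ι} {k : ℕ} (h : IsP b f k (fun _ => 1 / 2)) (hS : Finset.univ = nodes f k)
    (hk : 0 < k) (hK : Convex ℝ K) (hKc : IsCompact K) (hKi : (interior K).Nonempty) :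
    Cov (2 ^ k) K := by
  have hcard : Fintype.card ι = k := by
    rw [← Finset.card_univ, hS, nodes, Finset.card_image_of_injOn, Finset.card_range]
    intro i hi j hj hij
    exact h.inj i j (by simpa using hi) (by simpa using hj) hij
  refine engA hk (fun i : Fin k => b (f i.val)) (fun i => hU _) ?_ ?_ (hd.trans hcard) hK hKc hKi
  · intro i j
    rw [gramP hb h i.isLt j.isLt]
    simp only [Fin.ext_iff]
    split_ifs <;> first | rfl | omega
  · exact hb.li.comp _ fun i j hij => Fin.ext (h.inj _ _ i.isLt j.isLt hij)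

theorem card_path {f : ℕ → ι} {k : ℕ} {ω : ℕ → ℝ} (h : IsP b f k ω)
    (hS : Finset.univ = nodes f k) : Fintype.card ι = k := by
  rw [← Finset.card_univ, hS, nodes, Finset.card_image_of_injOn, Finset.card_range]
  intro i hi j hj hij
  exact h.inj i j (by simpa using hi) (by simpa using hj) hij

/-- type `D` -/
theorem fin_D (hb : Sys b) (hU : ∀ i, U K (b i)) (hd : Module.finrank ℝ E = Fintype.card ι)
    {f : ℕ → ι} {m : ℕ} {e : ι} (h : IsT b f (m + 3) e (m + 1))
    (hS : Finset.univ = insert e (nodes f (m + 3)))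
    (hK : Convex ℝ K) (hKc : IsCompact K) (hKi : (interior K).Nonempty) :
    Cov (2 ^ (m + 4)) K := by
  have hcard : Fintype.card ι = m + 4 := by
    rw [← Finset.card_univ, hS, Finset.card_insert_of_notMem h.ne, nodes,
      Finset.card_image_of_injOn, Finset.card_range]
    intro i hi j hj hij
    exact h.path.inj i j (by simpa using hi) (by simpa using hj) hij
  obtain ⟨c, hc⟩ : ∃ c : Fin (m + 4) → ι, c = fun i : Fin (m + 4) => if i.val < m + 3 then f i.val else e :=
    ⟨_, rfl⟩
  have hc1 : ∀ i : Fin (m + 4), i.val < m + 3 → c i = f i.val := by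
    intro i hi; rw [hc]; exact if_pos hi
  have hc2 : ∀ i : Fin (m + 4), ¬ i.val < m + 3 → c i = e := by
    intro i hi; rw [hc]; exact if_neg hi
  refine engD (m := m) (fun i => b (c i)) (fun i => hU _) ?_ ?_ (hd.trans hcard) hK hKc hKi
  · intro i j
    by_cases hi : i.val < m + 3 <;> by_cases hj : j.val < m + 3
    · rw [hc1 i hi, hc1 j hj, gramP hb h.path hi hj]
      simp only [Fin.ext_iff]
      split_ifs <;> first | rfl | omega
    · rw [hc1 i hi, hc2 j hj, real_inner_comm]
      have hjv : j.val = m + 3 := by omega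
      by_cases h1 : i.val = m + 1
      · rw [h1, h.adj]
        simp only [Fin.ext_iff, h1, hjv, true_and, and_true, true_or, or_true]
        split_ifs <;> first | rfl | omega
      · rw [h.non _ hi h1]
        simp only [Fin.ext_iff, hjv, true_and, and_true, true_or, or_true]
        split_ifs <;> first | rfl | omega
    · rw [hc2 i hi, hc1 j hj]
      have hjv : i.val = m + 3 := by omega
      by_cases h1 : j.val = m + 1
      · rw [h1, h.adj]
        simp only [Fin.ext_iff, h1, hjv, true_and, and_true, true_or, or_true]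
        split_ifs <;> first | rfl | omega
      · rw [h.non _ hj h1]
        simp only [Fin.ext_iff, hjv, true_and, and_true, true_or, or_true]
        split_ifs <;> first | rfl | omega
    · have hij : i = j := Fin.ext (by omega)
      rw [hc2 i hi, hc2 j hj, hb.unit, if_pos hij]
  · refine hb.li.comp _ fun i j hij => ?_
    by_cases hi : i.val < m + 3 <;> by_cases hj : j.val < m + 3
    · rw [hc1 i hi, hc1 j hj] at hij
      exact Fin.ext (h.path.inj _ _ hi hj hij)
    · rw [hc1 i hi, hc2 j hj] at hij
      exact absurd (hij ▸ f_mem hi) h.ne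
    · rw [hc2 i hi, hc1 j hj] at hij
      exact absurd (hij ▸ f_mem hj) h.ne
    · exact Fin.ext (by omega)

/-- type `B`: the subsystem `D` -/
theorem fin_B (hb : Sys b) (hU : ∀ i, U K (b i)) (hd : Module.finrank ℝ E = Fintype.card ι)
    {f : ℕ → ι} {m : ℕ}
    (h : IsP b f (m + 4) (fun i => if i = m + 2 then √2 / 2 else 1 / 2))
    (hS : Finset.univ = nodes f (m + 4))
    (hK : Convex ℝ K) (hKc : IsCompact K) (hKi : (interior K).Nonempty) :
    Cov (2 ^ (m + 4)) K := by
  have hcard := card_path h hS
  have hs := sqrt2_mul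
  haveI : Nonempty ι := ⟨f 0⟩
  obtain ⟨la, hla⟩ : ∃ la : E, la = b (f (m + 2)) + √2 • b (f (m + 3)) := ⟨_, rfl⟩
  have gg : inner ℝ (b (f (m + 3))) (b (f (m + 2))) = -(√2 / 2 : ℝ) := by
    rw [gramP hb h (by omega) (by omega), if_neg (by omega), if_neg (by omega), if_pos rfl,
      if_pos rfl]
  have gg' : inner ℝ (b (f (m + 2))) (b (f (m + 3))) = -(√2 / 2 : ℝ) := by
    rw [real_inner_comm]; exact gg
  have hUla : U K la := by
    have := (hU (f (m + 3))).refl (hU (f (m + 2)))
    rw [gg] at this
    rw [hla]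
    convert this using 1
    module
  obtain ⟨r, hr⟩ : ∃ r : Fin (m + 4) → E, r = fun i : Fin (m + 4) => if i.val < m + 3 then b (f i.val) else la :=
    ⟨_, rfl⟩
  have hr1 : ∀ i : Fin (m + 4), i.val < m + 3 → r i = b (f i.val) := by
    intro i hi; rw [hr]; exact if_pos hi
  have hr2 : ∀ i : Fin (m + 4), ¬ i.val < m + 3 → r i = la := by
    intro i hi; rw [hr]; exact if_neg hi
  have hgl : ∀ i, i < m + 3 → inner ℝ (b (f i)) la = if i = m + 1 then -(1 / 2 : ℝ) else 0 := by
    intro i hi
    rw [hla, inner_add_right, inner_smul_right, gramP hb h (by omega) (by omega),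
      gramP hb h (by omega) (by omega)]
    by_cases h1 : i = m + 2
    · subst h1
      rw [if_pos rfl, if_neg (by omega), if_pos (by omega), if_pos rfl, if_neg (by omega)]
      nlinarith
    · by_cases h2 : i = m + 1
      · subst h2
        rw [if_neg (by omega), if_pos (by omega), if_neg (by omega), if_neg (by omega),
          if_neg (by omega), if_neg (by omega), if_pos rfl]
        ring
      · rw [if_neg (by omega), if_neg (by omega), if_neg (by omega), if_neg (by omega),
          if_neg (by omega), if_neg (by omega), if_neg h2]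
        ring
  refine engD (m := m) r ?_ ?_ ?_ (hd.trans hcard) hK hKc hKi
  · intro i
    by_cases hi : i.val < m + 3
    · rw [hr1 i hi]; exact hU _
    · rw [hr2 i hi]; exact hUla
  · intro i j
    by_cases hi : i.val < m + 3 <;> by_cases hj : j.val < m + 3
    · rw [hr1 i hi, hr1 j hj, gramP hb h (by omega) (by omega)]
      simp only [Fin.ext_iff]
      split_ifs <;> first | rfl | omega
    · rw [hr1 i hi, hr2 j hj, hgl _ hi]
      have hjv : j.val = m + 3 := by omega
      simp only [Fin.ext_iff, hjv, true_and, and_true, true_or, or_true]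
      split_ifs <;> first | rfl | omega
    · rw [hr2 i hi, hr1 j hj, real_inner_comm, hgl _ hj]
      have hjv : i.val = m + 3 := by omega
      simp only [Fin.ext_iff, hjv, true_and, and_true, true_or, or_true]
      split_ifs <;> first | rfl | omega
    · have hij : i = j := Fin.ext (by omega)
      rw [hr2 i hi, hr2 j hj, hUla.unit, if_pos hij]
  · refine linearIndependent_of_top_le_span_of_card_eq_finrank ?_ ?_
    · refine (span_top hb hd).trans ?_
      rw [Submodule.span_le]
      rintro _ ⟨x, rfl⟩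
      have hx : x ∈ nodes f (m + 4) := hS ▸ Finset.mem_univ x
      obtain ⟨i, hi, rfl⟩ := mem_nodes.1 hx
      have key : ∀ i, i < m + 3 → b (f i) ∈ Submodule.span ℝ (Set.range r) := by
        intro i hi
        have := hr1 ⟨i, by omega⟩ hi
        simp only at this
        rw [← this]
        exact Submodule.subset_span ⟨_, rfl⟩
      by_cases h1 : i < m + 3
      · exact key i h1
      · obtain rfl : i = m + 3 := by omega
        have h2 := hr2 ⟨m + 3, by omega⟩ (by simp)
        have h3 : b (f (m + 3)) = (√2 / 2) • (la - b (f (m + 2))) := by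
          rw [hla, add_sub_cancel_left, smul_smul, show √2 / 2 * √2 = (1 : ℝ) by nlinarith,
            one_smul]
        rw [h3]
        refine Submodule.smul_mem _ _ (Submodule.sub_mem _ ?_ (key _ (by omega)))
        rw [← h2]
        exact Submodule.subset_span ⟨_, rfl⟩
    · rw [Fintype.card_fin, hd, hcard]

/-! ### exclusion of the remaining graphs -/

omit [Fintype ι] in
theorem bad_int (hb : Sys b) {m : ℕ} {c : Fin m → ι} (hc : Function.Injective c)
    {C : Matrix (Fin m) (Fin m) ℤ}
    (hG : ∀ i j : Fin m, inner ℝ (b (c i)) (b (c j)) = ((C i j : ℤ) : ℝ) / 2)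
    {x : Fin m → ℤ} {i0 : Fin m} (hx : x i0 ≠ 0) (h : bf C x x ≤ 0) : False := by
  have h1 : inner ℝ (ev (fun i => b (c i)) x) (ev (fun i => b (c i)) x) ≤ (0 : ℝ) := by
    rw [inner_ev hG]
    have : (bf C x x : ℝ) ≤ 0 := by exact_mod_cast h
    linarith
  have h2 : ev (fun i => b (c i)) x = 0 := real_inner_self_nonpos.1 h1
  have h3 := Fintype.linearIndependent_iff.1 (hb.li.comp c hc) (fun i => (x i : ℝ)) h2 i0
  exact hx (by exact_mod_cast h3)

/-- integral Gram matrices of the trees with a path `0, …, m - 1` and a node `m` attached at `j` -/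
def tm (m j : ℕ) : Matrix (Fin (m + 1)) (Fin (m + 1)) ℤ := fun i i' =>
  if i = i' then 2 else
  if i.val < m ∧ i'.val < m ∧ (i.val + 1 = i'.val ∨ i'.val + 1 = i.val) then -1 else
  if i.val = m ∧ i'.val = j then -1 else
  if i'.val = m ∧ i.val = j then -1 else 0

omit [Fintype ι] in
/-- the Gram matrix of a part of a tree with one branch node -/
theorem gramT (hb : Sys b) {f : ℕ → ι} {k : ℕ} {e : ι} {j : ℕ} (h : IsT b f k e j) {s m j' : ℕ}
    (hs : s + m ≤ k) (hj : s + j' = j) (hj' : j' < m) {c : Fin (m + 1) → ι}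
    (hc : c = fun i : Fin (m + 1) => if i.val < m then f (s + i.val) else e) :
    Function.Injective c ∧ ∀ i i', inner ℝ (b (c i)) (b (c i')) = ((tm m j' i i' : ℤ) : ℝ) / 2 := by
  have hc1 : ∀ i : Fin (m + 1), i.val < m → c i = f (s + i.val) := by
    intro i hi; rw [hc]; exact if_pos hi
  have hc2 : ∀ i : Fin (m + 1), ¬ i.val < m → c i = e := by
    intro i hi; rw [hc]; exact if_neg hi
  constructor
  · intro i i' hij
    by_cases hi : i.val < m <;> by_cases hi' : i'.val < m
    · rw [hc1 i hi, hc1 i' hi'] at hij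
      have := h.path.inj _ _ (by omega) (by omega) hij
      exact Fin.ext (by omega)
    · rw [hc1 i hi, hc2 i' hi'] at hij
      exact absurd (hij ▸ f_mem (by omega)) h.ne
    · rw [hc2 i hi, hc1 i' hi'] at hij
      exact absurd (hij ▸ f_mem (by omega)) h.ne
    · exact Fin.ext (by omega)
  · intro i i'
    unfold tm
    by_cases hi : i.val < m <;> by_cases hi' : i'.val < m
    · rw [hc1 i hi, hc1 i' hi', gramP hb h.path (by omega) (by omega)]
      simp only [Fin.ext_iff]
      split_ifs <;> first | omega | norm_num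
    · have hv : i'.val = m := by omega
      rw [hc1 i hi, hc2 i' hi', real_inner_comm]
      by_cases h1 : s + i.val = j
      · rw [h1, h.adj]
        simp only [Fin.ext_iff, hv, true_and]
        split_ifs <;> first | omega | norm_num
      · rw [h.non _ (by omega) h1]
        simp only [Fin.ext_iff, hv, true_and]
        split_ifs <;> first | omega | norm_num
    · have hv : i.val = m := by omega
      rw [hc2 i hi, hc1 i' hi']
      by_cases h1 : s + i'.val = j
      · rw [h1, h.adj]
        simp only [Fin.ext_iff, hv, true_and]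
        split_ifs <;> first | omega | norm_num
      · rw [h.non _ (by omega) h1]
        simp only [Fin.ext_iff, hv, true_and]
        split_ifs <;> first | omega | norm_num
    · have hij : i = i' := Fin.ext (by omega)
      rw [hc2 i hi, hc2 i' hi', hb.unit, if_pos hij]
      norm_num

omit [Fintype ι] in
/-- `Ẽ₈` -/
theorem badE8 (hb : Sys b) {f : ℕ → ι} {k : ℕ} {e : ι} (h : IsT b f k e 2) (hk : 8 ≤ k) :
    False := by
  obtain ⟨h1, h2⟩ := gramT hb h (s := 0) (m := 8) (j' := 2) (by omega) rfl (by norm_num) rfl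
  refine bad_int hb h1 h2 (x := ![2, 4, 6, 5, 4, 3, 2, 1, 3]) (i0 := 0) (by decide) ?_
  decide +kernel

omit [Fintype ι] in
/-- `Ẽ₇` -/
theorem badE7 (hb : Sys b) {f : ℕ → ι} {k : ℕ} {e : ι} {j : ℕ} (h : IsT b f k e (j + 3))
    (hk : j + 6 < k) : False := by
  obtain ⟨h1, h2⟩ := gramT hb h (s := j) (m := 7) (j' := 3) (by omega) rfl (by norm_num) rfl
  refine bad_int hb h1 h2 (x := ![1, 2, 3, 4, 3, 2, 1, 2]) (i0 := 0) (by decide) ?_
  decide +kernel

/-- the types `E` -/
theorem fin_E (hb : Sys b) (hU : ∀ i, U K (b i)) (hd : Module.finrank ℝ E = Fintype.card ι)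
    {f : ℕ → ι} {k : ℕ} {e : ι} (h : IsT b f k e 2) (hk5 : 5 ≤ k)
    (hS : Finset.univ = insert e (nodes f k))
    (hK : Convex ℝ K) (hKc : IsCompact K) (hKi : (interior K).Nonempty) :
    Cov (2 ^ (k + 1)) K := by
  have hcard : Fintype.card ι = k + 1 := by
    rw [← Finset.card_univ, hS, Finset.card_insert_of_notMem h.ne, nodes,
      Finset.card_image_of_injOn, Finset.card_range]
    intro i hi j hj hij
    exact h.path.inj i j (by simpa using hi) (by simpa using hj) hij
  have hk8 : k < 8 := by
    by_contra hcon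
    exact badE8 hb h (by omega)
  obtain ⟨h1, h2⟩ := gramT hb h (s := 0) (m := k) (j' := 2) (by omega) rfl (by omega) rfl
  simp only [zero_add] at h1 h2
  obtain ⟨c, hc⟩ : ∃ c : Fin (k + 1) → ι, c = fun i : Fin (k + 1) => if i.val < k then f i.val else e := ⟨_, rfl⟩
  rw [← hc] at h1
  have h2' : ∀ i i', inner ℝ (b (c i)) (b (c i')) = ((tm k 2 i i' : ℤ) : ℝ) / 2 := by
    rw [hc]; exact h2
  clear h2 hc
  have hk : k = 5 ∨ k = 6 ∨ k = 7 := by omega
  rcases hk with rfl | rfl | rfl
  · obtain ⟨s, hs⟩ : ∃ s : Fin 6 → Fin 6, s = ![0, 5, 1, 2, 3, 4] := ⟨_, rfl⟩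
    refine engE6 (fun i => b (c (s i))) (fun i => hU _) ?_ ?_ (hd.trans hcard) hK hKc hKi
    · intro i j
      rw [h2']
      have : ∀ i j : Fin 6, tm 5 2 (s i) (s j) = CartanMatrix.E₆ i j := by
        rw [hs]; decide +kernel
      rw [this]
    · refine hb.li.comp _ (h1.comp ?_)
      rw [hs]; decide
  · obtain ⟨s, hs⟩ : ∃ s : Fin 7 → Fin 7, s = ![0, 6, 1, 2, 3, 4, 5] := ⟨_, rfl⟩
    refine engE7 (fun i => b (c (s i))) (fun i => hU _) ?_ (hd.trans hcard) hK hKc hKi
    intro i j
    rw [h2']
    have : ∀ i j : Fin 7, tm 6 2 (s i) (s j) = CartanMatrix.E₇ i j := by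
      rw [hs]; decide +kernel
    rw [this]
  · obtain ⟨s, hs⟩ : ∃ s : Fin 8 → Fin 8, s = ![0, 7, 1, 2, 3, 4, 5, 6] := ⟨_, rfl⟩
    refine engE8 (fun i => b (c (s i))) (fun i => hU _) ?_ (hd.trans hcard) hK hKc hKi
    intro i j
    rw [h2']
    have : ∀ i j : Fin 8, tm 7 2 (s i) (s j) = CartanMatrix.E₈ i j := by
      rw [hs]; decide +kernel
    rw [this]

/-- all trees with a branch node -/
theorem fin_T (hb : Sys b) (hU : ∀ i, U K (b i)) (hd : Module.finrank ℝ E = Fintype.card ι)
    (hT : TyT b (Finset.univ : Finset ι))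
    (hK : Convex ℝ K) (hKc : IsCompact K) (hKi : (interior K).Nonempty) :
    Cov (2 ^ Fintype.card ι) K := by
  obtain ⟨f, k, e, j, h, hS⟩ := hT
  have hcard : Fintype.card ι = k + 1 := by
    rw [← Finset.card_univ, hS, Finset.card_insert_of_notMem h.ne, nodes,
      Finset.card_image_of_injOn, Finset.card_range]
    intro i hi j hj hij
    exact h.path.inj i j (by simpa using hi) (by simpa using hj) hij
  -- without loss of generality the first arm is not longer
  have main : ∀ (f : ℕ → ι) (j : ℕ), IsT b f k e j → Finset.univ = insert e (nodes f k) →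
      2 * j + 1 ≤ k → Cov (2 ^ (k + 1)) K := by
    intro f j h hS hjk
    have hj1 := h.j1
    have hj2 := h.j2
    rcases (show j = 1 ∨ j = 2 ∨ 3 ≤ j by omega) with rfl | rfl | h3
    · -- type `D`
      obtain ⟨m, rfl⟩ : ∃ m, k = m + 3 := ⟨k - 3, by omega⟩
      have h4 := h.rev
      rw [show m + 3 - 1 - 1 = m + 1 by omega] at h4
      refine fin_D hb hU hd h4 ?_ hK hKc hKi
      rw [nodes_rev]
      exact hS
    · exact fin_E hb hU hd h (by omega) hS hK hKc hKi
    · exfalso
      obtain ⟨i, rfl⟩ : ∃ i, j = i + 3 := ⟨j - 3, by omega⟩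
      exact badE7 hb h (by omega)
  rw [hcard]
  have hj2 := h.j2
  rcases Nat.lt_or_ge k (2 * j + 1) with h1 | h1
  · refine main _ _ h.rev ?_ (by omega)
    rw [nodes_rev]
    exact hS
  · exact main f j h hS h1

end Pool.Agent.W396.Il
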