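import Pool.Agent.W396.Il.Cox5

set_option autoImplicit false
set_option maxRecDepth 4000

/-!
Covering for every connected simple system of rank at least four, final step.
-/

namespace Pool.Agent.W396.Il

open Set Finset Cox

variable {E : Type*} [NormedAddCommGroup E] [InnerProductSpace ℝ E] {K : Set E}
variable {ι : Type*} [Fintype ι] [DecidableEq ι] {b : ι → E}

omit [Fintype ι] in
theorem notMem_nodes {f : ℕ → ι} {k : ℕ} {ω : ℕ → ℝ} (h : IsP b f k ω) {i : ℕ} (hi : i < k) :
    f i ∉ nodes f i := by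
  intro h1
  obtain ⟨t, ht, h2⟩ := mem_nodes.1 h1
  have := h.inj t i (by omega) hi h2
  omega

omit [Fintype ι] in
/-- `G̃₂` -/
theorem badG2 (hb : Sys b) {f : ℕ → ι} {k j : ℕ} {w : ℝ}
    (h : IsP b f k (fun i => if i = j then w else 1 / 2)) (hw : √3 / 2 ≤ w) (hj : j + 2 < k) :
    False := by
  have a1 := h.adj j (by omega)
  have a2 := h.adj (j + 1) (by omega)
  have a3 := h.non' (i := j) (j := j + 2) (by omega) (by omega)
  simp only [if_true] at a1
  rw [if_neg (by omega), real_inner_comm] at a2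
  rw [real_inner_comm] at a1
  have h3 : √3 * √3 = (3 : ℝ) := Real.mul_self_sqrt (by norm_num)
  have h3' : (0 : ℝ) < √3 := Real.sqrt_pos.2 (by norm_num)
  refine bad (c := 1) (v := b (f (j + 2))) (notMem_sp hb (notMem_nodes h (by omega)))
    (y := (2 : ℝ) • b (f (j + 1)) + (√3 : ℝ) • b (f j)) ?_ one_ne_zero ?_
  · exact Submodule.add_mem _ (Submodule.smul_mem _ _ (mem_sp (f_mem (by omega))))
      (Submodule.smul_mem _ _ (mem_sp (f_mem (by omega))))
  · rw [quad3, hb.unit, hb.unit, hb.unit, a2, a3, a1]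
    nlinarith [mul_le_mul_of_nonneg_left hw h3'.le]

omit [Fintype ι] in
/-- `F̃₄` -/
theorem badF4 (hb : Sys b) {f : ℕ → ι} {k j : ℕ}
    (h : IsP b f k (fun i => if i = j + 1 then √2 / 2 else 1 / 2)) (hj : j + 4 < k) :
    False := by
  have a1 := h.adj j (by omega)
  have a2 := h.adj (j + 1) (by omega)
  have a3 := h.adj (j + 2) (by omega)
  have a4 := h.adj (j + 3) (by omega)
  have b1 := h.non' (i := j) (j := j + 2) (by omega) (by omega)
  have b2 := h.non' (i := j) (j := j + 3) (by omega) (by omega)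
  have b3 := h.non' (i := j) (j := j + 4) (by omega) (by omega)
  have b4 := h.non' (i := j + 1) (j := j + 3) (by omega) (by omega)
  have b5 := h.non' (i := j + 1) (j := j + 4) (by omega) (by omega)
  have b6 := h.non' (i := j + 2) (j := j + 4) (by omega) (by omega)
  simp only [if_true] at a2
  rw [if_neg (by omega), real_inner_comm] at a1
  rw [real_inner_comm] at a2
  rw [if_neg (by omega), real_inner_comm] at a3
  rw [if_neg (by omega), real_inner_comm] at a4
  have hs := sqrt2_mul
  refine bad (c := 1) (v := b (f (j + 4))) (notMem_sp hb (notMem_nodes h (by omega)))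
    (y := (2 : ℝ) • b (f (j + 3)) + (3 : ℝ) • b (f (j + 2)) + (2 * √2 : ℝ) • b (f (j + 1)) +
      (√2 : ℝ) • b (f j)) ?_ one_ne_zero ?_
  · exact Submodule.add_mem _ (Submodule.add_mem _ (Submodule.add_mem _
      (Submodule.smul_mem _ _ (mem_sp (f_mem (by omega))))
      (Submodule.smul_mem _ _ (mem_sp (f_mem (by omega)))))
      (Submodule.smul_mem _ _ (mem_sp (f_mem (by omega)))))
      (Submodule.smul_mem _ _ (mem_sp (f_mem (by omega))))
  · rw [quad5, hb.unit, hb.unit, hb.unit, hb.unit, hb.unit, a4, b6, b5, b3, a3, b4, b2, a2, b1, a1]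
    nlinarith

omit [Fintype ι] in
theorem bad22 (hb : Sys b) {f : ℕ → ι} {k j : ℕ} {w : ℝ}
    (h : IsP b f k (fun i => if i = j + 1 then w else 1 / 2)) (hw : 3 / 4 ≤ w) (hj : j + 3 < k) :
    False := by
  have a1 := h.adj j (by omega)
  have a2 := h.adj (j + 1) (by omega)
  have a3 := h.adj (j + 2) (by omega)
  have b1 := h.non' (i := j) (j := j + 2) (by omega) (by omega)
  have b2 := h.non' (i := j) (j := j + 3) (by omega) (by omega)
  have b4 := h.non' (i := j + 1) (j := j + 3) (by omega) (by omega)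
  simp only [if_true] at a2
  rw [if_neg (by omega), real_inner_comm] at a1
  rw [real_inner_comm] at a2
  rw [if_neg (by omega), real_inner_comm] at a3
  refine bad (c := 1) (v := b (f (j + 3))) (notMem_sp hb (notMem_nodes h (by omega)))
    (y := (2 : ℝ) • b (f (j + 2)) + (2 : ℝ) • b (f (j + 1)) + (1 : ℝ) • b (f j)) ?_ one_ne_zero ?_
  · exact Submodule.add_mem _ (Submodule.add_mem _
      (Submodule.smul_mem _ _ (mem_sp (f_mem (by omega))))
      (Submodule.smul_mem _ _ (mem_sp (f_mem (by omega)))))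
      (Submodule.smul_mem _ _ (mem_sp (f_mem (by omega))))
  · rw [quad4, hb.unit, hb.unit, hb.unit, hb.unit, a3, b4, b2, a2, b1, a1]
    nlinarith

omit [Fintype ι] in
theorem bad41 (hb : Sys b) {f : ℕ → ι} {k : ℕ} {w : ℝ}
    (h : IsP b f k (fun i => if i = 0 then w else 1 / 2)) (hw : 4 / 5 ≤ w) (hk : 4 < k) :
    False := by
  have a1 := h.adj 0 (by omega)
  have a2 := h.adj 1 (by omega)
  have a3 := h.adj 2 (by omega)
  have a4 := h.adj 3 (by omega)
  have b1 := h.non' (i := 0) (j := 2) (by omega) (by omega)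
  have b2 := h.non' (i := 0) (j := 3) (by omega) (by omega)
  have b3 := h.non' (i := 0) (j := 4) (by omega) (by omega)
  have b4 := h.non' (i := 1) (j := 3) (by omega) (by omega)
  have b5 := h.non' (i := 1) (j := 4) (by omega) (by omega)
  have b6 := h.non' (i := 2) (j := 4) (by omega) (by omega)
  norm_num at a1 a2 a3 a4
  rw [real_inner_comm] at a1 a2 a3 a4
  refine bad (c := 1) (v := b (f 4)) (notMem_sp hb (notMem_nodes h (by omega)))
    (y := (2 : ℝ) • b (f 3) + (3 : ℝ) • b (f 2) + (4 : ℝ) • b (f 1) +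
      (16 / 5 : ℝ) • b (f 0)) ?_ one_ne_zero ?_
  · exact Submodule.add_mem _ (Submodule.add_mem _ (Submodule.add_mem _
      (Submodule.smul_mem _ _ (mem_sp (f_mem (by omega))))
      (Submodule.smul_mem _ _ (mem_sp (f_mem (by omega)))))
      (Submodule.smul_mem _ _ (mem_sp (f_mem (by omega)))))
      (Submodule.smul_mem _ _ (mem_sp (f_mem (by omega))))
  · rw [quad5, hb.unit, hb.unit, hb.unit, hb.unit, hb.unit, a4, b6, b5, b3, a3, b4, b2, a2, b1, a1]
    nlinarith

/-- the finer information on the angles -/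
def Fine (b : ι → E) : Prop := ∀ i j, i ≠ j → inner ℝ (b i) (b j) ≤ -(√2 / 2) →
  inner ℝ (b i) (b j) = -(√2 / 2) ∨ inner ℝ (b i) (b j) = -((1 + √5) / 4) ∨
    inner ℝ (b i) (b j) ≤ -(√3 / 2)

/-- paths with a special edge -/
theorem fin_P (hb : Sys b) (hf : Fine b) (hU : ∀ i, U K (b i))
    (hd : Module.finrank ℝ E = Fintype.card ι) (h4 : 4 ≤ Fintype.card ι)
    (hT : TyB b (Finset.univ : Finset ι))
    (hK : Convex ℝ K) (hKc : IsCompact K) (hKi : (interior K).Nonempty) :
    Cov (2 ^ Fintype.card ι) K := by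
  obtain ⟨f, k, j, w, h, hj, hw, hS⟩ := hT
  have hcard := card_path h hS
  have hk4 : 4 ≤ k := by omega
  have main : ∀ (f : ℕ → ι) (j : ℕ), IsP b f k (fun i => if i = j then w else 1 / 2) →
      Finset.univ = nodes f k → 2 * j + 2 ≤ k → Cov (2 ^ k) K := by
    intro f j h hS hjk
    have a1 := h.adj j (by omega)
    simp only [if_true] at a1
    have hne : f j ≠ f (j + 1) := h.ne (by omega) (by omega) (by omega)
    have h5 : (0 : ℝ) ≤ √5 := Real.sqrt_nonneg 5
    have h5' : √5 * √5 = (5 : ℝ) := Real.mul_self_sqrt (by norm_num)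
    rcases hf _ _ hne (by rw [a1]; linarith) with h1 | h1 | h1
    · -- label 4
      have hw2 : w = √2 / 2 := by rw [a1] at h1; linarith
      subst hw2
      rcases Nat.eq_zero_or_pos j with h2 | h2
      · subst h2
        obtain ⟨m, rfl⟩ : ∃ m, k = m + 4 := ⟨k - 4, by omega⟩
        refine fin_B hb hU hd (f := fun i => f (m + 4 - 1 - i)) (h.rev.congr ?_) ?_ hK hKc hKi
        · intro i hi
          by_cases h3 : m + 4 - 2 - i = 0
          · rw [if_pos h3, if_pos (by omega)]
          · rw [if_neg h3, if_neg (by omega)]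
        · rw [nodes_rev]
          exact hS
      · obtain ⟨i, rfl⟩ : ∃ i, j = i + 1 := ⟨j - 1, by omega⟩
        by_cases h3 : i + 4 < k
        · exact (badF4 hb h h3).elim
        · obtain ⟨rfl, rfl⟩ : i = 0 ∧ k = 4 := by omega
          have g : ∀ i j : ℕ, i < 4 → j < 4 → inner ℝ (b (f i)) (b (f j)) =
              if i = j then (1 : ℝ) else if i + 1 = j then - (if i = 0 + 1 then √2 / 2 else 1 / 2)
              else if j + 1 = i then - (if j = 0 + 1 then √2 / 2 else 1 / 2) else 0 :=
            fun i j hi hj => gramP hb h hi hj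
          refine engF4 (b (f 0)) (b (f 1)) (b (f 2)) (b (f 3)) (hU _) (hU _) (hU _) (hU _)
            ?_ ?_ ?_ ?_ ?_ ?_ (by rw [hd, hcard]) hK hKc hKi
          · rw [g 0 1 (by norm_num) (by norm_num)]; norm_num
          · rw [g 0 2 (by norm_num) (by norm_num)]; norm_num
          · rw [g 0 3 (by norm_num) (by norm_num)]; norm_num
          · rw [g 1 2 (by norm_num) (by norm_num)]; norm_num
          · rw [g 1 3 (by norm_num) (by norm_num)]; norm_num
          · rw [g 2 3 (by norm_num) (by norm_num)]; norm_num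
    · -- label 5
      have hw2 : w = (1 + √5) / 4 := by rw [a1] at h1; linarith
      have hw3 : 4 / 5 ≤ w := by
        rw [hw2]
        nlinarith
      rcases Nat.eq_zero_or_pos j with h2 | h2
      · subst h2
        by_cases h3 : 4 < k
        · exact (bad41 hb h hw3 h3).elim
        · obtain rfl : k = 4 := by omega
          have g : ∀ i j : ℕ, i < 4 → j < 4 → inner ℝ (b (f i)) (b (f j)) =
              if i = j then (1 : ℝ) else if i + 1 = j then - (if i = 0 then w else 1 / 2)
              else if j + 1 = i then - (if j = 0 then w else 1 / 2) else 0 :=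
            fun i j hi hj => gramP hb h hi hj
          refine engH4 (b (f 3)) (b (f 2)) (b (f 1)) (b (f 0)) (hU _) (hU _) (hU _) (hU _)
            (τ := (1 + √5) / 2) (by nlinarith)
            ?_ ?_ ?_ ?_ ?_ ?_ (by rw [hd, hcard]) hK hKc hKi
          · rw [g 3 2 (by norm_num) (by norm_num)]; norm_num
          · rw [g 3 1 (by norm_num) (by norm_num)]; norm_num
          · rw [g 3 0 (by norm_num) (by norm_num)]; norm_num
          · rw [g 2 1 (by norm_num) (by norm_num)]; norm_num
          · rw [g 2 0 (by norm_num) (by norm_num)]; norm_num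
          · rw [g 1 0 (by norm_num) (by norm_num)]; norm_num [hw2]; ring
      · obtain ⟨i, rfl⟩ : ∃ i, j = i + 1 := ⟨j - 1, by omega⟩
        exact (bad22 hb h (by linarith) (by omega)).elim
    · exact (badG2 hb h (by rw [a1] at h1; linarith) (by omega)).elim
  rw [hcard]
  rcases Nat.lt_or_ge k (2 * j + 2) with h1 | h1
  · refine main (fun i => f (k - 1 - i)) (k - 2 - j) (h.rev.congr ?_) ?_ (by omega)
    · intro i hi
      by_cases h3 : k - 2 - i = j
      · rw [if_pos h3, if_pos (by omega)]
      · rw [if_neg h3, if_neg (by omega)]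
    · rw [nodes_rev]
      exact hS
  · exact main f j h hS h1

/-- every connected simple system of rank at least four -/
theorem cov_sys (hb : Sys b) (hf : Fine b) (hc : Conn b (Finset.univ : Finset ι))
    (hU : ∀ i, U K (b i)) (hd : Module.finrank ℝ E = Fintype.card ι) (h4 : 4 ≤ Fintype.card ι)
    (hK : Convex ℝ K) (hKc : IsCompact K) (hKi : (interior K).Nonempty) :
    Cov (2 ^ Fintype.card ι) K := by
  rcases shape hb _ _ rfl hc with h | h | h
  · obtain ⟨f, k, hP, hS⟩ := h
    have hcard := card_path hP hS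
    rw [hcard]
    exact fin_A hb hU hd hP hS (by omega) hK hKc hKi
  · exact fin_P hb hf hU hd h4 h hK hKc hKi
  · exact fin_T hb hU hd h hK hKc hKi

end Pool.Agent.W396.Il
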