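import Pool.Agent.W396.Il.DnComb
import Pool.Agent.W396.Il.An2

set_option autoImplicit false

/-!
Convex bodies invariant under permutations and even sign changes.
-/

namespace Pool.Agent.W396.Il

open Set Finset

/-- a convex body with the symmetries `D_n` -/
structure DBody {n : ℕ} (K : Set (Fin n → ℝ)) : Prop where
  conv : Convex ℝ K
  comp : IsCompact K
  int : (interior K).Nonempty
  perm : ∀ σ : Equiv.Perm (Fin n), ∀ x ∈ K, (fun a => x (σ a)) ∈ K
  sgn : ∀ s : Fin n → ℝ, (∀ i, s i = 1 ∨ s i = -1) → ∏ i, s i = 1 → ∀ x ∈ K,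
    (fun a => s a * x a) ∈ K

variable {n : ℕ} {K : Set (Fin n → ℝ)}

/-- flipping the signs of two coordinates -/
theorem DBody.flip2 (h : DBody K) {i j : Fin n} (hij : i ≠ j) {x : Fin n → ℝ} (hx : x ∈ K) :
    (fun a => if a = i ∨ a = j then - x a else x a) ∈ K := by
  have h1 := h.sgn (fun a => if a = i ∨ a = j then -1 else 1) ?_ ?_ x hx
  · convert h1 using 1
    ext a
    split_ifs <;> ring
  · intro a
    by_cases ha : a = i ∨ a = j
    · right; simp [ha]
    · left; simp [ha]
  · rw [Finset.prod_ite, Finset.prod_const, Finset.prod_const_one, mul_one]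
    have : (Finset.univ.filter fun a => a = i ∨ a = j) = {i, j} := by
      ext a; simp
    rw [this, Finset.card_pair hij]
    norm_num

theorem DBody.zero_int (h : DBody K) (hn : 2 ≤ n) : (0 : Fin n → ℝ) ∈ interior K := by
  classical
  have key : ∀ S : Finset (Fin n), ∃ y ∈ interior K, ∀ i ∈ S, y i = 0 := by
    intro S
    induction S using Finset.induction_on with
    | empty =>
      obtain ⟨y, hy⟩ := h.int
      exact ⟨y, hy, by simp⟩
    | insert i S hi ih =>
      obtain ⟨y, hy, hy0⟩ := ih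
      obtain ⟨j, hj⟩ : ∃ j : Fin n, i ≠ j := by
        haveI : Nontrivial (Fin n) := Fin.nontrivial_iff_two_le.2 hn
        obtain ⟨j, hj⟩ := exists_ne i
        exact ⟨j, hj.symm⟩
      have h1 := h.conv.combo_interior_self_mem_interior hy (h.flip2 hj (interior_subset hy))
        (a := 1 / 2) (b := 1 / 2) (by norm_num) (by norm_num) (by norm_num)
      refine ⟨_, h1, fun k hk => ?_⟩
      simp only [Pi.add_apply, Pi.smul_apply, smul_eq_mul]
      by_cases hk' : k = i ∨ k = j
      · rw [if_pos hk']; ring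
      · rw [if_neg hk']
        rcases Finset.mem_insert.1 hk with h2 | h2
        · exact absurd (Or.inl h2) hk'
        · rw [hy0 k h2]; ring
  obtain ⟨y, hy, h0⟩ := key Finset.univ
  have : y = 0 := by
    ext i; exact h0 i (Finset.mem_univ i)
  rwa [this] at hy

theorem sum_pair_change {u x y : Fin n → ℝ} {i j : Fin n} (hij : i ≠ j)
    (h : ∀ k, k ≠ i → k ≠ j → y k = x k) :
    ∑ a, u a * y a = ∑ a, u a * x a + u i * (y i - x i) + u j * (y j - x j) := by
  have h1 : ∑ a, u a * y a - ∑ a, u a * x a = ∑ a, u a * (y a - x a) := by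
    rw [← Finset.sum_sub_distrib]
    exact Finset.sum_congr rfl fun a _ => by ring
  have h2 : ∑ a, u a * (y a - x a) = ∑ a ∈ {i, j}, u a * (y a - x a) := by
    symm
    refine Finset.sum_subset (Finset.subset_univ _) fun a _ ha => ?_
    simp only [Finset.mem_insert, Finset.mem_singleton, not_or] at ha
    rw [h a ha.1 ha.2, sub_self, mul_zero]
  rw [h2, Finset.sum_pair hij] at h1
  linarith

theorem DBody.root_sub (h : DBody K) {x u : Fin n → ℝ} (hx : x ∈ K) (hu : Nrm K x u)
    (i j : Fin n) : 0 ≤ (u i - u j) * (x i - x j) := by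
  by_cases hij : i = j
  · subst hij; simp
  have h1 := hu _ (h.perm (Equiv.swap i j) x hx)
  rw [sum_pair_change (x := x) hij fun k hk hk' => by
    rw [Equiv.swap_apply_of_ne_of_ne hk hk']] at h1
  simp only [Equiv.swap_apply_left, Equiv.swap_apply_right] at h1
  nlinarith

theorem DBody.root_add (h : DBody K) {x u : Fin n → ℝ} (hx : x ∈ K) (hu : Nrm K x u)
    {i j : Fin n} (hij : i ≠ j) : 0 ≤ (u i + u j) * (x i + x j) := by
  have h1 := hu _ (h.flip2 hij (h.perm (Equiv.swap i j) x hx))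
  rw [sum_pair_change (x := x) hij fun k hk hk' => by
    rw [if_neg (by tauto), Equiv.swap_apply_of_ne_of_ne hk hk']] at h1
  simp only [Equiv.swap_apply_left, Equiv.swap_apply_right] at h1
  simp only [true_or, or_true, if_true] at h1
  nlinarith

/-- the pattern of `-x` -/
noncomputable def pat (x : Fin n → ℝ) : Fin n → Bool := fun i => decide (x i < 0)

theorem sg_pat (x : Fin n → ℝ) (i : Fin n) : sg (pat x i) * x i = - |x i| := by
  unfold pat sg
  by_cases h : x i < 0
  · simp [h, abs_of_neg h]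
  · simp [h, abs_of_nonneg (not_lt.1 h)]

theorem x_eq_pat (x : Fin n → ℝ) (i : Fin n) : x i = - sg (pat x i) * |x i| := by
  have h1 := sg_pat x i
  have h2 := sg_mul_self (pat x i)
  calc x i = (sg (pat x i) * sg (pat x i)) * x i := by rw [h2, one_mul]
    _ = sg (pat x i) * (sg (pat x i) * x i) := by ring
    _ = _ := by rw [h1]; ring

/-- the coordinates of a normal, relative to the signs of `x` -/
noncomputable def rel (x u : Fin n → ℝ) (i : Fin n) : ℝ := - sg (pat x i) * u i

theorem abs_rel (x u : Fin n → ℝ) (i : Fin n) : |rel x u i| = |u i| := by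
  unfold rel
  rcases sg_cases (pat x i) with h | h <;> rw [h] <;> simp

theorem DBody.rel_ge (h : DBody K) {x u : Fin n → ℝ} (hx : x ∈ K) (hu : Nrm K x u)
    {i j : Fin n} (hij : |x j| < |x i|) : |u j| ≤ rel x u i := by
  have hne : i ≠ j := by rintro rfl; exact lt_irrefl _ hij
  have h1 := h.root_sub hx hu i j
  have h2 := h.root_add hx hu hne
  unfold rel
  have h3 := sg_pat x i
  rw [abs_lt] at hij
  rcases sg_cases (pat x i) with hs | hs
  · rw [hs] at h3 ⊢
    rw [one_mul] at h3
    have h4 : |x i| = - x i := by linarith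
    rw [h4] at hij
    have h5 : x i - x j < 0 := by linarith [hij.1]
    have h6 : x i + x j < 0 := by linarith [hij.2]
    have h7 : u i - u j ≤ 0 := by
      by_contra hc; push Not at hc; nlinarith [mul_pos hc (neg_pos.2 h5)]
    have h8 : u i + u j ≤ 0 := by
      by_contra hc; push Not at hc; nlinarith [mul_pos hc (neg_pos.2 h6)]
    rw [abs_le]; constructor <;> linarith
  · rw [hs] at h3 ⊢
    have h4 : |x i| = x i := by linarith
    rw [h4] at hij
    have h5 : 0 < x i - x j := by linarith [hij.2]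
    have h6 : 0 < x i + x j := by linarith [hij.1]
    have h7 : 0 ≤ u i - u j := by
      by_contra hc; push Not at hc; nlinarith [mul_pos (neg_pos.2 hc) h5]
    have h8 : 0 ≤ u i + u j := by
      by_contra hc; push Not at hc; nlinarith [mul_pos (neg_pos.2 hc) h6]
    rw [abs_le]; constructor <;> linarith

theorem DBody.rel_add (h : DBody K) {x u : Fin n → ℝ} (hx : x ∈ K) (hu : Nrm K x u)
    {i j : Fin n} (hne : i ≠ j) (hij : |x i| = |x j|) (h0 : 0 < |x i|) :
    0 ≤ rel x u i + rel x u j := by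
  have h1 := h.root_sub hx hu i j
  have h2 := h.root_add hx hu hne
  have e1 := x_eq_pat x i
  have e2 := x_eq_pat x j
  rw [← hij] at e2
  obtain ⟨c, hc⟩ : ∃ c, c = |x i| := ⟨_, rfl⟩
  rw [← hc] at h0 e1 e2
  unfold rel
  rw [e1, e2] at h1 h2
  rcases sg_cases (pat x i) with hs | hs <;> rcases sg_cases (pat x j) with hs' | hs' <;>
    rw [hs, hs'] at h1 h2 ⊢ <;> by_contra hcon <;> push Not at hcon <;>
    nlinarith [mul_pos h0 (neg_pos.2 hcon)]

theorem rel_ne (x : Fin n → ℝ) {u : Fin n → ℝ} (hu : u ≠ 0) : ∃ i, rel x u i ≠ 0 := by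
  obtain ⟨i, hi⟩ : ∃ i, u i ≠ 0 := by
    by_contra hcon
    push Not at hcon
    exact hu (funext hcon)
  refine ⟨i, fun h => hi ?_⟩
  have := abs_rel x u i
  rw [h, abs_zero] at this
  exact abs_eq_zero.1 this.symm

/-- the directions -/
noncomputable def dv (p : (Fin n → Bool) → Fin n) (P : ℝ) (ε : Fin n → Bool) : Fin n → ℝ :=
  fun i => sg (ε i) * (if i = p ε then P else 1)

/-- points with a nonconstant `|x|` -/
theorem DBody.ill_nonconst (h : DBody K) {x : Fin n → ℝ} (hx : x ∈ K) {S : Finset (Fin n)}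
    (hS : ∀ i ∈ S, ∀ j, j ∉ S → |x j| < |x i|) {j0 : Fin n} (hj0 : j0 ∉ S)
    {p : (Fin n → Bool) → Fin n} {P : ℝ} {ε : Fin n → Bool} (hε : ∀ i ∈ S, ε i = pat x i)
    (hp : p ε ∈ S) (hP0 : 0 < P) (hP : (n : ℝ) - 2 * S.card + 1 < P) : Ill K (dv p P ε) x := by
  refine ill_of_nrm h.conv h.int hx fun u hu0 hu => ?_
  have hge : ∀ i ∈ S, ∀ j, j ∉ S → |u j| ≤ rel x u i := fun i hi j hj => h.rel_ge hx hu (hS i hi j hj)
  obtain ⟨j1, hj1, hmax⟩ := Finset.exists_max_image Sᶜ (fun j => |u j|) ⟨j0, by simpa using hj0⟩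
  obtain ⟨m0, hm0⟩ : ∃ m0, m0 = |u j1| := ⟨_, rfl⟩
  have hm0n : 0 ≤ m0 := by rw [hm0]; exact abs_nonneg _
  have hm1 : ∀ j, j ∉ S → |u j| ≤ m0 := fun j hj => by
    rw [hm0]; exact hmax j (by simpa using hj)
  have hm2 : ∀ i ∈ S, m0 ≤ rel x u i := fun i hi => by
    rw [hm0]; exact hge i hi j1 (by simpa using hj1)
  have e1 : ∑ a, u a * dv p P ε a = ∑ a ∈ S, u a * dv p P ε a + ∑ a ∈ Sᶜ, u a * dv p P ε a :=
    (Finset.sum_add_sum_compl S _).symm
  have e2 : ∑ a ∈ S, u a * dv p P ε a = - ∑ a ∈ S, rel x u a * (if a = p ε then P else 1) := by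
    rw [← Finset.sum_neg_distrib]
    refine Finset.sum_congr rfl fun a ha => ?_
    rw [dv, rel, hε a ha]
    ring
  have e3 : ∑ a ∈ Sᶜ, u a * dv p P ε a ≤ Sᶜ.card * m0 := by
    have : ∑ a ∈ Sᶜ, u a * dv p P ε a ≤ ∑ a ∈ Sᶜ, m0 := by
      refine Finset.sum_le_sum fun a ha => ?_
      have ha' : a ∉ S := by simpa using ha
      rw [dv, if_neg (by rintro rfl; exact ha' hp), mul_one]
      refine le_trans ?_ (hm1 a ha')
      rcases sg_cases (ε a) with hs | hs <;> rw [hs]
      · rw [mul_one]; exact le_abs_self _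
      · rw [mul_neg_one]; exact neg_le_abs _
    rwa [Finset.sum_const, nsmul_eq_mul] at this
  have hcard : (Sᶜ.card : ℝ) = n - S.card := by
    rw [Finset.card_compl, Fintype.card_fin, Nat.cast_sub]
    simpa using Finset.card_le_univ S
  have e4 : ∀ t : ℝ, ∑ a ∈ S, t * (if a = p ε then P else 1) = t * (S.card - 1 + P) := by
    intro t
    rw [← Finset.mul_sum]
    congr 1
    have : ∀ a ∈ S, (if a = p ε then P else (1 : ℝ)) = 1 + if a = p ε then (P - 1) else 0 := by
      intro a _; split_ifs <;> ring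
    rw [Finset.sum_congr rfl this, Finset.sum_add_distrib, Finset.sum_const, nsmul_eq_mul,
      Finset.sum_ite_eq' S (p ε), if_pos hp]
    ring
  rcases hm0n.eq_or_lt with h0 | h0
  · -- all outer coordinates vanish
    rw [← h0, mul_zero] at e3
    obtain ⟨i, hi⟩ := rel_ne x hu0
    have hiS : i ∈ S := by
      by_contra hc
      have h5 := hm1 i hc
      rw [← h0, ← abs_rel x u i] at h5
      exact hi (abs_nonpos_iff.1 h5)
    have h6 : 0 < ∑ a ∈ S, rel x u a * (if a = p ε then P else 1) := by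
      refine Finset.sum_pos' (fun a ha => ?_) ⟨i, hiS, ?_⟩
      · have := hm2 a ha
        refine mul_nonneg (by linarith) ?_
        split_ifs <;> linarith
      · have h7 := hm2 i hiS
        have h8 : 0 < rel x u i := lt_of_le_of_ne (by linarith) hi.symm
        refine mul_pos h8 ?_
        split_ifs <;> linarith
    linarith
  · have h6 : m0 * (S.card - 1 + P) ≤ ∑ a ∈ S, rel x u a * (if a = p ε then P else 1) := by
      rw [← e4]
      refine Finset.sum_le_sum fun a ha => mul_le_mul_of_nonneg_right (hm2 a ha) ?_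
      split_ifs <;> linarith
    rw [hcard] at e3
    nlinarith

/-- the points with constant `|x|` -/
theorem DBody.ill_const (h : DBody K) {x : Fin n → ℝ} (hx : x ∈ K) {c : ℝ} (hc : 0 < c)
    (hxc : ∀ i, |x i| = c) {p : (Fin n → Bool) → Fin n} {P : ℝ} (hP0 : 1 ≤ P) (hn : 4 ≤ n)
    (hw : (∀ u, Nrm K x u → ∀ i, 0 ≤ rel x u i) ∨ P < n - 1) : Ill K (dv p P (pat x)) x := by
  refine ill_of_nrm h.conv h.int hx fun u hu0 hu => ?_
  have hn' : (4 : ℝ) ≤ n := by exact_mod_cast hn
  have e2 : ∑ a, u a * dv p P (pat x) a =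
      - ∑ a, rel x u a * (if a = p (pat x) then P else 1) := by
    rw [← Finset.sum_neg_distrib]
    refine Finset.sum_congr rfl fun a ha => ?_
    rw [dv, rel]
    ring
  rw [e2, neg_lt_zero]
  by_cases hall : ∀ i, 0 ≤ rel x u i
  · obtain ⟨i, hi⟩ := rel_ne x hu0
    refine Finset.sum_pos' (fun a _ => ?_) ⟨i, Finset.mem_univ i, ?_⟩
    · refine mul_nonneg (hall a) ?_
      split_ifs <;> linarith
    · refine mul_pos (lt_of_le_of_ne (hall i) hi.symm) ?_
      split_ifs <;> linarith
  · have hPn : P < n - 1 := by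
      rcases hw with hw | hw
      · exact absurd (hw u hu) hall
      · exact hw
    push Not at hall
    obtain ⟨l, hl⟩ := hall
    have hoth : ∀ i, i ≠ l → - rel x u l ≤ rel x u i := by
      intro i hi
      have := h.rel_add hx hu hi (by rw [hxc, hxc]) (by rw [hxc]; exact hc)
      linarith
    rw [← Finset.add_sum_erase _ _ (Finset.mem_univ l)]
    obtain ⟨μ, hμ⟩ : ∃ μ : Fin n → ℝ, μ = fun a => if a = p (pat x) then P else 1 := ⟨_, rfl⟩
    have hμ1 : ∀ a, 1 ≤ μ a := by
      intro a; rw [hμ]; simp only; split_ifs <;> linarith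
    have hμa : ∀ a, (if a = p (pat x) then P else (1 : ℝ)) = μ a := by
      intro a; rw [hμ]
    simp only [hμa]
    have h1 : (- rel x u l) * ∑ a ∈ Finset.univ.erase l, μ a ≤
        ∑ a ∈ Finset.univ.erase l, rel x u a * μ a := by
      rw [Finset.mul_sum]
      refine Finset.sum_le_sum fun a ha => ?_
      exact mul_le_mul_of_nonneg_right (hoth a (Finset.ne_of_mem_erase ha))
        (by linarith [hμ1 a])
    have h2 : ∑ a, μ a = n - 1 + P := by
      have : ∀ a ∈ Finset.univ, μ a = 1 + if a = p (pat x) then (P - 1) else 0 := by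
        intro a _; rw [← hμa]; split_ifs <;> ring
      rw [Finset.sum_congr rfl this, Finset.sum_add_distrib, Finset.sum_const, nsmul_eq_mul,
        Finset.sum_ite_eq', if_pos (Finset.mem_univ _), Finset.card_univ, Fintype.card_fin]
      ring
    have h3 : μ l + ∑ a ∈ Finset.univ.erase l, μ a = n - 1 + P := by
      rw [Finset.add_sum_erase _ _ (Finset.mem_univ l), h2]
    have h4 : μ l ≤ P := by
      rw [hμ]; simp only; split_ifs <;> linarith
    have h5 : μ l < ∑ a ∈ Finset.univ.erase l, μ a := by linarith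
    nlinarith [mul_lt_mul_of_pos_left h5 (neg_pos.2 hl)]

/-- the comparison of the two classes -/
theorem DBody.rel_nonneg (h : DBody K) {x x' : Fin n → ℝ} (hx : x ∈ K) (hx' : x' ∈ K) {c c' : ℝ}
    (hc : 0 < c) (hcc : c ≤ c') (hxc : ∀ i, |x i| = c) (hxc' : ∀ i, |x' i| = c')
    (hpar : par (pat x) ≠ par (pat x')) (hn : 2 ≤ n) {u : Fin n → ℝ} (hu : Nrm K x u) (l : Fin n) :
    0 ≤ rel x u l := by
  by_contra hl
  push Not at hl
  have hn' : (2 : ℝ) ≤ n := by exact_mod_cast hn
  have hc' : 0 < c' := hc.trans_le hcc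
  have hoth : ∀ i, i ≠ l → - rel x u l ≤ rel x u i := by
    intro i hi
    have := h.rel_add hx hu hi (by rw [hxc, hxc]) (by rw [hxc]; exact hc)
    linarith
  have hsum : 0 ≤ ∑ a, rel x u a := by
    rw [← Finset.add_sum_erase _ _ (Finset.mem_univ l)]
    have h1 : (Finset.univ.erase l).card * (- rel x u l) ≤ ∑ a ∈ Finset.univ.erase l, rel x u a := by
      have := Finset.sum_le_sum (s := Finset.univ.erase l)
        fun a ha => hoth a (Finset.ne_of_mem_erase ha)
      rwa [Finset.sum_const, nsmul_eq_mul] at this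
    rw [Finset.card_erase_of_mem (Finset.mem_univ l), Finset.card_univ, Fintype.card_fin,
      Nat.cast_sub (by omega)] at h1
    push_cast at h1
    nlinarith
  -- the point
  have hs := h.sgn (fun i => sg (pat x' i) * sg (pat x i) * (if i = l then -1 else 1)) ?_ ?_ x' hx'
  · have hu1 := hu _ hs
    have e1 : ∑ a, u a * x a = c * ∑ a, rel x u a := by
      rw [Finset.mul_sum]
      refine Finset.sum_congr rfl fun a _ => ?_
      conv_lhs => rw [x_eq_pat x a, hxc a]
      rw [rel]; ring
    have e2 : ∑ a, u a * (sg (pat x' a) * sg (pat x a) * (if a = l then -1 else 1) * x' a) =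
        c' * (∑ a, rel x u a - 2 * rel x u l) := by
      have e3 : ∀ a, u a * (sg (pat x' a) * sg (pat x a) * (if a = l then -1 else 1) * x' a) =
          c' * (rel x u a) - if a = l then 2 * c' * rel x u a else 0 := by
        intro a
        have e4 : sg (pat x' a) * x' a = - c' := by rw [sg_pat, hxc' a]
        calc u a * (sg (pat x' a) * sg (pat x a) * (if a = l then -1 else 1) * x' a)
            = u a * sg (pat x a) * (if a = l then -1 else 1) * (sg (pat x' a) * x' a) := by ring
          _ = _ := by rw [e4, rel]; split_ifs <;> ring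
      rw [Finset.sum_congr rfl fun a _ => e3 a, Finset.sum_sub_distrib, Finset.sum_ite_eq',
        if_pos (Finset.mem_univ l), ← Finset.mul_sum]
      ring
    rw [e1, e2] at hu1
    nlinarith [mul_nonneg (sub_nonneg.2 hcc) hsum, mul_pos hc' (neg_pos.2 hl)]
  · intro i
    rcases sg_cases (pat x' i) with h1 | h1 <;> rcases sg_cases (pat x i) with h2 | h2 <;>
      rw [h1, h2] <;> split_ifs <;> norm_num
  · rw [Finset.prod_mul_distrib, Finset.prod_mul_distrib, Finset.prod_ite_eq',
      if_pos (Finset.mem_univ l)]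
    have h3 : (∏ i, sg (pat x' i)) = par (pat x') := rfl
    have h4 : (∏ i, sg (pat x i)) = par (pat x) := rfl
    rw [h3, h4]
    rcases par_cases (pat x') with h5 | h5 <;> rcases par_cases (pat x) with h6 | h6
    · exact absurd (h6.trans h5.symm) hpar
    · rw [h5, h6]; norm_num
    · rw [h5, h6]; norm_num
    · exact absurd (h6.trans h5.symm) hpar

/-- the choice of the parity -/
theorem DBody.exists_parity (h : DBody K) (hn : 2 ≤ n) :
    ∃ π : ℝ, (π = 1 ∨ π = -1) ∧ ∀ x ∈ K, ∀ c : ℝ, 0 < c → (∀ i, |x i| = c) → par (pat x) = π →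
      ∀ u, Nrm K x u → ∀ i, 0 ≤ rel x u i := by
  by_cases h1 : ∀ x ∈ K, ∀ c : ℝ, 0 < c → (∀ i, |x i| = c) → par (pat x) = 1 →
      ∃ x' ∈ K, ∃ c', c ≤ c' ∧ (∀ i, |x' i| = c') ∧ par (pat x') = -1
  · refine ⟨1, Or.inl rfl, fun x hx c hc hxc hp u hu i => ?_⟩
    obtain ⟨x', hx', c', hcc, hxc', hp'⟩ := h1 x hx c hc hxc hp
    exact h.rel_nonneg hx hx' hc hcc hxc hxc' (by rw [hp, hp']; norm_num) hn hu i
  · push Not at h1
    obtain ⟨x1, hx1, c1, hc1, hxc1, hp1, h2⟩ := h1
    refine ⟨-1, Or.inr rfl, fun x hx c hc hxc hp u hu i => ?_⟩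
    have hcc : c ≤ c1 := by
      by_contra hcon
      push Not at hcon
      exact h2 x hx c hcon.le hxc hp
    exact h.rel_nonneg hx hx1 hc hcc hxc hxc1 (by rw [hp, hp1]; norm_num) hn hu i

theorem DBody.cov {m : ℕ} {K : Set (Fin (m + 4) → ℝ)} (h : DBody K) : Cov (2 ^ (m + 4)) K := by
  classical
  obtain ⟨π, hπ, hpos⟩ := h.exists_parity (by omega)
  obtain ⟨p, hp1, hp2⟩ := exists_peaks m π hπ
  have hm0 : (0 : ℝ) ≤ m := Nat.cast_nonneg m
  have hnc : ((m + 4 : ℕ) : ℝ) = (m : ℝ) + 4 := by push_cast; ring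
  have hmain := cov_of_ill h.conv h.comp
    (fun ε : Fin (m + 4) → Bool =>
      dv p (if par ε = π then ((m + 4 : ℕ) : ℝ) else ((m + 4 : ℕ) : ℝ) - 3 / 2) ε) ?_
  · rwa [Fintype.card_fun, Fintype.card_bool, Fintype.card_fin] at hmain
  intro x hx
  by_cases hconst : ∀ i, |x i| = |x 0|
  · rcases (abs_nonneg (x 0)).eq_or_lt with h0 | h0
    · have hx0 : x = 0 := by
        ext i
        have := hconst i
        rw [← h0] at this
        exact abs_eq_zero.1 this
      refine ⟨fun _ => true, ?_⟩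
      rw [hx0]
      exact ill_of_int (h.zero_int (by omega)) _
    · refine ⟨pat x, ?_⟩
      by_cases hpar : par (pat x) = π
      · rw [if_pos hpar]
        exact h.ill_const hx h0 hconst (by rw [hnc]; linarith) (by omega)
          (Or.inl fun u hu => hpos x hx _ h0 hconst hpar u hu)
      · rw [if_neg hpar]
        exact h.ill_const hx h0 hconst (by rw [hnc]; linarith) (by omega)
          (Or.inr (by linarith))
  · -- the maximal coordinates
    obtain ⟨i0, -, hi0⟩ := Finset.exists_max_image Finset.univ (fun i => |x i|)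
      ⟨0, Finset.mem_univ _⟩
    obtain ⟨S, hS⟩ : ∃ S : Finset (Fin (m + 4)), S = Finset.univ.filter fun i => |x i| = |x i0| :=
      ⟨_, rfl⟩
    have hmem : ∀ i, i ∈ S ↔ |x i| = |x i0| := by intro i; rw [hS]; simp
    have hi0S : i0 ∈ S := (hmem i0).2 rfl
    have hlt : ∀ i ∈ S, ∀ j, j ∉ S → |x j| < |x i| := by
      intro i hi j hj
      rw [(hmem i).1 hi]
      exact lt_of_le_of_ne (hi0 j (Finset.mem_univ j)) fun h1 => hj ((hmem j).2 h1)
    obtain ⟨j0, hj0⟩ : ∃ j0, j0 ∉ S := by
      by_contra hcon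
      push Not at hcon
      exact hconst fun i => ((hmem i).1 (hcon i)).trans ((hmem 0).1 (hcon 0)).symm
    by_cases hcard : S.card = 1
    · obtain ⟨i, hi⟩ := Finset.card_eq_one.1 hcard
      obtain ⟨ε, e1, e2, e3⟩ := hp2 i (pat x i)
      refine ⟨ε, ?_⟩
      rw [if_pos e1]
      refine h.ill_nonconst hx hlt hj0 ?_ ?_ ?_ ?_
      · intro j hj
        rw [hi, Finset.mem_singleton] at hj
        rw [hj, e2]
      · rw [e3, hi]; exact Finset.mem_singleton_self i
      · rw [hnc]; linarith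
      · rw [hcard]; push_cast; linarith
    · obtain ⟨ε, e1, e2⟩ := hp1 S ⟨i0, hi0S⟩ (pat x)
      have hcard2 : 2 ≤ S.card := by
        have : 0 < S.card := Finset.card_pos.2 ⟨i0, hi0S⟩
        omega
      have hcard2' : (2 : ℝ) ≤ S.card := by exact_mod_cast hcard2
      refine ⟨ε, ?_⟩
      refine h.ill_nonconst hx hlt hj0 e1 e2 ?_ ?_
      · rw [hnc]; split_ifs <;> linarith
      · rw [hnc]; split_ifs <;> linarith

end Pool.Agent.W396.Il
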