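import Mathlib

set_option autoImplicit false

/-!
A combinatorial lemma on sign vectors: peaks.
-/

namespace Pool.Agent.W396.Il

open Finset

/-- the sign of a boolean -/
def sg (b : Bool) : ℝ := if b then 1 else -1

theorem sg_not (b : Bool) : sg (!b) = - sg b := by cases b <;> simp [sg]

theorem sg_mul_self (b : Bool) : sg b * sg b = 1 := by cases b <;> simp [sg]

theorem sg_cases (b : Bool) : sg b = 1 ∨ sg b = -1 := by cases b <;> simp [sg]

theorem sg_inj {a b : Bool} (h : sg a = sg b) : a = b := by
  cases a <;> cases b <;> first | rfl | (simp [sg] at h; norm_num at h)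

variable {n : ℕ}

/-- the product of the signs -/
noncomputable def par (ε : Fin n → Bool) : ℝ := ∏ i, sg (ε i)

theorem par_cases (ε : Fin n → Bool) : par ε = 1 ∨ par ε = -1 := by
  unfold par
  induction (Finset.univ : Finset (Fin n)) using Finset.induction_on with
  | empty => simp
  | insert a s ha ih =>
    rw [Finset.prod_insert ha]
    rcases sg_cases (ε a) with h | h <;> rcases ih with h' | h' <;> rw [h, h'] <;> simp

theorem par_flip (ε : Fin n → Bool) (i : Fin n) :
    par (Function.update ε i (!ε i)) = - par ε := by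
  unfold par
  rw [← Finset.mul_prod_erase _ _ (Finset.mem_univ i),
    ← Finset.mul_prod_erase _ (fun j => sg (ε j)) (Finset.mem_univ i)]
  rw [Function.update_self, sg_not, neg_mul]
  congr 2
  refine Finset.prod_congr rfl fun j hj => ?_
  rw [Function.update_of_ne (Finset.ne_of_mem_erase hj)]

theorem par_flip' {ε : Fin n → Bool} (i : Fin n) {π : ℝ} (hπ : π = 1 ∨ π = -1)
    (h : par ε ≠ π) : par (Function.update ε i (!ε i)) = π := by
  rw [par_flip]
  rcases par_cases ε with h1 | h1 <;> rcases hπ with h2 | h2
  · exact absurd (h1.trans h2.symm) h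
  · rw [h1, h2]
  · rw [h1, h2, neg_neg]
  · exact absurd (h1.trans h2.symm) h

/-- the set of the initial positions where the sign vector is constant -/
def run (ε : Fin (n + 1) → Bool) : Finset (Fin (n + 1)) :=
  Finset.univ.filter fun k => ∀ j ≤ k, ε j = ε 0

theorem run_nonempty (ε : Fin (n + 1) → Bool) : (run ε).Nonempty :=
  ⟨0, by
    simp only [run, Finset.mem_filter, Finset.mem_univ, true_and]
    intro j hj
    rw [Fin.le_zero_iff.1 hj]⟩

/-- the end of the first run -/
def pk (ε : Fin (n + 1) → Bool) : Fin (n + 1) := (run ε).max' (run_nonempty ε)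

theorem pk_spec (ε : Fin (n + 1) → Bool) : ∀ j ≤ pk ε, ε j = ε 0 := by
  have := Finset.max'_mem (run ε) (run_nonempty ε)
  simp only [run, Finset.mem_filter, Finset.mem_univ, true_and] at this
  exact this

theorem le_pk (ε : Fin (n + 1) → Bool) {k : Fin (n + 1)} (h : ∀ j ≤ k, ε j = ε 0) : k ≤ pk ε :=
  Finset.le_max' _ _ (by
    simp only [run, Finset.mem_filter, Finset.mem_univ, true_and]
    exact h)

theorem pk_eq (ε : Fin (n + 1) → Bool) {k : Fin (n + 1)} (h : ∀ j ≤ k, ε j = ε 0)
    (h' : ∀ l, k < l → ∃ j ≤ l, ε j ≠ ε 0) : pk ε = k := by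
  refine le_antisymm ?_ (le_pk ε h)
  by_contra hcon
  push Not at hcon
  obtain ⟨j, hj, hj'⟩ := h' _ hcon
  exact hj' (pk_spec ε j hj)

theorem pk_ext (S : Finset (Fin (n + 1))) (hS : S.Nonempty) (σ : Fin (n + 1) → Bool) :
    ∃ ε : Fin (n + 1) → Bool, (∀ i ∈ S, ε i = σ i) ∧ pk ε ∈ S := by
  obtain ⟨i, hi⟩ : ∃ i, i = S.min' hS := ⟨_, rfl⟩
  have hiS : i ∈ S := hi ▸ Finset.min'_mem S hS
  have hmin : ∀ j ∈ S, i ≤ j := fun j hj => hi ▸ Finset.min'_le S j hj
  obtain ⟨ε, hε⟩ : ∃ ε : Fin (n + 1) → Bool, ε = fun j => if j ∈ S then σ j else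
    if j < i then σ i else !σ i := ⟨_, rfl⟩
  have h1 : ∀ j ≤ i, ε j = σ i := by
    intro j hj
    rw [hε]
    simp only
    rcases hj.lt_or_eq with h | h
    · rw [if_neg fun h2 => absurd (hmin j h2) (not_le.2 h), if_pos h]
    · rw [h, if_pos hiS]
  have h0 : ε 0 = σ i := h1 0 (Fin.zero_le _)
  have h2 : i ≤ pk ε := le_pk ε fun j hj => by rw [h1 j hj, h0]
  refine ⟨ε, fun j hj => by rw [hε]; simp only; rw [if_pos hj], ?_⟩
  by_contra hcon
  have h3 := pk_spec ε (pk ε) le_rfl
  rw [h0] at h3
  rw [hε] at h3
  simp only at h3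
  rw [← hε, if_neg hcon, if_neg (not_lt.2 h2)] at h3
  revert h3
  cases σ i <;> simp

/-- the combinatorial lemma -/
theorem exists_peaks (m : ℕ) (π : ℝ) (hπ : π = 1 ∨ π = -1) :
    ∃ p : (Fin (m + 4) → Bool) → Fin (m + 4),
      (∀ S : Finset (Fin (m + 4)), S.Nonempty → ∀ σ : Fin (m + 4) → Bool,
        ∃ ε, (∀ i ∈ S, ε i = σ i) ∧ p ε ∈ S) ∧
      (∀ i, ∀ b : Bool, ∃ ε, par ε = π ∧ ε i = b ∧ p ε = i) := by
  classical
  obtain ⟨la, hla⟩ : ∃ la : Fin (m + 4), la = ⟨m + 3, by omega⟩ := ⟨_, rfl⟩
  obtain ⟨pe, hpe⟩ : ∃ pe : Fin (m + 4), pe = ⟨m + 2, by omega⟩ := ⟨_, rfl⟩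
  obtain ⟨o, ho⟩ : ∃ o : Fin (m + 4), o = ⟨1, by omega⟩ := ⟨_, rfl⟩
  obtain ⟨w, hw⟩ : ∃ w : Fin (m + 4), w = ⟨2, by omega⟩ := ⟨_, rfl⟩
  have hlav : la.val = m + 3 := by rw [hla]
  have hpev : pe.val = m + 2 := by rw [hpe]
  have hov : o.val = 1 := by rw [ho]
  have hwv : w.val = 2 := by rw [hw]
  have h0v : (0 : Fin (m + 4)).val = 0 := rfl
  obtain ⟨exc, hexc⟩ : ∃ exc : (Fin (m + 4) → Bool) → Prop, exc = fun ε =>
    par ε = π ∧ ε 0 ≠ ε o ∧ ∀ j, o ≤ j → j < la → ε j = ε o := ⟨_, rfl⟩
  have hexc' : ∀ ε, exc ε ↔ par ε = π ∧ ε 0 ≠ ε o ∧ ∀ j, o ≤ j → j < la → ε j = ε o := by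
    intro ε; rw [hexc]
  obtain ⟨p, hp⟩ : ∃ p : (Fin (m + 4) → Bool) → Fin (m + 4), p = fun ε =>
    if exc ε then (if ε la = ε o then la else pe) else pk ε := ⟨_, rfl⟩
  have hp1 : ∀ ε, exc ε → ε la = ε o → p ε = la := by
    intro ε h1 h2; rw [hp]; simp only; rw [if_pos h1, if_pos h2]
  have hp2 : ∀ ε, exc ε → ε la ≠ ε o → p ε = pe := by
    intro ε h1 h2; rw [hp]; simp only; rw [if_pos h1, if_neg h2]
  have hp3 : ∀ ε, ¬ exc ε → p ε = pk ε := by
    intro ε h1; rw [hp]; simp only; rw [if_neg h1]
  have hpk0 : ∀ ε : Fin (m + 4) → Bool, ε 0 ≠ ε o → pk ε = 0 := by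
    intro ε h
    refine pk_eq ε (fun j hj => by rw [Fin.le_zero_iff.1 hj]) fun l hl => ⟨o, ?_, fun h1 => h h1.symm⟩
    rw [Fin.le_def, hov]
    rw [Fin.lt_def, h0v] at hl
    omega
  refine ⟨p, ?_, ?_⟩
  · intro S hS σ
    obtain ⟨ε, h1, h2⟩ := pk_ext S hS σ
    by_cases he : exc ε
    · by_cases h3 : p ε ∈ S
      · exact ⟨ε, h1, h3⟩
      · -- flip the coordinate `p ε`
        obtain ⟨e1, e2, e3⟩ := (hexc' ε).1 he
        have hpk := hpk0 ε e2
        rw [hpk] at h2
        have hpv : p ε = la ∨ p ε = pe := by
          by_cases h5 : ε la = ε o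
          · exact Or.inl (hp1 ε he h5)
          · exact Or.inr (hp2 ε he h5)
        have hne0 : (0 : Fin (m + 4)) ≠ p ε := by
          rcases hpv with h | h <;> rw [h] <;> intro h6 <;> have := congrArg Fin.val h6 <;> omega
        have hneo : o ≠ p ε := by
          rcases hpv with h | h <;> rw [h] <;> intro h6 <;> have := congrArg Fin.val h6 <;> omega
        have h7 : par (Function.update ε (p ε) (!ε (p ε))) ≠ π := by
          rw [par_flip, e1]
          rcases hπ with h | h <;> rw [h] <;> norm_num
        have h8 : ¬ exc (Function.update ε (p ε) (!ε (p ε))) := by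
          rw [hexc']
          exact fun h9 => h7 h9.1
        refine ⟨Function.update ε (p ε) (!ε (p ε)), fun i hi => ?_, ?_⟩
        · rw [Function.update_of_ne]
          · exact h1 i hi
          · rintro rfl; exact h3 hi
        · rw [hp3 _ h8, hpk0]
          · exact h2
          · rw [Function.update_of_ne hne0, Function.update_of_ne hneo]
            exact e2
    · exact ⟨ε, h1, by rw [hp3 ε he]; exact h2⟩
  · intro i b
    -- possible positions
    rcases lt_trichotomy i.val 0 with h | h | h
    · omega
    · -- first coordinate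
      have hi0 : i = 0 := Fin.ext h
      subst hi0
      obtain ⟨ε, hε⟩ : ∃ ε : Fin (m + 4) → Bool, ε = fun j => if j = o then !b else b := ⟨_, rfl⟩
      have key : ∀ ε' : Fin (m + 4) → Bool, (∀ j, j ≠ la → ε' j = ε j) →
          ε' 0 = b ∧ p ε' = 0 := by
        intro ε' h'
        have a0 : ε' 0 = b := by
          rw [h' 0 (by intro h6; have := congrArg Fin.val h6; omega), hε]
          simp only
          rw [if_neg (by intro h6; have := congrArg Fin.val h6; omega)]
        have a1 : ε' o = !b := by
          rw [h' o (by intro h6; have := congrArg Fin.val h6; omega), hε]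
          simp
        have a2 : ε' w = b := by
          rw [h' w (by intro h6; have := congrArg Fin.val h6; omega), hε]
          simp only
          rw [if_neg (by intro h6; have := congrArg Fin.val h6; omega)]
        refine ⟨a0, ?_⟩
        rw [hp3, hpk0]
        · rw [a0, a1]; cases b <;> simp
        · rw [hexc']
          rintro ⟨_, _, h9⟩
          have := h9 w (by rw [Fin.le_def]; omega) (by rw [Fin.lt_def]; omega)
          rw [a1, a2] at this
          revert this
          cases b <;> simp
      by_cases hpar : par ε = π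
      · obtain ⟨k1, k2⟩ := key ε fun _ _ => rfl
        exact ⟨ε, hpar, k1, k2⟩
      · obtain ⟨k1, k2⟩ := key (Function.update ε la (!ε la)) fun j hj => Function.update_of_ne hj _ _
        exact ⟨_, par_flip' la hπ hpar, k1, k2⟩
    · rcases lt_trichotomy i.val (m + 2) with h2 | h2 | h2
      · -- middle coordinates
        obtain ⟨ε, hε⟩ : ∃ ε : Fin (m + 4) → Bool, ε = fun j => if j ≤ i then b else !b := ⟨_, rfl⟩
        obtain ⟨i', hi'⟩ : ∃ i' : Fin (m + 4), i' = ⟨i.val + 1, by omega⟩ := ⟨_, rfl⟩
        have hi'v : i'.val = i.val + 1 := by rw [hi']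
        have key : ∀ ε' : Fin (m + 4) → Bool, (∀ j, j ≠ la → ε' j = ε j) →
            ε' i = b ∧ p ε' = i := by
          intro ε' h'
          have a0 : ∀ j ≤ i, ε' j = b := by
            intro j hj
            rw [h' j (by rw [Fin.le_def] at hj; intro h6; have := congrArg Fin.val h6; omega), hε]
            simp only
            rw [if_pos hj]
          have a1 : ε' i' = !b := by
            rw [h' i' (by intro h6; have := congrArg Fin.val h6; omega), hε]
            simp only
            rw [if_neg (by rw [Fin.le_def]; omega)]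
          refine ⟨a0 i le_rfl, ?_⟩
          rw [hp3]
          · refine pk_eq _ (fun j hj => by rw [a0 j hj, a0 0 (Fin.zero_le _)]) fun l hl =>
              ⟨i', ?_, ?_⟩
            · rw [Fin.lt_def] at hl
              rw [Fin.le_def]; omega
            · rw [a1, a0 0 (Fin.zero_le _)]; cases b <;> simp
          · rw [hexc']
            rintro ⟨_, h9, _⟩
            exact h9 (by rw [a0 0 (Fin.zero_le _), a0 o (by rw [Fin.le_def]; omega)])
        by_cases hpar : par ε = π
        · obtain ⟨k1, k2⟩ := key ε fun _ _ => rfl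
          exact ⟨ε, hpar, k1, k2⟩
        · obtain ⟨k1, k2⟩ := key (Function.update ε la (!ε la)) fun j hj =>
            Function.update_of_ne hj _ _
          exact ⟨_, par_flip' la hπ hpar, k1, k2⟩
      · -- the last but one
        have hipe : i = pe := Fin.ext (by omega)
        subst hipe
        obtain ⟨ε, hε⟩ : ∃ ε : Fin (m + 4) → Bool, ε = fun j => if j = la then !b else b := ⟨_, rfl⟩
        have a0 : ∀ j, j ≠ la → ε j = b := by
          intro j hj; rw [hε]; simp only; rw [if_neg hj]
        have al : ε la = !b := by rw [hε]; simp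
        have n0 : (0 : Fin (m + 4)) ≠ la := by intro h6; have := congrArg Fin.val h6; omega
        have no : o ≠ la := by intro h6; have := congrArg Fin.val h6; omega
        have npe : i ≠ la := by intro h6; have := congrArg Fin.val h6; omega
        have nla0 : la ≠ 0 := n0.symm
        have no0 : o ≠ 0 := by intro h6; have := congrArg Fin.val h6; omega
        have npe0 : i ≠ 0 := by intro h6; have := congrArg Fin.val h6; omega
        by_cases hpar : par ε = π
        · refine ⟨ε, hpar, a0 i npe, ?_⟩
          rw [hp3]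
          · refine pk_eq _ (fun j hj => ?_) fun l hl => ⟨la, ?_, ?_⟩
            · rw [Fin.le_def] at hj
              rw [a0 j (by intro h6; have := congrArg Fin.val h6; omega), a0 0 n0]
            · rw [Fin.lt_def] at hl
              rw [Fin.le_def]; omega
            · rw [al, a0 0 n0]; cases b <;> simp
          · rw [hexc']
            rintro ⟨_, h9, _⟩
            exact h9 (by rw [a0 0 n0, a0 o no])
        · refine ⟨Function.update ε 0 (!ε 0), par_flip' 0 hπ hpar, ?_, ?_⟩
          · rw [Function.update_of_ne npe0]; exact a0 i npe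
          · refine hp2 _ ?_ ?_
            · rw [hexc']
              refine ⟨par_flip' 0 hπ hpar, ?_, ?_⟩
              · rw [Function.update_self, Function.update_of_ne no0, a0 0 n0, a0 o no]
                cases b <;> simp
              · intro j hj hj'
                rw [Function.update_of_ne no0, Function.update_of_ne, a0 o no, a0 j]
                · rintro rfl; exact lt_irrefl _ hj'
                · rw [Fin.le_def] at hj
                  intro h6; have := congrArg Fin.val h6; omega
            · rw [Function.update_of_ne nla0, Function.update_of_ne no0, al, a0 o no]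
              cases b <;> simp
      · -- the last one
        have hila : i = la := Fin.ext (by omega)
        subst hila
        obtain ⟨ε, hε⟩ : ∃ ε : Fin (m + 4) → Bool, ε = fun _ => b := ⟨_, rfl⟩
        have a0 : ∀ j, ε j = b := by intro j; rw [hε]
        have nla0 : i ≠ 0 := by intro h6; have := congrArg Fin.val h6; omega
        have no0 : o ≠ 0 := by intro h6; have := congrArg Fin.val h6; omega
        by_cases hpar : par ε = π
        · refine ⟨ε, hpar, a0 i, ?_⟩
          rw [hp3]
          · refine pk_eq _ (fun j _ => by rw [a0 j, a0 0]) fun l hl => ?_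
            rw [Fin.lt_def] at hl
            omega
          · rw [hexc']
            rintro ⟨_, h9, _⟩
            exact h9 (by rw [a0 0, a0 o])
        · refine ⟨Function.update ε 0 (!ε 0), par_flip' 0 hπ hpar, ?_, ?_⟩
          · rw [Function.update_of_ne nla0]; exact a0 i
          · refine hp1 _ ?_ ?_
            · rw [hexc']
              refine ⟨par_flip' 0 hπ hpar, ?_, ?_⟩
              · rw [Function.update_self, Function.update_of_ne no0, a0 0, a0 o]
                cases b <;> simp
              · intro j hj hj'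
                rw [Function.update_of_ne no0, Function.update_of_ne, a0 o, a0 j]
                rw [Fin.le_def] at hj
                intro h6; have := congrArg Fin.val h6; omega
            · rw [Function.update_of_ne nla0, Function.update_of_ne no0, a0 i, a0 o]

end Pool.Agent.W396.Il
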