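import Pool.Agent.W396.Il.Dn

set_option autoImplicit false

/-!
Convex bodies with the symmetries `D_n`: one direction less, if the body is not a cube. The
combinatorial part.
-/

namespace Pool.Agent.W396.Il

open Finset

/-- flipping one coordinate -/
def fl {n : ℕ} (ε : Fin n → Bool) (j : Fin n) : Fin n → Bool := Function.update ε j (!ε j)

theorem fl_self {n : ℕ} (ε : Fin n → Bool) (j : Fin n) : fl ε j j = !ε j := Function.update_self ..

theorem fl_ne {n : ℕ} (ε : Fin n → Bool) {j k : Fin n} (h : k ≠ j) : fl ε j k = ε k :=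
  Function.update_of_ne h _ _

theorem fl_ne_self {n : ℕ} (ε : Fin n → Bool) (j : Fin n) : fl ε j ≠ ε := by
  intro h
  have := congrFun h j
  rw [fl_self] at this
  revert this
  cases ε j <;> simp

theorem par_fl {n : ℕ} (ε : Fin n → Bool) (j : Fin n) : par (fl ε j) = - par ε := par_flip ε j

/-- the properties of a design after deleting the sign vector `ε0`; its opposite through the last
coordinate is `fl ε0 la` -/
structure Des (n : ℕ) (p : (Fin n → Bool) → Fin n) (ε0 : Fin n → Bool) (la : Fin n) : Prop where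
  ext : ∀ S : Finset (Fin n), S.Nonempty → S ≠ univ → ∀ σ : Fin n → Bool,
    ∃ ε, ε ≠ ε0 ∧ (∀ i ∈ S, ε i = σ i) ∧ p ε ∈ S
  la : p (fl ε0 la) ≠ la

/-- the properties which allow to delete a vector -/
theorem des_of {n : ℕ} {p : (Fin n → Bool) → Fin n} {ε0 : Fin n → Bool} {z o la : Fin n}
    (hall : ∀ S : Finset (Fin n), S.Nonempty → ∀ σ : Fin n → Bool,
      ∃ ε, (∀ i ∈ S, ε i = σ i) ∧ p ε ∈ S)
    (h0 : p ε0 = z) (hj : ∀ j, j ≠ z → j ≠ o → p (fl ε0 j) = z) (ho : p (fl ε0 o) ≠ o)
    (hlaz : la ≠ z) (hlao : la ≠ o) : Des n p ε0 la where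
  ext := by
    intro S hS hne σ
    obtain ⟨ε, h1, h2⟩ := hall S hS σ
    by_cases he : ε = ε0
    · subst he
      rw [h0] at h2
      by_cases h3 : ∃ j, j ∉ S ∧ j ≠ o
      · obtain ⟨j, hjS, hjo⟩ := h3
        have hjz : j ≠ z := by rintro rfl; exact hjS h2
        refine ⟨fl ε j, fl_ne_self _ _, fun i hi => ?_, ?_⟩
        · rw [fl_ne _ (by rintro rfl; exact hjS hi)]; exact h1 i hi
        · rw [hj j hjz hjo]; exact h2
      · push Not at h3
        have hoS : o ∉ S := by
          intro hoS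
          apply hne
          rw [Finset.eq_univ_iff_forall]
          intro x
          by_contra hx
          have := h3 x hx
          rw [this] at hx
          exact hx hoS
        refine ⟨fl ε o, fl_ne_self _ _, fun i hi => ?_, ?_⟩
        · rw [fl_ne _ (by rintro rfl; exact hoS hi)]; exact h1 i hi
        · by_contra hcon
          exact ho (h3 _ hcon)
    · exact ⟨ε, he, h1, h2⟩
  la := by
    rw [hj la hlaz hlao]
    exact hlaz.symm

/-- `pk` of a vector beginning with two different signs -/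
theorem pk_zero {n : ℕ} (ε : Fin (n + 2) → Bool) (h : ε 0 ≠ ε 1) : pk ε = 0 := by
  refine pk_eq ε (fun j hj => by rw [Fin.le_zero_iff.1 hj]) fun l hl => ⟨1, ?_, fun h1 => h h1.symm⟩
  rw [Fin.le_def, Fin.val_one]
  rw [Fin.lt_def, Fin.val_zero] at hl
  omega

/-- dimension four -/
theorem des_four (π : ℝ) (hπ : π = 1 ∨ π = -1) :
    ∃ ε0 : Fin 4 → Bool, par ε0 = π ∧ Des 4 pk ε0 3 := by
  obtain ⟨ε, hε⟩ : ∃ ε : Fin 4 → Bool, ε = ![true, false, true, true] := ⟨_, rfl⟩
  have key : ∀ ε' : Fin 4 → Bool, ε' 0 = true → ε' 1 = false → ε' 2 = true →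
      Des 4 pk ε' 3 := by
    intro ε' a0 a1 a2
    refine des_of (z := 0) (o := 1) pk_ext (pk_zero ε' (by rw [a0, a1]; simp)) ?_ ?_ (by decide)
      (by decide)
    · intro j hj0 hj1
      refine pk_zero _ ?_
      rw [fl_ne _ hj0.symm, fl_ne _ hj1.symm, a0, a1]
      simp
    · intro h
      have h1 : (2 : Fin 4) ≤ pk (fl ε' 1) := by
        refine le_pk _ fun j hj => ?_
        fin_cases j
        · rfl
        · show fl ε' 1 1 = fl ε' 1 0
          rw [fl_self, fl_ne _ (by decide), a0, a1]; rfl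
        · show fl ε' 1 2 = fl ε' 1 0
          rw [fl_ne _ (by decide), fl_ne _ (by decide), a0, a2]
        · exact absurd hj (by decide)
      rw [h] at h1
      exact absurd h1 (by decide)
  by_cases h : par ε = π
  · exact ⟨ε, h, key ε (by rw [hε]; rfl) (by rw [hε]; rfl) (by rw [hε]; rfl)⟩
  · refine ⟨fl ε 3, par_flip' 3 hπ h, key _ ?_ ?_ ?_⟩ <;>
      rw [fl_ne _ (by decide), hε] <;> rfl

/-- the combinatorial lemma -/
theorem exists_peaks5 (m : ℕ) (π : ℝ) (hπ : π = 1 ∨ π = -1) :
    ∃ p : (Fin (m + 5) → Bool) → Fin (m + 5),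
      (∀ S : Finset (Fin (m + 5)), S.Nonempty → ∀ σ : Fin (m + 5) → Bool,
        ∃ ε, (∀ i ∈ S, ε i = σ i) ∧ p ε ∈ S) ∧
      (∀ i, ∀ b : Bool, ∃ ε, par ε = π ∧ ε i = b ∧ p ε = i) ∧
      (∀ ε : Fin (m + 5) → Bool, ε 0 ≠ ε ⟨1, by omega⟩ → ε ⟨2, by omega⟩ ≠ ε ⟨1, by omega⟩ ∨
        ε ⟨3, by omega⟩ ≠ ε ⟨1, by omega⟩ → p ε = 0) ∧
      (∀ ε : Fin (m + 5) → Bool, ε 0 = ε ⟨1, by omega⟩ → ε 0 = ε ⟨2, by omega⟩ →
        p ε ≠ ⟨1, by omega⟩) := by
  classical
  obtain ⟨la, hla⟩ : ∃ la : Fin (m + 5), la = ⟨m + 4, by omega⟩ := ⟨_, rfl⟩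
  obtain ⟨pe, hpe⟩ : ∃ pe : Fin (m + 5), pe = ⟨m + 3, by omega⟩ := ⟨_, rfl⟩
  obtain ⟨o, ho⟩ : ∃ o : Fin (m + 5), o = ⟨1, by omega⟩ := ⟨_, rfl⟩
  obtain ⟨w, hw⟩ : ∃ w : Fin (m + 5), w = ⟨2, by omega⟩ := ⟨_, rfl⟩
  have hlav : la.val = m + 4 := by rw [hla]
  have hpev : pe.val = m + 3 := by rw [hpe]
  have hov : o.val = 1 := by rw [ho]
  have hwv : w.val = 2 := by rw [hw]
  have h0v : (0 : Fin (m + 5)).val = 0 := rfl
  obtain ⟨exc, hexc⟩ : ∃ exc : (Fin (m + 5) → Bool) → Prop, exc = fun ε =>
    par ε = π ∧ ε 0 ≠ ε o ∧ ∀ j, o ≤ j → j < la → ε j = ε o := ⟨_, rfl⟩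
  have hexc' : ∀ ε, exc ε ↔ par ε = π ∧ ε 0 ≠ ε o ∧ ∀ j, o ≤ j → j < la → ε j = ε o := by
    intro ε; rw [hexc]
  obtain ⟨p, hp⟩ : ∃ p : (Fin (m + 5) → Bool) → Fin (m + 5), p = fun ε =>
    if exc ε then (if ε la = ε o then la else pe) else pk ε := ⟨_, rfl⟩
  have hp1 : ∀ ε, exc ε → ε la = ε o → p ε = la := by
    intro ε h1 h2; rw [hp]; simp only; rw [if_pos h1, if_pos h2]
  have hp2 : ∀ ε, exc ε → ε la ≠ ε o → p ε = pe := by
    intro ε h1 h2; rw [hp]; simp only; rw [if_pos h1, if_neg h2]
  have hp3 : ∀ ε, ¬ exc ε → p ε = pk ε := by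
    intro ε h1; rw [hp]; simp only; rw [if_neg h1]
  have hpk0 : ∀ ε : Fin (m + 5) → Bool, ε 0 ≠ ε o → pk ε = 0 := by
    intro ε h
    refine pk_eq ε (fun j hj => by rw [Fin.le_zero_iff.1 hj]) fun l hl => ⟨o, ?_, fun h1 => h h1.symm⟩
    rw [Fin.le_def, hov]
    rw [Fin.lt_def, h0v] at hl
    omega
  refine ⟨p, ?_, ?_, ?_, ?_⟩
  · intro S hS σ
    obtain ⟨ε, h1, h2⟩ := pk_ext S hS σ
    by_cases he : exc ε
    · by_cases h3 : p ε ∈ S
      · exact ⟨ε, h1, h3⟩
      · -- flip the coordinate `p ε`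
        obtain ⟨e1, e2, e3⟩ := (hexc' ε).1 he
        have hpk := hpk0 ε e2
        rw [hpk] at h2
        have hpv : p ε = la ∨ p ε = pe := by
          by_cases h5 : ε la = ε o
          · exact Or.inl (hp1 ε he h5)
          · exact Or.inr (hp2 ε he h5)
        have hne0 : (0 : Fin (m + 5)) ≠ p ε := by
          rcases hpv with h | h <;> rw [h] <;> intro h6 <;> have := congrArg Fin.val h6 <;> omega
        have hneo : o ≠ p ε := by
          rcases hpv with h | h <;> rw [h] <;> intro h6 <;> have := congrArg Fin.val h6 <;> omega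
        have h7 : par (Function.update ε (p ε) (!ε (p ε))) ≠ π := by
          rw [par_flip, e1]
          rcases hπ with h | h <;> rw [h] <;> norm_num
        have h8 : ¬ exc (Function.update ε (p ε) (!ε (p ε))) := by
          rw [hexc']
          exact fun h9 => h7 h9.1
        refine ⟨Function.update ε (p ε) (!ε (p ε)), fun i hi => ?_, ?_⟩
        · rw [Function.update_of_ne]
          · exact h1 i hi
          · rintro rfl; exact h3 hi
        · rw [hp3 _ h8, hpk0]
          · exact h2
          · rw [Function.update_of_ne hne0, Function.update_of_ne hneo]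
            exact e2
    · exact ⟨ε, h1, by rw [hp3 ε he]; exact h2⟩
  · intro i b
    -- possible positions
    rcases lt_trichotomy i.val 0 with h | h | h
    · omega
    · -- first coordinate
      have hi0 : i = 0 := Fin.ext h
      subst hi0
      obtain ⟨ε, hε⟩ : ∃ ε : Fin (m + 5) → Bool, ε = fun j => if j = o then !b else b := ⟨_, rfl⟩
      have key : ∀ ε' : Fin (m + 5) → Bool, (∀ j, j ≠ la → ε' j = ε j) →
          ε' 0 = b ∧ p ε' = 0 := by
        intro ε' h'
        have a0 : ε' 0 = b := by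
          rw [h' 0 (by intro h6; have := congrArg Fin.val h6; omega), hε]
          simp only
          rw [if_neg (by intro h6; have := congrArg Fin.val h6; omega)]
        have a1 : ε' o = !b := by
          rw [h' o (by intro h6; have := congrArg Fin.val h6; omega), hε]
          simp
        have a2 : ε' w = b := by
          rw [h' w (by intro h6; have := congrArg Fin.val h6; omega), hε]
          simp only
          rw [if_neg (by intro h6; have := congrArg Fin.val h6; omega)]
        refine ⟨a0, ?_⟩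
        rw [hp3, hpk0]
        · rw [a0, a1]; cases b <;> simp
        · rw [hexc']
          rintro ⟨_, _, h9⟩
          have := h9 w (by rw [Fin.le_def]; omega) (by rw [Fin.lt_def]; omega)
          rw [a1, a2] at this
          revert this
          cases b <;> simp
      by_cases hpar : par ε = π
      · obtain ⟨k1, k2⟩ := key ε fun _ _ => rfl
        exact ⟨ε, hpar, k1, k2⟩
      · obtain ⟨k1, k2⟩ := key (Function.update ε la (!ε la)) fun j hj => Function.update_of_ne hj _ _
        exact ⟨_, par_flip' la hπ hpar, k1, k2⟩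
    · rcases lt_trichotomy i.val (m + 3) with h2 | h2 | h2
      · -- middle coordinates
        obtain ⟨ε, hε⟩ : ∃ ε : Fin (m + 5) → Bool, ε = fun j => if j ≤ i then b else !b := ⟨_, rfl⟩
        obtain ⟨i', hi'⟩ : ∃ i' : Fin (m + 5), i' = ⟨i.val + 1, by omega⟩ := ⟨_, rfl⟩
        have hi'v : i'.val = i.val + 1 := by rw [hi']
        have key : ∀ ε' : Fin (m + 5) → Bool, (∀ j, j ≠ la → ε' j = ε j) →
            ε' i = b ∧ p ε' = i := by
          intro ε' h'
          have a0 : ∀ j ≤ i, ε' j = b := by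
            intro j hj
            rw [h' j (by rw [Fin.le_def] at hj; intro h6; have := congrArg Fin.val h6; omega), hε]
            simp only
            rw [if_pos hj]
          have a1 : ε' i' = !b := by
            rw [h' i' (by intro h6; have := congrArg Fin.val h6; omega), hε]
            simp only
            rw [if_neg (by rw [Fin.le_def]; omega)]
          refine ⟨a0 i le_rfl, ?_⟩
          rw [hp3]
          · refine pk_eq _ (fun j hj => by rw [a0 j hj, a0 0 (Fin.zero_le _)]) fun l hl =>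
              ⟨i', ?_, ?_⟩
            · rw [Fin.lt_def] at hl
              rw [Fin.le_def]; omega
            · rw [a1, a0 0 (Fin.zero_le _)]; cases b <;> simp
          · rw [hexc']
            rintro ⟨_, h9, _⟩
            exact h9 (by rw [a0 0 (Fin.zero_le _), a0 o (by rw [Fin.le_def]; omega)])
        by_cases hpar : par ε = π
        · obtain ⟨k1, k2⟩ := key ε fun _ _ => rfl
          exact ⟨ε, hpar, k1, k2⟩
        · obtain ⟨k1, k2⟩ := key (Function.update ε la (!ε la)) fun j hj =>
            Function.update_of_ne hj _ _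
          exact ⟨_, par_flip' la hπ hpar, k1, k2⟩
      · -- the last but one
        have hipe : i = pe := Fin.ext (by omega)
        subst hipe
        obtain ⟨ε, hε⟩ : ∃ ε : Fin (m + 5) → Bool, ε = fun j => if j = la then !b else b := ⟨_, rfl⟩
        have a0 : ∀ j, j ≠ la → ε j = b := by
          intro j hj; rw [hε]; simp only; rw [if_neg hj]
        have al : ε la = !b := by rw [hε]; simp
        have n0 : (0 : Fin (m + 5)) ≠ la := by intro h6; have := congrArg Fin.val h6; omega
        have no : o ≠ la := by intro h6; have := congrArg Fin.val h6; omega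
        have npe : i ≠ la := by intro h6; have := congrArg Fin.val h6; omega
        have nla0 : la ≠ 0 := n0.symm
        have no0 : o ≠ 0 := by intro h6; have := congrArg Fin.val h6; omega
        have npe0 : i ≠ 0 := by intro h6; have := congrArg Fin.val h6; omega
        by_cases hpar : par ε = π
        · refine ⟨ε, hpar, a0 i npe, ?_⟩
          rw [hp3]
          · refine pk_eq _ (fun j hj => ?_) fun l hl => ⟨la, ?_, ?_⟩
            · rw [Fin.le_def] at hj
              rw [a0 j (by intro h6; have := congrArg Fin.val h6; omega), a0 0 n0]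
            · rw [Fin.lt_def] at hl
              rw [Fin.le_def]; omega
            · rw [al, a0 0 n0]; cases b <;> simp
          · rw [hexc']
            rintro ⟨_, h9, _⟩
            exact h9 (by rw [a0 0 n0, a0 o no])
        · refine ⟨Function.update ε 0 (!ε 0), par_flip' 0 hπ hpar, ?_, ?_⟩
          · rw [Function.update_of_ne npe0]; exact a0 i npe
          · refine hp2 _ ?_ ?_
            · rw [hexc']
              refine ⟨par_flip' 0 hπ hpar, ?_, ?_⟩
              · rw [Function.update_self, Function.update_of_ne no0, a0 0 n0, a0 o no]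
                cases b <;> simp
              · intro j hj hj'
                rw [Function.update_of_ne no0, Function.update_of_ne, a0 o no, a0 j]
                · rintro rfl; exact lt_irrefl _ hj'
                · rw [Fin.le_def] at hj
                  intro h6; have := congrArg Fin.val h6; omega
            · rw [Function.update_of_ne nla0, Function.update_of_ne no0, al, a0 o no]
              cases b <;> simp
      · -- the last one
        have hila : i = la := Fin.ext (by omega)
        subst hila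
        obtain ⟨ε, hε⟩ : ∃ ε : Fin (m + 5) → Bool, ε = fun _ => b := ⟨_, rfl⟩
        have a0 : ∀ j, ε j = b := by intro j; rw [hε]
        have nla0 : i ≠ 0 := by intro h6; have := congrArg Fin.val h6; omega
        have no0 : o ≠ 0 := by intro h6; have := congrArg Fin.val h6; omega
        by_cases hpar : par ε = π
        · refine ⟨ε, hpar, a0 i, ?_⟩
          rw [hp3]
          · refine pk_eq _ (fun j _ => by rw [a0 j, a0 0]) fun l hl => ?_
            rw [Fin.lt_def] at hl
            omega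
          · rw [hexc']
            rintro ⟨_, h9, _⟩
            exact h9 (by rw [a0 0, a0 o])
        · refine ⟨Function.update ε 0 (!ε 0), par_flip' 0 hπ hpar, ?_, ?_⟩
          · rw [Function.update_of_ne nla0]; exact a0 i
          · refine hp1 _ ?_ ?_
            · rw [hexc']
              refine ⟨par_flip' 0 hπ hpar, ?_, ?_⟩
              · rw [Function.update_self, Function.update_of_ne no0, a0 0, a0 o]
                cases b <;> simp
              · intro j hj hj'
                rw [Function.update_of_ne no0, Function.update_of_ne, a0 o, a0 j]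
                rw [Fin.le_def] at hj
                intro h6; have := congrArg Fin.val h6; omega
            · rw [Function.update_of_ne nla0, Function.update_of_ne no0, a0 i, a0 o]
  · intro ε h1 h2
    rw [hp3, hpk0 ε (by rw [ho]; exact h1)]
    rw [hexc']
    rintro ⟨_, _, h3⟩
    rcases h2 with h2 | h2
    · refine h2 ?_
      have := h3 ⟨2, by omega⟩ (by rw [Fin.le_def, hov]; exact Nat.le_succ 1) (by rw [Fin.lt_def, hlav]; show 2 < m + 4; omega)
      rw [this, ho]
    · refine h2 ?_
      have := h3 ⟨3, by omega⟩ (by rw [Fin.le_def, hov]; show 1 ≤ 3; omega) (by rw [Fin.lt_def, hlav]; show 3 < m + 4; omega)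
      rw [this, ho]
  · intro ε h1 h2 h3
    rw [hp3] at h3
    · have h4 : (⟨2, by omega⟩ : Fin (m + 5)) ≤ pk ε := by
        refine le_pk _ fun j hj => ?_
        rw [Fin.le_def] at hj
        have hj' : j.val ≤ 2 := hj
        have h5 : j.val = 0 ∨ j.val = 1 ∨ j.val = 2 := by omega
        rcases h5 with h5 | h5 | h5
        · rw [show j = 0 from Fin.ext h5]
        · rw [show j = ⟨1, by omega⟩ from Fin.ext h5]; exact h1.symm
        · rw [show j = ⟨2, by omega⟩ from Fin.ext h5]; exact h2.symm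
      rw [h3, Fin.le_def] at h4
      exact absurd h4 (by show ¬ 2 ≤ 1; omega)
    · rw [hexc']
      rintro ⟨_, h5, _⟩
      exact h5 (by rw [ho]; exact h1)

/-- dimension at least five -/
theorem des_five (m : ℕ) (π : ℝ) (hπ : π = 1 ∨ π = -1) :
    ∃ (p : (Fin (m + 5) → Bool) → Fin (m + 5)) (ε0 : Fin (m + 5) → Bool), par ε0 = π ∧
      Des (m + 5) p ε0 ⟨m + 4, by omega⟩ ∧
      ∀ i, ∀ b : Bool, ∃ ε, ε ≠ ε0 ∧ par ε = π ∧ ε i = b ∧ p ε = i := by
  obtain ⟨p, hp1, hp2, hp3, hp4⟩ := exists_peaks5 m π hπ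
  obtain ⟨la, hla⟩ : ∃ la : Fin (m + 5), la = ⟨m + 4, by omega⟩ := ⟨_, rfl⟩
  obtain ⟨i1, hi1⟩ : ∃ i1 : Fin (m + 5), i1 = ⟨1, by omega⟩ := ⟨_, rfl⟩
  obtain ⟨i2, hi2⟩ : ∃ i2 : Fin (m + 5), i2 = ⟨2, by omega⟩ := ⟨_, rfl⟩
  obtain ⟨i3, hi3⟩ : ∃ i3 : Fin (m + 5), i3 = ⟨3, by omega⟩ := ⟨_, rfl⟩
  rw [← hi1, ← hi2, ← hi3] at hp3
  rw [← hi1, ← hi2] at hp4
  rw [← hla]
  have v0 : (0 : Fin (m + 5)).val = 0 := rfl
  have vl : la.val = m + 4 := by rw [hla]
  have v1 : i1.val = 1 := by rw [hi1]
  have v2 : i2.val = 2 := by rw [hi2]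
  have v3 : i3.val = 3 := by rw [hi3]
  have n01 : (0 : Fin (m + 5)) ≠ i1 := by intro h; have := congrArg Fin.val h; omega
  have n02 : (0 : Fin (m + 5)) ≠ i2 := by intro h; have := congrArg Fin.val h; omega
  have n0l : (0 : Fin (m + 5)) ≠ la := by intro h; have := congrArg Fin.val h; omega
  have n12 : i1 ≠ i2 := by intro h; have := congrArg Fin.val h; omega
  have n13 : i1 ≠ i3 := by intro h; have := congrArg Fin.val h; omega
  have n23 : i2 ≠ i3 := by intro h; have := congrArg Fin.val h; omega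
  have n1l : i1 ≠ la := by intro h; have := congrArg Fin.val h; omega
  have n2l : i2 ≠ la := by intro h; have := congrArg Fin.val h; omega
  have n3l : i3 ≠ la := by intro h; have := congrArg Fin.val h; omega
  obtain ⟨ε, hε⟩ : ∃ ε : Fin (m + 5) → Bool, ε = fun j => if j = i1 then false else true := ⟨_, rfl⟩
  have key : ∀ ε0 : Fin (m + 5) → Bool, (∀ j, j ≠ la → ε0 j = ε j) → par ε0 = π →
      Des (m + 5) p ε0 la ∧ ∀ i, ∀ b : Bool, ∃ ε, ε ≠ ε0 ∧ par ε = π ∧ ε i = b ∧ p ε = i := by
    intro ε0 h' hpar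
    have a1 : ε0 i1 = false := by rw [h' _ n1l, hε]; simp
    have ao : ∀ j, j ≠ la → j ≠ i1 → ε0 j = true := by
      intro j hj hj'
      rw [h' _ hj, hε]; simp [hj']
    have a0 := ao 0 n0l n01
    have a2 := ao i2 n2l n12.symm
    have a3 := ao i3 n3l n13.symm
    have hp0 : p ε0 = 0 := hp3 ε0 (by rw [a0, a1]; simp) (Or.inl (by rw [a1, a2]; simp))
    refine ⟨des_of (z := 0) (o := i1) hp1 hp0 ?_ ?_ n0l.symm n1l.symm, ?_⟩
    · intro j hj0 hj1
      have b0 : fl ε0 j 0 = true := by rw [fl_ne _ hj0.symm, a0]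
      have b1 : fl ε0 j i1 = false := by rw [fl_ne _ hj1.symm, a1]
      refine hp3 _ (by rw [b0, b1]; simp) ?_
      by_cases hj2 : j = i2
      · right
        rw [fl_ne _ (by rw [hj2]; exact n23.symm), a3, b1]; simp
      · left
        rw [fl_ne _ (fun h => hj2 h.symm), a2, b1]; simp
    · refine hp4 _ ?_ ?_
      · rw [fl_self, fl_ne _ n01, a0, a1]; rfl
      · rw [fl_ne _ n01, fl_ne _ n12.symm, a0, a2]
    · intro i b
      obtain ⟨ε', e1, e2, e3⟩ := hp2 i b
      by_cases he : ε' = ε0
      · subst he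
        have hi0 : i = 0 := by rw [← e3, hp0]
        subst hi0
        refine ⟨fl (fl ε' i2) la, fun h => ?_, ?_, ?_, ?_⟩
        · have := congrFun h i2
          rw [fl_ne _ n2l, fl_self, a2] at this
          simp at this
        · rw [par_fl, par_fl, neg_neg]; exact e1
        · rw [fl_ne _ n0l, fl_ne _ n02]; exact e2
        · refine hp3 _ ?_ (Or.inr ?_)
          · rw [fl_ne _ n0l, fl_ne _ n02, fl_ne _ n1l, fl_ne _ n12, a0, a1]; simp
          · rw [fl_ne _ n3l, fl_ne _ n23.symm, fl_ne _ n1l, fl_ne _ n12, a3, a1]; simp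
      · exact ⟨ε', he, e1, e2, e3⟩
  by_cases h : par ε = π
  · obtain ⟨k1, k2⟩ := key ε (fun _ _ => rfl) h
    exact ⟨p, ε, h, k1, k2⟩
  · obtain ⟨k1, k2⟩ := key (fl ε la) (fun j hj => fl_ne _ hj) (par_flip' la hπ h)
    exact ⟨p, fl ε la, par_flip' la hπ h, k1, k2⟩

end Pool.Agent.W396.Il
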