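import Pool.Agent.W396.Il.DnS

set_option autoImplicit false

/-!
Convex bodies with the symmetries `D_n`: general weights.
-/

namespace Pool.Agent.W396.Il

open Set Finset

variable {n : ℕ} {K : Set (Fin n → ℝ)}

/-- directions with general weights -/
noncomputable def dw (μ : Fin n → ℝ) (ε : Fin n → Bool) : Fin n → ℝ := fun i => sg (ε i) * μ i

/-- points with a nonconstant `|x|` -/
theorem DBody.ill_w (h : DBody K) {x : Fin n → ℝ} (hx : x ∈ K) {S : Finset (Fin n)}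
    (hS : ∀ i ∈ S, ∀ j, j ∉ S → |x j| < |x i|) {j0 : Fin n} (hj0 : j0 ∉ S)
    {μ : Fin n → ℝ} {ε : Fin n → Bool} (hε : ∀ i ∈ S, ε i = pat x i)
    (hμ : ∀ i, 0 < μ i) (hsum : ∑ i ∈ Sᶜ, μ i < ∑ i ∈ S, μ i) : Ill K (dw μ ε) x := by
  refine ill_of_nrm h.conv h.int hx fun u hu0 hu => ?_
  have hge : ∀ i ∈ S, ∀ j, j ∉ S → |u j| ≤ rel x u i := fun i hi j hj => h.rel_ge hx hu (hS i hi j hj)
  obtain ⟨j1, hj1, hmax⟩ := Finset.exists_max_image Sᶜ (fun j => |u j|) ⟨j0, by simpa using hj0⟩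
  obtain ⟨m0, hm0⟩ : ∃ m0, m0 = |u j1| := ⟨_, rfl⟩
  have hm0n : 0 ≤ m0 := by rw [hm0]; exact abs_nonneg _
  have hm1 : ∀ j, j ∉ S → |u j| ≤ m0 := fun j hj => by
    rw [hm0]; exact hmax j (by simpa using hj)
  have hm2 : ∀ i ∈ S, m0 ≤ rel x u i := fun i hi => by
    rw [hm0]; exact hge i hi j1 (by simpa using hj1)
  have e1 : ∑ a, u a * dw μ ε a = ∑ a ∈ S, u a * dw μ ε a + ∑ a ∈ Sᶜ, u a * dw μ ε a :=
    (Finset.sum_add_sum_compl S _).symm
  have e2 : ∑ a ∈ S, u a * dw μ ε a = - ∑ a ∈ S, rel x u a * μ a := by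
    rw [← Finset.sum_neg_distrib]
    refine Finset.sum_congr rfl fun a ha => ?_
    rw [dw, rel, hε a ha]
    ring
  have e3 : ∑ a ∈ Sᶜ, u a * dw μ ε a ≤ m0 * ∑ a ∈ Sᶜ, μ a := by
    rw [Finset.mul_sum]
    refine Finset.sum_le_sum fun a ha => ?_
    have ha' : a ∉ S := by simpa using ha
    have h1 : u a * dw μ ε a ≤ |u a| * μ a := by
      rw [dw]
      have := hμ a
      rcases sg_cases (ε a) with hs | hs <;> rw [hs]
      · have := le_abs_self (u a); nlinarith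
      · have := neg_le_abs (u a); nlinarith
    exact h1.trans (mul_le_mul_of_nonneg_right (hm1 a ha') (hμ a).le)
  rcases hm0n.eq_or_lt with h0 | h0
  · -- all outer coordinates vanish
    rw [← h0, zero_mul] at e3
    obtain ⟨i, hi⟩ := rel_ne x hu0
    have hiS : i ∈ S := by
      by_contra hc
      have h5 := hm1 i hc
      rw [← h0, ← abs_rel x u i] at h5
      exact hi (abs_nonpos_iff.1 h5)
    have h6 : 0 < ∑ a ∈ S, rel x u a * μ a := by
      refine Finset.sum_pos' (fun a ha => ?_) ⟨i, hiS, ?_⟩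
      · have := hm2 a ha
        exact mul_nonneg (by linarith) (hμ a).le
      · have h7 := hm2 i hiS
        have h8 : 0 < rel x u i := lt_of_le_of_ne (by linarith) hi.symm
        exact mul_pos h8 (hμ i)
    linarith
  · have h6 : m0 * ∑ a ∈ S, μ a ≤ ∑ a ∈ S, rel x u a * μ a := by
      rw [Finset.mul_sum]
      exact Finset.sum_le_sum fun a ha => mul_le_mul_of_nonneg_right (hm2 a ha) (hμ a).le
    nlinarith

theorem sum_dw {x u : Fin n → ℝ} (μ : Fin n → ℝ) :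
    ∑ a, u a * dw μ (pat x) a = - ∑ a, rel x u a * μ a := by
  rw [← Finset.sum_neg_distrib]
  refine Finset.sum_congr rfl fun a ha => ?_
  rw [dw, rel]
  ring

/-- points with nonnegative relative normals -/
theorem DBody.ill_pos (h : DBody K) {x : Fin n → ℝ} (hx : x ∈ K)
    (hr : ∀ u, Nrm K x u → ∀ i, 0 ≤ rel x u i) {μ : Fin n → ℝ}
    (hμ : ∀ i, 0 < μ i) : Ill K (dw μ (pat x)) x := by
  refine ill_of_nrm h.conv h.int hx fun u hu0 hu => ?_
  rw [sum_dw, neg_lt_zero]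
  obtain ⟨i, hi⟩ := rel_ne x hu0
  refine Finset.sum_pos' (fun a _ => mul_nonneg (hr u hu a) (hμ a).le) ⟨i, Finset.mem_univ i, ?_⟩
  exact mul_pos (lt_of_le_of_ne (hr u hu i) hi.symm) (hμ i)

/-- balanced weights -/
theorem DBody.ill_bal (h : DBody K) {x : Fin n → ℝ} (hx : x ∈ K)
    (hr : ∀ u, Nrm K x u → ∀ i j, i ≠ j → 0 ≤ rel x u i + rel x u j) {μ : Fin n → ℝ}
    (hμ : ∀ i, 0 < μ i) (hbal : ∀ l, μ l < ∑ i ∈ Finset.univ.erase l, μ i) :
    Ill K (dw μ (pat x)) x := by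
  refine ill_of_nrm h.conv h.int hx fun u hu0 hu => ?_
  rw [sum_dw, neg_lt_zero]
  by_cases hall : ∀ i, 0 ≤ rel x u i
  · obtain ⟨i, hi⟩ := rel_ne x hu0
    refine Finset.sum_pos' (fun a _ => mul_nonneg (hall a) (hμ a).le) ⟨i, Finset.mem_univ i, ?_⟩
    exact mul_pos (lt_of_le_of_ne (hall i) hi.symm) (hμ i)
  · push Not at hall
    obtain ⟨l, hl⟩ := hall
    have hoth : ∀ i, i ≠ l → - rel x u l ≤ rel x u i := by
      intro i hi
      have := hr u hu i l hi
      linarith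
    rw [← Finset.add_sum_erase _ _ (Finset.mem_univ l)]
    have h1 : (- rel x u l) * ∑ a ∈ Finset.univ.erase l, μ a ≤
        ∑ a ∈ Finset.univ.erase l, rel x u a * μ a := by
      rw [Finset.mul_sum]
      exact Finset.sum_le_sum fun a ha => mul_le_mul_of_nonneg_right
        (hoth a (Finset.ne_of_mem_erase ha)) (hμ a).le
    nlinarith [mul_lt_mul_of_pos_left (hbal l) (neg_pos.2 hl)]

/-- a flipped direction -/
theorem DBody.ill_flip (h : DBody K) {x : Fin n → ℝ} (hx : x ∈ K) {l : Fin n} {θ : ℝ}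
    (hr : ∀ u, Nrm K x u → ∀ i, 0 ≤ rel x u i)
    (hθ : ∀ u, Nrm K x u → θ * ∑ i, rel x u i ≤ ∑ i ∈ Finset.univ.erase l, rel x u i)
    {μ : Fin n → ℝ} (hμ : ∀ i, i ≠ l → 1 ≤ μ i) (hl0 : 0 < μ l) (hl : μ l < θ) :
    Ill K (dw μ (fl (pat x) l)) x := by
  refine ill_of_nrm h.conv h.int hx fun u hu0 hu => ?_
  obtain ⟨k, hk⟩ := rel_ne x hu0
  have hpos : 0 < ∑ i, rel x u i :=
    Finset.sum_pos' (fun a _ => hr u hu a) ⟨k, Finset.mem_univ k,
      lt_of_le_of_ne (hr u hu k) hk.symm⟩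
  have e1 : ∑ a, u a * dw μ (fl (pat x) l) a =
      rel x u l * μ l - ∑ a ∈ Finset.univ.erase l, rel x u a * μ a := by
    rw [← Finset.add_sum_erase _ _ (Finset.mem_univ l), sub_eq_add_neg, ← Finset.sum_neg_distrib]
    congr 1
    · rw [dw, fl_self, sg_not, rel]; ring
    · refine Finset.sum_congr rfl fun a ha => ?_
      rw [dw, fl_ne _ (Finset.ne_of_mem_erase ha), rel]; ring
  rw [e1]
  have h1 : ∑ a ∈ Finset.univ.erase l, rel x u a ≤ ∑ a ∈ Finset.univ.erase l, rel x u a * μ a :=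
    Finset.sum_le_sum fun a ha => by
      have h2 := hμ a (Finset.ne_of_mem_erase ha)
      have h3 := hr u hu a
      nlinarith
  have h2 := hθ u hu
  have h3 : rel x u l ≤ ∑ i, rel x u i :=
    Finset.single_le_sum (fun a _ => hr u hu a) (Finset.mem_univ l)
  have h4 : rel x u l * μ l ≤ (∑ i, rel x u i) * μ l := mul_le_mul_of_nonneg_right h3 hl0.le
  nlinarith

end Pool.Agent.W396.Il
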