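import Pool.Agent.W396.Il.DnT

set_option autoImplicit false

/-!
Convex bodies with the symmetries `D_n`: the parameters of a body.
-/

namespace Pool.Agent.W396.Il

open Set Finset

variable {n : ℕ} {K : Set (Fin n → ℝ)}

/-- the point with pattern `ε` and constant absolute value `t` -/
def Pt (ε : Fin n → Bool) (t : ℝ) : Fin n → ℝ := fun i => -(sg (ε i) * t)

theorem pat_Pt (ε : Fin n → Bool) {t : ℝ} (ht : 0 < t) : pat (Pt ε t) = ε := by
  funext i
  unfold pat Pt sg
  by_cases h : ε i = true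
  · simp [h, ht]
  · simp [h, ht.le]

theorem abs_Pt (ε : Fin n → Bool) {t : ℝ} (ht : 0 ≤ t) (i : Fin n) : |Pt ε t i| = t := by
  unfold Pt
  rcases sg_cases (ε i) with h | h <;> rw [h]
  · rw [one_mul, abs_neg, abs_of_nonneg ht]
  · rw [neg_one_mul, neg_neg, abs_of_nonneg ht]

theorem eq_Pt {x : Fin n → ℝ} {t : ℝ} (hx : ∀ i, |x i| = t) : x = Pt (pat x) t := by
  funext i
  rw [x_eq_pat x i, hx i]
  unfold Pt
  ring

theorem DBody.Pt_mem (h : DBody K) {ε ε' : Fin n → Bool} (hp : par ε = par ε') {t : ℝ}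
    (ht : Pt ε t ∈ K) : Pt ε' t ∈ K := by
  have h1 := h.sgn (fun i => sg (ε' i) * sg (ε i)) ?_ ?_ _ ht
  · convert h1 using 1
    funext i
    have := sg_mul_self (ε i)
    calc Pt ε' t i = -(sg (ε' i) * (1 * t)) := by rw [Pt, one_mul]
      _ = -(sg (ε' i) * ((sg (ε i) * sg (ε i)) * t)) := by rw [this]
      _ = _ := by rw [Pt]; ring
  · intro i
    rcases sg_cases (ε' i) with h1 | h1 <;> rcases sg_cases (ε i) with h2 | h2 <;>
      rw [h1, h2] <;> norm_num
  · rw [Finset.prod_mul_distrib]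
    show par ε' * par ε = 1
    rw [hp]
    rcases par_cases ε' with h1 | h1 <;> rw [h1] <;> norm_num

theorem exists_par {n : ℕ} (i : Fin n) {π : ℝ} (hπ : π = 1 ∨ π = -1) :
    ∃ ε : Fin n → Bool, par ε = π := by
  by_cases h : par (fun _ : Fin n => true) = π
  · exact ⟨_, h⟩
  · exact ⟨_, par_flip' i hπ h⟩

/-- the largest multiple of the sign vectors of a parity -/
theorem DBody.exists_t (h : DBody K) (hn : 2 ≤ n) {π : ℝ} (hπ : π = 1 ∨ π = -1) :
    ∃ t : ℝ, 0 < t ∧ (∀ ε, par ε = π → Pt ε t ∈ K) ∧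
      ∀ ε s, par ε = π → 0 < s → Pt ε s ∈ K → s ≤ t := by
  have i0 : Fin n := ⟨0, by omega⟩
  obtain ⟨ε0, hε0⟩ := exists_par i0 hπ
  obtain ⟨T, hT⟩ : ∃ T : Set ℝ, T = {s : ℝ | 0 ≤ s ∧ Pt ε0 s ∈ K} := ⟨_, rfl⟩
  have hTm : ∀ s, s ∈ T ↔ 0 ≤ s ∧ Pt ε0 s ∈ K := by intro s; rw [hT]; rfl
  have hcont : Continuous fun s : ℝ => Pt ε0 s := by
    unfold Pt
    fun_prop
  have hcl : IsClosed T := by
    rw [hT]
    exact isClosed_Ici.inter (h.comp.isClosed.preimage hcont)
  have hz := h.zero_int hn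
  have h0 : (0 : ℝ) ∈ T := by
    rw [hTm]
    refine ⟨le_rfl, ?_⟩
    have : Pt ε0 0 = 0 := by funext i; simp [Pt]
    rw [this]
    exact interior_subset hz
  obtain ⟨R, hR⟩ := h.comp.isBounded.subset_closedBall (0 : Fin n → ℝ)
  have hbd : BddAbove T := by
    refine ⟨R, fun s hs => ?_⟩
    rw [hTm] at hs
    have h1 := hR hs.2
    rw [mem_closedBall_zero_iff] at h1
    have h2 := norm_le_pi_norm (Pt ε0 s) i0
    rw [Real.norm_eq_abs, abs_Pt ε0 hs.1 i0] at h2
    linarith
  have hmem := hcl.csSup_mem ⟨0, h0⟩ hbd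
  obtain ⟨t, ht⟩ : ∃ t, t = sSup T := ⟨_, rfl⟩
  rw [← ht] at hmem
  -- positive
  have hpos : 0 < t := by
    have h1 : Filter.Tendsto (fun s : ℝ => Pt ε0 s) (nhds 0) (nhds 0) := by
      have := hcont.tendsto 0
      have h2 : Pt ε0 0 = 0 := by funext i; simp [Pt]
      rwa [h2] at this
    have h2 : ∀ᶠ s in nhds (0 : ℝ), Pt ε0 s ∈ K := h1 (mem_interior_iff_mem_nhds.1 hz)
    obtain ⟨δ, hδ, h3⟩ := Metric.eventually_nhds_iff.1 h2
    have h4 : δ / 2 ∈ T := by
      rw [hTm]
      refine ⟨by positivity, h3 ?_⟩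
      rw [Real.dist_eq, sub_zero, abs_of_pos (by positivity)]
      linarith
    have h5 := le_csSup hbd h4
    rw [← ht] at h5
    linarith
  refine ⟨t, hpos, fun ε hε => h.Pt_mem (hε0.trans hε.symm) ((hTm t).1 hmem).2, ?_⟩
  intro ε s hε hs hsK
  rw [ht]
  exact le_csSup hbd ((hTm s).2 ⟨hs.le, h.Pt_mem (hε.trans hε0.symm) hsK⟩)

/-- the largest coordinate -/
theorem DBody.exists_a (h : DBody K) (hn : 3 ≤ n) : ∃ a : ℝ, 0 < a ∧
    (∀ i : Fin n, ∀ b : ℝ, b = 1 ∨ b = -1 → Pi.single i (b * a) ∈ K) ∧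
    ∀ x ∈ K, ∀ i, |x i| ≤ a := by
  obtain ⟨i0, hi0⟩ : ∃ i0 : Fin n, i0 = ⟨0, by omega⟩ := ⟨_, rfl⟩
  obtain ⟨x0, hx0, hmax⟩ := h.comp.exists_isMaxOn (f := fun x : Fin n → ℝ => |x i0|)
    ⟨0, interior_subset (h.zero_int (by omega))⟩ (by fun_prop)
  obtain ⟨a, ha⟩ : ∃ a, a = |x0 i0| := ⟨_, rfl⟩
  have hle : ∀ x ∈ K, ∀ i, |x i| ≤ a := by
    intro x hx i
    have h1 := hmax (h.perm (Equiv.swap i0 i) x hx)
    have h1 : |x (Equiv.swap i0 i i0)| ≤ |x0 i0| := h1
    rw [Equiv.swap_apply_left] at h1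
    rw [ha]; exact h1
  -- zero out the other coordinates
  have key : ∀ S : Finset (Fin n), i0 ∉ S → ∃ y ∈ K, y i0 = x0 i0 ∧ ∀ i ∈ S, y i = 0 := by
    intro S
    induction S using Finset.induction_on with
    | empty => exact fun _ => ⟨x0, hx0, rfl, by simp⟩
    | insert j S hj ih =>
      intro hjS
      rw [Finset.mem_insert] at hjS
      push Not at hjS
      obtain ⟨y, hy, hy0, hyS⟩ := ih hjS.2
      obtain ⟨k, hk0, hkj⟩ : ∃ k : Fin n, k ≠ i0 ∧ k ≠ j := by
        by_contra hcon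
        push Not at hcon
        have h1 : (Finset.univ : Finset (Fin n)) ⊆ {i0, j} := by
          intro k _
          rw [Finset.mem_insert, Finset.mem_singleton]
          by_cases hk : k = i0
          · exact Or.inl hk
          · exact Or.inr (hcon k hk)
        have h2 := Finset.card_le_card h1
        rw [Finset.card_univ, Fintype.card_fin] at h2
        have h3 := Finset.card_le_two (a := i0) (b := j)
        omega
      have h1 := h.flip2 hkj hy
      have h2 := h.conv hy h1 (by norm_num : (0 : ℝ) ≤ 1 / 2) (by norm_num : (0 : ℝ) ≤ 1 / 2)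
        (by norm_num)
      refine ⟨_, h2, ?_, ?_⟩
      · simp only [Pi.add_apply, Pi.smul_apply, smul_eq_mul]
        rw [if_neg (by rintro (h3 | h3); exacts [hk0 h3.symm, hjS.1 h3]), hy0]
        ring
      · intro i hi
        simp only [Pi.add_apply, Pi.smul_apply, smul_eq_mul]
        rcases Finset.mem_insert.1 hi with rfl | hi
        · rw [if_pos (Or.inr rfl)]; ring
        · rw [hyS i hi]; split_ifs <;> ring
  obtain ⟨y, hy, hy0, hyS⟩ := key (Finset.univ.erase i0) (by simp)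
  have hys : y = Pi.single i0 (x0 i0) := by
    funext i
    by_cases hi : i = i0
    · subst hi; rw [Pi.single_eq_same, hy0]
    · rw [Pi.single_eq_of_ne hi, hyS i (by simp [hi])]
  rw [hys] at hy
  have hpos : 0 < a := by
    have h0 := h.zero_int (by omega : 2 ≤ n)
    have h1 : Filter.Tendsto (fun s : ℝ => (Pi.single i0 s : Fin n → ℝ)) (nhds 0) (nhds 0) := by
      have h2 : Continuous fun s : ℝ => (Pi.single i0 s : Fin n → ℝ) := by
        refine continuous_pi fun j => ?_
        by_cases hj : j = i0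
        · subst hj
          simp only [Pi.single_eq_same]
          exact continuous_id
        · simp only [Pi.single_eq_of_ne hj]
          exact continuous_const
      have := h2.tendsto 0
      rwa [Pi.single_zero] at this
    obtain ⟨δ, hδ, h3⟩ := Metric.eventually_nhds_iff.1 (h1 (mem_interior_iff_mem_nhds.1 h0))
    have h4 := hle _ (h3 (y := δ / 2) (by
      rw [Real.dist_eq, sub_zero, abs_of_pos (by positivity)]; linarith)) i0
    simp only [Pi.single_eq_same] at h4
    rw [abs_of_pos (by positivity)] at h4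
    linarith
  -- both signs
  have hneg : ∀ s : ℝ, (Pi.single i0 s : Fin n → ℝ) ∈ K → (Pi.single i0 (-s) : Fin n → ℝ) ∈ K := by
    intro s hs
    obtain ⟨j, hj⟩ : ∃ j : Fin n, j = ⟨1, by omega⟩ := ⟨_, rfl⟩
    have hne : i0 ≠ j := by rw [hi0, hj]; intro h; have := congrArg Fin.val h; simp at this
    have h1 := h.flip2 hne hs
    convert h1 using 1
    funext k
    by_cases hk : k = i0
    · subst hk; rw [Pi.single_eq_same, if_pos (Or.inl rfl), Pi.single_eq_same]
    · rw [Pi.single_eq_of_ne hk, Pi.single_eq_of_ne hk]; simp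
  refine ⟨a, hpos, ?_, hle⟩
  have hall : ∀ b : ℝ, b = 1 ∨ b = -1 → (Pi.single i0 (b * a) : Fin n → ℝ) ∈ K := by
    intro b hb
    rw [ha]
    rcases abs_choice (x0 i0) with h1 | h1 <;> rcases hb with h2 | h2 <;> rw [h1, h2]
    · rw [one_mul]; exact hy
    · rw [neg_one_mul]; exact hneg _ hy
    · rw [one_mul]; exact hneg _ hy
    · rw [neg_one_mul, neg_neg]; exact hy
  intro i b hb
  have h1 := h.perm (Equiv.swap i i0) _ (hall b hb)
  convert h1 using 1
  funext k
  by_cases hk : k = i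
  · subst hk; rw [Pi.single_eq_same, Equiv.swap_apply_left, Pi.single_eq_same]
  · rw [Pi.single_eq_of_ne hk, Pi.single_eq_of_ne]
    intro h2
    apply hk
    have := congrArg (Equiv.swap i i0) h2
    rwa [Equiv.swap_apply_self, Equiv.swap_apply_right] at this

/-- the value of a normal at a constant point -/
theorem dot_const {x : Fin n → ℝ} {c : ℝ} (hxc : ∀ i, |x i| = c) (u : Fin n → ℝ) :
    ∑ a, u a * x a = c * ∑ a, rel x u a := by
  rw [Finset.mul_sum]
  refine Finset.sum_congr rfl fun a _ => ?_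
  conv_lhs => rw [x_eq_pat x a, hxc a]
  rw [rel]; ring

/-- comparison with the other class -/
theorem comp_flip {x u : Fin n → ℝ} {c t' : ℝ} (hxc : ∀ i, |x i| = c)
    (hu : Nrm K x u) (l : Fin n) (hl : Pt (fl (pat x) l) t' ∈ K) :
    (t' - c) * ∑ a, rel x u a ≤ 2 * t' * rel x u l := by
  have h1 := hu _ hl
  rw [dot_const hxc] at h1
  have h2 : ∑ a, u a * Pt (fl (pat x) l) t' a = t' * (∑ a, rel x u a - 2 * rel x u l) := by
    have e3 : ∀ a, u a * Pt (fl (pat x) l) t' a =
        t' * (rel x u a) - if a = l then 2 * t' * rel x u a else 0 := by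
      intro a
      by_cases ha : a = l
      · subst ha
        rw [Pt, fl_self, sg_not, if_pos rfl, rel]; ring
      · rw [Pt, fl_ne _ ha, if_neg ha, rel]; ring
    rw [Finset.sum_congr rfl fun a _ => e3 a, Finset.sum_sub_distrib, Finset.sum_ite_eq',
      if_pos (Finset.mem_univ l), ← Finset.mul_sum]
    ring
  rw [h2] at h1
  linarith

/-- comparison with a multiple of a coordinate vector -/
theorem comp_single {x u : Fin n → ℝ} {c a : ℝ} (hxc : ∀ i, |x i| = c)
    (hu : Nrm K x u) (l : Fin n)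
    (hl : ∀ b : ℝ, b = 1 ∨ b = -1 → Pi.single l (b * a) ∈ K) :
    a * rel x u l ≤ c * ∑ a, rel x u a := by
  have h1 := hu _ (hl (- sg (pat x l)) (by
    rcases sg_cases (pat x l) with h | h <;> rw [h] <;> norm_num))
  rw [dot_const hxc] at h1
  have h2 : ∑ k, u k * (Pi.single l (- sg (pat x l) * a) : Fin n → ℝ) k = a * rel x u l := by
    rw [Finset.sum_eq_single l]
    · rw [Pi.single_eq_same, rel]; ring
    · intro k _ hk
      rw [Pi.single_eq_of_ne hk, mul_zero]
    · simp
  rwa [h2] at h1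

/-- the body is a cube -/
theorem DBody.cube (h : DBody K) {t : ℝ} (ht : 0 < t) (h1 : ∀ ε : Fin n → Bool, Pt ε t ∈ K)
    (h2 : ∀ x ∈ K, ∀ i, |x i| ≤ t) : K = {x | ∀ i, |x i| ≤ t} := by
  apply Set.Subset.antisymm
  · exact fun x hx => h2 x hx
  · have e1 : convexHull ℝ (Set.univ.pi fun _ : Fin n => ({-t, t} : Set ℝ)) ⊆ K := by
      refine convexHull_min ?_ h.conv
      intro x hx
      have h3 : x = Pt (fun i => decide (x i = -t)) t := by
        funext i
        have h4 : x i = -t ∨ x i = t := by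
          have := hx i (Set.mem_univ i)
          simpa using this
        unfold Pt sg
        rcases h4 with h4 | h4
        · simp [h4]
        · have h5 : ¬ (t = -t) := by intro h5; linarith
          simp [h4, h5]
      rw [h3]
      exact h1 _
    intro x hx
    apply e1
    rw [convexHull_pi]
    intro i _
    rw [convexHull_pair, segment_eq_Icc (by linarith)]
    exact abs_le.1 (hx i)

end Pool.Agent.W396.Il
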