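import Pool.Agent.W396.Il.DnU

set_option autoImplicit false

/-!
Convex bodies with the symmetries `D_n`: one direction less, if the body is not a cube.
-/

namespace Pool.Agent.W396.Il

open Set Finset

variable {n : ℕ} {K : Set (Fin n → ℝ)}

/-- the points with constant absolute values and parity `π` have normals with nonnegative relative
coordinates, not concentrated at `l` -/
def Qp (K : Set (Fin n → ℝ)) (π θ : ℝ) (l : Fin n) : Prop :=
  ∀ x ∈ K, ∀ c : ℝ, 0 < c → (∀ i, |x i| = c) → par (pat x) = π → ∀ u, Nrm K x u →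
    (∀ i, 0 ≤ rel x u i) ∧ θ * ∑ i, rel x u i ≤ ∑ i ∈ Finset.univ.erase l, rel x u i

theorem DBody.sum_nonneg (h : DBody K) (hn : 2 ≤ n) {x u : Fin n → ℝ} {c : ℝ} (hc : 0 < c)
    (hxc : ∀ i, |x i| = c) (hu : Nrm K x u) : 0 ≤ ∑ a, rel x u a := by
  have h1 := hu 0 (interior_subset (h.zero_int hn))
  rw [dot_const hxc] at h1
  simp only [Pi.zero_apply, mul_zero, Finset.sum_const_zero] at h1
  by_contra hcon
  push Not at hcon
  nlinarith

theorem DBody.Q_of_lt (h : DBody K) (hn : 2 ≤ n) (l : Fin n) {π t t' : ℝ} (ht : 0 < t)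
    (htt : t < t') (hle : ∀ ε s, par ε = π → 0 < s → Pt ε s ∈ K → s ≤ t)
    (hmem : ∀ ε, par ε = -π → Pt ε t' ∈ K) : Qp K π ((t' - t) / (2 * t')) l := by
  intro x hx c hc hxc hp u hu
  have hct : c ≤ t := hle (pat x) c hp hc (by rw [← eq_Pt hxc]; exact hx)
  have hs := h.sum_nonneg hn hc hxc hu
  have ht' : 0 < t' := ht.trans htt
  have hr : ∀ i, (t' - t) / (2 * t') * ∑ a, rel x u a ≤ rel x u i := by
    intro i
    have h1 := comp_flip hxc hu i (hmem _ (by rw [par_fl, hp]))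
    rw [div_mul_eq_mul_div, div_le_iff₀ (by positivity)]
    nlinarith
  have hθ : 0 ≤ (t' - t) / (2 * t') * ∑ a, rel x u a :=
    mul_nonneg (div_nonneg (by linarith) (by linarith)) hs
  refine ⟨fun i => hθ.trans (hr i), ?_⟩
  obtain ⟨j, hj⟩ : ∃ j : Fin n, j ≠ l := by
    by_contra hcon
    push Not at hcon
    have h1 : (Finset.univ : Finset (Fin n)) ⊆ {l} := fun k _ => by
      rw [Finset.mem_singleton]; exact hcon k
    have h2 := Finset.card_le_card h1
    rw [Finset.card_univ, Fintype.card_fin, Finset.card_singleton] at h2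
    omega
  exact (hr j).trans (Finset.single_le_sum (f := fun i => rel x u i) (fun i _ => hθ.trans (hr i))
    (Finset.mem_erase.2 ⟨hj, Finset.mem_univ j⟩))

theorem DBody.exists_Q (h : DBody K) (hn : 3 ≤ n) (l : Fin n) :
    (∃ t : ℝ, 0 < t ∧ K = {x | ∀ i, |x i| ≤ t}) ∨
      ∃ π θ : ℝ, (π = 1 ∨ π = -1) ∧ 0 < θ ∧ Qp K π θ l := by
  obtain ⟨t1, h1, hm1, hl1⟩ := h.exists_t (π := 1) (by omega) (Or.inl rfl)
  obtain ⟨t2, h2, hm2, hl2⟩ := h.exists_t (π := -1) (by omega) (Or.inr rfl)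
  obtain ⟨a, ha, hma, hla⟩ := h.exists_a hn
  rcases lt_trichotomy t1 t2 with h3 | h3 | h3
  · exact Or.inr ⟨1, (t2 - t1) / (2 * t2), Or.inl rfl, div_pos (by linarith) (by linarith),
      h.Q_of_lt (by omega) l h1 h3 hl1 hm2⟩
  · subst h3
    by_cases h4 : a ≤ t1
    · refine Or.inl ⟨t1, h1, h.cube h1 (fun ε => ?_) fun x hx i => (hla x hx i).trans h4⟩
      rcases par_cases ε with h5 | h5
      · exact hm1 ε h5
      · exact hm2 ε h5
    · push Not at h4
      refine Or.inr ⟨1, 1 - t1 / a, Or.inl rfl, ?_, ?_⟩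
      · rw [sub_pos, div_lt_one ha]; exact h4
      · intro x hx c hc hxc hp u hu
        have hct : c ≤ t1 := hl1 (pat x) c hp hc (by rw [← eq_Pt hxc]; exact hx)
        have hs := h.sum_nonneg (by omega) hc hxc hu
        refine ⟨fun i => ?_, ?_⟩
        · have h5 := comp_flip hxc hu i (hm2 _ (by rw [par_fl, hp]))
          have h6 : 0 ≤ (t1 - c) * ∑ a, rel x u a := mul_nonneg (by linarith) hs
          by_contra hcon
          push Not at hcon
          nlinarith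
        · have h5 := comp_single hxc hu l (hma l)
          have h6 : rel x u l ≤ t1 / a * ∑ i, rel x u i := by
            rw [div_mul_eq_mul_div, le_div_iff₀ ha]
            nlinarith
          have h7 := Finset.add_sum_erase Finset.univ (fun i => rel x u i) (Finset.mem_univ l)
          linarith
  · refine Or.inr ⟨-1, (t1 - t2) / (2 * t1), Or.inr rfl, div_pos (by linarith) (by linarith),
      h.Q_of_lt (by omega) l h2 h3 hl2 fun ε hε => hm1 ε (by rw [hε]; norm_num)⟩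

/-! ### the weights -/

open Classical in
/-- the weights: `P` at the peak, `1` otherwise, except for one vector with one small weight -/
noncomputable def Wt (p : (Fin n → Bool) → Fin n) (ε1 : Fin n → Bool) (la : Fin n) (δ P : ℝ)
    (ε : Fin n → Bool) : Fin n → ℝ :=
  fun i => 1 + (if i = p ε then P - 1 else 0) - (if i = la then (if ε = ε1 then 1 - δ else 0) else 0)

section Wt

variable {p : (Fin n → Bool) → Fin n} {ε1 : Fin n → Bool} {la : Fin n} {δ P : ℝ}

theorem Wt_peak (hla : p ε1 ≠ la) (ε : Fin n → Bool) : Wt p ε1 la δ P ε (p ε) = P := by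
  unfold Wt
  rw [if_pos rfl]
  by_cases h : p ε = la
  · rw [if_pos h, if_neg (by rintro rfl; exact hla h)]; ring
  · rw [if_neg h]; ring

theorem Wt_la (hla : p ε1 ≠ la) : Wt p ε1 la δ P ε1 la = δ := by
  unfold Wt
  rw [if_neg hla.symm, if_pos rfl, if_pos rfl]; ring

theorem Wt_pos (hla : p ε1 ≠ la) (hδ : 0 < δ) (hδ1 : δ ≤ 1) (hP : 1 ≤ P) (ε : Fin n → Bool)
    (i : Fin n) : 0 < Wt p ε1 la δ P ε i := by
  by_cases h : i = p ε
  · rw [h, Wt_peak hla]; linarith
  · unfold Wt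
    rw [if_neg h]
    split_ifs <;> linarith

theorem Wt_ge (hP : 1 ≤ P) (ε : Fin n → Bool) {i : Fin n} (hi : i ≠ la) :
    1 ≤ Wt p ε1 la δ P ε i := by
  unfold Wt
  rw [if_neg hi]
  split_ifs <;> linarith

theorem Wt_le (hδ1 : δ ≤ 1) (hP : 1 ≤ P) (ε : Fin n → Bool) (i : Fin n) :
    Wt p ε1 la δ P ε i ≤ P := by
  unfold Wt
  split_ifs <;> linarith

theorem Wt_le_one (hδ1 : δ ≤ 1) {ε : Fin n → Bool} {i : Fin n} (hi : i ≠ p ε) :
    Wt p ε1 la δ P ε i ≤ 1 := by
  unfold Wt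
  rw [if_neg hi]
  split_ifs <;> linarith

theorem sum_Wt_ge (hδ1 : δ ≤ 1) {ε : Fin n → Bool} {S : Finset (Fin n)} (hS : p ε ∈ S) :
    (S.card : ℝ) + P - 2 + δ ≤ ∑ i ∈ S, Wt p ε1 la δ P ε i := by
  unfold Wt
  rw [Finset.sum_sub_distrib, Finset.sum_add_distrib, Finset.sum_ite_eq' S (p ε), if_pos hS,
    Finset.sum_ite_eq' S la, Finset.sum_const, nsmul_eq_mul, mul_one]
  split_ifs <;> linarith

theorem sum_Wt_le (hδ1 : δ ≤ 1) {ε : Fin n → Bool} {S : Finset (Fin n)} (hS : p ε ∈ S) :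
    ∑ i ∈ Sᶜ, Wt p ε1 la δ P ε i ≤ n - S.card := by
  have h1 : ∑ i ∈ Sᶜ, Wt p ε1 la δ P ε i ≤ ∑ i ∈ Sᶜ, (1 : ℝ) :=
    Finset.sum_le_sum fun i hi => Wt_le_one hδ1 (by rintro rfl; simp at hi; exact hi hS)
  rw [Finset.sum_const, nsmul_eq_mul, mul_one, Finset.card_compl, Fintype.card_fin,
    Nat.cast_sub (by simpa using Finset.card_le_univ S)] at h1
  exact h1

theorem Wt_bal (hδ : 0 < δ) (hδ1 : δ ≤ 1) (hP : 1 ≤ P) (hPn : P ≤ n - 2) (ε : Fin n → Bool)
    (l : Fin n) : Wt p ε1 la δ P ε l < ∑ i ∈ Finset.univ.erase l, Wt p ε1 la δ P ε i := by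
  have h1 := Finset.add_sum_erase Finset.univ (Wt p ε1 la δ P ε) (Finset.mem_univ l)
  have h2 := sum_Wt_ge (P := P) (la := la) (ε1 := ε1) hδ1 (Finset.mem_univ (p ε))
  rw [Finset.card_univ, Fintype.card_fin] at h2
  have h3 := Wt_le (p := p) (ε1 := ε1) (la := la) hδ1 hP ε l
  linarith

end Wt

/-- dimension at least five -/
theorem DBody.strict5 {m : ℕ} {K : Set (Fin (m + 5) → ℝ)} (h : DBody K) :
    (∃ t : ℝ, 0 < t ∧ K = {x | ∀ i, |x i| ≤ t}) ∨ Cov (2 ^ (m + 5) - 1) K := by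
  classical
  obtain ⟨la, hla⟩ : ∃ la : Fin (m + 5), la = ⟨m + 4, by omega⟩ := ⟨_, rfl⟩
  rcases h.exists_Q (by omega) la with hc | ⟨π, θ, hπ, hθ, hQ⟩
  · exact Or.inl hc
  right
  obtain ⟨p, ε0, hp0, hdes, hsing⟩ := des_five m π hπ
  rw [← hla] at hdes
  obtain ⟨δ, hδ⟩ : ∃ δ, δ = min θ 1 / 2 := ⟨_, rfl⟩
  have hmin : 0 < min θ 1 := lt_min hθ one_pos
  have hδ0 : 0 < δ := by rw [hδ]; linarith
  have hδ1 : δ ≤ 1 := by rw [hδ]; have := min_le_right θ 1; linarith
  have hδθ : δ < θ := by rw [hδ]; have := min_le_left θ 1; linarith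
  have hm0 : (0 : ℝ) ≤ m := Nat.cast_nonneg m
  have hnc : ((m + 5 : ℕ) : ℝ) = (m : ℝ) + 5 := by push_cast; ring
  have hcard : Fintype.card {ε : Fin (m + 5) → Bool // ε ≠ ε0} = 2 ^ (m + 5) - 1 := by
    have := Set.card_ne_eq ε0
    rw [Fintype.card_fun, Fintype.card_bool, Fintype.card_fin] at this
    rw [← this]
    rfl
  rw [← hcard]
  obtain ⟨PP, hPP⟩ : ∃ PP : (Fin (m + 5) → Bool) → ℝ, PP = fun ε =>
    if par ε = π then ((m + 5 : ℕ) : ℝ) else ((m + 5 : ℕ) : ℝ) - 2 := ⟨_, rfl⟩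
  have hP1 : ∀ ε, 1 ≤ PP ε := by
    intro ε; rw [hPP, hnc]; simp only; split_ifs <;> linarith
  have hP2 : ∀ ε, ((m + 5 : ℕ) : ℝ) - 2 ≤ PP ε := by
    intro ε; rw [hPP]; simp only; split_ifs <;> linarith
  refine cov_of_ill h.conv h.comp (fun ε : {ε : Fin (m + 5) → Bool // ε ≠ ε0} =>
    dw (Wt p (fl ε0 la) la δ (PP ε.1) ε.1) ε.1) ?_
  intro x hx
  by_cases hconst : ∀ i, |x i| = |x 0|
  · rcases (abs_nonneg (x 0)).eq_or_lt with h0 | h0
    · have hx0 : x = 0 := by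
        ext i
        have := hconst i
        rw [← h0] at this
        exact abs_eq_zero.1 this
      refine ⟨⟨fl ε0 la, fl_ne_self _ _⟩, ?_⟩
      rw [hx0]
      exact ill_of_int (h.zero_int (by omega)) _
    · by_cases hpat : pat x = ε0
      · refine ⟨⟨fl ε0 la, fl_ne_self _ _⟩, ?_⟩
        have h1 := h.ill_flip (l := la) (θ := θ) hx
          (fun u hu => (hQ x hx _ h0 hconst (by rw [hpat, hp0]) u hu).1)
          (fun u hu => (hQ x hx _ h0 hconst (by rw [hpat, hp0]) u hu).2)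
          (μ := Wt p (fl ε0 la) la δ (PP (fl ε0 la)) (fl ε0 la))
          (fun i hi => Wt_ge (hP1 _) _ hi) (by rw [Wt_la hdes.la]; exact hδ0)
          (by rw [Wt_la hdes.la]; exact hδθ)
        rw [hpat] at h1
        exact h1
      · refine ⟨⟨pat x, hpat⟩, ?_⟩
        by_cases hpar : par (pat x) = π
        · exact h.ill_pos hx (fun u hu => (hQ x hx _ h0 hconst hpar u hu).1)
            (fun i => Wt_pos hdes.la hδ0 hδ1 (hP1 _) _ i)
        · refine h.ill_bal hx (fun u hu i j hij => h.rel_add hx hu hij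
            (by rw [hconst i, hconst j]) (by rw [hconst i]; exact h0))
            (fun i => Wt_pos hdes.la hδ0 hδ1 (hP1 _) _ i)
            (fun l => Wt_bal hδ0 hδ1 (hP1 _) ?_ _ l)
          rw [hPP]
          simp only
          rw [if_neg hpar]
  · -- the maximal coordinates
    obtain ⟨i0, -, hi0⟩ := Finset.exists_max_image Finset.univ (fun i => |x i|)
      ⟨0, Finset.mem_univ _⟩
    obtain ⟨S, hS⟩ : ∃ S : Finset (Fin (m + 5)), S = Finset.univ.filter fun i => |x i| = |x i0| :=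
      ⟨_, rfl⟩
    have hmem : ∀ i, i ∈ S ↔ |x i| = |x i0| := by intro i; rw [hS]; simp
    have hi0S : i0 ∈ S := (hmem i0).2 rfl
    have hlt : ∀ i ∈ S, ∀ j, j ∉ S → |x j| < |x i| := by
      intro i hi j hj
      rw [(hmem i).1 hi]
      exact lt_of_le_of_ne (hi0 j (Finset.mem_univ j)) fun h1 => hj ((hmem j).2 h1)
    obtain ⟨j0, hj0⟩ : ∃ j0, j0 ∉ S := by
      by_contra hcon
      push Not at hcon
      exact hconst fun i => ((hmem i).1 (hcon i)).trans ((hmem 0).1 (hcon 0)).symm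
    by_cases hcard : S.card = 1
    · obtain ⟨i, hi⟩ := Finset.card_eq_one.1 hcard
      obtain ⟨ε, hne, e1, e2, e3⟩ := hsing i (pat x i)
      have hpS : p ε ∈ S := by rw [e3, hi]; exact Finset.mem_singleton_self i
      refine ⟨⟨ε, hne⟩, ?_⟩
      refine h.ill_w hx hlt hj0 ?_ (fun i => Wt_pos hdes.la hδ0 hδ1 (hP1 _) _ i) ?_
      · intro j hj
        rw [hi, Finset.mem_singleton] at hj
        rw [hj]; exact e2
      · have h1 := sum_Wt_ge (P := PP ε) (la := la) (ε1 := fl ε0 la) hδ1 hpS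
        have h2 := sum_Wt_le (P := PP ε) (la := la) (ε1 := fl ε0 la) hδ1 hpS
        have h3 : PP ε = ((m + 5 : ℕ) : ℝ) := by rw [hPP]; simp only; rw [if_pos e1]
        rw [hcard] at h1 h2
        rw [hnc] at h2 h3
        push_cast at h1 h2
        linarith
    · obtain ⟨ε, hne, e1, e2⟩ := hdes.ext S ⟨i0, hi0S⟩ (by rintro rfl; exact hj0 (Finset.mem_univ _))
        (pat x)
      have hcard2 : 2 ≤ S.card := by
        have : 0 < S.card := Finset.card_pos.2 ⟨i0, hi0S⟩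
        omega
      have hcard2' : (2 : ℝ) ≤ S.card := by exact_mod_cast hcard2
      refine ⟨⟨ε, hne⟩, ?_⟩
      refine h.ill_w hx hlt hj0 e1 (fun i => Wt_pos hdes.la hδ0 hδ1 (hP1 _) _ i) ?_
      have h1 := sum_Wt_ge (P := PP ε) (la := la) (ε1 := fl ε0 la) hδ1 e2
      have h2 := sum_Wt_le (P := PP ε) (la := la) (ε1 := fl ε0 la) hδ1 e2
      have h3 := hP2 ε
      linarith

end Pool.Agent.W396.Il
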