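import Pool.Agent.W396.Il.DnV

set_option autoImplicit false

/-!
Convex bodies with the symmetries `D_4`: one direction less, if the body is not a cube.
-/

namespace Pool.Agent.W396.Il

open Set Finset

/-- the positions of the large weights, depending on the set of the flipped coordinates -/
def qd (d : Fin 4 → Bool) : Fin 4 :=
  ([0, 1, 2, 3, 3, 2, 0, 2, 0, 1, 3, 0, 0, 2, 1, 1] : List (Fin 4)).getD
    ((if d 0 then 1 else 0) + (if d 1 then 2 else 0) + (if d 2 then 4 else 0) +
      (if d 3 then 8 else 0)) 0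

theorem qd_ext : ∀ S : Finset (Fin 4), S.Nonempty → S ≠ Finset.univ → ∀ σ : Fin 4 → Bool,
    ∃ d : Fin 4 → Bool, d ≠ (fun _ => false) ∧ (∀ i ∈ S, d i = σ i) ∧ qd d ∈ S := by
  decide +kernel

theorem qd_single : ∀ i : Fin 4, ∃ l : Fin 4, l ≠ i ∧ qd (fun j => decide (j = l)) = i := by
  decide +kernel

theorem des_four' (ε0 : Fin 4 → Bool) : ∃ p : (Fin 4 → Bool) → Fin 4, Des 4 p ε0 3 ∧
    ∀ i, ∃ l, l ≠ i ∧ p (fl ε0 l) = i := by
  obtain ⟨p, hp⟩ : ∃ p : (Fin 4 → Bool) → Fin 4, p = fun ε => qd fun j => xor (ε j) (ε0 j) :=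
    ⟨_, rfl⟩
  have hfl : ∀ l, p (fl ε0 l) = qd fun j => decide (j = l) := by
    intro l
    rw [hp]
    simp only
    congr 1
    funext j
    by_cases hj : j = l
    · subst hj
      rw [fl_self]
      cases ε0 j <;> simp
    · rw [fl_ne _ hj]
      simp [hj]
  refine ⟨p, ⟨?_, ?_⟩, ?_⟩
  · intro S hS hne σ
    obtain ⟨d, hd0, hd, hdS⟩ := qd_ext S hS hne fun j => xor (σ j) (ε0 j)
    have hx : ∀ a b : Bool, xor (xor a b) b = a := by decide
    refine ⟨fun j => xor (d j) (ε0 j), fun h => hd0 ?_, fun i hi => ?_, ?_⟩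
    · funext j
      have h1 : xor (d j) (ε0 j) = ε0 j := congrFun h j
      revert h1
      cases d j <;> cases ε0 j <;> simp
    · show xor (d i) (ε0 i) = σ i
      rw [hd i hi, hx]
    · rw [hp]
      simp only
      have : (fun j => xor (xor (d j) (ε0 j)) (ε0 j)) = d := funext fun j => hx _ _
      rw [this]
      exact hdS
  · rw [hfl]; decide
  · intro i
    obtain ⟨l, hl, h⟩ := qd_single i
    exact ⟨l, hl, by rw [hfl, h]⟩

variable {K : Set (Fin 4 → ℝ)}

theorem dot_Pt (u : Fin 4 → ℝ) (t : ℝ) : ∑ a, u a * Pt (pat u) t a = t * ∑ a, |u a| := by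
  rw [Finset.mul_sum]
  refine Finset.sum_congr rfl fun a _ => ?_
  have := sg_pat u a
  calc u a * Pt (pat u) t a = t * -(sg (pat u a) * u a) := by rw [Pt]; ring
    _ = _ := by rw [this, neg_neg]

/-- multiples of coordinate vectors -/
theorem DBody.ill_single (h : DBody K) (hH : ∀ x ∈ K, ∀ i, ∀ ε, Pt ε (|x i| / 2) ∈ K)
    {x : Fin 4 → ℝ} (hx : x ∈ K) {i : Fin 4} (hi : x i ≠ 0) (ho : ∀ j, j ≠ i → x j = 0)
    {μ : Fin 4 → ℝ} {ε : Fin 4 → Bool} (hε : ε i = pat x i) (hμi : μ i = 2)
    (hμ0 : ∀ j, 0 < μ j) (hμ : ∀ j, j ≠ i → μ j ≤ 1) : Ill K (dw μ ε) x := by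
  refine ill_of_nrm h.conv h.int hx fun u hu0 hu => ?_
  have hxi : 0 < |x i| := abs_pos.2 hi
  have h1 := hu _ (hH x hx i (pat u))
  have e1 : ∑ a, u a * x a = |x i| * rel x u i := by
    rw [Finset.sum_eq_single i]
    · conv_lhs => rw [x_eq_pat x i]
      rw [rel]; ring
    · intro j _ hj
      rw [ho j hj, mul_zero]
    · simp
  rw [e1, dot_Pt] at h1
  have h2 : ∑ a, |u a| ≤ 2 * rel x u i := by
    by_contra hcon
    push Not at hcon
    nlinarith
  obtain ⟨k, hk⟩ : ∃ k, u k ≠ 0 := by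
    by_contra hcon
    push Not at hcon
    exact hu0 (funext hcon)
  have h3 : 0 < ∑ a, |u a| := Finset.sum_pos' (fun a _ => abs_nonneg _)
    ⟨k, Finset.mem_univ k, abs_pos.2 hk⟩
  rw [← Finset.add_sum_erase _ _ (Finset.mem_univ i)] at h2 h3 ⊢
  have h4 : rel x u i ≤ |u i| := by
    rw [← abs_rel x u i]; exact le_abs_self _
  have h5 : ∑ a ∈ Finset.univ.erase i, u a * dw μ ε a ≤ ∑ a ∈ Finset.univ.erase i, |u a| := by
    refine Finset.sum_le_sum fun a ha => ?_
    have h6 := hμ0 a
    have h7 := hμ a (Finset.ne_of_mem_erase ha)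
    have h8 := abs_nonneg (u a)
    rw [dw]
    rcases sg_cases (ε a) with hs | hs <;> rw [hs]
    · have := le_abs_self (u a); nlinarith
    · have := neg_le_abs (u a); nlinarith
  have h6 : u i * dw μ ε i = -2 * rel x u i := by
    rw [dw, hε, hμi, rel]; ring
  rw [h6]
  linarith

theorem DBody.strict4 (h : DBody K) (hH : ∀ x ∈ K, ∀ i, ∀ ε, Pt ε (|x i| / 2) ∈ K) :
    (∃ t : ℝ, 0 < t ∧ K = {x | ∀ i, |x i| ≤ t}) ∨ Cov 15 K := by
  classical
  rcases h.exists_Q (by omega) 3 with hc | ⟨π, θ, hπ, hθ, hQ⟩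
  · exact Or.inl hc
  right
  obtain ⟨ε0, hp0⟩ := exists_par (0 : Fin 4) hπ
  obtain ⟨p, hdes, hsing⟩ := des_four' ε0
  obtain ⟨δ, hδ⟩ : ∃ δ, δ = min θ 1 / 2 := ⟨_, rfl⟩
  have hmin : 0 < min θ 1 := lt_min hθ one_pos
  have hδ0 : 0 < δ := by rw [hδ]; linarith
  have hδ1 : δ ≤ 1 := by rw [hδ]; have := min_le_right θ 1; linarith
  have hδθ : δ < θ := by rw [hδ]; have := min_le_left θ 1; linarith
  have hcard : Fintype.card {ε : Fin 4 → Bool // ε ≠ ε0} = 15 := by
    have := Set.card_ne_eq ε0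
    rw [Fintype.card_fun, Fintype.card_bool, Fintype.card_fin] at this
    exact this
  rw [← hcard]
  have hW0 : ∀ ε i, 0 < Wt p (fl ε0 3) 3 δ 2 ε i := Wt_pos hdes.la hδ0 hδ1 (by norm_num)
  refine cov_of_ill h.conv h.comp (fun ε : {ε : Fin 4 → Bool // ε ≠ ε0} =>
    dw (Wt p (fl ε0 3) 3 δ 2 ε.1) ε.1) ?_
  intro x hx
  by_cases hconst : ∀ i, |x i| = |x 0|
  · rcases (abs_nonneg (x 0)).eq_or_lt with h0 | h0
    · have hx0 : x = 0 := by
        ext i
        have := hconst i
        rw [← h0] at this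
        exact abs_eq_zero.1 this
      refine ⟨⟨fl ε0 3, fl_ne_self _ _⟩, ?_⟩
      rw [hx0]
      exact ill_of_int (h.zero_int (by omega)) _
    · by_cases hpat : pat x = ε0
      · refine ⟨⟨fl ε0 3, fl_ne_self _ _⟩, ?_⟩
        have h1 := h.ill_flip (l := 3) (θ := θ) hx
          (fun u hu => (hQ x hx _ h0 hconst (by rw [hpat, hp0]) u hu).1)
          (fun u hu => (hQ x hx _ h0 hconst (by rw [hpat, hp0]) u hu).2)
          (μ := Wt p (fl ε0 3) 3 δ 2 (fl ε0 3))
          (fun i hi => Wt_ge (by norm_num) _ hi) (by rw [Wt_la hdes.la]; exact hδ0)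
          (by rw [Wt_la hdes.la]; exact hδθ)
        rw [hpat] at h1
        exact h1
      · refine ⟨⟨pat x, hpat⟩, ?_⟩
        exact h.ill_bal hx (fun u hu i j hij => h.rel_add hx hu hij
            (by rw [hconst i, hconst j]) (by rw [hconst i]; exact h0))
            (hW0 _) (fun l => Wt_bal hδ0 hδ1 (by norm_num) (by norm_num) _ l)
  · -- threshold sets with at least two elements
    have hthr : ∀ S : Finset (Fin 4), (∀ i ∈ S, ∀ j, j ∉ S → |x j| < |x i|) → 2 ≤ S.card →
        S ≠ Finset.univ → ∃ ε : {ε : Fin 4 → Bool // ε ≠ ε0},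
          Ill K (dw (Wt p (fl ε0 3) 3 δ 2 ε.1) ε.1) x := by
      intro S hlt hcard2 hne
      obtain ⟨j0, hj0⟩ : ∃ j0, j0 ∉ S := by
        by_contra hcon
        push Not at hcon
        exact hne (Finset.eq_univ_iff_forall.2 hcon)
      obtain ⟨ε, hne', e1, e2⟩ := hdes.ext S (Finset.card_pos.1 (by omega)) hne (pat x)
      have hcard2' : (2 : ℝ) ≤ S.card := by exact_mod_cast hcard2
      refine ⟨⟨ε, hne'⟩, ?_⟩
      refine h.ill_w hx hlt hj0 e1 (hW0 _) ?_
      have h1 := sum_Wt_ge (P := 2) (la := 3) (ε1 := fl ε0 3) hδ1 e2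
      have h2 := sum_Wt_le (P := 2) (la := 3) (ε1 := fl ε0 3) hδ1 e2
      push_cast at h2
      linarith
    -- the maximal coordinates
    obtain ⟨i0, -, hi0⟩ := Finset.exists_max_image Finset.univ (fun i => |x i|)
      ⟨0, Finset.mem_univ _⟩
    obtain ⟨S, hS⟩ : ∃ S : Finset (Fin 4), S = Finset.univ.filter fun i => |x i| = |x i0| :=
      ⟨_, rfl⟩
    have hmem : ∀ i, i ∈ S ↔ |x i| = |x i0| := by intro i; rw [hS]; simp
    have hi0S : i0 ∈ S := (hmem i0).2 rfl
    have hlt : ∀ i ∈ S, ∀ j, j ∉ S → |x j| < |x i| := by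
      intro i hi j hj
      rw [(hmem i).1 hi]
      exact lt_of_le_of_ne (hi0 j (Finset.mem_univ j)) fun h1 => hj ((hmem j).2 h1)
    have hSne : S ≠ Finset.univ := by
      intro hcon
      apply hconst
      intro i
      have h1 : ∀ i, |x i| = |x i0| := fun i => (hmem i).1 (hcon ▸ Finset.mem_univ i)
      rw [h1 i, h1 0]
    by_cases hcard1 : 2 ≤ S.card
    · exact hthr S hlt hcard1 hSne
    have hS1 : S = {i0} := by
      have h1 : S.card = 1 := by
        have : 0 < S.card := Finset.card_pos.2 ⟨i0, hi0S⟩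
        omega
      obtain ⟨i, hi⟩ := Finset.card_eq_one.1 h1
      rw [hi] at hi0S ⊢
      rw [Finset.mem_singleton] at hi0S
      rw [hi0S]
    have hlt' : ∀ j, j ≠ i0 → |x j| < |x i0| := fun j hj => hlt i0 hi0S j (by
      rw [hS1, Finset.mem_singleton]; exact hj)
    have hx0 : x i0 ≠ 0 := by
      intro h0
      obtain ⟨j, hj⟩ : ∃ j : Fin 4, j ≠ i0 := exists_ne i0
      have := hlt' j hj
      rw [h0, abs_zero] at this
      exact absurd (abs_nonneg (x j)) (not_le.2 this)
    obtain ⟨j1, hj1, hmax⟩ := Finset.exists_max_image (Finset.univ.erase i0) (fun i => |x i|) (by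
      obtain ⟨j, hj⟩ : ∃ j : Fin 4, j ≠ i0 := exists_ne i0
      exact ⟨j, Finset.mem_erase.2 ⟨hj, Finset.mem_univ _⟩⟩)
    have hj1' : j1 ≠ i0 := Finset.ne_of_mem_erase hj1
    have hmax' : ∀ j, j ≠ i0 → |x j| ≤ |x j1| := fun j hj =>
      hmax j (Finset.mem_erase.2 ⟨hj, Finset.mem_univ _⟩)
    rcases (abs_nonneg (x j1)).eq_or_lt with hz | hz
    · -- a multiple of a coordinate vector
      obtain ⟨ε, hne, e1, e2⟩ := hdes.ext {i0} ⟨i0, Finset.mem_singleton_self _⟩
        (by rw [← hS1]; exact hSne) (pat x)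
      rw [Finset.mem_singleton] at e2
      refine ⟨⟨ε, hne⟩, ?_⟩
      refine h.ill_single hH hx hx0 ?_ (e1 i0 (Finset.mem_singleton_self _)) ?_ (hW0 _) ?_
      · intro j hj
        have := hmax' j hj
        rw [← hz] at this
        exact abs_nonpos_iff.1 this
      · show Wt p (fl ε0 3) 3 δ 2 ε i0 = 2
        rw [← e2, Wt_peak hdes.la]
      · intro j hj
        exact Wt_le_one hδ1 (by rw [e2]; exact hj)
    obtain ⟨T, hT⟩ : ∃ T : Finset (Fin 4), T = Finset.univ.filter fun i => |x j1| ≤ |x i| :=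
      ⟨_, rfl⟩
    have hTm : ∀ i, i ∈ T ↔ |x j1| ≤ |x i| := by intro i; rw [hT]; simp
    by_cases hTu : T = Finset.univ
    · have heq : ∀ j, j ≠ i0 → |x j| = |x j1| := fun j hj =>
        le_antisymm (hmax' j hj) ((hTm j).1 (hTu ▸ Finset.mem_univ j))
      have hadd : ∀ u, Nrm K x u → ∀ a b, a ≠ b → 0 ≤ rel x u a + rel x u b := by
        intro u hu a b hab
        by_cases ha : a = i0
        · have h1 := h.rel_ge hx hu (hlt' b (by rw [← ha]; exact hab.symm))
          rw [← abs_rel x u b, ← ha] at h1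
          have := neg_abs_le (rel x u b)
          linarith
        · by_cases hb : b = i0
          · have h1 := h.rel_ge hx hu (hlt' a ha)
            rw [← abs_rel x u a, ← hb] at h1
            have := neg_abs_le (rel x u a)
            linarith
          · exact h.rel_add hx hu hab (by rw [heq a ha, heq b hb]) (by rw [heq a ha]; exact hz)
      by_cases hpat : pat x = ε0
      · obtain ⟨l, hl, hpl⟩ := hsing i0
        refine ⟨⟨fl ε0 l, fl_ne_self _ _⟩, ?_⟩
        refine ill_of_nrm h.conv h.int hx fun u hu0 hu => ?_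
        obtain ⟨W, hW⟩ : ∃ W, W = Wt p (fl ε0 3) 3 δ 2 (fl ε0 l) := ⟨_, rfl⟩
        show ∑ a, u a * dw (Wt p (fl ε0 3) 3 δ 2 (fl ε0 l)) (fl ε0 l) a < 0
        rw [← hW]
        have hWi : W i0 = 2 := by rw [hW]; conv_lhs => rw [← hpl, Wt_peak hdes.la]
        have hWl0 : 0 < W l := by rw [hW]; exact hW0 _ _
        have hWl : W l ≤ 1 := by rw [hW]; exact Wt_le_one hδ1 (by rw [hpl]; exact hl)
        have hWo : ∀ a, a ≠ l → a ≠ i0 → W a = 1 := by
          intro a hal hai
          rw [hW]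
          refine le_antisymm (Wt_le_one hδ1 (by rw [hpl]; exact hai)) ?_
          by_cases ha3 : a = 3
          · unfold Wt
            rw [if_neg (by rw [hpl]; exact hai), if_pos ha3, if_neg]
            · linarith
            · intro h1
              have h2 := congrFun h1 3
              rw [fl_self, fl_ne _ (by rw [← ha3]; exact hal)] at h2
              revert h2
              cases ε0 3 <;> simp
          · exact Wt_ge (by norm_num) _ ha3
        -- the sum
        have e1 : ∑ a, u a * dw W (fl ε0 l) a =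
            rel x u l * W l - ∑ a ∈ Finset.univ.erase l, rel x u a * W a := by
          rw [← Finset.add_sum_erase _ _ (Finset.mem_univ l), sub_eq_add_neg,
            ← Finset.sum_neg_distrib, ← hpat]
          congr 1
          · rw [dw, fl_self, sg_not, rel]; ring
          · refine Finset.sum_congr rfl fun a ha => ?_
            rw [dw, fl_ne _ (Finset.ne_of_mem_erase ha), rel]; ring
        have hi0e : i0 ∈ Finset.univ.erase l := Finset.mem_erase.2 ⟨hl.symm, Finset.mem_univ _⟩
        rw [e1, ← Finset.add_sum_erase _ _ hi0e, hWi]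
        obtain ⟨j, k, hjk, hjke⟩ := Finset.card_eq_two.1
          (show ((Finset.univ.erase l).erase i0).card = 2 by
            rw [Finset.card_erase_of_mem hi0e, Finset.card_erase_of_mem (Finset.mem_univ l)]
            rfl)
        have hj : j ∈ (Finset.univ.erase l).erase i0 := by rw [hjke]; simp
        have hk : k ∈ (Finset.univ.erase l).erase i0 := by rw [hjke]; simp
        rw [Finset.mem_erase, Finset.mem_erase] at hj hk
        rw [hjke, Finset.sum_pair hjk, hWo j hj.2.1 hj.1, hWo k hk.2.1 hk.1]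
        have h1 := hadd u hu j k hjk
        have hge : ∀ a, a ≠ i0 → |rel x u a| ≤ rel x u i0 := fun a ha => by
          rw [abs_rel]; exact h.rel_ge hx hu (hlt' a ha)
        have h2 := hge l hl
        have h3 : rel x u l * W l ≤ rel x u i0 := by
          have h4 := le_abs_self (rel x u l)
          have h5 := abs_nonneg (rel x u l)
          nlinarith
        have hpos : 0 < rel x u i0 := by
          have h4 : 0 ≤ rel x u i0 := (abs_nonneg _).trans h2
          refine lt_of_le_of_ne h4 fun h5 => ?_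
          obtain ⟨a, ha⟩ := rel_ne x hu0
          apply ha
          by_cases hai : a = i0
          · rw [hai, ← h5]
          · have h6 := hge a hai
            rw [← h5] at h6
            exact abs_nonpos_iff.1 h6
        linarith
      · refine ⟨⟨pat x, hpat⟩, ?_⟩
        exact h.ill_bal hx hadd (hW0 _)
          (fun l => Wt_bal hδ0 hδ1 (by norm_num) (by norm_num) _ l)
    · refine hthr T ?_ ?_ hTu
      · intro i hi j hj
        rw [hTm] at hi hj
        exact lt_of_lt_of_le (not_le.1 hj) hi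
      · have h1 : ({i0, j1} : Finset (Fin 4)) ⊆ T := by
          intro k hk
          rw [Finset.mem_insert, Finset.mem_singleton] at hk
          rcases hk with rfl | rfl
          · exact (hTm _).2 (hlt' j1 hj1').le
          · exact (hTm _).2 le_rfl
        have h2 := Finset.card_le_card h1
        rwa [Finset.card_pair hj1'.symm] at h2

end Pool.Agent.W396.Il
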