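import Pool.Agent.W396.Il.StrE
import Pool.Agent.H985.Sep

set_option autoImplicit false

/-!
Duality: coverings of the polar body give separating hyperplanes; a parallelepiped is polar to a
cross-body.
-/

namespace Pool.Agent.W396.Il

open Set Pool.Agent.H985.Sep
open scoped InnerProductSpace

variable {E : Type*} [NormedAddCommGroup E] [InnerProductSpace ℝ E] {K : Set E} {o : E}

/-- `N` hyperplanes separate all faces of `K` strictly from `o` -/
def Sepa (N : ℕ) (K : Set E) (o : E) : Prop :=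
  ∃ w : Fin N → E, ∃ b : Fin N → ℝ, ∀ u x₀ : E, u ≠ 0 → x₀ ∈ K →
    (∀ y ∈ K, ⟪u, y⟫_ℝ ≤ ⟪u, x₀⟫_ℝ) →
      ∃ i, ⟪w i, o⟫_ℝ < b i ∧ ∀ x ∈ K, ⟪u, x⟫_ℝ = ⟪u, x₀⟫_ℝ → b i < ⟪w i, x⟫_ℝ

/-- `K` is a cross-body centred at `o` -/
def Cross (d : ℕ) (K : Set E) (o : E) : Prop :=
  ∃ v : Fin d → E, ∃ t : Fin d → ℝ, LinearIndependent ℝ v ∧ (∀ i, 0 < t i) ∧
    K = convexHull ℝ (⋃ i, ({o + v i, o - t i • v i} : Set E))

theorem sepa_of_cov [FiniteDimensional ℝ E] {N : ℕ} (ho : o ∈ interior K)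
    (h : Cov N (polar K o)) : Sepa N K o := by
  classical
  obtain ⟨T, hT, hc⟩ := h
  obtain ⟨H, hH, -, hsep⟩ := separate ho T hc
  obtain ⟨g, hg⟩ : ∃ g : Fin N → E × ℝ, g = fun i =>
      if h : i.val < H.card then (H.equivFin.symm ⟨i.val, h⟩ : E × ℝ) else (0, 0) := ⟨_, rfl⟩
  refine ⟨fun i => (g i).1, fun i => (g i).2, fun u x₀ hu hx₀ hmax => ?_⟩
  obtain ⟨h, hhH, h1, h2⟩ := hsep u x₀ hu hx₀ hmax
  obtain ⟨k, hk⟩ : ∃ k : Fin H.card, k = H.equivFin ⟨h, hhH⟩ := ⟨_, rfl⟩
  have hkN : k.val < N := lt_of_lt_of_le k.isLt (hH.trans hT)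
  have hgk : g ⟨k.val, hkN⟩ = h := by
    rw [hg]
    simp only [k.isLt, dif_pos, Fin.eta]
    rw [hk, Equiv.symm_apply_apply]
  refine ⟨⟨k.val, hkN⟩, ?_, ?_⟩
  · show ⟪(g ⟨k.val, hkN⟩).1, o⟫_ℝ < (g ⟨k.val, hkN⟩).2
    rw [hgk]; exact h1
  · show ∀ x ∈ K, ⟪u, x⟫_ℝ = ⟪u, x₀⟫_ℝ → (g ⟨k.val, hkN⟩).2 < ⟪(g ⟨k.val, hkN⟩).1, x⟫_ℝ
    rw [hgk]; exact h2

/-- reflections preserve the polar body -/
theorem U.polar {r : E} (h : U {x | o + x ∈ K} r) : U (polar K o) r where
  unit := h.unit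
  inv := by
    intro v hv y hy
    have h1 : o + (y - o) ∈ K := by rwa [add_sub_cancel]
    have h2 := h.inv (y - o) h1
    have h3 := hv _ h2
    rw [add_sub_cancel_left, inner_sub_right, inner_smul_right] at h3
    rw [inner_sub_left, inner_smul_left]
    simp only [RCLike.conj_to_real]
    rw [real_inner_comm v r]
    linarith

theorem zero_mem_polar : (0 : E) ∈ polar K o := by
  intro y _
  rw [inner_zero_left]; exact zero_le_one

/-- the bipolar theorem -/
theorem mem_of_polar [FiniteDimensional ℝ E] (hK : Convex ℝ K) (hKc : IsCompact K)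
    (ho : o ∈ interior K) {z : E} (hz : ∀ x ∈ polar K o, ⟪x, z⟫_ℝ ≤ 1) : o + z ∈ K := by
  haveI : CompleteSpace E := FiniteDimensional.complete ℝ E
  by_contra hcon
  obtain ⟨f, u, h1, h2⟩ := geometric_hahn_banach_closed_point hK hKc.isClosed hcon
  have hfo := h1 o (interior_subset ho)
  obtain ⟨g, hg⟩ : ∃ g : E, ∀ x, ⟪g, x⟫_ℝ = f x :=
    ⟨(InnerProductSpace.toDual ℝ E).symm f, fun x => InnerProductSpace.toDual_symm_apply⟩
  have hc : 0 < u - f o := by linarith
  have h3 : (u - f o)⁻¹ • g ∈ polar K o := by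
    intro y hy
    have h4 := h1 y hy
    rw [real_inner_smul_left, hg, map_sub, inv_mul_le_iff₀ hc, mul_one]
    linarith
  have h5 := hz _ h3
  rw [real_inner_smul_left, hg, inv_mul_le_iff₀ hc, mul_one] at h5
  rw [map_add] at h2
  linarith

theorem cross_of_par [FiniteDimensional ℝ E] {d : ℕ} (hd : Module.finrank ℝ E = d) (hd0 : 0 < d)
    (hK : Convex ℝ K) (hKc : IsCompact K) (ho : o ∈ interior K) (h : Par (polar K o)) :
    Cross d K o := by
  obtain ⟨n, v, hli, hn, hC⟩ := h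
  obtain rfl : n = d := hn.symm.trans hd
  obtain ⟨B, hB⟩ := exists_basis hd0 hli hd
  -- the dual basis
  obtain ⟨e, he⟩ := exists_equiv B (LinearMap.pi fun k : Fin n => innerₗ E (v k)) (by
    rw [← LinearMap.ker_eq_bot, LinearMap.ker_eq_bot']
    intro x hx
    have h1 : ∀ i, inner ℝ (v i) x = (0 : ℝ) := by
      intro i
      have := congrFun hx i
      simpa using this
    have h2 : inner ℝ x x = (0 : ℝ) := by
      conv_lhs => rw [← B.sum_repr x]
      rw [sum_inner]
      refine Finset.sum_eq_zero fun i _ => ?_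
      rw [inner_smul_left, hB]
      conv_lhs => rw [B.sum_repr x]
      rw [h1, mul_zero]
    exact inner_self_eq_zero.1 h2)
  have he' : ∀ x (k : Fin n), e x k = ⟪v k, x⟫_ℝ := fun x k => by
    rw [he]; rfl
  refine ⟨v, fun _ => 1, hli, fun _ => one_pos, ?_⟩
  have hmem : ∀ i, o + v i ∈ K ∧ o - (1 : ℝ) • v i ∈ K := by
    intro i
    constructor
    · refine mem_of_polar hK hKc ho fun x hx => ?_
      rw [hC] at hx
      rw [real_inner_comm]
      exact (abs_le.1 (hx i)).2
    · rw [one_smul, sub_eq_add_neg]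
      refine mem_of_polar hK hKc ho fun x hx => ?_
      rw [hC] at hx
      rw [inner_neg_right, real_inner_comm]
      have := (abs_le.1 (hx i)).1
      linarith
  apply Set.Subset.antisymm
  · intro y hy
    obtain ⟨c, hc⟩ : ∃ c : Fin n → ℝ, ∀ i, c i = B.repr (y - o) i := ⟨_, fun i => rfl⟩
    have hyo : y - o = ∑ i, c i • v i := by
      conv_lhs => rw [← B.sum_repr (y - o)]
      exact Finset.sum_congr rfl fun i _ => by rw [hc, hB]
    obtain ⟨S, hS⟩ : ∃ S, S = convexHull ℝ (⋃ i, ({o + v i, o - (1 : ℝ) • v i} : Set E)) :=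
      ⟨_, rfl⟩
    rw [← hS]
    have hSc : Convex ℝ S := by rw [hS]; exact convex_convexHull ℝ _
    have hS1 : ∀ i, o + v i ∈ S ∧ o - (1 : ℝ) • v i ∈ S := by
      intro i
      rw [hS]
      exact ⟨subset_convexHull ℝ _ (mem_iUnion.2 ⟨i, Or.inl rfl⟩),
        subset_convexHull ℝ _ (mem_iUnion.2 ⟨i, Or.inr rfl⟩)⟩
    have hseg : ∀ i, ∀ s : ℝ, |s| ≤ 1 → o + s • v i ∈ S := by
      intro i s hs
      have h3 := abs_le.1 hs
      have h4 := hSc (hS1 i).1 (hS1 i).2 (a := (1 + s) / 2) (b := (1 - s) / 2) (by linarith)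
        (by linarith) (by ring)
      have h5 : ((1 + s) / 2) • (o + v i) + ((1 - s) / 2) • (o - (1 : ℝ) • v i) = o + s • v i := by
        module
      rwa [h5] at h4
    -- the sum of the absolute values
    have hsum : ∑ i, |c i| ≤ 1 := by
      obtain ⟨x, hx⟩ : ∃ x : E, ∀ k, ⟪v k, x⟫_ℝ = if 0 ≤ c k then (1 : ℝ) else -1 := by
        refine ⟨e.symm fun k => if 0 ≤ c k then (1 : ℝ) else -1, fun k => ?_⟩
        rw [← he', ContinuousLinearEquiv.apply_symm_apply]
      have hxC : x ∈ polar K o := by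
        rw [hC]
        intro i
        rw [hx]
        split_ifs <;> norm_num
      have h3 := hxC y hy
      rw [hyo, inner_sum] at h3
      refine le_trans (Finset.sum_le_sum fun i _ => ?_) h3
      rw [inner_smul_right, real_inner_comm, hx]
      split_ifs with h4
      · rw [abs_of_nonneg h4, mul_one]
      · rw [abs_of_neg (not_le.1 h4)]; linarith
    have hn0 : (0 : ℝ) < n := by exact_mod_cast hd0
    obtain ⟨l, hl⟩ : ∃ l : Fin n → ℝ, ∀ i, l i = |c i| + (1 - ∑ j, |c j|) / n :=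
      ⟨_, fun i => rfl⟩
    have hl0 : ∀ i, |c i| ≤ l i := by
      intro i
      rw [hl]
      have : 0 ≤ (1 - ∑ j, |c j|) / n := div_nonneg (by linarith) hn0.le
      linarith
    have hlp : ∀ i, 0 ≤ l i := fun i => (abs_nonneg _).trans (hl0 i)
    have hl1 : ∑ i, l i = 1 := by
      simp only [hl, Finset.sum_add_distrib, Finset.sum_const, Finset.card_univ, Fintype.card_fin,
        nsmul_eq_mul]
      field_simp
      ring
    have hz : ∀ i, o + (c i / l i) • v i ∈ S := by
      intro i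
      refine hseg i _ ?_
      rcases (hlp i).lt_or_eq with h3 | h3
      · rw [abs_div, abs_of_pos h3, div_le_one h3]; exact hl0 i
      · rw [← h3, div_zero, abs_zero]; exact zero_le_one
    have h6 := hSc.sum_mem (t := Finset.univ) (fun i _ => hlp i) hl1 (fun i _ => hz i)
    have h7 : ∑ i, l i • (o + (c i / l i) • v i) = y := by
      have h8 : ∀ i, l i • (o + (c i / l i) • v i) = l i • o + c i • v i := by
        intro i
        rw [smul_add, smul_smul]
        congr 2
        rcases (hlp i).lt_or_eq with h3 | h3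
        · rw [mul_div_cancel₀ _ h3.ne']
        · have h9 := hl0 i
          rw [← h3] at h9
          rw [← h3, zero_mul]
          exact (abs_nonpos_iff.1 h9).symm
      simp only [h8, Finset.sum_add_distrib]
      rw [← Finset.sum_smul, hl1, one_smul, ← hyo, add_sub_cancel]
    rwa [h7] at h6
  · refine convexHull_min ?_ hK
    intro y hy
    obtain ⟨i, hi⟩ := mem_iUnion.1 hy
    rcases hi with rfl | rfl
    · exact (hmem i).1
    · exact (hmem i).2

/-- from the polar body to the separation of faces -/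
theorem goal_of_str [FiniteDimensional ℝ E] {d : ℕ} (hd : Module.finrank ℝ E = d) (hd0 : 0 < d)
    (hK : Convex ℝ K) (hKc : IsCompact K) (ho : o ∈ interior K) (h : Str (polar K o)) :
    ¬ Sepa (2 ^ d - 1) K o → Cross d K o := by
  intro hno
  rcases h with h | h
  · rw [hd] at h
    exact absurd (sepa_of_cov ho h) hno
  · exact cross_of_par hd hd0 hK hKc ho h

end Pool.Agent.W396.Il
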