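import Pool.Agent.W396.Il.Dn

set_option autoImplicit false

/-!
From a basis of roots with Cartan matrix of type `A` or `D` to coordinates.
-/

namespace Pool.Agent.W396.Il

open Set Finset

/-- transport of coverings -/
theorem Cov.of_image {E F : Type*} [NormedAddCommGroup E] [NormedSpace ℝ E] [NormedAddCommGroup F]
    [NormedSpace ℝ F] (e : E ≃L[ℝ] F) {K : Set E} {N : ℕ} (h : Cov N (e '' K)) : Cov N K := by
  classical
  obtain ⟨T, hT, hc⟩ := h
  refine ⟨T.image e.symm, Finset.card_image_le.trans hT, fun x hx => ?_⟩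
  obtain ⟨t, ht, z, hz, hzx⟩ := mem_iUnion₂.1 (hc (mem_image_of_mem e hx))
  have h1 : interior (e '' K) = e '' interior K := (e.toHomeomorph.image_interior K).symm
  rw [h1] at hz
  obtain ⟨w, hw, rfl⟩ := hz
  refine mem_iUnion₂.2 ⟨e.symm t, Finset.mem_image_of_mem _ ht, w, hw, ?_⟩
  apply e.injective
  simpa using hzx

/-- the data of a reflection preserving `K` -/
structure Refl {E : Type*} [AddCommGroup E] [Module ℝ E] (K : Set E) (r : E) (φ : E →ₗ[ℝ] ℝ) :
    Prop where
  two : φ r = 2
  inv : ∀ x ∈ K, x - φ x • r ∈ K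

theorem Refl.conj {E : Type*} [AddCommGroup E] [Module ℝ E] {K : Set E} {r r' : E}
    {φ φ' : E →ₗ[ℝ] ℝ} (h : Refl K r φ) (h' : Refl K r' φ') :
    Refl K (r' - φ r' • r) (φ' - φ' r • φ) where
  two := by
    simp only [LinearMap.sub_apply, LinearMap.smul_apply, map_sub, map_smul, smul_eq_mul, h.two,
      h'.two]
    ring
  inv := by
    intro x hx
    have h1 := h.inv _ (h'.inv _ (h.inv x hx))
    convert h1 using 1
    simp only [LinearMap.sub_apply, LinearMap.smul_apply, map_sub, map_smul, smul_eq_mul, h.two]
    module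

section coord

variable {E : Type*} [AddCommGroup E] [Module ℝ E] {n : ℕ}

/-- the `m`-th coordinate, zero for `m ≥ n` -/
noncomputable def co (b : Module.Basis (Fin n) ℝ E) (m : ℕ) : E →ₗ[ℝ] ℝ :=
  if h : m < n then b.coord ⟨m, h⟩ else 0

theorem co_apply (b : Module.Basis (Fin n) ℝ E) (m : ℕ) (j : Fin n) :
    co b m (b j) = if m = j.val then 1 else 0 := by
  unfold co
  split_ifs with h1 h2 h2
  · subst h2; simp
  · rw [Module.Basis.coord_apply, Module.Basis.repr_self, Finsupp.single_apply, if_neg]
    rintro rfl; exact h2 rfl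
  · exact absurd j.isLt (h2 ▸ h1)
  · rfl

/-- the `m - 1`-st coordinate -/
noncomputable def cop (b : Module.Basis (Fin n) ℝ E) (m : ℕ) : E →ₗ[ℝ] ℝ :=
  match m with
  | 0 => 0
  | m + 1 => co b m

theorem cop_apply (b : Module.Basis (Fin n) ℝ E) (m : ℕ) (j : Fin n) :
    cop b m (b j) = if m = j.val + 1 then 1 else 0 := by
  cases m with
  | zero => simp [cop]
  | succ m => rw [cop, co_apply]; simp

/-- coordinates of type `A` -/
noncomputable def yA (b : Module.Basis (Fin n) ℝ E) (m : ℕ) : E →ₗ[ℝ] ℝ := co b m - cop b m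

theorem yA_apply (b : Module.Basis (Fin n) ℝ E) (m : ℕ) (j : Fin n) :
    yA b m (b j) = (if m = j.val then 1 else 0) - if m = j.val + 1 then 1 else 0 := by
  rw [yA, LinearMap.sub_apply, co_apply, cop_apply]

theorem yA_inj (b : Module.Basis (Fin n) ℝ E) {x : E} (h : ∀ m < n, yA b m x = 0) : x = 0 := by
  have h1 : ∀ m, co b m x = 0 := by
    intro m
    induction m with
    | zero =>
      by_cases h0 : 0 < n
      · have := h 0 h0
        simpa [yA, cop] using this
      · simp [co, h0]
    | succ m ih =>
      by_cases h0 : m + 1 < n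
      · have := h (m + 1) h0
        simpa [yA, cop, ih] using this
      · simp [co, h0]
  apply b.ext_elem
  intro i
  have h2 := h1 i.val
  simp only [co, i.isLt, dif_pos] at h2
  simpa using h2

end coord

variable {E : Type*} [NormedAddCommGroup E] [NormedSpace ℝ E]

theorem finrank_fin {n : ℕ} (b : Module.Basis (Fin n) ℝ E) : Module.finrank ℝ E = n := by
  rw [Module.finrank_eq_card_basis b, Fintype.card_fin]

/-- an injective linear map to `Fin n → ℝ` as a continuous linear equivalence -/
theorem exists_equiv {n : ℕ} (b : Module.Basis (Fin n) ℝ E) (L : E →ₗ[ℝ] (Fin n → ℝ))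
    (hL : Function.Injective L) : ∃ e : E ≃L[ℝ] (Fin n → ℝ), ∀ x, e x = L x := by
  haveI : FiniteDimensional ℝ E := b.finiteDimensional_of_finite
  have hf : Module.finrank ℝ E = Module.finrank ℝ (Fin n → ℝ) := by
    rw [finrank_fin b, Module.finrank_fin_fun]
  exact ⟨(LinearMap.linearEquivOfInjective L hL hf).toContinuousLinearEquiv, fun x => rfl⟩

/-- all permutations from the adjacent ones -/
theorem perm_of_adj {m : ℕ} {K : Set (Fin (m + 1) → ℝ)}
    (h : ∀ i : Fin m, ∀ x ∈ K, (fun a => x (Equiv.swap i.castSucc i.succ a)) ∈ K)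
    (σ : Equiv.Perm (Fin (m + 1))) : ∀ x ∈ K, (fun a => x (σ a)) ∈ K := by
  have hσ : σ ∈ Submonoid.closure (Set.range fun i : Fin m ↦ Equiv.swap i.castSucc i.succ) := by
    rw [Equiv.Perm.mclosure_swap_castSucc_succ]; trivial
  induction hσ using Submonoid.closure_induction with
  | mem τ hτ =>
    obtain ⟨i, rfl⟩ := hτ
    exact h i
  | one => intro x hx; exact hx
  | mul σ τ _ _ h1 h2 =>
    intro x hx
    exact h2 _ (h1 x hx)

theorem perm_of_adj' {n : ℕ} {K : Set (Fin n → ℝ)}
    (h : ∀ i j : Fin n, i.val + 1 = j.val → ∀ x ∈ K, (fun a => x (Equiv.swap i j a)) ∈ K)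
    (σ : Equiv.Perm (Fin n)) : ∀ x ∈ K, (fun a => x (σ a)) ∈ K := by
  cases n with
  | zero =>
    intro x hx
    have h1 : (fun a => x (σ a)) = x := funext fun a => a.elim0
    rw [h1]
    exact hx
  | succ m => exact perm_of_adj (fun i => h _ _ (by simp)) σ

theorem cov_typeA {n : ℕ} (hn : 0 < n) (b : Module.Basis (Fin n) ℝ E) (φ : Fin n → E →ₗ[ℝ] ℝ)
    (hφ : ∀ i j : Fin n, φ i (b j) = if i = j then 2 else
      if i.val + 1 = j.val ∨ j.val + 1 = i.val then -1 else 0)
    {K : Set E} (hK : Convex ℝ K) (hKc : IsCompact K) (hKi : (interior K).Nonempty)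
    (hr : ∀ i, ∀ x ∈ K, x - φ i x • b i ∈ K) : Cov (2 ^ n) K := by
  classical
  obtain ⟨e, he⟩ := exists_equiv b (LinearMap.pi fun k : Fin n => yA b k.val) (by
    rw [← LinearMap.ker_eq_bot, LinearMap.ker_eq_bot']
    intro x hx
    refine yA_inj b fun m hm => ?_
    exact congrFun hx ⟨m, hm⟩)
  refine Cov.of_image e ?_
  have he' : ∀ x (k : Fin n), e x k = yA b k.val x := fun x k => by rw [he]; rfl
  -- the functionals
  have hφy : ∀ i : Fin n, φ i = yA b i.val - yA b (i.val + 1) := by
    intro i
    refine b.ext fun j => ?_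
    rw [hφ, LinearMap.sub_apply, yA_apply, yA_apply]
    simp only [Fin.ext_iff]
    split_ifs <;> first | omega | norm_num
  have hTT : ∀ x, TT (e x) = yA b n x := by
    intro x
    have h1 : (∑ k : Fin n, yA b k.val) = - yA b n := by
      refine b.ext fun j => ?_
      rw [LinearMap.sum_apply, LinearMap.neg_apply, yA_apply]
      simp only [yA_apply, Finset.sum_sub_distrib]
      have e1 : ∑ k : Fin n, (if k.val = j.val then (1 : ℝ) else 0) = 1 := by
        simp only [← Fin.ext_iff]
        rw [Finset.sum_ite_eq' Finset.univ j, if_pos (Finset.mem_univ _)]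
      rw [e1, if_neg (by omega : ¬ n = j.val)]
      by_cases h2 : j.val + 1 < n
      · have e2 : ∑ k : Fin n, (if k.val = j.val + 1 then (1 : ℝ) else 0) = 1 := by
          have : ∀ k : Fin n, (k.val = j.val + 1) ↔ k = ⟨j.val + 1, h2⟩ := by
            intro k; rw [Fin.ext_iff]
          simp only [this]
          rw [Finset.sum_ite_eq' Finset.univ _, if_pos (Finset.mem_univ _)]
        rw [e2, if_neg (by omega)]
        norm_num
      · have e2 : ∑ k : Fin n, (if k.val = j.val + 1 then (1 : ℝ) else 0) = 0 := by
          refine Finset.sum_eq_zero fun k _ => if_neg ?_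
          omega
        rw [e2, if_pos (by omega)]
        norm_num
    have h3 := congrArg (fun f => f x) h1
    simp only [LinearMap.sum_apply, LinearMap.neg_apply] at h3
    rw [TT]
    simp only [he']
    rw [h3, neg_neg]
  have hadj : ∀ i j : Fin n, i.val + 1 = j.val → ∀ x ∈ e '' K,
      (fun a => x (Equiv.swap i j a)) ∈ e '' K := by
    rintro i j hij _ ⟨x, hx, rfl⟩
    refine ⟨_, hr i x hx, ?_⟩
    ext k
    rw [he', map_sub, map_smul, yA_apply, hφy, LinearMap.sub_apply, smul_eq_mul, hij, ← he' x j,
      ← he' x i, ← he' x k]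
    by_cases h1 : k = i
    · subst h1
      rw [Equiv.swap_apply_left, if_pos rfl, if_neg (by omega)]
      ring
    · by_cases h2 : k = j
      · subst h2
        rw [Equiv.swap_apply_right, if_neg (by omega), if_pos rfl]
        ring
      · rw [Equiv.swap_apply_of_ne_of_ne h1 h2, if_neg (fun h => h1 (Fin.ext h)),
          if_neg (fun h => h2 (Fin.ext h))]
        ring
  have hperm := perm_of_adj' hadj
  have hS : SBody (e '' K) := by
    refine ⟨hK.linear_image e.toLinearMap, hKc.image e.continuous, ?_, hperm, ?_⟩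
    · have h1 : interior (e '' K) = e '' interior K := (e.toHomeomorph.image_interior K).symm
      rw [h1]
      exact hKi.image _
    · -- the last reflection
      obtain ⟨la, hla⟩ : ∃ la : Fin n, la.val + 1 = n := ⟨⟨n - 1, by omega⟩, by simp; omega⟩
      have hlast : ∀ x ∈ e '' K, Function.update x la (TT x) ∈ e '' K := by
        rintro _ ⟨x, hx, rfl⟩
        refine ⟨_, hr la x hx, ?_⟩
        ext k
        rw [he', map_sub, map_smul, yA_apply, hφy, LinearMap.sub_apply, smul_eq_mul, hla,
          ← he' x la, ← he' x k, ← hTT]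
        by_cases h1 : k = la
        · subst h1
          rw [Function.update_self, if_pos rfl, if_neg (by omega)]
          ring
        · rw [Function.update_of_ne h1, if_neg (fun h => h1 (Fin.ext h)), if_neg (by omega)]
          ring
      intro a x hx
      have h1 := hperm (Equiv.swap a la) _ (hlast _ (hperm (Equiv.swap a la) x hx))
      have h2 : TT (fun k => x (Equiv.swap a la k)) = TT x := by
        unfold TT
        rw [Equiv.sum_comp (Equiv.swap a la) x]
      rw [h2] at h1
      convert h1 using 1
      ext k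
      by_cases hk : k = a
      · subst hk
        simp
      · rw [Function.update_of_ne hk, Function.update_of_ne]
        · simp
        · intro h3
          apply hk
          have := congrArg (Equiv.swap a la) h3
          simpa using this
  haveI : Nonempty (Fin n) := ⟨⟨0, hn⟩⟩
  have := hS.cov
  rwa [Fintype.card_fin] at this

/-! ### type D -/

/-- coordinates of type `D` -/
noncomputable def yD {E : Type*} [AddCommGroup E] [Module ℝ E] {n : ℕ}
    (b : Module.Basis (Fin n) ℝ E) (m : ℕ) : E →ₗ[ℝ] ℝ :=
  yA b m + if m + 2 = n then co b (n - 1) else 0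

theorem yD_apply {E : Type*} [AddCommGroup E] [Module ℝ E] {n : ℕ}
    (b : Module.Basis (Fin n) ℝ E) (m : ℕ) (j : Fin n) :
    yD b m (b j) = ((if m = j.val then 1 else 0) - if m = j.val + 1 then 1 else 0) +
      if m + 2 = n ∧ n = j.val + 1 then 1 else 0 := by
  rw [yD, LinearMap.add_apply, yA_apply]
  congr 1
  by_cases h : m + 2 = n
  · rw [if_pos h, co_apply]
    have hj := j.isLt
    split_ifs <;> first | rfl | omega
  · rw [if_neg h, if_neg (fun h1 => h h1.1)]
    rfl

/-- even sign changes from double flips -/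
theorem sgn_of_flip2 {n : ℕ} {K : Set (Fin n → ℝ)}
    (h : ∀ i j : Fin n, i ≠ j → ∀ x ∈ K, (fun a => if a = i ∨ a = j then - x a else x a) ∈ K)
    (s : Fin n → ℝ) (hs : ∀ i, s i = 1 ∨ s i = -1) (hp : ∏ i, s i = 1) :
    ∀ x ∈ K, (fun a => s a * x a) ∈ K := by
  classical
  -- induction on the number of negative signs
  obtain ⟨N, hN⟩ : ∃ N, N = (Finset.univ.filter fun i => s i = -1).card := ⟨_, rfl⟩
  induction N using Nat.strong_induction_on generalizing s with
  | _ N ih =>
    intro x hx
    by_cases h0 : ∀ i, s i = 1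
    · simpa [h0] using hx
    · push Not at h0
      obtain ⟨i, hi⟩ := h0
      have hi' : s i = -1 := (hs i).resolve_left hi
      obtain ⟨j, hj, hj'⟩ : ∃ j, j ≠ i ∧ s j = -1 := by
        by_contra hcon
        push Not at hcon
        have h1 : ∏ k, s k = -1 := by
          rw [← Finset.mul_prod_erase _ _ (Finset.mem_univ i), hi',
            Finset.prod_eq_one fun k hk => (hs k).resolve_right
              (hcon k (Finset.ne_of_mem_erase hk))]
          ring
        rw [hp] at h1
        norm_num at h1
      obtain ⟨s', hs'⟩ : ∃ s' : Fin n → ℝ, s' = Function.update (Function.update s i 1) j 1 :=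
        ⟨_, rfl⟩
      have e1 : s' j = 1 := by rw [hs', Function.update_self]
      have e2 : s' i = 1 := by rw [hs', Function.update_of_ne hj.symm, Function.update_self]
      have e3 : ∀ k, k ≠ i → k ≠ j → s' k = s k := by
        intro k h1 h2
        rw [hs', Function.update_of_ne h2, Function.update_of_ne h1]
      have hs1 : ∀ k, s' k = 1 ∨ s' k = -1 := by
        intro k
        by_cases h1 : k = i
        · rw [h1, e2]; exact Or.inl rfl
        · by_cases h2 : k = j
          · rw [h2, e1]; exact Or.inl rfl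
          · rw [e3 k h1 h2]; exact hs k
      have hp1 : ∏ k, s' k = 1 := by
        rw [← hp, ← Finset.mul_prod_erase _ s' (Finset.mem_univ i),
          ← Finset.mul_prod_erase _ s (Finset.mem_univ i),
          ← Finset.mul_prod_erase _ s' (Finset.mem_erase.2 ⟨hj, Finset.mem_univ j⟩),
          ← Finset.mul_prod_erase _ s (Finset.mem_erase.2 ⟨hj, Finset.mem_univ j⟩), e1, e2, hi', hj']
        have : ∏ k ∈ (Finset.univ.erase i).erase j, s' k = ∏ k ∈ (Finset.univ.erase i).erase j, s k :=
          Finset.prod_congr rfl fun k hk => by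
            have h1 := Finset.ne_of_mem_erase hk
            have h2 := Finset.ne_of_mem_erase (Finset.mem_of_mem_erase hk)
            exact e3 k h2 h1
        rw [this]
        ring
      have hlt : (Finset.univ.filter fun k => s' k = -1).card < N := by
        rw [hN]
        refine Finset.card_lt_card ?_
        rw [Finset.ssubset_iff_of_subset]
        · exact ⟨i, by simp [hi'], by simp [e2]; norm_num⟩
        · intro k hk
          simp only [Finset.mem_filter, Finset.mem_univ, true_and] at hk ⊢
          by_cases h1 : k = i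
          · rw [h1]; exact hi'
          · by_cases h2 : k = j
            · rw [h2]; exact hj'
            · rwa [e3 k h1 h2] at hk
      have h1 := h i j hj.symm _ (ih _ hlt s' hs1 hp1 rfl x hx)
      convert h1 using 1
      ext k
      by_cases h1 : k = i
      · subst h1; simp [e2, hi']
      · by_cases h2 : k = j
        · subst h2; simp [e1, hj']
        · rw [if_neg (by tauto), e3 k h1 h2]

theorem cov_typeD {m : ℕ} (b : Module.Basis (Fin (m + 4)) ℝ E) (φ : Fin (m + 4) → E →ₗ[ℝ] ℝ)
    (hφ : ∀ i j : Fin (m + 4), φ i (b j) = if i = j then 2 else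
      if i.val + 1 = j.val ∧ j.val + 2 < m + 4 then -1 else
      if j.val + 1 = i.val ∧ i.val + 2 < m + 4 then -1 else
      if i.val + 3 = m + 4 ∧ (j.val + 2 = m + 4 ∨ j.val + 1 = m + 4) then -1 else
      if j.val + 3 = m + 4 ∧ (i.val + 2 = m + 4 ∨ i.val + 1 = m + 4) then -1 else 0)
    {K : Set E} (hK : Convex ℝ K) (hKc : IsCompact K) (hKi : (interior K).Nonempty)
    (hr : ∀ i, ∀ x ∈ K, x - φ i x • b i ∈ K) : Cov (2 ^ (m + 4)) K := by
  classical
  have hD0 : ∀ k : ℕ, yD b k = yA b k + if k = m + 2 then co b (m + 3) else 0 := by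
    intro k
    rw [yD]
    congr 1
    have : (k + 2 = m + 4) ↔ k = m + 2 := by omega
    simp only [this]
    rfl
  obtain ⟨e, he⟩ := exists_equiv b (LinearMap.pi fun k : Fin (m + 4) => yD b k.val) (by
    rw [← LinearMap.ker_eq_bot, LinearMap.ker_eq_bot']
    intro x hx
    have hx' : ∀ k : ℕ, k < m + 4 → yD b k x = 0 := fun k hk => congrFun hx ⟨k, hk⟩
    -- coordinates below `m + 2`
    have h1 : ∀ k, k < m + 2 → co b k x = 0 := by
      intro k
      induction k with
      | zero =>
        intro hk
        have := hx' 0 (by omega)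
        rw [hD0, if_neg (by omega)] at this
        simpa [yA, cop] using this
      | succ k ih =>
        intro hk
        have := hx' (k + 1) (by omega)
        rw [hD0, if_neg (by omega)] at this
        simpa [yA, cop, ih (by omega)] using this
    have h2 := hx' (m + 2) (by omega)
    rw [hD0, if_pos rfl] at h2
    have h3 := hx' (m + 3) (by omega)
    rw [hD0, if_neg (by omega)] at h3
    simp only [yA, cop, LinearMap.add_apply, LinearMap.sub_apply, h1 (m + 1) (by omega),
      LinearMap.zero_apply] at h2 h3
    have h4 : co b (m + 2) x = 0 := by linarith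
    have h5 : co b (m + 3) x = 0 := by linarith
    apply b.ext_elem
    intro i
    have h6 : co b i.val x = 0 := by
      have := i.isLt
      rcases Nat.lt_or_ge i.val (m + 2) with h | h
      · exact h1 _ h
      · rcases (show i.val = m + 2 ∨ i.val = m + 3 by omega) with h | h
        · rw [h]; exact h4
        · rw [h]; exact h5
    simp only [co, i.isLt, dif_pos] at h6
    simpa using h6)
  refine Cov.of_image e ?_
  have he' : ∀ x (k : Fin (m + 4)), e x k = yD b k.val x := fun x k => by rw [he]; rfl
  -- the functionals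
  have hφ1 : ∀ i : Fin (m + 4), i.val + 1 < m + 4 → φ i = yD b i.val - yD b (i.val + 1) := by
    intro i hi
    refine b.ext fun j => ?_
    rw [hφ, LinearMap.sub_apply, yD_apply, yD_apply]
    simp only [Fin.ext_iff]
    have hj := j.isLt
    split_ifs <;> first | omega | norm_num
  have hφ2 : ∀ i : Fin (m + 4), i.val + 1 = m + 4 → φ i = yD b (m + 2) + yD b (m + 3) := by
    intro i hi
    refine b.ext fun j => ?_
    rw [hφ, LinearMap.add_apply, yD_apply, yD_apply]
    simp only [Fin.ext_iff, true_and]
    have hj := j.isLt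
    split_ifs <;> first | omega | norm_num
  have hadj : ∀ i j : Fin (m + 4), i.val + 1 = j.val → ∀ x ∈ e '' K,
      (fun a => x (Equiv.swap i j a)) ∈ e '' K := by
    rintro i j hij _ ⟨x, hx, rfl⟩
    have hj := j.isLt
    refine ⟨_, hr i x hx, ?_⟩
    ext k
    have hk := k.isLt
    rw [he', map_sub, map_smul, yD_apply, hφ1 i (by omega), LinearMap.sub_apply, smul_eq_mul, hij,
      ← he' x j, ← he' x i, ← he' x k]
    rw [if_neg (by omega : ¬ (k.val + 2 = m + 4 ∧ m + 4 = j.val))]
    by_cases h1 : k = i
    · subst h1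
      rw [Equiv.swap_apply_left, if_pos rfl, if_neg (by omega)]
      ring
    · by_cases h2 : k = j
      · subst h2
        rw [Equiv.swap_apply_right, if_neg (by omega), if_pos rfl]
        ring
      · rw [Equiv.swap_apply_of_ne_of_ne h1 h2, if_neg (fun h => h1 (Fin.ext h)),
          if_neg (fun h => h2 (Fin.ext h))]
        ring
  have hperm := perm_of_adj' hadj
  obtain ⟨p, hp⟩ : ∃ p : Fin (m + 4), p.val = m + 2 := ⟨⟨m + 2, by omega⟩, rfl⟩
  obtain ⟨q, hq⟩ : ∃ q : Fin (m + 4), q.val = m + 3 := ⟨⟨m + 3, by omega⟩, rfl⟩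
  have hpq : p ≠ q := by
    intro h; have := congrArg Fin.val h; omega
  have hlast : ∀ x ∈ e '' K, (fun a => if a = p ∨ a = q then - x a else x a) ∈ e '' K := by
    intro x hx
    have h1 := hperm (Equiv.swap p q) x hx
    obtain ⟨y, hy, hyx⟩ := h1
    refine ⟨_, hr q y hy, ?_⟩
    ext k
    have hk := k.isLt
    rw [he', map_sub, map_smul, yD_apply, hφ2 q (by omega), LinearMap.add_apply, smul_eq_mul,
      ← hp, ← hq, ← he' y p, ← he' y q, ← he' y k, hyx]
    simp only [Equiv.swap_apply_left, Equiv.swap_apply_right]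
    by_cases h1 : k = p
    · subst h1
      rw [Equiv.swap_apply_left, if_neg (by omega), if_neg (by omega), if_pos (by omega),
        if_pos (Or.inl rfl)]
      ring
    · by_cases h2 : k = q
      · subst h2
        rw [Equiv.swap_apply_right, if_pos rfl, if_neg (by omega), if_neg (by omega),
          if_pos (Or.inr rfl)]
        ring
      · have h3 : k.val ≠ m + 2 := fun h => h1 (Fin.ext (by omega))
        have h4 : k.val ≠ m + 3 := fun h => h2 (Fin.ext (by omega))
        rw [Equiv.swap_apply_of_ne_of_ne h1 h2, if_neg (by omega), if_neg (by omega),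
          if_neg (by omega), if_neg (by tauto)]
        ring
  have hflip : ∀ i j : Fin (m + 4), i ≠ j → ∀ x ∈ e '' K,
      (fun a => if a = i ∨ a = j then - x a else x a) ∈ e '' K := by
    intro i j hij x hx
    -- a permutation with `i ↦ p`, `j ↦ q`
    obtain ⟨σ, h1, h2⟩ : ∃ σ : Equiv.Perm (Fin (m + 4)), σ i = p ∧ σ j = q := by
      refine ⟨(Equiv.swap (Equiv.swap i p j) q) * (Equiv.swap i p), ?_, ?_⟩
      · rw [Equiv.Perm.mul_apply, Equiv.swap_apply_left, Equiv.swap_apply_of_ne_of_ne _ hpq]
        intro h
        apply hij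
        have := congrArg (Equiv.swap i p) h
        simpa using this
      · rw [Equiv.Perm.mul_apply, Equiv.swap_apply_left]
    have h3 := hperm σ _ (hlast _ (hperm σ⁻¹ x hx))
    convert h3 using 1
    ext a
    have e1 : (σ a = p ∨ σ a = q) ↔ (a = i ∨ a = j) := by
      rw [← h1, ← h2]
      simp
    simp only [e1]
    simp
  have hB : DBody (e '' K) := by
    refine ⟨hK.linear_image e.toLinearMap, hKc.image e.continuous, ?_, hperm, ?_⟩
    · have h1 : interior (e '' K) = e '' interior K := (e.toHomeomorph.image_interior K).symm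
      rw [h1]
      exact hKi.image _
    · exact sgn_of_flip2 hflip
  exact hB.cov

end Pool.Agent.W396.Il
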