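import Pool.Agent.W396.Il.E6Chk
import Pool.Agent.W396.Il.Wrap

set_option autoImplicit false

/-!
Convex bodies invariant under the Weyl group of type `E₆`.
-/

namespace Pool.Agent.W396.Il.E6

open Set Finset

/-- real pairing -/
noncomputable def pr (g : V6) (u : Fin 6 → ℝ) : ℝ :=
  g.a * u 0 + g.b * u 1 + g.c * u 2 + g.d * u 3 + g.e * u 4 + g.f * u 5

/-- simple reflections on real vectors, in the coordinates of fundamental weights -/
noncomputable def sU (i : Fin 6) (u : Fin 6 → ℝ) : Fin 6 → ℝ :=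
  match i with
  | 0 => ![-u 0, u 1, u 2 + u 0, u 3, u 4, u 5]
  | 1 => ![u 0, -u 1, u 2, u 3 + u 1, u 4, u 5]
  | 2 => ![u 0 + u 2, u 1, -u 2, u 3 + u 2, u 4, u 5]
  | 3 => ![u 0, u 1 + u 3, u 2 + u 3, -u 3, u 4 + u 3, u 5]
  | 4 => ![u 0, u 1, u 2, u 3 + u 4, -u 4, u 5 + u 4]
  | 5 => ![u 0, u 1, u 2, u 3, u 4 + u 5, -u 5]

/-- the real vector of an integral one -/
noncomputable def rc (r : V6) : Fin 6 → ℝ := ![r.a, r.b, r.c, r.d, r.e, r.f]

/-- the weight coordinates of a root -/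
noncomputable def gw (g : V6) : Fin 6 → ℝ :=
  ![2 * g.a - g.c, 2 * g.b - g.d, 2 * g.c - g.a - g.d, 2 * g.d - g.b - g.c - g.e,
    2 * g.e - g.d - g.f, 2 * g.f - g.e]

theorem pr_rc (g r : V6) : pr g (rc r) = (dot g r : ℝ) := by
  simp [pr, rc, dot]

theorem pr_add (g h : V6) (u : Fin 6 → ℝ) : pr (add g h) u = pr g u + pr h u := by
  simp only [pr, add]; push_cast; ring

theorem pr_smul (t : ℤ) (g : V6) (u : Fin 6 → ℝ) : pr (smul t g) u = t * pr g u := by
  simp only [pr, smul]; push_cast; ring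

theorem pr_un (i : Fin 6) (u : Fin 6 → ℝ) : pr (un i) u = u i := by
  fin_cases i <;> simp [pr, un]

theorem pr_sR (i : Fin 6) (g : V6) (u : Fin 6 → ℝ) : pr (sR i g) u = pr g (sU i u) := by
  fin_cases i <;> simp [pr, sR, sU] <;> ring

theorem sU_sU (i : Fin 6) (u : Fin 6 → ℝ) : sU i (sU i u) = u := by
  ext j
  fin_cases i <;> fin_cases j <;> simp [sU]

theorem sU_zero (i : Fin 6) : sU i 0 = 0 := by
  ext j
  fin_cases i <;> fin_cases j <;> simp [sU]

theorem sU_ne {i : Fin 6} {u : Fin 6 → ℝ} (h : u ≠ 0) : sU i u ≠ 0 := by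
  intro h1
  apply h
  rw [← sU_sU i u, h1, sU_zero]

theorem sU_self (i : Fin 6) (u : Fin 6 → ℝ) : sU i u i = - u i := by
  fin_cases i <;> simp [sU]

theorem sR_sR (i : Fin 6) (g : V6) : sR i (sR i g) = g := by
  obtain ⟨a, b, c, d, e, f⟩ := g
  fin_cases i <;> simp [sR] <;> ring

theorem rc_sW (i : Fin 6) (r : V6) : rc (sW i r) = sU i (rc r) := by
  ext j
  fin_cases i <;> fin_cases j <;> simp [sU, rc, sW]

theorem gw_sR (i : Fin 6) (g : V6) : gw (sR i g) = sU i (gw g) := by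
  ext j
  fin_cases i <;> fin_cases j <;> simp [sU, gw, sR] <;> ring

theorem sU_eq (i : Fin 6) (u : Fin 6 → ℝ) : sU i u = u - u i • gw (un i) := by
  ext j
  fin_cases i <;> fin_cases j <;> simp [sU, gw, un] <;> ring

theorem sR_un_cp (i : Fin 6) : (sR i (un i)).cp i = -1 := by
  revert i; decide

theorem un_cp (i j : Fin 6) : 0 ≤ (un j).cp i ∧ (un i).cp i = 1 := by
  revert i j; decide

theorem cp_add (g h : V6) (i : Fin 6) : (add g h).cp i = g.cp i + h.cp i := by
  fin_cases i <;> rfl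

theorem dot_un (g : V6) (i : Fin 6) : dot g (un i) = g.cp i := by
  fin_cases i <;> simp [dot, un, V6.cp]

theorem pr_ge {g : V6} (hg : ∀ i, 0 ≤ g.cp i) {y : Fin 6 → ℝ} (hy : ∀ i, 0 ≤ y i) (i : Fin 6) :
    (g.cp i : ℝ) * y i ≤ pr g y := by
  have h0 : (0 : ℝ) ≤ g.a * y 0 := mul_nonneg (by exact_mod_cast hg 0) (hy 0)
  have h1 : (0 : ℝ) ≤ g.b * y 1 := mul_nonneg (by exact_mod_cast hg 1) (hy 1)
  have h2 : (0 : ℝ) ≤ g.c * y 2 := mul_nonneg (by exact_mod_cast hg 2) (hy 2)
  have h3 : (0 : ℝ) ≤ g.d * y 3 := mul_nonneg (by exact_mod_cast hg 3) (hy 3)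
  have h4 : (0 : ℝ) ≤ g.e * y 4 := mul_nonneg (by exact_mod_cast hg 4) (hy 4)
  have h5 : (0 : ℝ) ≤ g.f * y 5 := mul_nonneg (by exact_mod_cast hg 5) (hy 5)
  fin_cases i <;> simp only [pr, V6.cp] <;> simp <;> linarith

/-- induction along the simple reflections -/
theorem dom_induct (P : (Fin 6 → ℝ) → Prop) (hs : ∀ i y, P (sU i y) → P y)
    (hd : ∀ y, (∀ i, 0 ≤ y i) → P y) (y : Fin 6 → ℝ) : P y := by
  classical
  have key : ∀ N, ∀ y, (pos.toFinset.filter (fun g => pr g y < 0)).card = N → P y := by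
    intro N
    induction N using Nat.strong_induction_on with
    | _ N ih =>
      intro y hN
      by_cases h : ∀ i, 0 ≤ y i
      · exact hd y h
      · push Not at h
        obtain ⟨i, hi⟩ := h
        refine hs i y (ih _ ?_ (sU i y) rfl)
        rw [← hN]
        have hi' : un i ∈ pos.toFinset.filter (fun g => pr g y < 0) := by
          rw [Finset.mem_filter, List.mem_toFinset, pr_un]
          exact ⟨un_mem i, hi⟩
        refine lt_of_le_of_lt ?_ (Finset.card_erase_lt_of_mem hi')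
        refine Finset.card_le_card_of_injOn (sR i) ?_ ?_
        · intro g hg
          rw [Finset.mem_coe, Finset.mem_filter, List.mem_toFinset, ← pr_sR] at hg
          have hne : g ≠ un i := by
            rintro rfl
            have h1 := hg.2
            rw [pr_sR, pr_un, sU_self] at h1
            linarith
          have hm := (pos_refl i g hg.1).resolve_left hne
          rw [Finset.mem_coe, Finset.mem_erase, Finset.mem_filter, List.mem_toFinset]
          refine ⟨fun h1 => ?_, hm, hg.2⟩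
          have h2 : g = sR i (un i) := by rw [← h1, sR_sR]
          have h3 := pos_nonneg g hg.1 i
          rw [h2, sR_un_cp] at h3
          omega
        · intro g _ g' _ h1
          have h2 : sR i (sR i g) = sR i (sR i g') := congrArg (sR i) h1
          rwa [sR_sR, sR_sR] at h2
  exact key _ y rfl

/-! ### the rays -/

/-- the rays -/
def RayP (r : V6) : Prop := ∃ c, rt.Mem c ∧ dec c = r

theorem dec_mod (c : ℕ) : dec (c % 4398046511104) = dec c := by
  unfold dec
  congr 2 <;> omega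

theorem eqb_spec {g h : V6} (H : eqb g h = true) : g = h := by
  obtain ⟨a, b, c, d, e, f⟩ := g
  obtain ⟨a', b', c', d', e', f'⟩ := h
  simp only [eqb, Bool.and_eq_true, decide_eq_true_eq] at H
  obtain ⟨⟨⟨⟨⟨h1, h2⟩, h3⟩, h4⟩, h5⟩, h6⟩ := H
  rw [h1, h2, h3, h4, h5, h6]

theorem ray_of_mem {x : ℕ} (h : rt.mem x = true) : RayP (dec x) := by
  obtain ⟨c, h1, h2⟩ := Tr.mem_spec h
  exact ⟨c, h1, by rw [← h2, dec_mod]⟩

theorem ray_un (i : Fin 6) : RayP (un i) := by
  obtain ⟨h1, h2⟩ := base_mem i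
  have := ray_of_mem h1
  rwa [h2] at this

theorem ray_sW {r : V6} (h : RayP r) (i : Fin 6) : RayP (sW i r) := by
  obtain ⟨c, h1, rfl⟩ := h
  have h2 := Tr.all_spec chk_all c h1
  have h3 : chk1 (dec c) i = true := by
    simp only [chk, Bool.and_eq_true] at h2
    obtain ⟨⟨⟨⟨⟨⟨⟨_, a0⟩, a1⟩, a2⟩, a3⟩, a4⟩, a5⟩, _⟩ := h2
    fin_cases i
    · exact a0
    · exact a1
    · exact a2
    · exact a3
    · exact a4
    · exact a5
  simp only [chk1, Bool.and_eq_true] at h3
  have h4 := ray_of_mem h3.1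
  rwa [eqb_spec h3.2] at h4

theorem ray_ne {r : V6} (h : RayP r) : rc r ≠ 0 := by
  obtain ⟨c, h1, rfl⟩ := h
  have h2 := Tr.all_spec chk_all c h1
  simp only [chk, Bool.and_eq_true] at h2
  obtain ⟨⟨⟨⟨⟨⟨⟨⟨_, h3⟩, a0⟩, a1⟩, a2⟩, a3⟩, a4⟩, a5⟩, _⟩ := h2
  intro h4
  have e0 := congrFun h4 0
  have e1 := congrFun h4 1
  have e2 := congrFun h4 2
  have e3 := congrFun h4 3
  have e4 := congrFun h4 4
  have e5 := congrFun h4 5
  simp only [rc, Pi.zero_apply] at e0 e1 e2 e3 e4 e5
  simp at e0 e1 e2 e3 e4 e5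
  revert h3
  simp [eqb, e0, e1, e2, e3, e4, e5]

/-- every nonzero vector is in the open star of some ray -/
theorem exists_ray (y : Fin 6 → ℝ) : y ≠ 0 → ∃ r, RayP r ∧
    ∀ g ∈ pos, (0 < dot g r → 0 < pr g y) ∧ (dot g r < 0 → pr g y < 0) := by
  refine dom_induct (fun y => y ≠ 0 → ∃ r, RayP r ∧
    ∀ g ∈ pos, (0 < dot g r → 0 < pr g y) ∧ (dot g r < 0 → pr g y < 0)) ?_ ?_ y
  · intro i y h hy
    obtain ⟨r, hr, h1⟩ := h (sU_ne hy)
    refine ⟨sW i r, ray_sW hr i, fun g hg => ?_⟩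
    have e1 : (dot g (sW i r) : ℝ) = (dot (sR i g) r : ℝ) := by
      rw [← pr_rc, ← pr_rc, rc_sW, pr_sR]
    have e2 : dot g (sW i r) = dot (sR i g) r := by exact_mod_cast e1
    rw [e2]
    rcases pos_refl i g hg with h2 | h2
    · -- the simple root itself
      subst h2
      have h3 := h1 (un i) hg
      have e3 : dot (sR i (un i)) r = - dot (un i) r := by
        have : ((dot (sR i (un i)) r : ℤ) : ℝ) = - (dot (un i) r : ℝ) := by
          rw [← pr_rc, ← pr_rc, pr_sR, pr_un, pr_un, sU_self]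
        exact_mod_cast this
      rw [e3]
      rw [pr_un, sU_self] at h3
      rw [pr_un]
      refine ⟨fun h4 => ?_, fun h4 => ?_⟩
      · have := h3.2 (by omega)
        linarith
      · have := h3.1 (by omega)
        linarith
    · have h3 := h1 _ h2
      rw [pr_sR, sU_sU] at h3
      exact h3
  · intro y hy hy0
    obtain ⟨i, hi⟩ : ∃ i, y i ≠ 0 := by
      by_contra hcon
      push Not at hcon
      exact hy0 (funext hcon)
    have hi' : 0 < y i := lt_of_le_of_ne (hy i) hi.symm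
    refine ⟨un i, ray_un i, fun g hg => ?_⟩
    rw [dot_un]
    have h1 := pos_nonneg g hg
    refine ⟨fun h2 => ?_, fun h2 => absurd (h1 i) (by omega)⟩
    refine lt_of_lt_of_le ?_ (pr_ge h1 hy i)
    exact mul_pos (by exact_mod_cast h2) hi'

/-- irreducibility -/
theorem irr (r : Fin 6 → ℝ) : r ≠ 0 → ∀ u : Fin 6 → ℝ, (∀ g ∈ pos, pr g r * pr g u = 0) →
    u = 0 := by
  refine dom_induct (fun r => r ≠ 0 → ∀ u : Fin 6 → ℝ, (∀ g ∈ pos, pr g r * pr g u = 0) →
    u = 0) ?_ ?_ r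
  · intro i r h hr u hu
    have h1 : sU i u = 0 := by
      refine h (sU_ne hr) (sU i u) fun g hg => ?_
      rcases pos_refl i g hg with h2 | h2
      · subst h2
        rw [pr_un, pr_un, sU_self, sU_self]
        have := hu _ hg
        rw [pr_un, pr_un] at this
        linarith
      · rw [← pr_sR, ← pr_sR]
        exact hu _ h2
    rw [← sU_sU i u, h1, sU_zero]
  · intro r hr hr0 u hu
    obtain ⟨i, hi⟩ : ∃ i, r i ≠ 0 := by
      by_contra hcon
      push Not at hcon
      exact hr0 (funext hcon)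
    have hi' : 0 < r i := lt_of_le_of_ne (hr i) hi.symm
    have key : ∀ g ∈ pos, 0 < g.cp i → pr g u = 0 := by
      intro g hg h1
      have h2 : 0 < pr g r := lt_of_lt_of_le (mul_pos (by exact_mod_cast h1) hi')
        (pr_ge (pos_nonneg g hg) hr i)
      rcases mul_eq_zero.1 (hu g hg) with h3 | h3
      · exact absurd h3 h2.ne'
      · exact h3
    ext j
    rcases pos_sp i j with h1 | ⟨g, hg, h1, h2⟩
    · subst h1
      have := key _ (un_mem i) (by rw [(un_cp i i).2]; norm_num)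
      rwa [pr_un] at this
    · have h3 := key g hg h1
      have h4 := key _ h2 (by rw [cp_add]; have := (un_cp i j).1; omega)
      rw [pr_add, pr_un, h3, zero_add] at h4
      exact h4

theorem wq_eq (r : V6) (u : Fin 6 → ℝ) :
    pr (wq r) u = (pos.map fun g => (dot g r : ℝ) * pr g u).sum := by
  simp only [pos, List.map_cons, List.map_nil, List.sum_cons, List.sum_nil, pr, dot, wq]
  push_cast
  ring

theorem ofNat_cast (n : ℕ) : ((Int.ofNat n : ℤ) : ℝ) = (n : ℝ) := Int.cast_natCast n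

theorem csum_nonneg {r : V6} {u : Fin 6 → ℝ} (h : ∀ g ∈ pos, 0 ≤ (dot g r : ℝ) * pr g u) :
    ∀ m c, 0 ≤ pr (csum pos r m c) u := by
  intro m
  induction m with
  | zero => intro c; simp [csum, pr]
  | succ m ih =>
    intro c
    simp only [csum]
    rw [pr_add, pr_smul]
    refine add_nonneg ?_ (ih _)
    by_cases h1 : c % 128 < pos.length
    · rw [List.getD_eq_getElem _ _ h1]
      have h2 := h _ (List.getElem_mem h1)
      rw [Int.cast_mul, ofNat_cast, mul_assoc]
      exact mul_nonneg (Nat.cast_nonneg _) h2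
    · rw [List.getD_eq_default _ _ (not_lt.1 h1)]
      simp [pr]

/-- the certificates -/
theorem cert {r : V6} (h : RayP r) : ∃ k : Fin 64, ∀ u : Fin 6 → ℝ, u ≠ 0 →
    (∀ g ∈ pos, 0 ≤ (dot g r : ℝ) * pr g u) → 0 < pr (dirs.getD k.val ⟨0, 0, 0, 0, 0, 0⟩) u := by
  have hne := ray_ne h
  obtain ⟨c, h1, rfl⟩ := h
  have h2 := Tr.all_spec chk_all c h1
  simp only [chk, Bool.and_eq_true] at h2
  obtain ⟨⟨⟨⟨⟨⟨⟨⟨h64, _⟩, _⟩, _⟩, _⟩, _⟩, _⟩, _⟩, h3⟩ := h2
  rw [Nat.blt_eq] at h64
  refine ⟨⟨c / 4398046511104 % 128, h64⟩, fun u hu hg => ?_⟩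
  simp only
  simp only [chk2, Bool.and_eq_true] at h3
  obtain ⟨⟨hA, hB⟩, h4⟩ := h3
  have hA' : (0 : ℝ) < ((c / 562949953421312 % 128 : ℕ) : ℝ) := by
    rw [Nat.blt_eq] at hA
    exact_mod_cast hA
  have hB' : (0 : ℝ) < ((c / 72057594037927936 % 128 : ℕ) : ℝ) := by
    rw [Nat.blt_eq] at hB
    exact_mod_cast hB
  have h5 := congrArg (fun g => pr g u) (eqb_spec h4)
  simp only [pr_smul, pr_add] at h5
  have h6 := csum_nonneg hg (c / 9223372036854775808 % 128) (c / 1180591620717411303424)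
  have h7 : 0 < pr (wq (dec c)) u := by
    rw [wq_eq]
    have hnn : ∀ t ∈ pos.map fun g => (dot g (dec c) : ℝ) * pr g u, 0 ≤ t := by
      intro t ht
      obtain ⟨g, hg', rfl⟩ := List.mem_map.1 ht
      exact hg g hg'
    refine lt_of_le_of_ne (List.sum_nonneg hnn) fun h8 => hu ?_
    refine irr (rc (dec c)) hne u fun g hg' => ?_
    rw [pr_rc]
    exact List.all_zero_of_le_zero_le_of_sum_eq_zero hnn h8.symm (List.mem_map.2 ⟨g, hg', rfl⟩)
  have h10 : 0 < ((c / 562949953421312 % 128 : ℕ) : ℝ) *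
      pr (dirs.getD (c / 4398046511104 % 128) ⟨0, 0, 0, 0, 0, 0⟩) u := by
    have h11 := mul_pos hB' h7
    rw [ofNat_cast, ofNat_cast] at h5
    rw [h5]
    linarith
  exact (mul_pos_iff_of_pos_left hA').1 h10

/-! ### convex bodies -/

/-- a convex body with the symmetries of `E₆`, in the coordinates of fundamental weights -/
structure EBody (K : Set (Fin 6 → ℝ)) : Prop where
  conv : Convex ℝ K
  comp : IsCompact K
  int : (interior K).Nonempty
  refl : ∀ i, ∀ y ∈ K, sU i y ∈ K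

variable {K : Set (Fin 6 → ℝ)}

theorem EBody.root (h : EBody K) : ∀ g ∈ pos, ∀ y ∈ K, y - pr g y • gw g ∈ K := by
  have key : ∀ N : ℕ, ∀ g ∈ pos, ht g = N → ∀ y ∈ K, y - pr g y • gw g ∈ K := by
    intro N
    induction N using Nat.strong_induction_on with
    | _ N ih =>
      intro g hg hN y hy
      rcases pos_ht g hg with ⟨i, rfl⟩ | ⟨i, h1, h2⟩
      · rw [pr_un, ← sU_eq]
        exact h.refl i y hy
      · obtain ⟨M, hM⟩ : ∃ M : ℕ, ht (sR i g) = M := ⟨(ht (sR i g)).toNat, by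
          have := pos_ht_nonneg _ h1
          omega⟩
        have h3 := h.refl i _ (ih M (by omega) _ h1 hM _ (h.refl i y hy))
        convert h3 using 1
        rw [pr_sR, sU_sU, gw_sR]
        ext j
        have h4 := sU_sU i y
        have h5 := sU_sU i (gw g)
        rw [sU_eq i (sU i y - pr g y • sU i (gw g))]
        have e1 := congrFun (sU_eq i (sU i y)) j
        have e2 := congrFun (sU_eq i (sU i (gw g))) j
        rw [h4] at e1
        rw [h5] at e2
        simp only [Pi.sub_apply, Pi.smul_apply, smul_eq_mul] at e1 e2 ⊢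
        rw [e1, e2]
        ring
  intro g hg
  obtain ⟨M, hM⟩ : ∃ M : ℕ, ht g = M := ⟨(ht g).toNat, by
    have := pos_ht_nonneg _ hg
    omega⟩
  exact key M g hg hM

/-- the values of a functional at the simple roots -/
noncomputable def vs (c : Fin 6 → ℝ) : Fin 6 → ℝ :=
  ![2 * c 0 - c 2, 2 * c 1 - c 3, 2 * c 2 - c 0 - c 3, 2 * c 3 - c 1 - c 2 - c 4,
    2 * c 4 - c 3 - c 5, 2 * c 5 - c 4]

theorem sum_gw (c : Fin 6 → ℝ) (g : V6) : ∑ a, c a * gw g a = pr g (vs c) := by
  simp [Fin.sum_univ_six, gw, pr, vs]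
  ring

theorem vs_ne {c : Fin 6 → ℝ} (h : c ≠ 0) : vs c ≠ 0 := by
  intro h1
  apply h
  have e0 := congrFun h1 0
  have e1 := congrFun h1 1
  have e2 := congrFun h1 2
  have e3 := congrFun h1 3
  have e4 := congrFun h1 4
  have e5 := congrFun h1 5
  simp [vs] at e0 e1 e2 e3 e4 e5
  ext i
  fin_cases i <;> simp <;> linarith

theorem EBody.nrm (h : EBody K) {y c : Fin 6 → ℝ} (hy : y ∈ K) (hc : Nrm K y c) :
    ∀ g ∈ pos, 0 ≤ pr g y * pr g (vs c) := by
  intro g hg
  have h1 := hc _ (h.root g hg y hy)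
  have h2 : ∑ a, c a * (y - pr g y • gw g) a = ∑ a, c a * y a - pr g y * pr g (vs c) := by
    rw [← sum_gw, Finset.mul_sum, ← Finset.sum_sub_distrib]
    refine Finset.sum_congr rfl fun a _ => ?_
    simp only [Pi.sub_apply, Pi.smul_apply, smul_eq_mul]
    ring
  rw [h2] at h1
  linarith

/-- twelve times the invariant product -/
theorem sum_pos_eq (y c : Fin 6 → ℝ) :
    (pos.map fun g => pr g y * pr g (vs c)).sum = 12 * ∑ a, c a * y a := by
  simp only [pos, List.map_cons, List.map_nil, List.sum_cons, List.sum_nil, pr, vs,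
    Fin.sum_univ_six]
  simp only [Matrix.cons_val_zero, Matrix.cons_val_one, Matrix.cons_val]
  push_cast
  ring

/-- the interior is invariant -/
theorem EBody.int_sU (h : EBody K) (i : Fin 6) {y : Fin 6 → ℝ} (hy : y ∈ interior K) :
    sU i y ∈ interior K := by
  have hcont : Continuous (sU i) := by
    have : sU i = fun u => u - u i • gw (un i) := by
      ext u : 1
      exact sU_eq i u
    rw [this]
    fun_prop
  have h1 : sU i ⁻¹' interior K ⊆ interior K := by
    refine interior_maximal ?_ (isOpen_interior.preimage hcont)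
    intro z hz
    have := h.refl i _ (interior_subset hz)
    rwa [sU_sU] at this
  exact h1 (by rw [Set.mem_preimage, sU_sU]; exact hy)

theorem EBody.zero_int (h : EBody K) : (0 : Fin 6 → ℝ) ∈ interior K := by
  by_contra hcon
  obtain ⟨f, hf⟩ := geometric_hahn_banach_open_point h.conv.interior isOpen_interior hcon
  -- coordinates of the functional
  obtain ⟨c, hc⟩ : ∃ c : Fin 6 → ℝ, ∀ y, f y = ∑ a, c a * y a := by
    refine ⟨fun a => f (Pi.single a 1), fun y => ?_⟩
    conv_lhs => rw [pi_eq_sum_univ y]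
    rw [map_sum]
    refine Finset.sum_congr rfl fun a _ => ?_
    rw [map_smul, smul_eq_mul, mul_comm]
    congr 2
    ext b
    simp [Pi.single_apply, eq_comm]
  have hneg : ∀ y ∈ interior K, ∑ a, c a * y a < 0 := by
    intro y hy
    have := hf y hy
    rwa [map_zero, hc] at this
  -- a dominant interior point
  have hpt : ∀ y : Fin 6 → ℝ, y ∈ interior K → y ≠ 0 →
      ∃ y' ∈ interior K, y' ≠ 0 ∧ ∀ i, 0 ≤ y' i := by
    intro y
    refine dom_induct (fun y => y ∈ interior K → y ≠ 0 →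
      ∃ y' ∈ interior K, y' ≠ 0 ∧ ∀ i, 0 ≤ y' i) ?_ ?_ y
    · intro i y hP hy hy0
      exact hP (h.int_sU i hy) (sU_ne hy0)
    · intro y hd hy hy0
      exact ⟨y, hy, hy0, hd⟩
  obtain ⟨y0, hy0⟩ := h.int
  have hy0' : y0 ≠ 0 := by
    rintro rfl
    exact hcon hy0
  obtain ⟨y, hy, hyne, hyd⟩ := hpt y0 hy0 hy0'
  -- a dominant functional
  have hfun : ∀ u : Fin 6 → ℝ, ∀ c : Fin 6 → ℝ, vs c = u →
      (∀ y ∈ interior K, ∑ a, c a * y a < 0) →
      ∃ c' : Fin 6 → ℝ, (∀ y ∈ interior K, ∑ a, c' a * y a < 0) ∧ ∀ i, 0 ≤ vs c' i := by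
    intro u
    refine dom_induct (fun u => ∀ c : Fin 6 → ℝ, vs c = u →
      (∀ y ∈ interior K, ∑ a, c a * y a < 0) →
      ∃ c' : Fin 6 → ℝ, (∀ y ∈ interior K, ∑ a, c' a * y a < 0) ∧ ∀ i, 0 ≤ vs c' i) ?_ ?_ u
    · intro i u hP c hcu hcn
      -- the reflected functional
      obtain ⟨c', hc'⟩ : ∃ c' : Fin 6 → ℝ, c' = Function.update c i (c i - vs c i) := ⟨_, rfl⟩
      have e1 : vs c' = sU i u := by
        rw [hc', ← hcu]
        ext j
        fin_cases i <;> fin_cases j <;> simp [vs, sU, Function.update] <;> ring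
      have e2 : ∀ y, ∑ a, c' a * y a = ∑ a, c a * sU i y a := by
        intro y
        rw [hc']
        fin_cases i <;> simp [Fin.sum_univ_six, vs, sU, Function.update] <;> ring
      refine hP c' e1 fun y hy => ?_
      rw [e2]
      exact hcn _ (h.int_sU i hy)
    · intro u hu c hcu hcn
      exact ⟨c, hcn, fun i => by rw [hcu]; exact hu i⟩
  obtain ⟨c', hc'n, hc'd⟩ := hfun _ c rfl hneg
  have h1 := hc'n y hy
  have h2 := sum_pos_eq y c'
  have h3 : 0 ≤ (pos.map fun g => pr g y * pr g (vs c')).sum := by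
    refine List.sum_nonneg fun t ht => ?_
    obtain ⟨g, hg, rfl⟩ := List.mem_map.1 ht
    have h4 : ∀ z : Fin 6 → ℝ, (∀ i, 0 ≤ z i) → 0 ≤ pr g z := fun z hz =>
      le_trans (mul_nonneg (by exact_mod_cast pos_nonneg g hg 0) (hz 0))
        (pr_ge (pos_nonneg g hg) hz 0)
    exact mul_nonneg (h4 y hyd) (h4 _ hc'd)
  linarith

theorem EBody.cov (h : EBody K) : Cov 64 K := by
  have hmain := cov_of_ill h.conv h.comp
    (fun k : Fin 64 => - gw (dirs.getD k.val ⟨0, 0, 0, 0, 0, 0⟩)) ?_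
  · rwa [Fintype.card_fin] at hmain
  intro y hy
  by_cases hy0 : y = 0
  · refine ⟨0, ?_⟩
    rw [hy0]
    exact ill_of_int h.zero_int _
  · obtain ⟨r, hr, h1⟩ := exists_ray y hy0
    obtain ⟨k, hk⟩ := cert hr
    refine ⟨k, ill_of_nrm h.conv h.int hy fun c hc0 hc => ?_⟩
    have h2 := h.nrm hy hc
    have h3 : ∑ a, c a * (- gw (dirs.getD k.val ⟨0, 0, 0, 0, 0, 0⟩)) a =
        - pr (dirs.getD k.val ⟨0, 0, 0, 0, 0, 0⟩) (vs c) := by
      rw [← sum_gw, ← Finset.sum_neg_distrib]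
      refine Finset.sum_congr rfl fun a _ => ?_
      rw [Pi.neg_apply, mul_neg]
    rw [h3, neg_lt_zero]
    refine hk _ (vs_ne hc0) fun g hg => ?_
    obtain ⟨h4, h5⟩ := h1 g hg
    have h6 := h2 g hg
    rcases lt_trichotomy (dot g r) 0 with h7 | h7 | h7
    · have h8 := h5 h7
      have h9 : pr g (vs c) ≤ 0 := by
        by_contra hcon
        push Not at hcon
        nlinarith [mul_pos (neg_pos.2 h8) hcon]
      have h10 : (dot g r : ℝ) < 0 := by exact_mod_cast h7
      exact mul_nonneg_of_nonpos_of_nonpos h10.le h9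
    · rw [h7]; simp
    · have h8 := h4 h7
      have h9 : 0 ≤ pr g (vs c) := by
        by_contra hcon
        push Not at hcon
        nlinarith [mul_pos h8 (neg_pos.2 hcon)]
      have h10 : (0 : ℝ) < (dot g r : ℝ) := by exact_mod_cast h7
      exact mul_nonneg h10.le h9

end Pool.Agent.W396.Il.E6
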