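import Pool.Agent.W396.Il.E6Data

set_option autoImplicit false
set_option maxRecDepth 100000

/-!
The finite checks for `E₆`.
-/

namespace Pool.Agent.W396.Il.E6

/-- closure under a simple reflection -/
def chk1 (r : V6) (i : Fin 6) : Bool :=
  let s := sW i r
  let x := enc s
  rt.mem x && eqb (dec x) s

/-- the certificate of the ray `r`: `A V = B (wq r) + ∑ C_k (γ_k · r) γ_k` -/
def chk2 (r v : V6) (A B m c : ℕ) : Bool :=
  Nat.blt 0 A && Nat.blt 0 B && eqb (smul (Int.ofNat A) v)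
    (add (smul (Int.ofNat B) (wq r)) (csum pos r m c))

/-- the check of one entry -/
def chk (c : ℕ) : Bool :=
  Nat.blt (c / 4398046511104 % 128) 64 && !(eqb (dec c) ⟨0, 0, 0, 0, 0, 0⟩) &&
  chk1 (dec c) 0 && chk1 (dec c) 1 && chk1 (dec c) 2 && chk1 (dec c) 3 && chk1 (dec c) 4 &&
    chk1 (dec c) 5 &&
  chk2 (dec c) (dirs.getD (c / 4398046511104 % 128) ⟨0, 0, 0, 0, 0, 0⟩)
    (c / 562949953421312 % 128) (c / 72057594037927936 % 128) (c / 9223372036854775808 % 128)
    (c / 1180591620717411303424)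

theorem chk_all : rt.all chk = true := by decide +kernel

theorem dirs_length : dirs.length = 64 := by decide

theorem base_mem : ∀ i : Fin 6, rt.mem (enc (un i)) = true ∧ dec (enc (un i)) = un i := by
  decide +kernel

theorem pos_refl : ∀ i : Fin 6, ∀ g ∈ pos, g = un i ∨ sR i g ∈ pos := by decide +kernel

theorem pos_ht : ∀ g ∈ pos, (∃ i, g = un i) ∨ ∃ i, sR i g ∈ pos ∧ ht (sR i g) < ht g := by
  decide +kernel

theorem pos_nonneg : ∀ g ∈ pos, ∀ i, 0 ≤ g.cp i := by decide +kernel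

theorem pos_ht_nonneg : ∀ g ∈ pos, 0 ≤ ht g := by decide +kernel

theorem un_mem : ∀ i : Fin 6, un i ∈ pos := by decide +kernel

theorem pos_sp : ∀ i j : Fin 6, i = j ∨ ∃ g ∈ pos, 0 < g.cp i ∧ add g (un j) ∈ pos := by
  decide +kernel

end Pool.Agent.W396.Il.E6
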