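import Mathlib

set_option autoImplicit false

/-!
Computations with the root system `E₆`, definitions.
-/

namespace Pool.Agent.W396.Il.E6

/-- integral vectors with six coordinates -/
structure V6 where
  a : ℤ
  b : ℤ
  c : ℤ
  d : ℤ
  e : ℤ
  f : ℤ
deriving DecidableEq

/-- simple reflections in the coordinates of simple roots -/
def sR (i : Fin 6) (g : V6) : V6 :=
  match i with
  | 0 => ⟨g.c - g.a, g.b, g.c, g.d, g.e, g.f⟩
  | 1 => ⟨g.a, g.d - g.b, g.c, g.d, g.e, g.f⟩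
  | 2 => ⟨g.a, g.b, g.a + g.d - g.c, g.d, g.e, g.f⟩
  | 3 => ⟨g.a, g.b, g.c, g.b + g.c + g.e - g.d, g.e, g.f⟩
  | 4 => ⟨g.a, g.b, g.c, g.d, g.d + g.f - g.e, g.f⟩
  | 5 => ⟨g.a, g.b, g.c, g.d, g.e, g.e - g.f⟩

/-- simple reflections in the coordinates of fundamental weights -/
def sW (i : Fin 6) (r : V6) : V6 :=
  match i with
  | 0 => ⟨-r.a, r.b, r.c + r.a, r.d, r.e, r.f⟩
  | 1 => ⟨r.a, -r.b, r.c, r.d + r.b, r.e, r.f⟩
  | 2 => ⟨r.a + r.c, r.b, -r.c, r.d + r.c, r.e, r.f⟩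
  | 3 => ⟨r.a, r.b + r.d, r.c + r.d, -r.d, r.e + r.d, r.f⟩
  | 4 => ⟨r.a, r.b, r.c, r.d + r.e, -r.e, r.f + r.e⟩
  | 5 => ⟨r.a, r.b, r.c, r.d, r.e + r.f, -r.f⟩

/-- the coordinates -/
def V6.cp (g : V6) (i : Fin 6) : ℤ :=
  match i with
  | 0 => g.a
  | 1 => g.b
  | 2 => g.c
  | 3 => g.d
  | 4 => g.e
  | 5 => g.f

/-- unit vectors -/
def un (i : Fin 6) : V6 :=
  match i with
  | 0 => ⟨1, 0, 0, 0, 0, 0⟩
  | 1 => ⟨0, 1, 0, 0, 0, 0⟩
  | 2 => ⟨0, 0, 1, 0, 0, 0⟩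
  | 3 => ⟨0, 0, 0, 1, 0, 0⟩
  | 4 => ⟨0, 0, 0, 0, 1, 0⟩
  | 5 => ⟨0, 0, 0, 0, 0, 1⟩

/-- pairing of a root with a weight -/
def dot (g r : V6) : ℤ := g.a * r.a + g.b * r.b + g.c * r.c + g.d * r.d + g.e * r.e + g.f * r.f

/-- sum -/
def add (g h : V6) : V6 := ⟨g.a + h.a, g.b + h.b, g.c + h.c, g.d + h.d, g.e + h.e, g.f + h.f⟩

/-- multiple -/
def smul (t : ℤ) (g : V6) : V6 := ⟨t * g.a, t * g.b, t * g.c, t * g.d, t * g.e, t * g.f⟩

/-- equality test -/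
def eqb (g h : V6) : Bool :=
  decide (g.a = h.a) && decide (g.b = h.b) && decide (g.c = h.c) && decide (g.d = h.d) &&
    decide (g.e = h.e) && decide (g.f = h.f)

/-- `12` times the inverse of the Cartan matrix -/
def wq (r : V6) : V6 :=
  ⟨16 * r.a + 12 * r.b + 20 * r.c + 24 * r.d + 16 * r.e + 8 * r.f,
   12 * r.a + 24 * r.b + 24 * r.c + 36 * r.d + 24 * r.e + 12 * r.f,
   20 * r.a + 24 * r.b + 40 * r.c + 48 * r.d + 32 * r.e + 16 * r.f,
   24 * r.a + 36 * r.b + 48 * r.c + 72 * r.d + 48 * r.e + 24 * r.f,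
   16 * r.a + 24 * r.b + 32 * r.c + 48 * r.d + 40 * r.e + 20 * r.f,
   8 * r.a + 12 * r.b + 16 * r.c + 24 * r.d + 20 * r.e + 16 * r.f⟩

/-- height -/
def ht (g : V6) : ℤ := g.a + g.b + g.c + g.d + g.e + g.f

/-- search trees -/
inductive Tr where
  | lf : Tr
  | nd : Tr → ℕ → Tr → Tr

/-- membership of a key -/
def Tr.mem (x : ℕ) : Tr → Bool
  | .lf => false
  | .nd l c r =>
    match Nat.beq x (c % 4398046511104) with
    | true => true
    | false =>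
      match Nat.blt x (c % 4398046511104) with
      | true => l.mem x
      | false => r.mem x

/-- all entries satisfy `p` -/
def Tr.all (p : ℕ → Bool) : Tr → Bool
  | .lf => true
  | .nd l c r => p c && l.all p && r.all p

/-- the entries -/
def Tr.Mem (x : ℕ) : Tr → Prop
  | .lf => False
  | .nd l c r => x = c ∨ l.Mem x ∨ r.Mem x

theorem Tr.all_spec {p : ℕ → Bool} : ∀ {t : Tr}, t.all p = true → ∀ x, t.Mem x → p x = true
  | .lf, _, _, h => h.elim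
  | .nd l c r, h, x, hx => by
    simp only [Tr.all, Bool.and_eq_true] at h
    rcases hx with rfl | hx | hx
    · exact h.1.1
    · exact Tr.all_spec h.1.2 x hx
    · exact Tr.all_spec h.2 x hx

theorem Tr.mem_spec {x : ℕ} : ∀ {t : Tr}, t.mem x = true → ∃ c, t.Mem c ∧ c % 4398046511104 = x
  | .lf, h => by simp [Tr.mem] at h
  | .nd l c r, h => by
    unfold Tr.mem at h
    split at h
    · rename_i h1
      exact ⟨c, Or.inl rfl, (Nat.eq_of_beq_eq_true h1).symm⟩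
    · split at h
      · obtain ⟨c', h2, h3⟩ := Tr.mem_spec h
        exact ⟨c', Or.inr (Or.inl h2), h3⟩
      · obtain ⟨c', h2, h3⟩ := Tr.mem_spec h
        exact ⟨c', Or.inr (Or.inr h2), h3⟩

/-- decoding of a vector (six digits in base `128`, shifted by `8`) -/
def dec (c : ℕ) : V6 :=
  ⟨Int.subNatNat (c % 128) 8, Int.subNatNat (c / 128 % 128) 8,
   Int.subNatNat (c / 16384 % 128) 8, Int.subNatNat (c / 2097152 % 128) 8,
   Int.subNatNat (c / 268435456 % 128) 8, Int.subNatNat (c / 34359738368 % 128) 8⟩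

/-- encoding -/
def enc (r : V6) : ℕ :=
  (r.a + 8).toNat + 128 * (r.b + 8).toNat + 16384 * (r.c + 8).toNat +
    2097152 * (r.d + 8).toNat + 268435456 * (r.e + 8).toNat + 34359738368 * (r.f + 8).toNat

/-- the sum of `C_k (γ_k · r) γ_k` over the certificate -/
def csum (pos : List V6) (r : V6) : ℕ → ℕ → V6
  | 0, _ => ⟨0, 0, 0, 0, 0, 0⟩
  | m + 1, c =>
    let g := pos.getD (c % 128) ⟨0, 0, 0, 0, 0, 0⟩
    add (smul (Int.ofNat (c / 128 % 128) * dot g r) g) (csum pos r m (c / 16384))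

end Pool.Agent.W396.Il.E6
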