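import Pool.Agent.W396.Il.E6
import Pool.Agent.W396.Il.E6Data54

set_option autoImplicit false
set_option maxRecDepth 100000

/-!
`E₆` with `54` directions.
-/

namespace Pool.Agent.W396.Il.E6

open Set Finset

/-- the check of one entry -/
def chk54 (c : ℕ) : Bool :=
  Nat.blt (c / 4398046511104 % 128) 54 &&
  chk2 (dec c) (dirs54.getD (c / 4398046511104 % 128) ⟨0, 0, 0, 0, 0, 0⟩)
    (c / 562949953421312 % 128) (c / 72057594037927936 % 128) (c / 9223372036854775808 % 128)
    (c / 1180591620717411303424)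

theorem chk54_all : st.all chk54 = true := by decide +kernel

theorem st_mem : rt.all (fun c => st.mem (c % 4398046511104)) = true := by decide +kernel

/-- the certificates -/
theorem cert54 {r : V6} (h : RayP r) : ∃ k : Fin 54, ∀ u : Fin 6 → ℝ, u ≠ 0 →
    (∀ g ∈ pos, 0 ≤ (dot g r : ℝ) * pr g u) → 0 < pr (dirs54.getD k.val ⟨0, 0, 0, 0, 0, 0⟩) u := by
  have hne := ray_ne h
  obtain ⟨c0, h0, rfl⟩ := h
  obtain ⟨c, h1, h1'⟩ := Tr.mem_spec (Tr.all_spec st_mem c0 h0)
  have hdec : dec c = dec c0 := by rw [← dec_mod c, h1', dec_mod]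
  rw [← hdec] at hne ⊢
  have h2 := Tr.all_spec chk54_all c h1
  simp only [chk54, Bool.and_eq_true] at h2
  obtain ⟨h64, h3⟩ := h2
  rw [Nat.blt_eq] at h64
  refine ⟨⟨c / 4398046511104 % 128, h64⟩, fun u hu hg => ?_⟩
  simp only
  simp only [chk2, Bool.and_eq_true] at h3
  obtain ⟨⟨hA, hB⟩, h4⟩ := h3
  have hA' : (0 : ℝ) < ((c / 562949953421312 % 128 : ℕ) : ℝ) := by
    rw [Nat.blt_eq] at hA
    exact_mod_cast hA
  have hB' : (0 : ℝ) < ((c / 72057594037927936 % 128 : ℕ) : ℝ) := by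
    rw [Nat.blt_eq] at hB
    exact_mod_cast hB
  have h5 := congrArg (fun g => pr g u) (eqb_spec h4)
  simp only [pr_smul, pr_add] at h5
  have h6 := csum_nonneg hg (c / 9223372036854775808 % 128) (c / 1180591620717411303424)
  have h7 : 0 < pr (wq (dec c)) u := by
    rw [wq_eq]
    have hnn : ∀ t ∈ pos.map fun g => (dot g (dec c) : ℝ) * pr g u, 0 ≤ t := by
      intro t ht
      obtain ⟨g, hg', rfl⟩ := List.mem_map.1 ht
      exact hg g hg'
    refine lt_of_le_of_ne (List.sum_nonneg hnn) fun h8 => hu ?_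
    refine irr (rc (dec c)) hne u fun g hg' => ?_
    rw [pr_rc]
    exact List.all_zero_of_le_zero_le_of_sum_eq_zero hnn h8.symm (List.mem_map.2 ⟨g, hg', rfl⟩)
  have h10 : 0 < ((c / 562949953421312 % 128 : ℕ) : ℝ) *
      pr (dirs54.getD (c / 4398046511104 % 128) ⟨0, 0, 0, 0, 0, 0⟩) u := by
    have h11 := mul_pos hB' h7
    rw [ofNat_cast, ofNat_cast] at h5
    rw [h5]
    linarith
  exact (mul_pos_iff_of_pos_left hA').1 h10

variable {K : Set (Fin 6 → ℝ)}

theorem EBody.cov54 (h : EBody K) : Cov 54 K := by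
  have hmain := cov_of_ill h.conv h.comp
    (fun k : Fin 54 => - gw (dirs54.getD k.val ⟨0, 0, 0, 0, 0, 0⟩)) ?_
  · rwa [Fintype.card_fin] at hmain
  intro y hy
  by_cases hy0 : y = 0
  · refine ⟨0, ?_⟩
    rw [hy0]
    exact ill_of_int h.zero_int _
  · obtain ⟨r, hr, h1⟩ := exists_ray y hy0
    obtain ⟨k, hk⟩ := cert54 hr
    refine ⟨k, ill_of_nrm h.conv h.int hy fun c hc0 hc => ?_⟩
    have h2 := h.nrm hy hc
    have h3 : ∑ a, c a * (- gw (dirs54.getD k.val ⟨0, 0, 0, 0, 0, 0⟩)) a =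
        - pr (dirs54.getD k.val ⟨0, 0, 0, 0, 0, 0⟩) (vs c) := by
      rw [← sum_gw, ← Finset.sum_neg_distrib]
      refine Finset.sum_congr rfl fun a _ => ?_
      rw [Pi.neg_apply, mul_neg]
    rw [h3, neg_lt_zero]
    refine hk _ (vs_ne hc0) fun g hg => ?_
    obtain ⟨h4, h5⟩ := h1 g hg
    have h6 := h2 g hg
    rcases lt_trichotomy (dot g r) 0 with h7 | h7 | h7
    · have h8 := h5 h7
      have h9 : pr g (vs c) ≤ 0 := by
        by_contra hcon
        push Not at hcon
        nlinarith [mul_pos (neg_pos.2 h8) hcon]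
      have h10 : (dot g r : ℝ) < 0 := by exact_mod_cast h7
      exact mul_nonneg_of_nonpos_of_nonpos h10.le h9
    · rw [h7]; simp
    · have h8 := h4 h7
      have h9 : 0 ≤ pr g (vs c) := by
        by_contra hcon
        push Not at hcon
        nlinarith [mul_pos h8 (neg_pos.2 hcon)]
      have h10 : (0 : ℝ) < (dot g r : ℝ) := by exact_mod_cast h7
      exact mul_nonneg h10.le h9

end Pool.Agent.W396.Il.E6
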