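import Pool.Agent.W396.Il.Cox6

set_option autoImplicit false
set_option maxRecDepth 4000

/-!
Reduction of an arbitrary connected simple system of rank at least three to the types `A`, `D`,
`E₆` and `H₃`.
-/

namespace Pool.Agent.W396.Il.Gen

open Set Finset Cox

variable {E : Type*} [NormedAddCommGroup E] [InnerProductSpace ℝ E] {K : Set E} {G : Prop}

/-- the assertion `G` holds in the presence of the simple systems `A`, `D`, `E₆`, `H₃` -/
structure Eng (K : Set E) (G : Prop) : Prop where
  A : ∀ {n : ℕ}, 3 ≤ n → ∀ (r : Fin n → E), (∀ i, U K (r i)) →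
    (∀ i j : Fin n, inner ℝ (r i) (r j) = if i = j then (1 : ℝ) else
      if i.val + 1 = j.val ∨ j.val + 1 = i.val then -(1 / 2) else 0) →
    LinearIndependent ℝ r → Module.finrank ℝ E = n → G
  D : ∀ {m : ℕ} (r : Fin (m + 4) → E), (∀ i, U K (r i)) →
    (∀ i j : Fin (m + 4), inner ℝ (r i) (r j) = if i = j then (1 : ℝ) else
      if i.val + 1 = j.val ∧ j.val + 2 < m + 4 then -(1 / 2) else
      if j.val + 1 = i.val ∧ i.val + 2 < m + 4 then -(1 / 2) else
      if i.val + 3 = m + 4 ∧ (j.val + 2 = m + 4 ∨ j.val + 1 = m + 4) then -(1 / 2) else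
      if j.val + 3 = m + 4 ∧ (i.val + 2 = m + 4 ∨ i.val + 1 = m + 4) then -(1 / 2) else 0) →
    LinearIndependent ℝ r → Module.finrank ℝ E = m + 4 → G
  E6 : ∀ (r : Fin 6 → E), (∀ i, U K (r i)) →
    (∀ i j : Fin 6, inner ℝ (r i) (r j) = ((CartanMatrix.E₆ i j : ℤ) : ℝ) / 2) →
    LinearIndependent ℝ r → Module.finrank ℝ E = 6 → G
  H3 : ∀ c0 c1 c2 : E, U K c0 → U K c1 → U K c2 → inner ℝ c0 c1 = -((1 + √5) / 4 : ℝ) →
    inner ℝ c0 c2 = (0 : ℝ) → inner ℝ c1 c2 = -(1 / 2 : ℝ) → Module.finrank ℝ E = 3 → G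

/-- type `E₇`: the subsystem `A₇` -/
theorem engE7 (c : Fin 7 → E) (hc : ∀ i, U K (c i))
    (hG : ∀ i j : Fin 7, inner ℝ (c i) (c j) = ((CartanMatrix.E₇ i j : ℤ) : ℝ) / 2)
    (hd : Module.finrank ℝ E = 7)
    (hE : Eng K G)  : G := by
  have s : ∀ i, U K (ev c (Pi.single i 1)) := fun i => by rw [ev_single]; exact hc i
  have t1 : U K (ev c ![0, 0, 1, 1, 0, 0, 0]) := U_ev_add hG (s 3) (s 2) (by decide) (by decide)
  have t2 : U K (ev c ![0, 0, 1, 1, 1, 0, 0]) := U_ev_add hG (s 4) t1 (by decide) (by decide)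
  have t3 : U K (ev c ![0, 0, 1, 1, 1, 1, 0]) := U_ev_add hG (s 5) t2 (by decide) (by decide)
  have t4 : U K (ev c ![0, 1, 1, 1, 1, 1, 0]) := U_ev_add hG (s 1) t3 (by decide) (by decide)
  have t5 : U K (ev c ![1, 1, 1, 1, 1, 1, 0]) := U_ev_add hG t4 (s 0) (by decide) (by decide)
  have t6 : U K (ev c ![1, 1, 1, 1, 1, 1, 1]) := U_ev_add hG (s 6) t5 (by decide) (by decide)
  have t7 : U K (ev c ![1, 1, 2, 2, 2, 1, 1]) := U_ev_add hG t6 t2 (by decide) (by decide)
  have t8 : U K (ev c ![1, 1, 2, 3, 2, 1, 1]) := U_ev_add hG t7 (s 3) (by decide) (by decide)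
  have t9 : U K (ev c ![2, 2, 3, 4, 3, 2, 1]) := U_ev_add hG t5 t8 (by decide) (by decide)
  have t10 := t9.neg
  rw [← ev_neg] at t10
  obtain ⟨X, hX⟩ : ∃ X : Fin 7 → (Fin 7 → ℤ), X = ![-![2, 2, 3, 4, 3, 2, 1], Pi.single 0 1,
    Pi.single 2 1, Pi.single 3 1, Pi.single 4 1, Pi.single 5 1, Pi.single 6 1] := ⟨_, rfl⟩
  have hGX : ∀ i j, inner ℝ (ev c (X i)) (ev c (X j)) = (if i = j then (1 : ℝ) else
      if i.val + 1 = j.val ∨ j.val + 1 = i.val then -(1 / 2) else 0) := by
    have h1 : ∀ i j, bf CartanMatrix.E₇ (X i) (X j) = if i = j then (2 : ℤ) else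
      if i.val + 1 = j.val ∨ j.val + 1 = i.val then -1 else 0 := by
      rw [hX]; decide +kernel
    intro i j
    rw [inner_ev hG, h1]
    push_cast
    split_ifs <;> norm_num
  refine hE.A (by norm_num) (fun i => ev c (X i)) ?_ hGX ?_ hd
  · intro i
    rw [hX]
    fin_cases i
    · exact t10
    · exact s 0
    · exact s 2
    · exact s 3
    · exact s 4
    · exact s 5
    · exact s 6
  · refine li_of_gram _ _ hGX fun x hx => ?_
    have e0 := hx 0
    have e1 := hx 1
    have e2 := hx 2
    have e3 := hx 3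
    have e4 := hx 4
    have e5 := hx 5
    have e6 := hx 6
    rw [Fin.sum_univ_seven] at e0 e1 e2 e3 e4 e5 e6
    simp at e0 e1 e2 e3 e4 e5 e6
    ext i
    fin_cases i <;> simp <;> linarith

/-- type `E₈`: the subsystem `A₈` -/
theorem engE8 (c : Fin 8 → E) (hc : ∀ i, U K (c i))
    (hG : ∀ i j : Fin 8, inner ℝ (c i) (c j) = ((CartanMatrix.E₈ i j : ℤ) : ℝ) / 2)
    (hd : Module.finrank ℝ E = 8)
    (hE : Eng K G)  : G := by
  have s : ∀ i, U K (ev c (Pi.single i 1)) := fun i => by rw [ev_single]; exact hc i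
  have t1 : U K (ev c ![0, 0, 0, 0, 1, 1, 0, 0]) := U_ev_add hG (s 5) (s 4) (by decide) (by decide)
  have t2 : U K (ev c ![0, 0, 1, 1, 0, 0, 0, 0]) := U_ev_add hG (s 2) (s 3) (by decide) (by decide)
  have t3 : U K (ev c ![0, 1, 1, 1, 0, 0, 0, 0]) := U_ev_add hG (s 1) t2 (by decide) (by decide)
  have t4 : U K (ev c ![0, 1, 1, 1, 1, 1, 0, 0]) := U_ev_add hG t1 t3 (by decide) (by decide)
  have t5 : U K (ev c ![0, 1, 1, 1, 1, 1, 1, 0]) := U_ev_add hG (s 6) t4 (by decide) (by decide)
  have t6 : U K (ev c ![0, 1, 1, 1, 1, 1, 1, 1]) := U_ev_add hG (s 7) t5 (by decide) (by decide)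
  have t7 : U K (ev c ![0, 1, 1, 2, 1, 1, 1, 1]) := U_ev_add hG (s 3) t6 (by decide) (by decide)
  have t8 : U K (ev c ![1, 1, 1, 2, 1, 1, 1, 1]) := U_ev_add hG t7 (s 0) (by decide) (by decide)
  have t9 : U K (ev c ![1, 1, 1, 2, 2, 1, 1, 1]) := U_ev_add hG (s 4) t8 (by decide) (by decide)
  have t10 : U K (ev c ![0, 0, 1, 1, 1, 1, 0, 0]) := U_ev_add hG t1 t2 (by decide) (by decide)
  have t11 : U K (ev c ![1, 1, 2, 3, 3, 2, 1, 1]) := U_ev_add hG t9 t10 (by decide) (by decide)
  have t12 : U K (ev c ![1, 2, 2, 3, 2, 2, 2, 1]) := U_ev_add hG t8 t5 (by decide) (by decide)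
  have t13 : U K (ev c ![2, 3, 4, 6, 5, 4, 3, 2]) := U_ev_add hG t11 t12 (by decide) (by decide)
  have t14 := t13.neg
  rw [← ev_neg] at t14
  obtain ⟨X, hX⟩ : ∃ X : Fin 8 → (Fin 8 → ℤ), X = ![-![2, 3, 4, 6, 5, 4, 3, 2], Pi.single 7 1,
    Pi.single 6 1, Pi.single 5 1, Pi.single 4 1, Pi.single 3 1, Pi.single 2 1,
    Pi.single 0 1] := ⟨_, rfl⟩
  have hGX : ∀ i j, inner ℝ (ev c (X i)) (ev c (X j)) = (if i = j then (1 : ℝ) else
      if i.val + 1 = j.val ∨ j.val + 1 = i.val then -(1 / 2) else 0) := by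
    have h1 : ∀ i j, bf CartanMatrix.E₈ (X i) (X j) = if i = j then (2 : ℤ) else
      if i.val + 1 = j.val ∨ j.val + 1 = i.val then -1 else 0 := by
      rw [hX]; decide +kernel
    intro i j
    rw [inner_ev hG, h1]
    push_cast
    split_ifs <;> norm_num
  refine hE.A (by norm_num) (fun i => ev c (X i)) ?_ hGX ?_ hd
  · intro i
    rw [hX]
    fin_cases i
    · exact t14
    · exact s 7
    · exact s 6
    · exact s 5
    · exact s 4
    · exact s 3
    · exact s 2
    · exact s 0
  · refine li_of_gram _ _ hGX fun x hx => ?_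
    have e0 := hx 0
    have e1 := hx 1
    have e2 := hx 2
    have e3 := hx 3
    have e4 := hx 4
    have e5 := hx 5
    have e6 := hx 6
    have e7 := hx 7
    rw [Fin.sum_univ_eight] at e0 e1 e2 e3 e4 e5 e6 e7
    simp at e0 e1 e2 e3 e4 e5 e6 e7
    ext i
    fin_cases i <;> simp <;> linarith

/-- `D₄` from four vectors -/
theorem engD4 (r0 r1 r2 r3 : E) (h0 : U K r0) (h1 : U K r1) (h2 : U K r2) (h3 : U K r3)
    (g01 : inner ℝ r0 r1 = -(1 / 2 : ℝ)) (g02 : inner ℝ r0 r2 = (0 : ℝ))
    (g03 : inner ℝ r0 r3 = (0 : ℝ)) (g12 : inner ℝ r1 r2 = -(1 / 2 : ℝ))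
    (g13 : inner ℝ r1 r3 = -(1 / 2 : ℝ)) (g23 : inner ℝ r2 r3 = (0 : ℝ))
    (hd : Module.finrank ℝ E = 4)
    (hE : Eng K G)  : G := by
  have g10 : inner ℝ r1 r0 = -(1 / 2 : ℝ) := by rw [real_inner_comm]; exact g01
  have g20 : inner ℝ r2 r0 = (0 : ℝ) := by rw [real_inner_comm]; exact g02
  have g30 : inner ℝ r3 r0 = (0 : ℝ) := by rw [real_inner_comm]; exact g03
  have g21 : inner ℝ r2 r1 = -(1 / 2 : ℝ) := by rw [real_inner_comm]; exact g12
  have g31 : inner ℝ r3 r1 = -(1 / 2 : ℝ) := by rw [real_inner_comm]; exact g13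
  have g32 : inner ℝ r3 r2 = (0 : ℝ) := by rw [real_inner_comm]; exact g23
  have hG : ∀ i j : Fin 4, inner ℝ (![r0, r1, r2, r3] i) (![r0, r1, r2, r3] j) =
      (!![1, -(1 / 2), 0, 0; -(1 / 2), 1, -(1 / 2), -(1 / 2); 0, -(1 / 2), 1, 0;
        0, -(1 / 2), 0, (1 : ℝ)] : Matrix (Fin 4) (Fin 4) ℝ) i j := by
    intro i j
    fin_cases i <;> fin_cases j
    · exact h0.unit
    · exact g01
    · exact g02
    · exact g03
    · exact g10
    · exact h1.unit
    · exact g12
    · exact g13
    · exact g20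
    · exact g21
    · exact h2.unit
    · exact g23
    · exact g30
    · exact g31
    · exact g32
    · exact h3.unit
  refine hE.D (m := 0) ![r0, r1, r2, r3] ?_ ?_ ?_ hd
  · intro i
    fin_cases i
    · exact h0
    · exact h1
    · exact h2
    · exact h3
  · intro i j
    rw [hG]
    fin_cases i <;> fin_cases j <;> simp
  · refine li_of_gram _ _ hG fun x hx => ?_
    have e0 := hx 0
    have e1 := hx 1
    have e2 := hx 2
    have e3 := hx 3
    rw [Fin.sum_univ_four] at e0 e1 e2 e3
    simp at e0 e1 e2 e3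
    ext i
    fin_cases i <;> simp <;> linarith

/-- type `F₄` -/
theorem engF4 (c0 c1 c2 c3 : E) (h0 : U K c0) (h1 : U K c1) (h2 : U K c2) (h3 : U K c3)
    (g01 : inner ℝ c0 c1 = -(1 / 2 : ℝ)) (g02 : inner ℝ c0 c2 = (0 : ℝ))
    (g03 : inner ℝ c0 c3 = (0 : ℝ)) (g12 : inner ℝ c1 c2 = -(√2 / 2 : ℝ))
    (g13 : inner ℝ c1 c3 = (0 : ℝ)) (g23 : inner ℝ c2 c3 = -(1 / 2 : ℝ))
    (hd : Module.finrank ℝ E = 4)
    (hE : Eng K G)  : G := by
  have g10 : inner ℝ c1 c0 = -(1 / 2 : ℝ) := by rw [real_inner_comm]; exact g01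
  have g20 : inner ℝ c2 c0 = (0 : ℝ) := by rw [real_inner_comm]; exact g02
  have g30 : inner ℝ c3 c0 = (0 : ℝ) := by rw [real_inner_comm]; exact g03
  have g21 : inner ℝ c2 c1 = -(√2 / 2 : ℝ) := by rw [real_inner_comm]; exact g12
  have g31 : inner ℝ c3 c1 = (0 : ℝ) := by rw [real_inner_comm]; exact g13
  have g32 : inner ℝ c3 c2 = -(1 / 2 : ℝ) := by rw [real_inner_comm]; exact g23
  have hs := sqrt2_mul
  have t1 : U K (c1 + √2 • c2) := by
    have := h2.refl h1
    rw [g21] at this
    convert this using 1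
    module
  have t2 : U K (c1 + √2 • c2 + √2 • c3) := by
    have := h3.refl t1
    rw [inner_add_right, inner_smul_right, g31, g32] at this
    convert this using 1
    module
  refine engD4 c1 c0 (c1 + √2 • c2) (c1 + √2 • c2 + √2 • c3) h1 h0 t1 t2 g10 ?_ ?_ ?_ ?_ ?_
    hd hE <;>
  · simp only [inner_add_left, inner_add_right, inner_smul_left, inner_smul_right,
        RCLike.conj_to_real,
        h0.unit, h1.unit, h2.unit, h3.unit, g01, g02, g03, g12, g13, g23, g10, g20, g30, g21, g31,
        g32]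
    nlinarith

/-- type `H₄` -/
theorem engH4 (c0 c1 c2 c3 : E) (h0 : U K c0) (h1 : U K c1) (h2 : U K c2) (h3 : U K c3) {τ : ℝ}
    (hτ : τ ^ 2 = τ + 1)
    (g01 : inner ℝ c0 c1 = -(1 / 2 : ℝ)) (g02 : inner ℝ c0 c2 = (0 : ℝ))
    (g03 : inner ℝ c0 c3 = (0 : ℝ)) (g12 : inner ℝ c1 c2 = -(1 / 2 : ℝ))
    (g13 : inner ℝ c1 c3 = (0 : ℝ)) (g23 : inner ℝ c2 c3 = -(τ / 2 : ℝ))
    (hd : Module.finrank ℝ E = 4)
    (hE : Eng K G)  : G := by
  have g10 : inner ℝ c1 c0 = -(1 / 2 : ℝ) := by rw [real_inner_comm]; exact g01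
  have g20 : inner ℝ c2 c0 = (0 : ℝ) := by rw [real_inner_comm]; exact g02
  have g30 : inner ℝ c3 c0 = (0 : ℝ) := by rw [real_inner_comm]; exact g03
  have g21 : inner ℝ c2 c1 = -(1 / 2 : ℝ) := by rw [real_inner_comm]; exact g12
  have g31 : inner ℝ c3 c1 = (0 : ℝ) := by rw [real_inner_comm]; exact g13
  have g32 : inner ℝ c3 c2 = -(τ / 2 : ℝ) := by rw [real_inner_comm]; exact g23
  have hτ3 : τ ^ 3 = 2 * τ + 1 := by linear_combination (τ + 1) * hτ
  have hτ4 : τ ^ 4 = 3 * τ + 2 := by linear_combination (τ ^ 2 + τ + 2) * hτ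
  have u1 : U K (c2 + τ • c3) := by
    have := h3.refl h2
    rw [g32] at this
    convert this using 1
    module
  have v1 : U K (τ • c2 + τ • c3) := by
    have := h2.refl u1
    rw [inner_add_right, inner_smul_right, h2.unit, g23] at this
    convert this using 1
    match_scalars <;> nlinarith
  have v2 : U K (τ • c1 + τ • c2 + τ • c3) := by
    have := h1.refl v1
    rw [inner_add_right, inner_smul_right, inner_smul_right, g12, g13] at this
    convert this using 1
    module
  have w1 : U K (c1 + c2) := h1.add h2 g12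
  have w2 : U K (c1 + c2 + τ • c3) := by
    have := h3.refl w1
    rw [inner_add_right, g31, g32] at this
    convert this using 1
    module
  have w3 : U K (c1 + (1 + τ) • c2 + τ • c3) := by
    have := h2.refl w2
    rw [inner_add_right, inner_add_right, inner_smul_right, g21, h2.unit, g23] at this
    convert this using 1
    match_scalars <;> nlinarith
  have z1 : U K (τ • c2 + c3) := by
    have := h2.refl h3
    rw [g23] at this
    convert this using 1
    module
  have z2 : U K (τ • c1 + τ • c2 + c3) := by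
    have := h1.refl z1
    rw [inner_add_right, inner_smul_right, g12, g13] at this
    convert this using 1
    module
  have z3 : U K (τ • c0 + τ • c1 + τ • c2 + c3) := by
    have := h0.refl z2
    rw [inner_add_right, inner_add_right, inner_smul_right, inner_smul_right, g01, g02, g03] at this
    convert this using 1
    module
  refine engD4 (c2 + τ • c3) (τ • c0 + τ • c1 + τ • c2 + c3) (c1 + (1 + τ) • c2 + τ • c3)
    (τ • c1 + τ • c2 + τ • c3) u1 z3 w3 v2 ?_ ?_ ?_ ?_ ?_ ?_ hd hE <;>
  · simp only [inner_add_left, inner_add_right, inner_smul_left, inner_smul_right,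
        RCLike.conj_to_real,
        h0.unit, h1.unit, h2.unit, h3.unit, g01, g02, g03, g12, g13, g23, g10, g20, g30, g21, g31,
        g32]
    nlinarith [hτ, hτ3, hτ4]

variable {ι : Type*} [Fintype ι] [DecidableEq ι] {b : ι → E}

/-- type `A` -/
theorem fin_A (hb : Sys b) (hU : ∀ i, U K (b i)) (hd : Module.finrank ℝ E = Fintype.card ι)
    {f : ℕ → ι} {k : ℕ} (h : IsP b f k (fun _ => 1 / 2)) (hS : Finset.univ = nodes f k)
    (hk : 3 ≤ k) (hE : Eng K G)  : G := by
  have hcard : Fintype.card ι = k := by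
    rw [← Finset.card_univ, hS, nodes, Finset.card_image_of_injOn, Finset.card_range]
    intro i hi j hj hij
    exact h.inj i j (by simpa using hi) (by simpa using hj) hij
  refine hE.A hk (fun i : Fin k => b (f i.val)) (fun i => hU _) ?_ ?_ (hd.trans hcard)
  · intro i j
    rw [gramP hb h i.isLt j.isLt]
    simp only [Fin.ext_iff]
    split_ifs <;> first | rfl | omega
  · exact hb.li.comp _ fun i j hij => Fin.ext (h.inj _ _ i.isLt j.isLt hij)

/-- type `D` -/
theorem fin_D (hb : Sys b) (hU : ∀ i, U K (b i)) (hd : Module.finrank ℝ E = Fintype.card ι)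
    {f : ℕ → ι} {m : ℕ} {e : ι} (h : IsT b f (m + 3) e (m + 1))
    (hS : Finset.univ = insert e (nodes f (m + 3)))
    (hE : Eng K G)  : G := by
  have hcard : Fintype.card ι = m + 4 := by
    rw [← Finset.card_univ, hS, Finset.card_insert_of_notMem h.ne, nodes,
      Finset.card_image_of_injOn, Finset.card_range]
    intro i hi j hj hij
    exact h.path.inj i j (by simpa using hi) (by simpa using hj) hij
  obtain ⟨c, hc⟩ : ∃ c : Fin (m + 4) → ι, c = fun i : Fin (m + 4) => if i.val < m + 3 then f i.val else e :=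
    ⟨_, rfl⟩
  have hc1 : ∀ i : Fin (m + 4), i.val < m + 3 → c i = f i.val := by
    intro i hi; rw [hc]; exact if_pos hi
  have hc2 : ∀ i : Fin (m + 4), ¬ i.val < m + 3 → c i = e := by
    intro i hi; rw [hc]; exact if_neg hi
  refine hE.D (m := m) (fun i => b (c i)) (fun i => hU _) ?_ ?_ (hd.trans hcard)
  · intro i j
    by_cases hi : i.val < m + 3 <;> by_cases hj : j.val < m + 3
    · rw [hc1 i hi, hc1 j hj, gramP hb h.path hi hj]
      simp only [Fin.ext_iff]
      split_ifs <;> first | rfl | omega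
    · rw [hc1 i hi, hc2 j hj, real_inner_comm]
      have hjv : j.val = m + 3 := by omega
      by_cases h1 : i.val = m + 1
      · rw [h1, h.adj]
        simp only [Fin.ext_iff, h1, hjv, true_and, and_true, true_or, or_true]
        split_ifs <;> first | rfl | omega
      · rw [h.non _ hi h1]
        simp only [Fin.ext_iff, hjv, true_and, and_true, true_or, or_true]
        split_ifs <;> first | rfl | omega
    · rw [hc2 i hi, hc1 j hj]
      have hjv : i.val = m + 3 := by omega
      by_cases h1 : j.val = m + 1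
      · rw [h1, h.adj]
        simp only [Fin.ext_iff, h1, hjv, true_and, and_true, true_or, or_true]
        split_ifs <;> first | rfl | omega
      · rw [h.non _ hj h1]
        simp only [Fin.ext_iff, hjv, true_and, and_true, true_or, or_true]
        split_ifs <;> first | rfl | omega
    · have hij : i = j := Fin.ext (by omega)
      rw [hc2 i hi, hc2 j hj, hb.unit, if_pos hij]
  · refine hb.li.comp _ fun i j hij => ?_
    by_cases hi : i.val < m + 3 <;> by_cases hj : j.val < m + 3
    · rw [hc1 i hi, hc1 j hj] at hij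
      exact Fin.ext (h.path.inj _ _ hi hj hij)
    · rw [hc1 i hi, hc2 j hj] at hij
      exact absurd (hij ▸ f_mem hi) h.ne
    · rw [hc2 i hi, hc1 j hj] at hij
      exact absurd (hij ▸ f_mem hj) h.ne
    · exact Fin.ext (by omega)

/-- type `B`: the subsystem `D` -/
theorem fin_B (hb : Sys b) (hU : ∀ i, U K (b i)) (hd : Module.finrank ℝ E = Fintype.card ι)
    {f : ℕ → ι} {m : ℕ}
    (h : IsP b f (m + 4) (fun i => if i = m + 2 then √2 / 2 else 1 / 2))
    (hS : Finset.univ = nodes f (m + 4))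
    (hE : Eng K G)  : G := by
  have hcard := card_path h hS
  have hs := sqrt2_mul
  haveI : Nonempty ι := ⟨f 0⟩
  obtain ⟨la, hla⟩ : ∃ la : E, la = b (f (m + 2)) + √2 • b (f (m + 3)) := ⟨_, rfl⟩
  have gg : inner ℝ (b (f (m + 3))) (b (f (m + 2))) = -(√2 / 2 : ℝ) := by
    rw [gramP hb h (by omega) (by omega), if_neg (by omega), if_neg (by omega), if_pos rfl,
      if_pos rfl]
  have gg' : inner ℝ (b (f (m + 2))) (b (f (m + 3))) = -(√2 / 2 : ℝ) := by
    rw [real_inner_comm]; exact gg
  have hUla : U K la := by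
    have := (hU (f (m + 3))).refl (hU (f (m + 2)))
    rw [gg] at this
    rw [hla]
    convert this using 1
    module
  obtain ⟨r, hr⟩ : ∃ r : Fin (m + 4) → E, r = fun i : Fin (m + 4) => if i.val < m + 3 then b (f i.val) else la :=
    ⟨_, rfl⟩
  have hr1 : ∀ i : Fin (m + 4), i.val < m + 3 → r i = b (f i.val) := by
    intro i hi; rw [hr]; exact if_pos hi
  have hr2 : ∀ i : Fin (m + 4), ¬ i.val < m + 3 → r i = la := by
    intro i hi; rw [hr]; exact if_neg hi
  have hgl : ∀ i, i < m + 3 → inner ℝ (b (f i)) la = if i = m + 1 then -(1 / 2 : ℝ) else 0 := by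
    intro i hi
    rw [hla, inner_add_right, inner_smul_right, gramP hb h (by omega) (by omega),
      gramP hb h (by omega) (by omega)]
    by_cases h1 : i = m + 2
    · subst h1
      rw [if_pos rfl, if_neg (by omega), if_pos (by omega), if_pos rfl, if_neg (by omega)]
      nlinarith
    · by_cases h2 : i = m + 1
      · subst h2
        rw [if_neg (by omega), if_pos (by omega), if_neg (by omega), if_neg (by omega),
          if_neg (by omega), if_neg (by omega), if_pos rfl]
        ring
      · rw [if_neg (by omega), if_neg (by omega), if_neg (by omega), if_neg (by omega),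
          if_neg (by omega), if_neg (by omega), if_neg h2]
        ring
  refine hE.D (m := m) r ?_ ?_ ?_ (hd.trans hcard)
  · intro i
    by_cases hi : i.val < m + 3
    · rw [hr1 i hi]; exact hU _
    · rw [hr2 i hi]; exact hUla
  · intro i j
    by_cases hi : i.val < m + 3 <;> by_cases hj : j.val < m + 3
    · rw [hr1 i hi, hr1 j hj, gramP hb h (by omega) (by omega)]
      simp only [Fin.ext_iff]
      split_ifs <;> first | rfl | omega
    · rw [hr1 i hi, hr2 j hj, hgl _ hi]
      have hjv : j.val = m + 3 := by omega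
      simp only [Fin.ext_iff, hjv, true_and, and_true, true_or, or_true]
      split_ifs <;> first | rfl | omega
    · rw [hr2 i hi, hr1 j hj, real_inner_comm, hgl _ hj]
      have hjv : i.val = m + 3 := by omega
      simp only [Fin.ext_iff, hjv, true_and, and_true, true_or, or_true]
      split_ifs <;> first | rfl | omega
    · have hij : i = j := Fin.ext (by omega)
      rw [hr2 i hi, hr2 j hj, hUla.unit, if_pos hij]
  · refine linearIndependent_of_top_le_span_of_card_eq_finrank ?_ ?_
    · refine (span_top hb hd).trans ?_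
      rw [Submodule.span_le]
      rintro _ ⟨x, rfl⟩
      have hx : x ∈ nodes f (m + 4) := hS ▸ Finset.mem_univ x
      obtain ⟨i, hi, rfl⟩ := mem_nodes.1 hx
      have key : ∀ i, i < m + 3 → b (f i) ∈ Submodule.span ℝ (Set.range r) := by
        intro i hi
        have := hr1 ⟨i, by omega⟩ hi
        simp only at this
        rw [← this]
        exact Submodule.subset_span ⟨_, rfl⟩
      by_cases h1 : i < m + 3
      · exact key i h1
      · obtain rfl : i = m + 3 := by omega
        have h2 := hr2 ⟨m + 3, by omega⟩ (by simp)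
        have h3 : b (f (m + 3)) = (√2 / 2) • (la - b (f (m + 2))) := by
          rw [hla, add_sub_cancel_left, smul_smul, show √2 / 2 * √2 = (1 : ℝ) by nlinarith,
            one_smul]
        rw [h3]
        refine Submodule.smul_mem _ _ (Submodule.sub_mem _ ?_ (key _ (by omega)))
        rw [← h2]
        exact Submodule.subset_span ⟨_, rfl⟩
    · rw [Fintype.card_fin, hd, hcard]

/-- the types `E` -/
theorem fin_E (hb : Sys b) (hU : ∀ i, U K (b i)) (hd : Module.finrank ℝ E = Fintype.card ι)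
    {f : ℕ → ι} {k : ℕ} {e : ι} (h : IsT b f k e 2) (hk5 : 5 ≤ k)
    (hS : Finset.univ = insert e (nodes f k))
    (hE : Eng K G)  : G := by
  have hcard : Fintype.card ι = k + 1 := by
    rw [← Finset.card_univ, hS, Finset.card_insert_of_notMem h.ne, nodes,
      Finset.card_image_of_injOn, Finset.card_range]
    intro i hi j hj hij
    exact h.path.inj i j (by simpa using hi) (by simpa using hj) hij
  have hk8 : k < 8 := by
    by_contra hcon
    exact badE8 hb h (by omega)
  obtain ⟨h1, h2⟩ := gramT hb h (s := 0) (m := k) (j' := 2) (by omega) rfl (by omega) rfl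
  simp only [zero_add] at h1 h2
  obtain ⟨c, hc⟩ : ∃ c : Fin (k + 1) → ι, c = fun i : Fin (k + 1) => if i.val < k then f i.val else e := ⟨_, rfl⟩
  rw [← hc] at h1
  have h2' : ∀ i i', inner ℝ (b (c i)) (b (c i')) = ((tm k 2 i i' : ℤ) : ℝ) / 2 := by
    rw [hc]; exact h2
  clear h2 hc
  have hk : k = 5 ∨ k = 6 ∨ k = 7 := by omega
  rcases hk with rfl | rfl | rfl
  · obtain ⟨s, hs⟩ : ∃ s : Fin 6 → Fin 6, s = ![0, 5, 1, 2, 3, 4] := ⟨_, rfl⟩
    refine hE.E6 (fun i => b (c (s i))) (fun i => hU _) ?_ ?_ (hd.trans hcard)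
    · intro i j
      rw [h2']
      have : ∀ i j : Fin 6, tm 5 2 (s i) (s j) = CartanMatrix.E₆ i j := by
        rw [hs]; decide +kernel
      rw [this]
    · refine hb.li.comp _ (h1.comp ?_)
      rw [hs]; decide
  · obtain ⟨s, hs⟩ : ∃ s : Fin 7 → Fin 7, s = ![0, 6, 1, 2, 3, 4, 5] := ⟨_, rfl⟩
    refine engE7 (fun i => b (c (s i))) (fun i => hU _) ?_ (hd.trans hcard) hE
    intro i j
    rw [h2']
    have : ∀ i j : Fin 7, tm 6 2 (s i) (s j) = CartanMatrix.E₇ i j := by
      rw [hs]; decide +kernel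
    rw [this]
  · obtain ⟨s, hs⟩ : ∃ s : Fin 8 → Fin 8, s = ![0, 7, 1, 2, 3, 4, 5, 6] := ⟨_, rfl⟩
    refine engE8 (fun i => b (c (s i))) (fun i => hU _) ?_ (hd.trans hcard) hE
    intro i j
    rw [h2']
    have : ∀ i j : Fin 8, tm 7 2 (s i) (s j) = CartanMatrix.E₈ i j := by
      rw [hs]; decide +kernel
    rw [this]

/-- all trees with a branch node -/
theorem fin_T (hb : Sys b) (hU : ∀ i, U K (b i)) (hd : Module.finrank ℝ E = Fintype.card ι)
    (hT : TyT b (Finset.univ : Finset ι))
    (hE : Eng K G)  : G := by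
  obtain ⟨f, k, e, j, h, hS⟩ := hT
  have hcard : Fintype.card ι = k + 1 := by
    rw [← Finset.card_univ, hS, Finset.card_insert_of_notMem h.ne, nodes,
      Finset.card_image_of_injOn, Finset.card_range]
    intro i hi j hj hij
    exact h.path.inj i j (by simpa using hi) (by simpa using hj) hij
  -- without loss of generality the first arm is not longer
  have main : ∀ (f : ℕ → ι) (j : ℕ), IsT b f k e j → Finset.univ = insert e (nodes f k) →
      2 * j + 1 ≤ k → G := by
    intro f j h hS hjk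
    have hj1 := h.j1
    have hj2 := h.j2
    rcases (show j = 1 ∨ j = 2 ∨ 3 ≤ j by omega) with rfl | rfl | h3
    · -- type `D`
      obtain ⟨m, rfl⟩ : ∃ m, k = m + 3 := ⟨k - 3, by omega⟩
      have h4 := h.rev
      rw [show m + 3 - 1 - 1 = m + 1 by omega] at h4
      refine fin_D hb hU hd h4 ?_ hE
      rw [nodes_rev]
      exact hS
    · exact fin_E hb hU hd h (by omega) hS hE
    · exfalso
      obtain ⟨i, rfl⟩ : ∃ i, j = i + 3 := ⟨j - 3, by omega⟩
      exact badE7 hb h (by omega)
  have hj2 := h.j2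
  rcases Nat.lt_or_ge k (2 * j + 1) with h1 | h1
  · refine main _ _ h.rev ?_ (by omega)
    rw [nodes_rev]
    exact hS
  · exact main f j h hS h1

/-- type `B₃`: the subsystem `A₃` -/
theorem engB3 (c0 c1 c2 : E) (h0 : U K c0) (h1 : U K c1) (h2 : U K c2)
    (g01 : inner ℝ c0 c1 = -(√2 / 2 : ℝ)) (g02 : inner ℝ c0 c2 = (0 : ℝ))
    (g12 : inner ℝ c1 c2 = -(1 / 2 : ℝ)) (hd : Module.finrank ℝ E = 3) (hE : Eng K G) : G := by
  have g10 : inner ℝ c1 c0 = -(√2 / 2 : ℝ) := by rw [real_inner_comm]; exact g01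
  have g20 : inner ℝ c2 c0 = (0 : ℝ) := by rw [real_inner_comm]; exact g02
  have g21 : inner ℝ c2 c1 = -(1 / 2 : ℝ) := by rw [real_inner_comm]; exact g12
  have hs := sqrt2_mul
  have t1 : U K (c1 + √2 • c0) := by
    have := h0.refl h1
    rw [g01] at this
    convert this using 1
    module
  have hG : ∀ i j : Fin 3, inner ℝ (![c1, c2, c1 + √2 • c0] i) (![c1, c2, c1 + √2 • c0] j) =
      (!![1, -(1 / 2), 0; -(1 / 2), 1, -(1 / 2); 0, -(1 / 2), (1 : ℝ)] :
        Matrix (Fin 3) (Fin 3) ℝ) i j := by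
    intro i j
    fin_cases i <;> fin_cases j
    · exact h1.unit
    · exact g12
    · show inner ℝ c1 (c1 + √2 • c0) = (0 : ℝ)
      rw [inner_add_right, inner_smul_right, h1.unit, g10]
      nlinarith
    · exact g21
    · exact h2.unit
    · show inner ℝ c2 (c1 + √2 • c0) = -(1 / 2 : ℝ)
      rw [inner_add_right, inner_smul_right, g21, g20]
      ring
    · show inner ℝ (c1 + √2 • c0) c1 = (0 : ℝ)
      rw [real_inner_comm, inner_add_right, inner_smul_right, h1.unit, g10]
      nlinarith
    · show inner ℝ (c1 + √2 • c0) c2 = -(1 / 2 : ℝ)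
      rw [real_inner_comm, inner_add_right, inner_smul_right, g21, g20]
      ring
    · exact t1.unit
  refine hE.A le_rfl ![c1, c2, c1 + √2 • c0] ?_ ?_ ?_ hd
  · intro i
    fin_cases i
    · exact h1
    · exact h2
    · exact t1
  · intro i j
    rw [hG]
    fin_cases i <;> fin_cases j <;> simp
  · refine li_of_gram _ _ hG fun x hx => ?_
    have e0 := hx 0
    have e1 := hx 1
    have e2 := hx 2
    rw [Fin.sum_univ_three] at e0 e1 e2
    simp at e0 e1 e2
    ext i
    fin_cases i <;> simp <;> linarith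

/-- paths with a special edge -/
theorem fin_P (hb : Sys b) (hf : Fine b) (hU : ∀ i, U K (b i))
    (hd : Module.finrank ℝ E = Fintype.card ι) (h4 : 3 ≤ Fintype.card ι)
    (hT : TyB b (Finset.univ : Finset ι))
    (hE : Eng K G)  : G := by
  obtain ⟨f, k, j, w, h, hj, hw, hS⟩ := hT
  have hcard := card_path h hS
  have hk4 : 3 ≤ k := by omega
  have main : ∀ (f : ℕ → ι) (j : ℕ), IsP b f k (fun i => if i = j then w else 1 / 2) →
      Finset.univ = nodes f k → 2 * j + 2 ≤ k → G := by
    intro f j h hS hjk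
    have a1 := h.adj j (by omega)
    simp only [if_true] at a1
    have hne : f j ≠ f (j + 1) := h.ne (by omega) (by omega) (by omega)
    have h5 : (0 : ℝ) ≤ √5 := Real.sqrt_nonneg 5
    have h5' : √5 * √5 = (5 : ℝ) := Real.mul_self_sqrt (by norm_num)
    rcases hf _ _ hne (by rw [a1]; linarith) with h1 | h1 | h1
    · -- label 4
      have hw2 : w = √2 / 2 := by rw [a1] at h1; linarith
      subst hw2
      rcases Nat.eq_zero_or_pos j with h2 | h2
      · subst h2
        rcases Nat.lt_or_ge k 4 with hk | hk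
        · obtain rfl : k = 3 := by omega
          have g : ∀ i j : ℕ, i < 3 → j < 3 → inner ℝ (b (f i)) (b (f j)) =
              if i = j then (1 : ℝ) else if i + 1 = j then - (if i = 0 then √2 / 2 else 1 / 2)
              else if j + 1 = i then - (if j = 0 then √2 / 2 else 1 / 2) else 0 :=
            fun i j hi hj => gramP hb h hi hj
          refine engB3 (b (f 0)) (b (f 1)) (b (f 2)) (hU _) (hU _) (hU _)
            ?_ ?_ ?_ (by rw [hd, hcard]) hE
          · rw [g 0 1 (by norm_num) (by norm_num)]; norm_num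
          · rw [g 0 2 (by norm_num) (by norm_num)]; norm_num
          · rw [g 1 2 (by norm_num) (by norm_num)]; norm_num
        obtain ⟨m, rfl⟩ : ∃ m, k = m + 4 := ⟨k - 4, by omega⟩
        refine fin_B hb hU hd (f := fun i => f (m + 4 - 1 - i)) (h.rev.congr ?_) ?_ hE
        · intro i hi
          by_cases h3 : m + 4 - 2 - i = 0
          · rw [if_pos h3, if_pos (by omega)]
          · rw [if_neg h3, if_neg (by omega)]
        · rw [nodes_rev]
          exact hS
      · obtain ⟨i, rfl⟩ : ∃ i, j = i + 1 := ⟨j - 1, by omega⟩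
        by_cases h3 : i + 4 < k
        · exact (badF4 hb h h3).elim
        · obtain ⟨rfl, rfl⟩ : i = 0 ∧ k = 4 := by omega
          have g : ∀ i j : ℕ, i < 4 → j < 4 → inner ℝ (b (f i)) (b (f j)) =
              if i = j then (1 : ℝ) else if i + 1 = j then - (if i = 0 + 1 then √2 / 2 else 1 / 2)
              else if j + 1 = i then - (if j = 0 + 1 then √2 / 2 else 1 / 2) else 0 :=
            fun i j hi hj => gramP hb h hi hj
          refine engF4 (b (f 0)) (b (f 1)) (b (f 2)) (b (f 3)) (hU _) (hU _) (hU _) (hU _)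
            ?_ ?_ ?_ ?_ ?_ ?_ (by rw [hd, hcard]) hE
          · rw [g 0 1 (by norm_num) (by norm_num)]; norm_num
          · rw [g 0 2 (by norm_num) (by norm_num)]; norm_num
          · rw [g 0 3 (by norm_num) (by norm_num)]; norm_num
          · rw [g 1 2 (by norm_num) (by norm_num)]; norm_num
          · rw [g 1 3 (by norm_num) (by norm_num)]; norm_num
          · rw [g 2 3 (by norm_num) (by norm_num)]; norm_num
    · -- label 5
      have hw2 : w = (1 + √5) / 4 := by rw [a1] at h1; linarith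
      have hw3 : 4 / 5 ≤ w := by
        rw [hw2]
        nlinarith
      rcases Nat.eq_zero_or_pos j with h2 | h2
      · subst h2
        by_cases h3 : 4 < k
        · exact (bad41 hb h hw3 h3).elim
        rcases Nat.lt_or_ge k 4 with hk | hk
        · obtain rfl : k = 3 := by omega
          have g : ∀ i j : ℕ, i < 3 → j < 3 → inner ℝ (b (f i)) (b (f j)) =
              if i = j then (1 : ℝ) else if i + 1 = j then - (if i = 0 then w else 1 / 2)
              else if j + 1 = i then - (if j = 0 then w else 1 / 2) else 0 :=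
            fun i j hi hj => gramP hb h hi hj
          refine hE.H3 (b (f 0)) (b (f 1)) (b (f 2)) (hU _) (hU _) (hU _)
            ?_ ?_ ?_ (by rw [hd, hcard])
          · rw [g 0 1 (by norm_num) (by norm_num)]; norm_num [hw2]
          · rw [g 0 2 (by norm_num) (by norm_num)]; norm_num
          · rw [g 1 2 (by norm_num) (by norm_num)]; norm_num
        · obtain rfl : k = 4 := by omega
          have g : ∀ i j : ℕ, i < 4 → j < 4 → inner ℝ (b (f i)) (b (f j)) =
              if i = j then (1 : ℝ) else if i + 1 = j then - (if i = 0 then w else 1 / 2)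
              else if j + 1 = i then - (if j = 0 then w else 1 / 2) else 0 :=
            fun i j hi hj => gramP hb h hi hj
          refine engH4 (b (f 3)) (b (f 2)) (b (f 1)) (b (f 0)) (hU _) (hU _) (hU _) (hU _)
            (τ := (1 + √5) / 2) (by nlinarith)
            ?_ ?_ ?_ ?_ ?_ ?_ (by rw [hd, hcard]) hE
          · rw [g 3 2 (by norm_num) (by norm_num)]; norm_num
          · rw [g 3 1 (by norm_num) (by norm_num)]; norm_num
          · rw [g 3 0 (by norm_num) (by norm_num)]; norm_num
          · rw [g 2 1 (by norm_num) (by norm_num)]; norm_num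
          · rw [g 2 0 (by norm_num) (by norm_num)]; norm_num
          · rw [g 1 0 (by norm_num) (by norm_num)]; norm_num [hw2]; ring
      · obtain ⟨i, rfl⟩ : ∃ i, j = i + 1 := ⟨j - 1, by omega⟩
        exact (bad22 hb h (by linarith) (by omega)).elim
    · exact (badG2 hb h (by rw [a1] at h1; linarith) (by omega)).elim
  rcases Nat.lt_or_ge k (2 * j + 2) with h1 | h1
  · refine main (fun i => f (k - 1 - i)) (k - 2 - j) (h.rev.congr ?_) ?_ (by omega)
    · intro i hi
      by_cases h3 : k - 2 - i = j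
      · rw [if_pos h3, if_pos (by omega)]
      · rw [if_neg h3, if_neg (by omega)]
    · rw [nodes_rev]
      exact hS
  · exact main f j h hS h1

/-- every connected simple system of rank at least four -/
theorem cov_sys (hb : Sys b) (hf : Fine b) (hc : Conn b (Finset.univ : Finset ι))
    (hU : ∀ i, U K (b i)) (hd : Module.finrank ℝ E = Fintype.card ι) (h4 : 3 ≤ Fintype.card ι)
    (hE : Eng K G)  : G := by
  rcases shape hb _ _ rfl hc with h | h | h
  · obtain ⟨f, k, hP, hS⟩ := h
    have hcard := card_path hP hS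
    exact fin_A hb hU hd hP hS (by omega) hE
  · exact fin_P hb hf hU hd h4 h hE
  · exact fin_T hb hU hd h hE


end Pool.Agent.W396.Il.Gen
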