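import Pool.Agent.W396.Il.Cox3

set_option autoImplicit false

/-!
Type `H₃`: six directions suffice.
-/

namespace Pool.Agent.W396.Il.H3

open Set

/-- the inequality at a coordinate of largest absolute value -/
theorem key {φ x1 x2 x3 u1 u2 u3 : ℝ} (hφ : 1 < φ) (hx1 : |x1| ≤ x3)
    (hx2 : |x2| ≤ x3) (hne : |x1| < x3 ∨ |x2| < x3)
    (h : ∀ s t : ℝ, (s = 1 ∨ s = -1) → (t = 1 ∨ t = -1) →
      0 ≤ (s * (φ - 1) * x1 + t * x2 + φ * x3) * (s * (φ - 1) * u1 + t * u2 + φ * u3)) :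
    (φ - 1) * |u1| + |u2| ≤ φ * u3 := by
  obtain ⟨s, hs, hs'⟩ : ∃ s : ℝ, (s = 1 ∨ s = -1) ∧ s * u1 = - |u1| := by
    rcases le_total 0 u1 with h1 | h1
    · exact ⟨-1, Or.inr rfl, by rw [abs_of_nonneg h1]; ring⟩
    · exact ⟨1, Or.inl rfl, by rw [abs_of_nonpos h1]; ring⟩
  obtain ⟨t, ht, ht'⟩ : ∃ t : ℝ, (t = 1 ∨ t = -1) ∧ t * u2 = - |u2| := by
    rcases le_total 0 u2 with h1 | h1
    · exact ⟨-1, Or.inr rfl, by rw [abs_of_nonneg h1]; ring⟩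
    · exact ⟨1, Or.inl rfl, by rw [abs_of_nonpos h1]; ring⟩
  have h1 := h s t hs ht
  have h2 : - |x1| ≤ s * x1 := by
    rcases hs with rfl | rfl
    · rw [one_mul]; exact neg_abs_le x1
    · linarith [le_abs_self x1]
  have h3 : - |x2| ≤ t * x2 := by
    rcases ht with rfl | rfl
    · rw [one_mul]; exact neg_abs_le x2
    · linarith [le_abs_self x2]
  have h4 : 0 < s * (φ - 1) * x1 + t * x2 + φ * x3 := by
    have h5 : (φ - 1) * (s * x1) ≥ (φ - 1) * (- |x1|) :=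
      mul_le_mul_of_nonneg_left h2 (by linarith)
    rcases hne with h6 | h6
    · have : (φ - 1) * |x1| < (φ - 1) * x3 := mul_lt_mul_of_pos_left h6 (by linarith)
      nlinarith
    · have : (φ - 1) * |x1| ≤ (φ - 1) * x3 := mul_le_mul_of_nonneg_left hx1 (by linarith)
      nlinarith
  have h5 := nonneg_of_mul_nonneg_right h1 h4
  have h6 : s * (φ - 1) * u1 = -((φ - 1) * |u1|) := by
    rw [mul_comm s, mul_assoc, hs']; ring
  linarith

/-- the inequality at a point with three equal absolute values -/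
theorem keyc {φ c σ1 σ2 σ3 u1 u2 u3 : ℝ} (hφ : 1 < φ) (hc : 0 < c)
    (h1 : σ1 = 1 ∨ σ1 = -1) (h2 : σ2 = 1 ∨ σ2 = -1) (h3 : σ3 = 1 ∨ σ3 = -1)
    (h : 0 ≤ (σ1 * (φ - 1) * (σ1 * c) + -σ2 * (σ2 * c) + σ3 * φ * (σ3 * c)) *
      (σ1 * (φ - 1) * u1 + -σ2 * u2 + σ3 * φ * u3)) :
    σ2 * u2 ≤ (φ - 1) * (σ1 * u1) + φ * (σ3 * u3) := by
  have e1 : σ1 * σ1 = 1 := by rcases h1 with rfl | rfl <;> norm_num
  have e2 : σ2 * σ2 = 1 := by rcases h2 with rfl | rfl <;> norm_num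
  have e3 : σ3 * σ3 = 1 := by rcases h3 with rfl | rfl <;> norm_num
  have h4 : σ1 * (φ - 1) * (σ1 * c) + -σ2 * (σ2 * c) + σ3 * φ * (σ3 * c) = 2 * (φ - 1) * c := by
    linear_combination (φ - 1) * c * e1 - c * e2 + φ * c * e3
  rw [h4] at h
  have h5 := nonneg_of_mul_nonneg_right h (by nlinarith)
  linarith

/-- the direction at a coordinate of largest absolute value -/
theorem dirm {φ u1 u2 u3 a : ℝ} (hφ2 : φ ^ 2 = φ + 1) (hφ : 3 / 2 < φ) (hφ' : φ < 5 / 3)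
    (ha : a = 1 ∨ a = -1)
    (h : (φ - 1) * |u1| + |u2| ≤ φ * u3) (hne : ¬ (u1 = 0 ∧ u2 = 0 ∧ u3 = 0)) :
    - u3 + a * (1 / 3) * u1 < 0 := by
  have h1 := abs_nonneg u1
  have h2 := abs_nonneg u2
  have h3 : a * u1 ≤ |u1| := by
    rcases ha with rfl | rfl
    · rw [one_mul]; exact le_abs_self u1
    · linarith [neg_abs_le u1]
  by_contra hcon
  push Not at hcon
  have h4 : u3 ≤ 1 / 3 * |u1| := by linarith
  have h5 : (φ - 1) * |u1| + |u2| ≤ φ * (1 / 3 * |u1|) := h.trans (by nlinarith)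
  have h6 : 0 ≤ (2 / 3 * φ - 1) * |u1| := mul_nonneg (by linarith) h1
  have h7 : (φ - 1) * |u1| - φ * (1 / 3 * |u1|) = (2 / 3 * φ - 1) * |u1| := by ring
  have h8 : |u2| = 0 := by linarith
  have h9 : (2 / 3 * φ - 1) * |u1| = 0 := by linarith
  have h10 : |u1| = 0 := by
    rcases mul_eq_zero.1 h9 with h | h
    · linarith
    · exact h
  rw [h8, h10] at h
  rw [h10] at h4
  refine hne ⟨abs_eq_zero.1 h10, abs_eq_zero.1 h8, ?_⟩
  have : 0 ≤ u3 := by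
    by_contra hc
    push Not at hc
    nlinarith
  linarith

/-- the direction at a point with three equal absolute values -/
theorem dirc {φ w1 w2 w3 : ℝ} (hφ : 1 < φ) (h1 : 0 ≤ w1) (h3 : 0 ≤ w3) (h2' : 0 ≤ w2)
    (h2 : w2 ≤ (φ - 1) * w1 + φ * w3) (hne : ¬ (w1 = 0 ∧ w2 = 0 ∧ w3 = 0)) :
    - w3 - 1 / 3 * w1 < 0 := by
  by_contra hcon
  push Not at hcon
  have e1 : w1 = 0 := by linarith
  have e3 : w3 = 0 := by linarith
  rw [e1, e3] at h2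
  exact hne ⟨e1, by linarith, e3⟩

/-- the reflections in the roots with the absolute values `φ⁻¹, 1, φ` -/
def R (φ x1 x2 x3 u1 u2 u3 : ℝ) : Prop := ∀ s t r : ℝ, (s = 1 ∨ s = -1) → (t = 1 ∨ t = -1) →
  (r = 1 ∨ r = -1) →
  0 ≤ (s * (φ - 1) * x1 + t * x2 + r * φ * x3) * (s * (φ - 1) * u1 + t * u2 + r * φ * u3)

theorem R.neg {φ x1 x2 x3 u1 u2 u3 : ℝ} (h : R φ x1 x2 x3 u1 u2 u3) :
    R φ (-x1) (-x2) (-x3) (-u1) (-u2) (-u3) := by
  intro s t r hs ht hr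
  have := h s t r hs ht hr
  nlinarith

theorem big {φ x1 x2 x3 : ℝ} (hφ2 : φ ^ 2 = φ + 1) (hφ : 3 / 2 < φ)
    (hφ' : φ < 5 / 3) (h1 : |x1| ≤ |x3|) (h2 : |x2| ≤ |x3|) (hne : |x1| < |x3| ∨ |x2| < |x3|) :
    (∀ a : ℝ, (a = 1 ∨ a = -1) → ∀ u1 u2 u3, R φ x1 x2 x3 u1 u2 u3 →
      ¬ (u1 = 0 ∧ u2 = 0 ∧ u3 = 0) → - u3 + a * (1 / 3) * u1 < 0) ∨
    (∀ a : ℝ, (a = 1 ∨ a = -1) → ∀ u1 u2 u3, R φ x1 x2 x3 u1 u2 u3 →
      ¬ (u1 = 0 ∧ u2 = 0 ∧ u3 = 0) → u3 + a * (1 / 3) * u1 < 0) := by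
  rcases le_total 0 x3 with h0 | h0
  · left
    rw [abs_of_nonneg h0] at h1 h2 hne
    intro a ha u1 u2 u3 hR hu
    refine dirm hφ2 hφ hφ' ha (u2 := u2) (key (by linarith) h1 h2 hne fun s t hs ht => ?_) hu
    have := hR s t 1 hs ht (Or.inl rfl)
    rwa [one_mul] at this
  · right
    rw [abs_of_nonpos h0, ← abs_neg x1] at h1
    rw [abs_of_nonpos h0, ← abs_neg x2] at h2
    rw [abs_of_nonpos h0, ← abs_neg x1, ← abs_neg x2] at hne
    intro a ha u1 u2 u3 hR hu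
    have h3 := dirm hφ2 hφ hφ' (a := -a) (by rcases ha with rfl | rfl <;> norm_num)
      (u1 := -u1) (u2 := -u2) (u3 := -u3) (key (by linarith) h1 h2 hne fun s t hs ht => by
        have := hR.neg s t 1 hs ht (Or.inl rfl)
        rwa [one_mul] at this) (by simpa using hu)
    linarith

/-- the directions -/
noncomputable def V : Fin 6 → Fin 3 → ℝ := ![![-(1 / 3), 0, -1], ![1 / 3, 0, 1], ![-1, 1 / 3, 0],
  ![1, -(1 / 3), 0], ![0, -1, 1 / 3], ![0, 1, -(1 / 3)]]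

/-- the conditions on a point and a normal vector -/
structure Cn (φ x1 x2 x3 u1 u2 u3 : ℝ) : Prop where
  r3 : R φ x1 x2 x3 u1 u2 u3
  r1 : R φ x2 x3 x1 u2 u3 u1
  r2 : R φ x3 x1 x2 u3 u1 u2
  e1 : 0 ≤ x1 * u1
  e2 : 0 ≤ x2 * u2
  e3 : 0 ≤ x3 * u3

theorem dirs {φ : ℝ} (hφ2 : φ ^ 2 = φ + 1) (hφ : 3 / 2 < φ) (hφ' : φ < 5 / 3) (x1 x2 x3 : ℝ)
    (hx : ¬ (x1 = 0 ∧ x2 = 0 ∧ x3 = 0)) : ∃ i : Fin 6, ∀ u1 u2 u3, Cn φ x1 x2 x3 u1 u2 u3 →
      ¬ (u1 = 0 ∧ u2 = 0 ∧ u3 = 0) → V i 0 * u1 + V i 1 * u2 + V i 2 * u3 < 0 := by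
  by_cases hA : |x1| = |x2| ∧ |x2| = |x3|
  · -- three equal absolute values
    obtain ⟨h12, h23⟩ := hA
    obtain ⟨c, hc⟩ : ∃ c, c = |x3| := ⟨_, rfl⟩
    have hc0 : 0 < c := by
      rcases (abs_nonneg x3).lt_or_eq with h | h
      · rw [hc]; exact h
      · rw [← h] at h23
        rw [h23] at h12
        exact absurd ⟨abs_eq_zero.1 h12, abs_eq_zero.1 h23, abs_eq_zero.1 h.symm⟩ hx
    have hsg : ∀ x : ℝ, |x| = c → ∃ σ : ℝ, (σ = 1 ∨ σ = -1) ∧ x = σ * c := by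
      intro x h
      rcases le_total 0 x with h0 | h0
      · exact ⟨1, Or.inl rfl, by rw [← h, abs_of_nonneg h0]; ring⟩
      · exact ⟨-1, Or.inr rfl, by rw [← h, abs_of_nonpos h0]; ring⟩
    obtain ⟨σ1, hs1, rfl⟩ := hsg x1 (by rw [h12, h23, hc])
    obtain ⟨σ2, hs2, rfl⟩ := hsg x2 (by rw [h23, hc])
    obtain ⟨σ3, hs3, rfl⟩ := hsg x3 hc.symm
    have hn : ∀ σ : ℝ, (σ = 1 ∨ σ = -1) → (-σ = 1 ∨ -σ = -1) := by
      rintro σ (rfl | rfl) <;> norm_num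
    have hw : ∀ u1 u2 u3, Cn φ (σ1 * c) (σ2 * c) (σ3 * c) u1 u2 u3 →
        0 ≤ σ1 * u1 ∧ 0 ≤ σ2 * u2 ∧ 0 ≤ σ3 * u3 ∧
        σ2 * u2 ≤ (φ - 1) * (σ1 * u1) + φ * (σ3 * u3) ∧
        σ3 * u3 ≤ (φ - 1) * (σ2 * u2) + φ * (σ1 * u1) ∧
        σ1 * u1 ≤ (φ - 1) * (σ3 * u3) + φ * (σ2 * u2) := by
      intro u1 u2 u3 h
      refine ⟨?_, ?_, ?_, ?_, ?_, ?_⟩
      · have := h.e1; exact nonneg_of_mul_nonneg_right (a := c) (by linarith) hc0
      · have := h.e2; exact nonneg_of_mul_nonneg_right (a := c) (by linarith) hc0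
      · have := h.e3; exact nonneg_of_mul_nonneg_right (a := c) (by linarith) hc0
      · exact keyc (by linarith) hc0 hs1 hs2 hs3 (h.r3 _ _ _ hs1 (hn _ hs2) hs3)
      · exact keyc (by linarith) hc0 hs2 hs3 hs1 (h.r1 _ _ _ hs2 (hn _ hs3) hs1)
      · exact keyc (by linarith) hc0 hs3 hs1 hs2 (h.r2 _ _ _ hs3 (hn _ hs1) hs2)
    have hu0 : ∀ u1 u2 u3 : ℝ, ¬ (u1 = 0 ∧ u2 = 0 ∧ u3 = 0) →
        ¬ (σ1 * u1 = 0 ∧ σ2 * u2 = 0 ∧ σ3 * u3 = 0) := by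
      intro u1 u2 u3 h
      rcases hs1 with rfl | rfl <;> rcases hs2 with rfl | rfl <;> rcases hs3 with rfl | rfl <;>
        simpa using h
    rcases hs1 with rfl | rfl <;> rcases hs2 with rfl | rfl <;> rcases hs3 with rfl | rfl
    · refine ⟨0, fun u1 u2 u3 h hu => ?_⟩
      obtain ⟨g1, g2, g3, g4, g5, g6⟩ := hw _ _ _ h
      have := dirc (by linarith) g1 g3 g2 g4 (hu0 _ _ _ hu)
      simp [V]; linarith
    · refine ⟨4, fun u1 u2 u3 h hu => ?_⟩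
      obtain ⟨g1, g2, g3, g4, g5, g6⟩ := hw _ _ _ h
      have := dirc (by linarith) g3 g2 g1 g6 (by
        have := hu0 _ _ _ hu
        tauto)
      simp [V]; linarith
    · refine ⟨0, fun u1 u2 u3 h hu => ?_⟩
      obtain ⟨g1, g2, g3, g4, g5, g6⟩ := hw _ _ _ h
      have := dirc (by linarith) g1 g3 g2 g4 (hu0 _ _ _ hu)
      simp [V]; linarith
    · refine ⟨2, fun u1 u2 u3 h hu => ?_⟩
      obtain ⟨g1, g2, g3, g4, g5, g6⟩ := hw _ _ _ h
      have := dirc (by linarith) g2 g1 g3 g5 (by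
        have := hu0 _ _ _ hu
        tauto)
      simp [V]; linarith
    · refine ⟨3, fun u1 u2 u3 h hu => ?_⟩
      obtain ⟨g1, g2, g3, g4, g5, g6⟩ := hw _ _ _ h
      have := dirc (by linarith) g2 g1 g3 g5 (by
        have := hu0 _ _ _ hu
        tauto)
      simp [V]; linarith
    · refine ⟨1, fun u1 u2 u3 h hu => ?_⟩
      obtain ⟨g1, g2, g3, g4, g5, g6⟩ := hw _ _ _ h
      have := dirc (by linarith) g1 g3 g2 g4 (hu0 _ _ _ hu)
      simp [V]; linarith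
    · refine ⟨5, fun u1 u2 u3 h hu => ?_⟩
      obtain ⟨g1, g2, g3, g4, g5, g6⟩ := hw _ _ _ h
      have := dirc (by linarith) g3 g2 g1 g6 (by
        have := hu0 _ _ _ hu
        tauto)
      simp [V]; linarith
    · refine ⟨1, fun u1 u2 u3 h hu => ?_⟩
      obtain ⟨g1, g2, g3, g4, g5, g6⟩ := hw _ _ _ h
      have := dirc (by linarith) g1 g3 g2 g4 (hu0 _ _ _ hu)
      simp [V]; linarith
  · -- a coordinate of largest absolute value
    rcases (show (|x1| ≤ |x3| ∧ |x2| ≤ |x3|) ∨ (|x2| ≤ |x1| ∧ |x3| ≤ |x1|) ∨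
        (|x3| ≤ |x2| ∧ |x1| ≤ |x2|) by
      rcases le_total |x1| |x2| with h | h <;> rcases le_total |x2| |x3| with h' | h' <;>
        rcases le_total |x1| |x3| with h'' | h'' <;>
        first
          | exact Or.inl ⟨by linarith, by linarith⟩
          | exact Or.inr (Or.inl ⟨by linarith, by linarith⟩)
          | exact Or.inr (Or.inr ⟨by linarith, by linarith⟩)) with ⟨h1, h2⟩ | ⟨h1, h2⟩ | ⟨h1, h2⟩
    · have hne : |x1| < |x3| ∨ |x2| < |x3| := by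
        by_contra hcon
        push Not at hcon
        exact hA ⟨by linarith, by linarith⟩
      rcases big hφ2 hφ hφ' h1 h2 hne with h | h
      · refine ⟨0, fun u1 u2 u3 hu hu' => ?_⟩
        have := h (-1) (Or.inr rfl) _ _ _ hu.r3 hu'
        simp [V]; linarith
      · refine ⟨1, fun u1 u2 u3 hu hu' => ?_⟩
        have := h 1 (Or.inl rfl) _ _ _ hu.r3 hu'
        simp [V]; linarith
    · have hne : |x2| < |x1| ∨ |x3| < |x1| := by
        by_contra hcon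
        push Not at hcon
        exact hA ⟨by linarith, by linarith⟩
      rcases big hφ2 hφ hφ' h1 h2 hne with h | h
      · refine ⟨2, fun u1 u2 u3 hu hu' => ?_⟩
        have := h 1 (Or.inl rfl) _ _ _ hu.r1 (by tauto)
        simp [V]; linarith
      · refine ⟨3, fun u1 u2 u3 hu hu' => ?_⟩
        have := h (-1) (Or.inr rfl) _ _ _ hu.r1 (by tauto)
        simp [V]; linarith
    · have hne : |x3| < |x2| ∨ |x1| < |x2| := by
        by_contra hcon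
        push Not at hcon
        exact hA ⟨by linarith, by linarith⟩
      rcases big hφ2 hφ hφ' h1 h2 hne with h | h
      · refine ⟨4, fun u1 u2 u3 hu hu' => ?_⟩
        have := h 1 (Or.inl rfl) _ _ _ hu.r2 (by tauto)
        simp [V]; linarith
      · refine ⟨5, fun u1 u2 u3 hu hu' => ?_⟩
        have := h (-1) (Or.inr rfl) _ _ _ hu.r2 (by tauto)
        simp [V]; linarith

end Pool.Agent.W396.Il.H3
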