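import Pool.Agent.W396.Il.H3

set_option autoImplicit false

/-!
Type `H₃`: the covering.
-/

namespace Pool.Agent.W396.Il

open Set

variable {E : Type*} [NormedAddCommGroup E] [InnerProductSpace ℝ E] {K : Set E}

/-- roots and normals -/
theorem U.nrm {r : E} (hr : U K r) {x : E} (hx : x ∈ K) {f : E →L[ℝ] ℝ}
    (hf : ∀ y ∈ K, f y ≤ f x) : 0 ≤ inner ℝ r x * f r := by
  have h1 := hf _ (hr.inv x hx)
  rw [map_sub, map_smul, smul_eq_mul] at h1
  linarith

theorem Orth3.repr (hd : Module.finrank ℝ E = 3) {e1 e2 e3 : E} (h : Orthonormal ℝ ![e1, e2, e3])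
    (x : E) : x = inner ℝ e1 x • e1 + inner ℝ e2 x • e2 + inner ℝ e3 x • e3 := by
  haveI : FiniteDimensional ℝ E := Module.finite_of_finrank_pos (by omega)
  have h1 : ⊤ ≤ Submodule.span ℝ (Set.range ![e1, e2, e3]) :=
    (h.linearIndependent.span_eq_top_of_card_eq_finrank (by rw [hd]; rfl)).ge
  have h2 := (OrthonormalBasis.mk h h1).sum_repr' x
  rw [Fin.sum_univ_three, OrthonormalBasis.coe_mk] at h2
  exact h2.symm

theorem cov_of_dirs (hd : Module.finrank ℝ E = 3) {e1 e2 e3 c : E} (h1 : U K e1) (h2 : U K e2)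
    (h3 : U K e3) (hc : U K c) (g12 : inner ℝ e1 e2 = (0 : ℝ)) (g13 : inner ℝ e1 e3 = (0 : ℝ))
    (g23 : inner ℝ e2 e3 = (0 : ℝ)) {φ : ℝ} (hφ2 : φ ^ 2 = φ + 1) (hφ : 3 / 2 < φ)
    (hφ' : φ < 5 / 3) (hce : c = (1 / 2 : ℝ) • e1 + (-φ / 2) • e2 + ((φ - 1) / 2) • e3)
    (hK : Convex ℝ K) (hKc : IsCompact K) (hKi : (interior K).Nonempty) : Cov 6 K := by
  have g21 : inner ℝ e2 e1 = (0 : ℝ) := by rw [real_inner_comm]; exact g12
  have g31 : inner ℝ e3 e1 = (0 : ℝ) := by rw [real_inner_comm]; exact g13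
  have g32 : inner ℝ e3 e2 = (0 : ℝ) := by rw [real_inner_comm]; exact g23
  have hon : Orthonormal ℝ ![e1, e2, e3] := by
    rw [orthonormal_iff_ite]
    intro i j
    fin_cases i <;> fin_cases j
    · exact h1.unit
    · exact g12
    · exact g13
    · exact g21
    · exact h2.unit
    · exact g23
    · exact g31
    · exact g32
    · exact h3.unit
  have hrep := Orth3.repr hd hon
  -- sign changes
  have hfl : ∀ α β γ : ℝ, U K (α • e1 + β • e2 + γ • e3) → ∀ s t r : ℝ, (s = 1 ∨ s = -1) →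
      (t = 1 ∨ t = -1) → (r = 1 ∨ r = -1) → U K ((s * α) • e1 + (t * β) • e2 + (r * γ) • e3) := by
    have f1 : ∀ α β γ : ℝ, U K (α • e1 + β • e2 + γ • e3) → U K ((-α) • e1 + β • e2 + γ • e3) := by
      intro α β γ h
      have := h1.refl h
      simp only [inner_add_right, inner_smul_right, h1.unit, g12, g13] at this
      convert this using 1
      module
    have f2 : ∀ α β γ : ℝ, U K (α • e1 + β • e2 + γ • e3) → U K (α • e1 + (-β) • e2 + γ • e3) := by
      intro α β γ h
      have := h2.refl h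
      simp only [inner_add_right, inner_smul_right, h2.unit, g21, g23] at this
      convert this using 1
      module
    have f3 : ∀ α β γ : ℝ, U K (α • e1 + β • e2 + γ • e3) → U K (α • e1 + β • e2 + (-γ) • e3) := by
      intro α β γ h
      have := h3.refl h
      simp only [inner_add_right, inner_smul_right, h3.unit, g31, g32] at this
      convert this using 1
      module
    intro α β γ h s t r hs ht hr
    have k1 : U K ((s * α) • e1 + β • e2 + γ • e3) := by
      rcases hs with rfl | rfl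
      · rwa [one_mul]
      · rw [neg_one_mul]; exact f1 _ _ _ h
    have k2 : U K ((s * α) • e1 + (t * β) • e2 + γ • e3) := by
      rcases ht with rfl | rfl
      · rwa [one_mul]
      · rw [neg_one_mul]; exact f2 _ _ _ k1
    rcases hr with rfl | rfl
    · rwa [one_mul]
    · rw [neg_one_mul]; exact f3 _ _ _ k2
  -- the three kinds of roots
  have ρ2 : U K ((1 / 2 : ℝ) • e1 + (φ / 2) • e2 + ((φ - 1) / 2) • e3) := by
    have := hfl _ _ _ (hce ▸ hc) 1 (-1) 1 (Or.inl rfl) (Or.inr rfl) (Or.inl rfl)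
    convert this using 1
    module
  have ρ1 : U K ((φ / 2 : ℝ) • e1 + ((φ - 1) / 2) • e2 + (1 / 2 : ℝ) • e3) := by
    have h4 := hc.refl h2
    have h5 : inner ℝ c e2 = -φ / 2 := by
      rw [hce]
      simp only [inner_add_left, inner_smul_left, h2.unit, g12, g32, RCLike.conj_to_real]
      ring
    rw [h5] at h4
    have h6 : e2 - (2 * (-φ / 2)) • c = (φ / 2 : ℝ) • e1 + (-((φ - 1) / 2)) • e2 +
        (1 / 2 : ℝ) • e3 := by
      rw [hce]
      match_scalars <;> linarith
    rw [h6] at h4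
    have := hfl _ _ _ h4 1 (-1) 1 (Or.inl rfl) (Or.inr rfl) (Or.inl rfl)
    convert this using 1
    module
  have ρ3 : U K (((φ - 1) / 2 : ℝ) • e1 + (1 / 2 : ℝ) • e2 + (φ / 2 : ℝ) • e3) := by
    have h4 := hc.refl h3
    have h5 : inner ℝ c e3 = (φ - 1) / 2 := by
      rw [hce]
      simp only [inner_add_left, inner_smul_left, h3.unit, g13, g23, RCLike.conj_to_real]
      ring
    rw [h5] at h4
    have h6 : e3 - (2 * ((φ - 1) / 2)) • c = (-((φ - 1) / 2)) • e1 + (1 / 2 : ℝ) • e2 +
        (φ / 2 : ℝ) • e3 := by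
      rw [hce]
      match_scalars <;> linarith
    rw [h6] at h4
    have := hfl _ _ _ h4 (-1) 1 1 (Or.inr rfl) (Or.inl rfl) (Or.inl rfl)
    convert this using 1
    module
  have hcov := cov_of_ill hK hKc
    (fun i : Fin 6 => H3.V i 0 • e1 + H3.V i 1 • e2 + H3.V i 2 • e3) ?_
  · simpa using hcov
  intro x hx
  by_cases hx0 : inner ℝ e1 x = (0 : ℝ) ∧ inner ℝ e2 x = (0 : ℝ) ∧ inner ℝ e3 x = (0 : ℝ)
  · -- the origin
    have hxx : x = 0 := by
      rw [hrep x, hx0.1, hx0.2.1, hx0.2.2]; simp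
    refine ⟨0, ill_of_normal hK hKi hx fun f hf hmax => ?_⟩
    exfalso
    apply hf
    have hneg : ∀ y ∈ K, -y ∈ K := by
      intro y hy
      have k1 := h3.inv _ (h2.inv _ (h1.inv y hy))
      convert k1 using 1
      simp only [inner_sub_right, inner_smul_right, g21, g31, g32]
      nth_rewrite 1 [hrep y]
      nth_rewrite 4 [hrep y]
      module
    have hz : ∀ y ∈ K, f y = 0 := by
      intro y hy
      have k1 := hmax y hy
      have k2 := hmax _ (hneg y hy)
      rw [hxx, map_zero] at k1 k2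
      rw [map_neg] at k2
      linarith
    obtain ⟨a, ha⟩ := hKi
    ext v
    have hcont : Filter.Tendsto (fun t : ℝ => a + t • v) (nhds 0) (nhds a) := by
      have : Continuous fun t : ℝ => a + t • v := by fun_prop
      simpa using this.tendsto 0
    have hev := hcont.eventually (isOpen_interior.mem_nhds ha)
    obtain ⟨δ, hδ, hδ'⟩ := Metric.eventually_nhds_iff.1 hev
    have k3 := hδ' (y := δ / 2) (by
      rw [Real.dist_eq, sub_zero, abs_of_pos (by positivity)]; linarith)
    have k4 := hz _ (interior_subset k3)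
    rw [map_add, map_smul, hz a (interior_subset ha), zero_add, smul_eq_mul] at k4
    rcases mul_eq_zero.1 k4 with k5 | k5
    · linarith
    · simpa using k5
  · obtain ⟨i, hi⟩ := H3.dirs hφ2 hφ hφ' _ _ _ hx0
    refine ⟨i, ill_of_normal hK hKi hx fun f hf hmax => ?_⟩
    rw [map_add, map_add, map_smul, map_smul, map_smul]
    have hroot : ∀ α β γ : ℝ, U K (α • e1 + β • e2 + γ • e3) →
        0 ≤ (α * inner ℝ e1 x + β * inner ℝ e2 x + γ * inner ℝ e3 x) *
          (α * f e1 + β * f e2 + γ * f e3) := by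
      intro α β γ h
      have := h.nrm hx hmax
      simpa only [inner_add_left, inner_smul_left, RCLike.conj_to_real, map_add, map_smul,
        smul_eq_mul] using this
    refine hi _ _ _ ⟨?_, ?_, ?_, h1.nrm hx hmax, h2.nrm hx hmax, h3.nrm hx hmax⟩ ?_
    · intro s t r hs ht hr
      have := hroot _ _ _ (hfl _ _ _ ρ3 s t r hs ht hr)
      nlinarith
    · intro s t r hs ht hr
      have := hroot _ _ _ (hfl _ _ _ ρ1 r s t hr hs ht)
      nlinarith
    · intro s t r hs ht hr
      have := hroot _ _ _ (hfl _ _ _ ρ2 t r s ht hr hs)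
      nlinarith
    · rintro ⟨k1, k2, k3⟩
      apply hf
      ext v
      rw [hrep v]
      simp [k1, k2, k3]

/-- type `H₃` -/
theorem engH3 (c0 c1 c2 : E) (h0 : U K c0) (h1 : U K c1) (h2 : U K c2)
    (g01 : inner ℝ c0 c1 = -((1 + √5) / 4 : ℝ)) (g02 : inner ℝ c0 c2 = (0 : ℝ))
    (g12 : inner ℝ c1 c2 = -(1 / 2 : ℝ)) (hd : Module.finrank ℝ E = 3)
    (hK : Convex ℝ K) (hKc : IsCompact K) (hKi : (interior K).Nonempty) : Cov 6 K := by
  have h5 : √5 * √5 = (5 : ℝ) := Real.mul_self_sqrt (by norm_num)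
  have h5p : (0 : ℝ) < √5 := Real.sqrt_pos.2 (by norm_num)
  obtain ⟨φ, hφ⟩ : ∃ φ : ℝ, φ = (1 + √5) / 2 := ⟨_, rfl⟩
  have hφ2 : φ ^ 2 = φ + 1 := by rw [hφ]; nlinarith
  have b1 : 3 / 2 < φ := by
    rw [hφ]
    by_contra hc
    push Not at hc
    nlinarith
  have b2 : φ < 5 / 3 := by
    rw [hφ]
    by_contra hc
    push Not at hc
    nlinarith
  have g01' : inner ℝ c0 c1 = -(φ / 2) := by rw [g01, hφ]; ring
  have g10 : inner ℝ c1 c0 = -(φ / 2) := by rw [real_inner_comm]; exact g01'
  have g20 : inner ℝ c2 c0 = (0 : ℝ) := by rw [real_inner_comm]; exact g02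
  have g21 : inner ℝ c2 c1 = -(1 / 2 : ℝ) := by rw [real_inner_comm]; exact g12
  have hφ3 : φ ^ 3 = 2 * φ + 1 := by linear_combination (φ + 1) * hφ2
  have s0 : ∀ a b d : ℝ, U K (a • c0 + b • c1 + d • c2) →
      U K ((φ * b - a) • c0 + b • c1 + d • c2) := by
    intro a b d h
    have := h0.refl h
    simp only [inner_add_right, inner_smul_right, h0.unit, g01', g02] at this
    convert this using 1
    module
  have s1 : ∀ a b d : ℝ, U K (a • c0 + b • c1 + d • c2) →
      U K (a • c0 + (φ * a + d - b) • c1 + d • c2) := by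
    intro a b d h
    have := h1.refl h
    simp only [inner_add_right, inner_smul_right, h1.unit, g10, g12] at this
    convert this using 1
    module
  have s2 : ∀ a b d : ℝ, U K (a • c0 + b • c1 + d • c2) →
      U K (a • c0 + b • c1 + (b - d) • c2) := by
    intro a b d h
    have := h2.refl h
    simp only [inner_add_right, inner_smul_right, h2.unit, g20, g21] at this
    convert this using 1
    module
  have t0 : U K ((0 : ℝ) • c0 + (1 : ℝ) • c1 + (0 : ℝ) • c2) := by
    convert h1 using 1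
    module
  have t1 := s1 _ _ _ (s0 _ _ _ (s2 _ _ _ (s1 _ _ _ (s2 _ _ _ (s0 _ _ _ t0)))))
  have e3 : U K ((φ ^ 2) • c0 + (2 * φ) • c1 + φ • c2) := by
    convert t1 using 1
    match_scalars <;> nlinarith
  refine cov_of_dirs hd (e1 := -c2) (e2 := c0) (e3 := (φ ^ 2) • c0 + (2 * φ) • c1 + φ • c2)
    (c := c1) h2.neg h0 e3 h1 ?_ ?_ ?_ hφ2 b1 b2 ?_ hK hKc hKi
  · rw [inner_neg_left, g20, neg_zero]
  · rw [inner_neg_left]
    simp only [inner_add_right, inner_smul_right, g20, g21, h2.unit]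
    ring
  · simp only [inner_add_right, inner_smul_right, g01', g02, h0.unit]
    ring
  · match_scalars <;> nlinarith

end Pool.Agent.W396.Il
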