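import Pool.Agent.W396.Il.Chamber

set_option autoImplicit false

/-!
Closed sets of unit vectors stable under their reflections: the infinite case.
-/

namespace Pool.Agent.W396.Il.Inf

open Set

variable {E : Type*} [NormedAddCommGroup E] [InnerProductSpace ℝ E]

/-- a closed set of unit vectors, stable under its reflections -/
structure CR (R : Set E) : Prop where
  closed : IsClosed R
  unit : ∀ r ∈ R, inner ℝ r r = (1 : ℝ)
  st : ∀ r ∈ R, ∀ x ∈ R, x - (2 * inner ℝ r x) • r ∈ R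

theorem CR.neg {R : Set E} (h : CR R) {r : E} (hr : r ∈ R) : -r ∈ R := by
  have := h.st r hr r hr
  rw [h.unit r hr] at this
  convert this using 1
  module

/-- all unit vectors of a subspace are in `R` -/
def Full (R : Set E) (F : Submodule ℝ E) : Prop := ∀ f ∈ F, inner ℝ f f = (1 : ℝ) → f ∈ R

section ext

variable {R : Set E} {F : Submodule ℝ E} {g : E}

/-- the latitude `y` is in `R` -/
def Lat (R : Set E) (F : Submodule ℝ E) (g : E) (y : ℝ) : Prop :=
  ∀ f ∈ F, inner ℝ f f = 1 - y ^ 2 → f + y • g ∈ R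

theorem lat_of_mem (h : CR R) (hF : Full R F) (hg : ∀ f ∈ F, inner ℝ f g = (0 : ℝ)) {y : ℝ} {f : E}
    (hf : f ∈ F) (hff : inner ℝ f f = 1 - y ^ 2) (hm : f + y • g ∈ R) : Lat R F g y := by
  intro f' hf' hff'
  by_cases hne : f = f'
  · rw [← hne]; exact hm
  -- the reflection exchanging `f` and `f'`
  obtain ⟨d, hd⟩ : ∃ d, d = f - f' := ⟨_, rfl⟩
  have hd0 : d ≠ 0 := hd ▸ sub_ne_zero.2 hne
  have hdF : d ∈ F := hd ▸ F.sub_mem hf hf'
  have hdd : 0 < inner ℝ d d := real_inner_self_pos.2 hd0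
  obtain ⟨q, hq⟩ : ∃ q : ℝ, q = inner ℝ d d := ⟨_, rfl⟩
  rw [← hq] at hdd
  have hsq : √q * √q = q := Real.mul_self_sqrt hdd.le
  have hsp : 0 < √q := Real.sqrt_pos.2 hdd
  have hu : (√q)⁻¹ • d ∈ R := by
    refine hF _ (F.smul_mem _ hdF) ?_
    rw [inner_smul_left, inner_smul_right, ← hq]
    simp only [RCLike.conj_to_real]
    field_simp
    nlinarith
  have h1 := h.st _ hu _ hm
  have h2 : inner ℝ d (f + y • g) = q / 2 := by
    rw [inner_add_right, inner_smul_right, hg d hdF, hq, hd]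
    simp only [inner_sub_left, inner_sub_right, real_inner_comm f f']
    rw [hff, hff']
    ring
  rw [inner_smul_left, h2] at h1
  simp only [RCLike.conj_to_real] at h1
  convert h1 using 1
  rw [smul_smul, show 2 * ((√q)⁻¹ * (q / 2)) * (√q)⁻¹ = (1 : ℝ) by field_simp; nlinarith,
    one_smul, hd]
  module

theorem Lat.neg (h : CR R) {y : ℝ} (hy : Lat R F g y) : Lat R F g (-y) := by
  intro f hf hff
  have h1 := h.neg (hy (-f) (F.neg_mem hf) (by rw [inner_neg_neg, hff]; ring))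
  convert h1 using 1
  module

/-- the enlargement of the set of latitudes -/
theorem Lat.ext (h : CR R) (hF : Full R F) (hg : ∀ f ∈ F, inner ℝ f g = (0 : ℝ))
    (hgg : inner ℝ g g = (1 : ℝ)) {e1 e2 : E} (he1 : e1 ∈ F) (he2 : e2 ∈ F)
    (u1 : inner ℝ e1 e1 = (1 : ℝ)) (u2 : inner ℝ e2 e2 = (1 : ℝ)) (u12 : inner ℝ e1 e2 = (0 : ℝ))
    {y : ℝ} (hy0 : 0 < y) (hy1 : y < 1) (hy : Lat R F g y) {z : ℝ} (hz0 : 0 ≤ z)
    (hz : z ^ 2 ≤ 4 * y ^ 2 * (1 - y ^ 2)) : Lat R F g z := by
  obtain ⟨c, hc⟩ : ∃ c : ℝ, c = √(1 - y ^ 2) := ⟨_, rfl⟩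
  have hy2 : 0 < 1 - y ^ 2 := by nlinarith
  have hcc : c * c = 1 - y ^ 2 := by rw [hc]; exact Real.mul_self_sqrt hy2.le
  have hc0 : 0 < c := by rw [hc]; exact Real.sqrt_pos.2 hy2
  -- `f = c e1`, `f'' = -t e1 + √(1 - t ^ 2) e2` with `z = 2 t c y`
  obtain ⟨t, ht⟩ : ∃ t : ℝ, t = z / (2 * c * y) := ⟨_, rfl⟩
  have hty : 2 * t * c * y = z := by rw [ht]; field_simp
  have ht0 : 0 ≤ t := by rw [ht]; positivity
  have ht1 : t ^ 2 ≤ 1 := by
    have h1 : (2 * t * c * y) ^ 2 ≤ 4 * y ^ 2 * (c * c) := by rw [hty, hcc]; exact hz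
    have h2 : 0 < 4 * y ^ 2 * (c * c) := by positivity
    by_contra hcon
    push Not at hcon
    have : 4 * y ^ 2 * (c * c) < (2 * t * c * y) ^ 2 := by
      calc 4 * y ^ 2 * (c * c) = 4 * y ^ 2 * (c * c) * 1 := by ring
        _ < 4 * y ^ 2 * (c * c) * t ^ 2 := mul_lt_mul_of_pos_left hcon h2
        _ = _ := by ring
    linarith
  obtain ⟨w, hw⟩ : ∃ w : ℝ, w = √(1 - t ^ 2) := ⟨_, rfl⟩
  have hww : w * w = 1 - t ^ 2 := by rw [hw]; exact Real.mul_self_sqrt (by linarith)
  have u21 : inner ℝ e2 e1 = (0 : ℝ) := by rw [real_inner_comm]; exact u12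
  have g1 := hg e1 he1
  have g2 := hg e2 he2
  have g1' : inner ℝ g e1 = (0 : ℝ) := by rw [real_inner_comm]; exact g1
  have hv : c • e1 + y • g ∈ R := hy _ (F.smul_mem _ he1) (by
    rw [inner_smul_left, inner_smul_right, u1]
    simp only [RCLike.conj_to_real]
    linarith)
  have hf'' : (-t) • e1 + w • e2 ∈ R := hF _ (F.add_mem (F.smul_mem _ he1) (F.smul_mem _ he2)) (by
    simp only [inner_add_left, inner_add_right, inner_smul_left, inner_smul_right,
      RCLike.conj_to_real, u1, u2, u12, u21]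
    nlinarith)
  have h1 := h.st _ hv _ hf''
  have h2 : inner ℝ (c • e1 + y • g) ((-t) • e1 + w • e2) = - (c * t) := by
    have g2' : inner ℝ g e2 = (0 : ℝ) := by rw [real_inner_comm]; exact g2
    simp only [inner_add_left, inner_add_right, inner_smul_left, inner_smul_right,
      RCLike.conj_to_real, u1, u12, g1', g2']
    ring
  rw [h2] at h1
  refine lat_of_mem h hF hg (f := (-t + 2 * (c * t) * c) • e1 + w • e2)
    (F.add_mem (F.smul_mem _ he1) (F.smul_mem _ he2)) ?_ ?_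
  · simp only [inner_add_left, inner_add_right, inner_smul_left, inner_smul_right,
      RCLike.conj_to_real, u1, u2, u12, u21]
    have e : z ^ 2 = 4 * t ^ 2 * (c * c) * y ^ 2 := by rw [← hty]; ring
    have e' : y ^ 2 = 1 - c * c := by linarith
    rw [e, e']
    ring_nf
    nlinarith
  · convert h1 using 1
    rw [← hty]
    module

/-- all latitudes -/
theorem lat_all (h : CR R) (hF : Full R F) (hg : ∀ f ∈ F, inner ℝ f g = (0 : ℝ))
    (hgg : inner ℝ g g = (1 : ℝ)) {e1 e2 : E} (he1 : e1 ∈ F) (he2 : e2 ∈ F)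
    (u1 : inner ℝ e1 e1 = (1 : ℝ)) (u2 : inner ℝ e2 e2 = (1 : ℝ)) (u12 : inner ℝ e1 e2 = (0 : ℝ))
    {y0 : ℝ} (hy0 : 0 < y0) (hy1 : y0 < 1) (hy : Lat R F g y0) {z : ℝ} (hz0 : 0 ≤ z)
    (hz : z ≤ 1) : Lat R F g z := by
  obtain ⟨q, hq⟩ : ∃ q : ℝ, q = 4 * y0 ^ 2 * (1 - y0 ^ 2) := ⟨_, rfl⟩
  have hq0 : 0 < q := by
    rw [hq]
    have : 0 < 1 - y0 ^ 2 := by nlinarith
    positivity
  have key : ∀ k : ℕ, ∀ y : ℝ, 0 ≤ y → y ^ 2 ≤ 1 / 2 → y ^ 2 ≤ 2 ^ k * q → Lat R F g y := by
    intro k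
    induction k with
    | zero =>
      intro y hy' _ h2
      refine Lat.ext h hF hg hgg he1 he2 u1 u2 u12 hy0 hy1 hy hy' ?_
      rw [← hq]; linarith
    | succ k ih =>
      intro y hy' h1 h2
      rcases hy'.eq_or_lt with h0 | h0
      · refine ih y hy' h1 ?_
        rw [← h0]
        have : (0 : ℝ) ≤ 2 ^ k * q := by positivity
        simpa using this
      have hs := Cox.sqrt2_mul
      have hs' := Cox.sqrt2_pos
      have h3 : (y / √2) ^ 2 = y ^ 2 / 2 := by
        rw [div_pow, sq (√2), hs]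
      have h4 : Lat R F g (y / √2) := by
        refine ih _ (by positivity) ?_ ?_
        · rw [h3]; linarith
        · rw [h3]
          have h5 : (2 : ℝ) ^ (k + 1) = 2 ^ k * 2 := pow_succ _ _
          rw [h5] at h2
          linarith
      refine Lat.ext h hF hg hgg he1 he2 u1 u2 u12 (by positivity) ?_ h4 hy' ?_
      · have : (y / √2) ^ 2 < 1 := by rw [h3]; linarith
        have h5 : 0 < y / √2 := by positivity
        nlinarith
      · rw [h3]
        nlinarith
  have hs := Cox.sqrt2_mul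
  have hs' := Cox.sqrt2_pos
  have h1 : (√2 / 2) ^ 2 = (1 : ℝ) / 2 := by rw [div_pow, sq (√2), hs]; norm_num
  obtain ⟨k, hk⟩ : ∃ k : ℕ, 1 / 2 ≤ 2 ^ k * q := by
    obtain ⟨k, hk⟩ := pow_unbounded_of_one_lt (1 / 2 / q) (show (1 : ℝ) < 2 by norm_num)
    exact ⟨k, by
      rw [div_lt_iff₀ hq0] at hk
      exact hk.le⟩
  have h2 : Lat R F g (√2 / 2) := key k _ (by positivity) h1.le (by rw [h1]; exact hk)
  refine Lat.ext h hF hg hgg he1 he2 u1 u2 u12 (by positivity) ?_ h2 hz0 ?_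
  · nlinarith
  · rw [h1]
    nlinarith

end ext

/-- enlargement of a full subspace -/
theorem Full.ext {R : Set E} (h : CR R) {F : Submodule ℝ E} (hF : Full R F) {e1 e2 : E}
    (he1 : e1 ∈ F) (he2 : e2 ∈ F)
    (u1 : inner ℝ e1 e1 = (1 : ℝ)) (u2 : inner ℝ e2 e2 = (1 : ℝ)) (u12 : inner ℝ e1 e2 = (0 : ℝ))
    {a p : E} (ha : a ∈ R) (hp : p ∈ F) (hap : ∀ f ∈ F, inner ℝ f (a - p) = (0 : ℝ))
    (hp0 : p ≠ 0) (hne : a ≠ p) : Full R (F ⊔ Submodule.span ℝ {a}) := by
  obtain ⟨d, hd⟩ : ∃ d, d = a - p := ⟨_, rfl⟩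
  rw [← hd] at hap
  have hd0 : d ≠ 0 := hd ▸ sub_ne_zero.2 hne
  have hdd : 0 < inner ℝ d d := real_inner_self_pos.2 hd0
  have hpp : 0 < inner ℝ p p := real_inner_self_pos.2 hp0
  obtain ⟨q, hq⟩ : ∃ q : ℝ, q = inner ℝ d d := ⟨_, rfl⟩
  rw [← hq] at hdd
  have hsq : √q * √q = q := Real.mul_self_sqrt hdd.le
  have hsp : 0 < √q := Real.sqrt_pos.2 hdd
  obtain ⟨g, hg⟩ : ∃ g, g = (√q)⁻¹ • d := ⟨_, rfl⟩
  have hgg : inner ℝ g g = (1 : ℝ) := by
    rw [hg, inner_smul_left, inner_smul_right, ← hq]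
    simp only [RCLike.conj_to_real]
    field_simp
    nlinarith
  have hgF : ∀ f ∈ F, inner ℝ f g = (0 : ℝ) := by
    intro f hf
    rw [hg, inner_smul_right, hap f hf, mul_zero]
  have hdg : d = √q • g := by
    rw [hg, smul_smul, mul_inv_cancel₀ hsp.ne', one_smul]
  have hpa : a = p + √q • g := by rw [← hdg, hd]; abel
  have haa := h.unit a ha
  have hpq : inner ℝ p p = 1 - √q ^ 2 := by
    rw [hpa] at haa
    have h1 := hgF p hp
    have h2 : inner ℝ g p = (0 : ℝ) := by rw [real_inner_comm]; exact h1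
    simp only [inner_add_left, inner_add_right, inner_smul_left, inner_smul_right,
      RCLike.conj_to_real, h1, h2, hgg] at haa
    nlinarith
  have hq1 : √q < 1 := by
    rw [hpq] at hpp
    nlinarith
  have hlat := lat_of_mem h hF hgF hp hpq (hpa ▸ ha)
  intro x hx hxx
  rw [Submodule.mem_sup] at hx
  obtain ⟨f, hf, y, hy, rfl⟩ := hx
  obtain ⟨t, rfl⟩ := Submodule.mem_span_singleton.1 hy
  -- `x = (f + t p) + (t √q) g`
  have hx' : f + t • a = (f + t • p) + (t * √q) • g := by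
    rw [hpa]; module
  rw [hx'] at hxx ⊢
  obtain ⟨f', hf'⟩ : ∃ f', f' = f + t • p := ⟨_, rfl⟩
  obtain ⟨z, hz⟩ : ∃ z : ℝ, z = t * √q := ⟨_, rfl⟩
  have hf'F : f' ∈ F := hf' ▸ F.add_mem hf (F.smul_mem _ hp)
  rw [← hf', ← hz] at hxx ⊢
  have h1 := hgF f' hf'F
  have h2 : inner ℝ g f' = (0 : ℝ) := by rw [real_inner_comm]; exact h1
  have hff : inner ℝ f' f' = 1 - z ^ 2 := by
    simp only [inner_add_left, inner_add_right, inner_smul_left, inner_smul_right,
      RCLike.conj_to_real, h1, h2, hgg] at hxx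
    nlinarith
  have hz2 : z ^ 2 ≤ 1 := by
    have : (0 : ℝ) ≤ inner ℝ f' f' := real_inner_self_nonneg
    linarith
  have habs : |z| ≤ 1 := by
    rw [← sq_abs] at hz2
    nlinarith [abs_nonneg z]
  have hL := lat_all h hF hgF hgg he1 he2 u1 u2 u12 hsp hq1 hlat (abs_nonneg z) habs
  rcases le_total 0 z with h3 | h3
  · rw [abs_of_nonneg h3] at hL
    exact hL f' hf'F hff
  · rw [abs_of_nonpos h3] at hL
    have := Lat.neg h hL
    rw [neg_neg] at this
    exact this f' hf'F hff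

/-- the powers of a small rotation -/
theorem rot_mem {R : Set E} (h : CR R) {a e : E} (ha : a ∈ R) (he : inner ℝ e e = (1 : ℝ))
    (hae : inner ℝ a e = (0 : ℝ)) {θ : ℝ} (hθ : Real.cos θ • a + Real.sin θ • e ∈ R) :
    ∀ j : ℕ, Real.cos (j * θ) • a + Real.sin (j * θ) • e ∈ R ∧
      Real.cos ((j + 1 : ℕ) * θ) • a + Real.sin ((j + 1 : ℕ) * θ) • e ∈ R := by
  have hea : inner ℝ e a = (0 : ℝ) := by rw [real_inner_comm]; exact hae
  have haa := h.unit a ha
  -- reflection of the direction `β` in the direction `α` is minus the direction `2 α - β`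
  have key : ∀ α β : ℝ, Real.cos α • a + Real.sin α • e ∈ R →
      Real.cos β • a + Real.sin β • e ∈ R →
      Real.cos (2 * α - β) • a + Real.sin (2 * α - β) • e ∈ R := by
    intro α β h1 h2
    have h3 := h.neg (h.st _ h1 _ h2)
    have h4 : inner ℝ (Real.cos α • a + Real.sin α • e) (Real.cos β • a + Real.sin β • e) =
        Real.cos (α - β) := by
      simp only [inner_add_left, inner_add_right, inner_smul_left, inner_smul_right,
        RCLike.conj_to_real, haa, he, hae, hea]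
      rw [Real.cos_sub]; ring
    rw [h4] at h3
    convert h3 using 1
    have e1 : Real.cos (2 * α - β) = 2 * Real.cos (α - β) * Real.cos α - Real.cos β := by
      have := Real.cos_add (α - β) α
      have h5 := Real.cos_sub (α - β) α
      rw [show α - β + α = 2 * α - β by ring] at this
      rw [show α - β - α = - β by ring, Real.cos_neg] at h5
      linarith
    have e2 : Real.sin (2 * α - β) = 2 * Real.cos (α - β) * Real.sin α - Real.sin β := by
      have := Real.sin_add α (α - β)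
      have h5 := Real.sin_sub α (α - β)
      rw [show α + (α - β) = 2 * α - β by ring] at this
      rw [show α - (α - β) = β by ring] at h5
      linarith
    rw [e1, e2]
    module
  intro j
  induction j with
  | zero =>
    refine ⟨by simpa using ha, by simpa using hθ⟩
  | succ j ih =>
    refine ⟨ih.2, ?_⟩
    have := key _ _ ih.2 ih.1
    rw [show 2 * ((j + 1 : ℕ) * θ) - j * θ = ((j + 1 + 1 : ℕ) : ℝ) * θ by push_cast; ring] at this
    exact this

/-- an infinite set contains all unit vectors of some plane -/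
theorem exists_plane [FiniteDimensional ℝ E] {R : Set E} (h : CR R) (hinf : R.Infinite) :
    ∃ a e : E, inner ℝ a a = (1 : ℝ) ∧ inner ℝ e e = (1 : ℝ) ∧ inner ℝ a e = (0 : ℝ) ∧
      Full R (Submodule.span ℝ {a, e}) := by
  haveI : ProperSpace E := FiniteDimensional.proper_real E
  have hnorm : ∀ r ∈ R, ‖r‖ = 1 := fun r hr => by
    have := h.unit r hr
    rw [real_inner_self_eq_norm_sq] at this
    have h0 := norm_nonneg r
    nlinarith
  have hcomp : IsCompact R := Metric.isCompact_of_isClosed_isBounded h.closed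
    (Metric.isBounded_closedBall (x := (0 : E)) (r := 1) |>.subset fun r hr => by
      rw [mem_closedBall_zero_iff, hnorm r hr])
  -- an accumulation point
  obtain ⟨a, haR, hacc⟩ := hinf.exists_accPt_of_subset_isCompact hcomp subset_rfl
  have haa := h.unit a haR
  have hna := hnorm a haR
  rw [accPt_iff_nhds] at hacc
  -- points close to `a`
  have hseq : ∀ k : ℕ, ∃ r ∈ R, r ≠ a ∧ ‖r - a‖ < 1 / (k + 1) := by
    intro k
    obtain ⟨r, hr, hne⟩ := hacc (Metric.ball a (1 / (k + 1))) (Metric.ball_mem_nhds _ (by positivity))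
    exact ⟨r, hr.2, hne, by simpa [dist_eq_norm] using hr.1⟩
  choose r hr hne hlt using hseq
  -- polar form
  have hpol : ∀ k : ℕ, ∃ θ : ℝ, ∃ e : E, 0 < θ ∧ θ ≤ 2 / (k + 1) ∧ inner ℝ e e = (1 : ℝ) ∧
      inner ℝ a e = (0 : ℝ) ∧ Real.cos θ • a + Real.sin θ • e ∈ R := by
    intro k
    obtain ⟨c, hc⟩ : ∃ c : ℝ, c = inner ℝ a (r k) := ⟨_, rfl⟩
    have hrr := h.unit _ (hr k)
    have hdist : ‖r k - a‖ ^ 2 = 2 - 2 * c := by
      rw [← real_inner_self_eq_norm_sq, inner_sub_left, inner_sub_right, inner_sub_right, hrr, haa,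
        real_inner_comm a (r k), ← hc]
      ring
    have hpos : 0 < ‖r k - a‖ := norm_pos_iff.2 (sub_ne_zero.2 (hne k))
    have hk0 : (0 : ℝ) < k + 1 := by positivity
    have hle1 : (1 : ℝ) / (k + 1) ≤ 1 := by
      rw [div_le_one hk0]
      have : (0 : ℝ) ≤ k := Nat.cast_nonneg k
      linarith
    have hc1 : c < 1 := by nlinarith
    have hc0 : 1 / 2 < c := by
      have : ‖r k - a‖ ^ 2 < 1 := by
        have := hlt k
        nlinarith
      linarith
    obtain ⟨θ, hθ⟩ : ∃ θ, θ = Real.arccos c := ⟨_, rfl⟩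
    have hcos : Real.cos θ = c := by rw [hθ]; exact Real.cos_arccos (by linarith) hc1.le
    have hθ0 : 0 < θ := by rw [hθ]; exact Real.arccos_pos.2 hc1
    have hsin : Real.sin θ = √(1 - c ^ 2) := by rw [hθ]; exact Real.sin_arccos c
    have hsq : 0 < 1 - c ^ 2 := by nlinarith
    have hs0 : 0 < Real.sin θ := by rw [hsin]; exact Real.sqrt_pos.2 hsq
    have hss : Real.sin θ * Real.sin θ = 1 - c ^ 2 := by
      rw [hsin]; exact Real.mul_self_sqrt hsq.le
    obtain ⟨e, he⟩ : ∃ e, e = (Real.sin θ)⁻¹ • (r k - c • a) := ⟨_, rfl⟩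
    have hrk : Real.cos θ • a + Real.sin θ • e = r k := by
      rw [he, smul_smul, mul_inv_cancel₀ hs0.ne', one_smul, hcos]
      abel
    refine ⟨θ, e, hθ0, ?_, ?_, ?_, hrk ▸ hr k⟩
    · -- `θ ≤ 2 ‖r - a‖`
      have h1 : θ ≤ Real.pi / 2 := by
        rw [hθ]; exact Real.arccos_le_pi_div_two.2 (by linarith)
      have h2 := Real.mul_le_sin hθ0.le h1
      have h3 : Real.sin θ ≤ ‖r k - a‖ := by
        have : Real.sin θ ^ 2 ≤ ‖r k - a‖ ^ 2 := by
          rw [hdist]
          nlinarith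
        exact abs_le_of_sq_le_sq' this hpos.le |>.2
      have h4 := Real.pi_le_four
      have h5 : θ ≤ 2 * Real.sin θ := by
        have h6 : 2 / Real.pi * θ ≤ Real.sin θ := h2
        have h7 : (1 : ℝ) / 2 ≤ 2 / Real.pi := by
          rw [div_le_div_iff₀ (by norm_num) Real.pi_pos]
          linarith
        nlinarith
      have h6 := hlt k
      calc θ ≤ 2 * Real.sin θ := h5
        _ ≤ 2 * (1 / (k + 1)) := by linarith
        _ = _ := by ring
    · rw [he, inner_smul_left, inner_smul_right, inner_sub_left, inner_sub_right, inner_sub_right,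
        inner_smul_left, inner_smul_left, inner_smul_right, inner_smul_right, hrr, haa,
        real_inner_comm a (r k), ← hc]
      simp only [RCLike.conj_to_real]
      field_simp
      nlinarith
    · rw [he, inner_smul_right, inner_sub_right, inner_smul_right, haa, ← hc]
      ring
  choose θ e hθ0 hθ1 hee hae hmem using hpol
  have hes : ∀ k, e k ∈ Metric.sphere (0 : E) 1 := by
    intro k
    rw [mem_sphere_zero_iff_norm]
    have := hee k
    rw [real_inner_self_eq_norm_sq] at this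
    have h0 := norm_nonneg (e k)
    nlinarith
  obtain ⟨e0, he0, φ, hφ, hlim⟩ := (isCompact_sphere (0 : E) 1).tendsto_subseq hes
  have he00 : inner ℝ e0 e0 = (1 : ℝ) := by
    rw [mem_sphere_zero_iff_norm] at he0
    rw [real_inner_self_eq_norm_sq, he0]; norm_num
  have hae0 : inner ℝ a e0 = (0 : ℝ) := by
    have h1 : Filter.Tendsto (fun k => inner ℝ a (e (φ k))) Filter.atTop
        (nhds (inner ℝ a e0 : ℝ)) := (tendsto_const_nhds).inner hlim
    have h2 : (fun k => inner ℝ a (e (φ k))) = fun _ => (0 : ℝ) := funext fun k => hae _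
    rw [h2] at h1
    exact (tendsto_nhds_unique h1 tendsto_const_nhds)
  -- every direction of the plane
  have hdir : ∀ ψ : ℝ, 0 ≤ ψ → Real.cos ψ • a + Real.sin ψ • e0 ∈ R := by
    intro ψ hψ
    obtain ⟨j, hj⟩ : ∃ j : ℕ → ℕ, j = fun k => ⌊ψ / θ (φ k)⌋₊ := ⟨_, rfl⟩
    have hθlim : Filter.Tendsto (fun k => θ (φ k)) Filter.atTop (nhds 0) := by
      have h1 : Filter.Tendsto (fun k : ℕ => (2 : ℝ) / (k + 1)) Filter.atTop (nhds 0) := by
        have := tendsto_one_div_add_atTop_nhds_zero_nat (𝕜 := ℝ)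
        have h2 := this.const_mul 2
        rw [mul_zero] at h2
        refine h2.congr fun k => by ring
      refine squeeze_zero (fun k => (hθ0 _).le) (fun k => hθ1 _) (h1.comp hφ.tendsto_atTop)
    have hjlim : Filter.Tendsto (fun k => (j k : ℝ) * θ (φ k)) Filter.atTop (nhds ψ) := by
      have h1 : ∀ k, |(j k : ℝ) * θ (φ k) - ψ| ≤ θ (φ k) := by
        intro k
        have h2 := Nat.floor_le (div_nonneg hψ (hθ0 (φ k)).le)
        have h3 := Nat.lt_floor_add_one (ψ / θ (φ k))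
        rw [le_div_iff₀ (hθ0 (φ k))] at h2
        rw [div_lt_iff₀ (hθ0 (φ k))] at h3
        rw [hj, abs_le]
        constructor <;> nlinarith
      rw [tendsto_iff_norm_sub_tendsto_zero]
      exact squeeze_zero (fun k => norm_nonneg _) h1 hθlim
    have h1 : Filter.Tendsto (fun k => Real.cos (j k * θ (φ k)) • a +
        Real.sin (j k * θ (φ k)) • e (φ k)) Filter.atTop
        (nhds (Real.cos ψ • a + Real.sin ψ • e0)) :=
      (((Real.continuous_cos.tendsto ψ).comp hjlim).smul tendsto_const_nhds).add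
        (((Real.continuous_sin.tendsto ψ).comp hjlim).smul hlim)
    exact h.closed.mem_of_tendsto h1 (Filter.Eventually.of_forall fun k =>
      (rot_mem h haR (hee _) (hae _) (hmem (φ k)) (j k)).1)
  refine ⟨a, e0, haa, he00, hae0, ?_⟩
  intro f hf hff
  obtain ⟨x, y, rfl⟩ := Submodule.mem_span_pair.1 hf
  have hea0 : inner ℝ e0 a = (0 : ℝ) := by rw [real_inner_comm]; exact hae0
  simp only [inner_add_left, inner_add_right, inner_smul_left, inner_smul_right,
    RCLike.conj_to_real, haa, he00, hae0, hea0] at hff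
  have hxy : x ^ 2 + y ^ 2 = 1 := by nlinarith
  -- angle
  obtain ⟨ψ, hψ, h1, h2⟩ : ∃ ψ : ℝ, 0 ≤ ψ ∧ Real.cos ψ = x ∧ |Real.sin ψ| = |y| := by
    refine ⟨Real.arccos x, Real.arccos_nonneg x, Real.cos_arccos (by nlinarith) (by nlinarith), ?_⟩
    rw [Real.sin_arccos, show 1 - x ^ 2 = y ^ 2 by linarith, Real.sqrt_sq_eq_abs, abs_abs]
  rcases abs_eq_abs.1 h2 with h3 | h3
  · rw [← h1, ← h3]
    exact hdir ψ hψ
  · have h4 := hdir (2 * Real.pi - ψ + 2 * Real.pi * ⌈ψ⌉₊) ?_
    · rw [show (2 * Real.pi - ψ + 2 * Real.pi * ⌈ψ⌉₊) = - ψ + ((1 + ⌈ψ⌉₊ : ℕ) : ℝ) * (2 * Real.pi) by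
        push_cast; ring, Real.cos_add_nat_mul_two_pi, Real.sin_add_nat_mul_two_pi, Real.cos_neg,
        Real.sin_neg, h1, h3, neg_neg] at h4
      exact h4
    · have h5 := Nat.le_ceil ψ
      have h6 := Real.pi_gt_three
      nlinarith

end Pool.Agent.W396.Il.Inf
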