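import Pool.Agent.W396.Il.Main
import Pool.Agent.W867.Cov3.Sym2
import Pool.Agent.W677.Shadow3

set_option autoImplicit false

/-!
Dimensions at most three.
-/

namespace Pool.Agent.W396.Il

open Set

section planar

variable {E : Type*} [NormedAddCommGroup E] [NormedSpace ℝ E] {K : Set E}

theorem cov_box {F : Type*} [NormedAddCommGroup F] [NormedSpace ℝ F] [FiniteDimensional ℝ E]
    [FiniteDimensional ℝ F]
    {n : ℕ} (hK : Convex ℝ K) (hKc : IsCompact K) (hKi : (interior K).Nonempty)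
    (π : E →L[ℝ] F) (hπ : Function.Surjective π) (e : E) (he0 : e ≠ 0) (hπe : π e = 0)
    (he : ∀ y, π y = 0 → ∃ c : ℝ, y = c • e) (c : F) (b : Module.Basis (Fin n) ℝ F)
    (hQ : π '' K = (fun t : Fin n → ℝ => c + ∑ i, t i • b i) '' Icc 0 1) :
    Cov (2 ^ (n + 1)) K := by
  haveI : CompleteSpace E := FiniteDimensional.complete ℝ E
  haveI : CompleteSpace F := FiniteDimensional.complete ℝ F
  obtain ⟨V, col, hV, h1, h2⟩ := Pool.Agent.W677.Shadow.box c b _ hQ
  obtain ⟨T, hT, h3⟩ := Pool.Agent.W677.Shadow.poly hK hKc hKi π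
      (ContinuousLinearMap.isOpenMap _ hπ) (Function.surjInv hπ)
      (Function.surjInv_eq hπ) e he0 hπe he V h1 2 le_rfl col h2
  refine ⟨T, ?_, h3⟩
  rw [pow_succ]
  omega

theorem cov_one (hd : Module.finrank ℝ E = 1) (hK : Convex ℝ K) (hKc : IsCompact K)
    (hKi : (interior K).Nonempty) : Cov 2 K := by
  haveI : FiniteDimensional ℝ E := Module.finite_of_finrank_pos (by omega)
  obtain ⟨e, he0, he⟩ := finrank_eq_one_iff'.1 hd
  have h := cov_box (F := Fin 0 → ℝ) (n := 0) hK hKc hKi 0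
    (fun y => ⟨0, Subsingleton.elim _ _⟩) e he0
    rfl (fun y _ => by obtain ⟨c, hc⟩ := he y; exact ⟨c, hc.symm⟩) 0 (Pi.basisFun ℝ (Fin 0)) (by
      obtain ⟨x, hx⟩ := hKi
      apply Set.Subset.antisymm
      · intro y _
        exact ⟨0, ⟨le_refl _, zero_le_one⟩, Subsingleton.elim _ _⟩
      · intro y _
        exact ⟨x, interior_subset hx, Subsingleton.elim _ _⟩)
  simpa using h

/-- Levi's theorem, from the result on shadows -/
theorem cov_two (hd : Module.finrank ℝ E = 2) (hK : Convex ℝ K) (hKc : IsCompact K)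
    (hKi : (interior K).Nonempty) : Cov 4 K := by
  haveI : FiniteDimensional ℝ E := Module.finite_of_finrank_pos (by omega)
  haveI : Nontrivial E := Module.nontrivial_of_finrank_pos (R := ℝ) (by omega)
  obtain ⟨v, hv⟩ := exists_ne (0 : E)
  obtain ⟨f, -, hf⟩ := exists_dual_vector ℝ v (norm_ne_zero_iff.2 hv)
  have hfv : f v ≠ 0 := by
    rw [hf]
    exact_mod_cast (norm_pos_iff.2 hv).ne'
  have hsurj : Function.Surjective f := fun y => ⟨(y / f v) • v, by
    rw [map_smul, smul_eq_mul, div_mul_cancel₀ _ hfv]⟩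
  have h1 := LinearMap.finrank_range_add_finrank_ker f.toLinearMap
  rw [LinearMap.range_eq_top.2 hsurj, finrank_top, Module.finrank_self, hd] at h1
  have h2 : Module.finrank ℝ (LinearMap.ker f.toLinearMap) = 1 := by omega
  obtain ⟨e, he0, he⟩ := finrank_eq_one_iff'.1 h2
  -- the shadow
  have hQc : IsCompact (f '' K) := hKc.image f.continuous
  have hQn : (f '' K).Nonempty := by
    obtain ⟨x, hx⟩ := hKi
    exact ⟨_, mem_image_of_mem _ (interior_subset hx)⟩
  have hQ : f '' K = Icc (sInf (f '' K)) (sSup (f '' K)) :=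
    eq_Icc_of_connected_compact ⟨hQn, (hK.linear_image f.toLinearMap).isPreconnected⟩ hQc
  obtain ⟨lo, hlo⟩ : ∃ lo, lo = sInf (f '' K) := ⟨_, rfl⟩
  obtain ⟨hi, hhi⟩ : ∃ hi, hi = sSup (f '' K) := ⟨_, rfl⟩
  rw [← hlo, ← hhi] at hQ
  have hlt : lo < hi := by
    have h3 : (interior (f '' K)).Nonempty := by
      obtain ⟨x, hx⟩ := hKi
      have h4 : f '' (interior K) ⊆ interior (f '' K) :=
        interior_maximal (Set.image_mono interior_subset)
          (ContinuousLinearMap.isOpenMap _ hsurj _ isOpen_interior)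
      exact ⟨_, h4 ⟨x, hx, rfl⟩⟩
    rw [hQ, interior_Icc] at h3
    exact nonempty_Ioo.1 h3
  have h := cov_box (F := ℝ) (n := 1) hK hKc hKi f hsurj (e : E)
    (fun h => he0 (Subtype.ext h)) e.2 (fun y hy => by
      obtain ⟨c, hc⟩ := he ⟨y, hy⟩
      exact ⟨c, by rw [← Submodule.coe_smul, hc]⟩) lo
      ((Module.Basis.singleton (Fin 1) ℝ).unitsSMul
        (fun _ => Units.mk0 (hi - lo) (sub_pos.2 hlt).ne')) (by
      rw [hQ]
      ext y
      simp only [mem_image, mem_Icc, Fin.sum_univ_one, Module.Basis.unitsSMul_apply,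
        Module.Basis.singleton_apply, Units.smul_mk0, smul_eq_mul, mul_one]
      constructor
      · rintro ⟨h3, h4⟩
        refine ⟨fun _ => (y - lo) / (hi - lo), ⟨fun _ => ?_, fun _ => ?_⟩, ?_⟩
        · exact div_nonneg (by linarith) (by linarith)
        · show (y - lo) / (hi - lo) ≤ 1
          rw [div_le_one (by linarith)]; linarith
        · show lo + (y - lo) / (hi - lo) * (hi - lo) = y
          rw [div_mul_cancel₀ _ (by linarith)]; ring
      · rintro ⟨t, ⟨h3, h4⟩, h5⟩
        have h6 : 0 ≤ t 0 := h3 0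
        have h7 : t 0 ≤ 1 := h4 0
        constructor <;> nlinarith)
  simpa using h

end planar

section three

variable {E : Type*} [NormedAddCommGroup E] [InnerProductSpace ℝ E] {K : Set E}

/-- two vectors of `Φ` which are neither orthogonal nor parallel -/
theorem exists_pair {Φ : Set E} (h0 : ∀ α ∈ Φ, α ≠ 0) (hspan : Submodule.span ℝ Φ = ⊤)
    (hirr : IrrS Φ) (hd : 2 ≤ Module.finrank ℝ E) : ∃ α ∈ Φ, ∃ β ∈ Φ, inner ℝ α β ≠ (0 : ℝ) ∧
      β ∉ Submodule.span ℝ {α} := by
  haveI : Nontrivial E := Module.nontrivial_of_finrank_pos (R := ℝ) (by omega)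
  have hne : Φ.Nonempty := by
    rw [Set.nonempty_iff_ne_empty]
    rintro rfl
    rw [Submodule.span_empty] at hspan
    exact bot_ne_top hspan
  obtain ⟨a, ha⟩ := hne
  obtain ⟨A, hA⟩ : ∃ A : Set E, A = {α ∈ Φ | α ∈ Submodule.span ℝ {a}} := ⟨_, rfl⟩
  have hAm : ∀ α, α ∈ A ↔ α ∈ Φ ∧ α ∈ Submodule.span ℝ {a} := by intro α; rw [hA]; rfl
  have hAne : A ≠ Φ := by
    intro h
    have h1 : Submodule.span ℝ Φ ≤ Submodule.span ℝ {a} := by
      rw [Submodule.span_le]
      intro x hx
      rw [← h] at hx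
      exact ((hAm x).1 hx).2
    rw [hspan, top_le_iff] at h1
    have h2 : Module.finrank ℝ (Submodule.span ℝ ({a} : Set E)) ≤ 1 :=
      (finrank_span_le_card _).trans (by simp)
    rw [h1, finrank_top] at h2
    omega
  obtain ⟨α, hα, β, hβ, hβA, h1⟩ := hirr A (fun x hx => ((hAm x).1 hx).1)
    ⟨a, (hAm a).2 ⟨ha, Submodule.mem_span_singleton_self a⟩⟩ hAne
  refine ⟨α, ((hAm α).1 hα).1, β, hβ, h1, fun h2 => hβA ((hAm β).2 ⟨hβ, ?_⟩)⟩
  have h3 : Submodule.span ℝ {α} ≤ Submodule.span ℝ {a} := by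
    rw [Submodule.span_singleton_le_iff_mem]
    exact ((hAm α).1 hα).2
  exact h3 h2

/-- the reflection in a unit vector -/
noncomputable def rf (r : E) : E →ₗ[ℝ] E := LinearMap.id - (fn r).smulRight r

theorem rf_apply (r x : E) : rf r x = x - (2 * inner ℝ r x) • r := by
  rw [rf, LinearMap.sub_apply, LinearMap.smulRight_apply, fn_apply]; rfl

theorem rf_rf {r : E} (hr : inner ℝ r r = (1 : ℝ)) (x : E) : rf r (rf r x) = x := by
  rw [rf_apply, rf_apply, inner_sub_right, inner_smul_right, hr]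
  module

theorem rf_image {r : E} (hr : U K r) : rf r '' K = K := by
  apply Set.Subset.antisymm
  · rintro _ ⟨x, hx, rfl⟩
    rw [rf_apply]; exact hr.inv x hx
  · intro x hx
    refine ⟨rf r x, by rw [rf_apply]; exact hr.inv x hx, rf_rf hr.unit x⟩

theorem rf_eq_reflection {a : E} (ha : inner ℝ a a = (1 : ℝ)) (x : E) :
    (Submodule.span ℝ {a})ᗮ.reflection x = rf a x := by
  have h1 : ‖a‖ = 1 := by
    have h2 := norm_nonneg a
    rw [real_inner_self_eq_norm_sq] at ha
    nlinarith
  rw [Submodule.reflection_orthogonal_apply, Submodule.reflection_singleton_apply, rf_apply, h1]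
  simp only [RCLike.ofReal_one, one_pow, div_one, RCLike.ofReal_real_eq_id, id_eq]
  module

theorem det_rf [FiniteDimensional ℝ E] {a : E} (ha : inner ℝ a a = (1 : ℝ)) :
    LinearMap.det (rf a) = -1 := by
  have ha0 : a ≠ 0 := by
    rintro rfl
    rw [inner_zero_left] at ha
    norm_num at ha
  have h1 : (Submodule.span ℝ {a})ᗮ.reflection.toLinearMap = rf a :=
    LinearMap.ext fun x => rf_eq_reflection ha x
  rw [← h1, Submodule.det_reflection, Submodule.orthogonal_orthogonal, finrank_span_singleton ha0,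
    pow_one]

theorem cov_three (hd : Module.finrank ℝ E = 3) {a b : E} (ha : U K a) (hb : U K b)
    (hab : inner ℝ a b ≠ (0 : ℝ)) (hnp : b ∉ Submodule.span ℝ {a})
    (hK : Convex ℝ K) (hKc : IsCompact K) (hKi : (interior K).Nonempty) : Cov 8 K := by
  haveI : FiniteDimensional ℝ E := Module.finite_of_finrank_pos (by omega)
  have h2 : ∃ v, rf a (rf b (rf a (rf b v))) ≠ v := by
    refine ⟨b, fun h => hnp ?_⟩
    have h3 : rf b b = - b := by
      rw [rf_apply, hb.unit]; module
    obtain ⟨w, hw⟩ : ∃ w, w = rf a b := ⟨_, rfl⟩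
    have h4 : rf b w = - w := by
      have h5 := congrArg (rf a) h
      rw [rf_rf ha.unit, h3, map_neg, ← hw, map_neg] at h5
      exact neg_eq_iff_eq_neg.1 h5
    obtain ⟨c, hc⟩ : ∃ c : ℝ, c = inner ℝ a b := ⟨_, rfl⟩
    rw [rf_apply, ← hc] at hw
    have h5 : inner ℝ b w = 1 - 2 * c * c := by
      rw [hw, inner_sub_right, inner_smul_right, hb.unit, real_inner_comm, ← hc]
    rw [rf_apply, h5] at h4
    have h6 : (2 * c) • a = (2 * c * c) • b := by
      have h7 : (2 : ℝ) • w = (2 * (1 - 2 * c * c)) • b := by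
        have h8 : w + w = (2 * (1 - 2 * c * c)) • b := by
          have h9 := sub_eq_iff_eq_add.1 h4
          rw [h9]
          nth_rewrite 2 [h9]
          abel_nf
        rw [two_smul]; exact h8
      rw [hw] at h7
      have h8 : (2 : ℝ) • ((2 * c) • a) = (2 : ℝ) • ((2 * c * c) • b) := by
        have h9 : (2 : ℝ) • ((2 * c) • a) = (2 : ℝ) • b - (2 : ℝ) • (b - (2 * c) • a) := by module
        rw [h9, h7]
        module
      exact smul_right_injective E (two_ne_zero (α := ℝ)) h8
    rw [Submodule.mem_span_singleton]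
    rw [← hc] at hab
    refine ⟨c⁻¹, ?_⟩
    have h7 : b = (2 * c * c)⁻¹ • ((2 * c) • a) := by
      rw [h6, smul_smul, inv_mul_cancel₀ (by positivity), one_smul]
    rw [h7, smul_smul]
    congr 1
    field_simp
  obtain ⟨T, hT, h⟩ := Pool.Agent.W867.Cov3.cov_affine hd hK hKc hKi
    ((rf a).toAffineMap.comp (rf b).toAffineMap) (by
      show ((rf a) ∘ (rf b)) '' K = K
      rw [image_comp, rf_image hb, rf_image ha]) (by
      show 0 < LinearMap.det (rf a ∘ₗ rf b)
      rw [LinearMap.det_comp, det_rf ha.unit, det_rf hb.unit]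
      norm_num) h2
  exact ⟨T, hT, h⟩

/-- **The covering theorem**, all dimensions -/
theorem cov_irr_all [FiniteDimensional ℝ E] (Φ : Set E) (h0 : ∀ α ∈ Φ, α ≠ 0)
    (hspan : Submodule.span ℝ Φ = ⊤)
    (hirr : IrrS Φ) (hK : Convex ℝ K) (hKc : IsCompact K) (hKi : (interior K).Nonempty)
    (hΦ : ∀ α ∈ Φ, ∀ x ∈ K, (Submodule.span ℝ {α})ᗮ.reflection x ∈ K) :
    Cov (2 ^ Module.finrank ℝ E) K := by
  have hΦ' : ∀ α ∈ Φ, ∀ x ∈ K, x - (2 * inner ℝ α x / inner ℝ α α) • α ∈ K := by
    intro α hα x hx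
    have h1 := hΦ α hα x hx
    rw [Submodule.reflection_orthogonal_apply, Submodule.reflection_singleton_apply] at h1
    convert h1 using 1
    rw [real_inner_self_eq_norm_sq]
    simp only [RCLike.ofReal_real_eq_id, id_eq]
    module
  rcases Nat.lt_or_ge (Module.finrank ℝ E) 4 with hd | hd
  · obtain ⟨d, hdd⟩ : ∃ d, d = Module.finrank ℝ E := ⟨_, rfl⟩
    rw [← hdd] at hd ⊢
    interval_cases d
    · haveI : Subsingleton E := Module.finrank_zero_iff.1 hdd.symm
      obtain ⟨x, hx⟩ := hKi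
      refine ⟨{0}, by simp, fun y _ => ?_⟩
      simp only [Finset.mem_singleton, iUnion_iUnion_eq_left]
      exact ⟨x, hx, Subsingleton.elim _ _⟩
    · exact cov_one hdd.symm hK hKc hKi
    · exact cov_two hdd.symm hK hKc hKi
    · obtain ⟨α, hα, β, hβ, h1, h2⟩ := exists_pair h0 hspan hirr (by omega)
      have hαn := h0 α hα
      have hβn := h0 β hβ
      refine cov_three hdd.symm (U_nz hαn (hΦ' α hα)) (U_nz hβn (hΦ' β hβ)) ?_ ?_ hK hKc hKi
      · have h3 := inner_nz_ne hβn h1
        rw [real_inner_comm] at h3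
        have h4 := inner_nz_ne hαn h3
        rwa [real_inner_comm] at h4
      · intro h3
        apply h2
        have h4 : Submodule.span ℝ {nz α} ≤ Submodule.span ℝ {α} := by
          rw [Submodule.span_singleton_le_iff_mem]
          exact Submodule.smul_mem _ _ (Submodule.mem_span_singleton_self α)
        rw [← nz_smul hβn]
        exact Submodule.smul_mem _ _ (h4 h3)
  · exact cov_irr Φ h0 hspan hirr hd hK hKc hKi hΦ'

end three

end Pool.Agent.W396.Il
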