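import Pool.Agent.W396.Il.Inf

set_option autoImplicit false

/-!
Irreducible sets of reflections: the covering theorem in dimension at least four.
-/

namespace Pool.Agent.W396.Il

open Set

variable {E : Type*} [NormedAddCommGroup E] [InnerProductSpace ℝ E] {K : Set E}

/-- the closed set of unit vectors whose reflections preserve `K` -/
theorem cr_of_body (hKc : IsClosed K) : Inf.CR {r : E | U K r} where
  closed := by
    have h1 : {r : E | U K r} = {r : E | inner ℝ r r = (1 : ℝ)} ∩
        ⋂ x ∈ K, {r : E | x - (2 * inner ℝ r x) • r ∈ K} := by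
      ext r
      simp only [mem_setOf_eq, mem_inter_iff, mem_iInter]
      exact ⟨fun h => ⟨h.unit, h.inv⟩, fun h => ⟨h.1, h.2⟩⟩
    rw [h1]
    refine (isClosed_eq (by fun_prop) continuous_const).inter ?_
    refine isClosed_iInter fun x => isClosed_iInter fun _ => ?_
    exact hKc.preimage (f := fun r : E => x - (2 * inner ℝ r x) • r) (by fun_prop)
  unit := fun r hr => hr.unit
  st := fun r hr x hx => hr.refl hx

/-- all reflections -/
theorem cov_full {m : ℕ} (hd : Module.finrank ℝ E = m + 4) (hU : ∀ r : E, inner ℝ r r = (1 : ℝ) →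
    U K r) (hK : Convex ℝ K) (hKc : IsCompact K) (hKi : (interior K).Nonempty) :
    Cov (2 ^ (m + 4)) K := by
  haveI : FiniteDimensional ℝ E := Module.finite_of_finrank_pos (by omega)
  obtain ⟨o⟩ : Nonempty (OrthonormalBasis (Fin (m + 4)) ℝ E) :=
    ⟨(stdOrthonormalBasis ℝ E).reindex (finCongr hd)⟩
  have ho : ∀ i j, inner ℝ (o i) (o j) = if i = j then (1 : ℝ) else 0 := fun i j => by
    rw [orthonormal_iff_ite.1 o.orthonormal i j]
  obtain ⟨e, he⟩ := exists_equiv o.toBasis
    (LinearMap.pi fun k : Fin (m + 4) => (innerₗ E (o k))) (by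
      rw [← LinearMap.ker_eq_bot, LinearMap.ker_eq_bot']
      intro x hx
      have h1 : ∀ i, inner ℝ (o i) x = (0 : ℝ) := by
        intro i
        have := congrFun hx i
        simpa using this
      rw [← o.sum_repr' x]
      exact Finset.sum_eq_zero fun i _ => by rw [h1, zero_smul])
  have he' : ∀ x (k : Fin (m + 4)), e x k = inner ℝ (o k) x := fun x k => by
    rw [he]; rfl
  refine Cov.of_image e (DBody.cov ?_)
  have hs := Cox.sqrt2_mul
  have hs' := Cox.sqrt2_pos
  have hflip : ∀ i : Fin (m + 4), ∀ y ∈ e '' K, (fun a => if a = i then - y a else y a) ∈ e '' K := by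
    rintro i _ ⟨x, hx, rfl⟩
    refine ⟨_, (hU (o i) (by rw [ho]; simp)).inv x hx, ?_⟩
    ext a
    rw [he', inner_sub_right, inner_smul_right, ho]
    by_cases h : a = i
    · subst h
      rw [if_pos rfl, if_pos rfl, he']
      ring
    · rw [if_neg h, if_neg h, he']
      ring
  refine ⟨hK.linear_image e.toLinearMap, hKc.image e.continuous, ?_, ?_, ?_⟩
  · have h1 : interior (e '' K) = e '' interior K := (e.toHomeomorph.image_interior K).symm
    rw [h1]
    exact hKi.image _
  · refine perm_of_adj' ?_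
    rintro i j hij _ ⟨x, hx, rfl⟩
    have hne : i ≠ j := by
      rintro rfl
      omega
    refine ⟨_, (hU ((√2)⁻¹ • (o i - o j)) ?_).inv x hx, ?_⟩
    · rw [inner_smul_left, inner_smul_right]
      simp only [inner_sub_left, inner_sub_right, ho, RCLike.conj_to_real, hne, hne.symm, if_true,
        if_false]
      field_simp
      nlinarith
    · ext a
      rw [he', inner_sub_right, inner_smul_right, inner_smul_left, inner_smul_right,
        inner_sub_left, inner_sub_right, ho, ho, ← he', ← he', ← he']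
      simp only [RCLike.conj_to_real]
      have e1 : 2 * ((√2)⁻¹ * (e x i - e x j)) * ((√2)⁻¹ * ((if a = i then (1 : ℝ) else 0) -
          if a = j then 1 else 0)) = (e x i - e x j) * ((if a = i then (1 : ℝ) else 0) -
          if a = j then 1 else 0) := by
        have hs2 : √2 ^ 2 = (2 : ℝ) := by rw [sq, hs]
        field_simp
        rw [hs2]
      rw [e1]
      by_cases h1 : a = i
      · subst h1
        rw [if_pos rfl, if_neg hne, Equiv.swap_apply_left]
        ring
      · by_cases h2 : a = j
        · subst h2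
          rw [if_pos rfl, if_neg h1, Equiv.swap_apply_right]
          ring
        · rw [if_neg h1, if_neg h2, Equiv.swap_apply_of_ne_of_ne h1 h2]
          ring
  · refine sgn_of_flip2 ?_
    intro i j hij y hy
    have h3 := hflip i _ (hflip j y hy)
    convert h3 using 1
    ext a
    by_cases h1 : a = i
    · rw [h1, if_pos (Or.inl rfl), if_pos rfl, if_neg hij]
    · by_cases h2 : a = j
      · rw [if_pos (Or.inr h2), if_neg h1, if_pos h2]
      · rw [if_neg (by tauto), if_neg h1, if_neg h2]

/-- `Φ` is not the union of two nonempty parts orthogonal to each other -/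
def IrrS (Φ : Set E) : Prop :=
  ∀ A ⊆ Φ, A.Nonempty → A ≠ Φ → ∃ α ∈ A, ∃ β ∈ Φ, β ∉ A ∧ inner ℝ α β ≠ (0 : ℝ)

theorem span_eq_zero {Φ : Set E} (hspan : Submodule.span ℝ Φ = ⊤) {x : E}
    (h : ∀ α ∈ Φ, inner ℝ x α = (0 : ℝ)) : x = 0 := by
  have h1 : ∀ y : E, inner ℝ x y = (0 : ℝ) := by
    intro y
    have hy : y ∈ Submodule.span ℝ Φ := by rw [hspan]; trivial
    induction hy using Submodule.span_induction with
    | mem a ha => exact h a ha
    | zero => exact inner_zero_right _
    | add a b _ _ ha hb => rw [inner_add_right, ha, hb, add_zero]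
    | smul c a _ ha => rw [inner_smul_right, ha, mul_zero]
  exact inner_self_eq_zero.1 (h1 x)

/-- the normalized vectors -/
noncomputable def nz (α : E) : E := ‖α‖⁻¹ • α

theorem nz_unit {α : E} (h : α ≠ 0) : inner ℝ (nz α) (nz α) = (1 : ℝ) := by
  have := norm_pos_iff.2 h
  rw [nz, inner_smul_left, inner_smul_right, real_inner_self_eq_norm_sq]
  simp only [RCLike.conj_to_real]
  field_simp

theorem inner_nz_ne {x α : E} (h : α ≠ 0) (h0 : inner ℝ x α ≠ (0 : ℝ)) :
    inner ℝ x (nz α) ≠ (0 : ℝ) := by
  have := norm_pos_iff.2 h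
  rw [nz, inner_smul_right]
  exact mul_ne_zero (inv_ne_zero this.ne') h0

theorem nz_smul {α : E} (h : α ≠ 0) : ‖α‖ • nz α = α := by
  have := norm_pos_iff.2 h
  rw [nz, smul_smul, mul_inv_cancel₀ this.ne', one_smul]

theorem U_nz {α : E} (h : α ≠ 0)
    (hα : ∀ x ∈ K, x - (2 * inner ℝ α x / inner ℝ α α) • α ∈ K) : U K (nz α) where
  unit := nz_unit h
  inv := by
    intro x hx
    convert hα x hx using 2
    have := norm_pos_iff.2 h
    rw [nz, inner_smul_left, smul_smul, real_inner_self_eq_norm_sq]
    simp only [RCLike.conj_to_real]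
    congr 1
    field_simp

/-- the theorem in dimension at least four -/
theorem cov_irr (Φ : Set E) (h0 : ∀ α ∈ Φ, α ≠ 0) (hspan : Submodule.span ℝ Φ = ⊤)
    (hirr : IrrS Φ) (hd : 4 ≤ Module.finrank ℝ E)
    (hK : Convex ℝ K) (hKc : IsCompact K) (hKi : (interior K).Nonempty)
    (hΦ : ∀ α ∈ Φ, ∀ x ∈ K, x - (2 * inner ℝ α x / inner ℝ α α) • α ∈ K) :
    Cov (2 ^ Module.finrank ℝ E) K := by
  classical
  have : FiniteDimensional ℝ E := Module.finite_of_finrank_pos (by omega)
  have hU : ∀ α ∈ Φ, U K (nz α) := fun α hα => U_nz (h0 α hα) (hΦ α hα)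
  have hCR := cr_of_body (K := K) hKc.isClosed
  have : Nontrivial E := Module.nontrivial_of_finrank_pos (R := ℝ) (by omega)
  have hne : Φ.Nonempty := by
    rw [Set.nonempty_iff_ne_empty]
    rintro rfl
    rw [Submodule.span_empty] at hspan
    exact bot_ne_top hspan
  rcases Set.finite_or_infinite {r : E | U K r} with hfin | hinf
  · -- finite case
    obtain ⟨R, hR⟩ : ∃ R : Finset E, R = hfin.toFinset := ⟨_, rfl⟩
    have hRm : ∀ r, r ∈ R ↔ U K r := by intro r; rw [hR]; simp
    have hRS : Ch.RS R := ⟨fun r hr => ((hRm r).1 hr).unit, fun r hr x hx =>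
      (hRm _).2 (((hRm r).1 hr).refl ((hRm x).1 hx))⟩
    have hsp : Submodule.span ℝ (R : Set E) = ⊤ := by
      rw [eq_top_iff, ← hspan, Submodule.span_le]
      intro α hα
      rw [SetLike.mem_coe, ← nz_smul (h0 α hα)]
      exact Submodule.smul_mem _ _ (Submodule.subset_span ((hRm _).2 (hU α hα)))
    have hirr' : Ch.Irr R := by
      intro S hS hSne hSR
      by_contra hcon
      push Not at hcon
      obtain ⟨A, hA⟩ : ∃ A : Set E, A = {α ∈ Φ | nz α ∈ S} := ⟨_, rfl⟩
      have hAm : ∀ α, α ∈ A ↔ α ∈ Φ ∧ nz α ∈ S := by intro α; rw [hA]; rfl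
      have hRu : ∀ r ∈ R, r ≠ 0 := fun r hr h1 => by
        have := hRS.unit r hr
        rw [h1, inner_zero_left] at this
        norm_num at this
      rcases A.eq_empty_or_nonempty with h1 | h1
      · obtain ⟨s, hs⟩ := hSne
        refine hRu s (hS hs) (span_eq_zero hspan fun α hα => ?_)
        by_contra h2
        refine inner_nz_ne (h0 α hα) h2 (hcon s hs _ ((hRm _).2 (hU α hα)) fun h3 => ?_)
        have : α ∈ A := (hAm α).2 ⟨hα, h3⟩
        rw [h1] at this
        exact this
      · by_cases h2 : A = Φ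
        · obtain ⟨r', hr', hr'S⟩ := Finset.exists_of_ssubset (hS.ssubset_of_ne hSR)
          refine hRu r' hr' (span_eq_zero hspan fun α hα => ?_)
          by_contra h3
          have h4 : nz α ∈ S := ((hAm α).1 (h2 ▸ hα)).2
          have h5 := hcon _ h4 r' hr' hr'S
          rw [real_inner_comm] at h5
          exact inner_nz_ne (h0 α hα) h3 h5
        · obtain ⟨α, hα, β, hβ, hβA, h3⟩ := hirr A (fun x hx => ((hAm x).1 hx).1) h1 h2
          have h4 := hcon _ ((hAm α).1 hα).2 (nz β) ((hRm _).2 (hU β hβ))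
            (fun h => hβA ((hAm β).2 ⟨hβ, h⟩))
          rw [real_inner_comm] at h3
          have h5 := inner_nz_ne (h0 α ((hAm α).1 hα).1) h3
          rw [real_inner_comm] at h5
          exact inner_nz_ne (h0 β hβ) h5 h4
    have hRne : R.Nonempty := by
      obtain ⟨α, hα⟩ := hne
      exact ⟨_, (hRm _).2 (hU α hα)⟩
    obtain ⟨D, hDR, hsys, hfine, hconn, hcard⟩ := Ch.exists_sys hRS hsp hirr' hRne
    have h1 := cov_sys hsys hfine hconn (fun i => (hRm _).1 (hDR i.2))
      (by rw [hcard, Fintype.card_coe]) (by rw [Fintype.card_coe, ← hcard]; exact hd) hK hKc hKi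
    rwa [Fintype.card_coe, ← hcard] at h1
  · -- infinite case
    obtain ⟨a, e, haa, hee, hae, hfull⟩ := Inf.exists_plane hCR hinf
    obtain ⟨F, hF, hmax⟩ := (wellFounded_gt (α := Submodule ℝ E)).has_min
      {F : Submodule ℝ E | Inf.Full {r : E | U K r} F ∧ a ∈ F ∧ e ∈ F}
      ⟨_, hfull, Submodule.subset_span (by simp), Submodule.subset_span (by simp)⟩
    obtain ⟨hF1, haF, heF⟩ := hF
    have hFtop : F = ⊤ := by
      by_contra hFne
      -- a vector neither in `F` nor orthogonal to `F`
      obtain ⟨α, hα, hαF, f, hf, hfα⟩ : ∃ α ∈ Φ, α ∉ F ∧ ∃ f ∈ F, inner ℝ f α ≠ (0 : ℝ) := by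
        by_contra hcon
        push Not at hcon
        obtain ⟨A, hA⟩ : ∃ A : Set E, A = {α ∈ Φ | α ∈ F} := ⟨_, rfl⟩
        have hAm : ∀ α, α ∈ A ↔ α ∈ Φ ∧ α ∈ F := by intro α; rw [hA]; rfl
        rcases A.eq_empty_or_nonempty with h1 | h1
        · have h2 : a = 0 := span_eq_zero hspan fun α hα => hcon α hα (fun h3 => by
            have : α ∈ A := (hAm α).2 ⟨hα, h3⟩
            rw [h1] at this
            exact this) a haF
          rw [h2, inner_zero_left] at haa
          norm_num at haa
        · by_cases h2 : A = Φ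
          · apply hFne
            rw [eq_top_iff, ← hspan, Submodule.span_le]
            intro α hα
            exact ((hAm α).1 (h2 ▸ hα)).2
          · obtain ⟨α, hα, β, hβ, hβA, h3⟩ := hirr A (fun x hx => ((hAm x).1 hx).1) h1 h2
            exact h3 (hcon β hβ (fun h => hβA ((hAm β).2 ⟨hβ, h⟩)) α ((hAm α).1 hα).2)
      obtain ⟨p, hp, z, hz, hpz⟩ := F.exists_add_mem_mem_orthogonal (nz α)
      have hzF : ∀ g ∈ F, inner ℝ g z = (0 : ℝ) := fun g hg => (Submodule.mem_orthogonal F z).1 hz g hg
      have hαn := h0 α hα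
      have hnot : nz α ∉ F := fun h => hαF (by
        rw [← nz_smul hαn]; exact F.smul_mem _ h)
      have hext := Inf.Full.ext hCR hF1 haF heF haa hee hae (hU α hα) hp
        (fun g hg => by rw [hpz, add_sub_cancel_left]; exact hzF g hg)
        (fun hp0 => by
          have := inner_nz_ne hαn hfα
          rw [hpz, hp0, zero_add] at this
          exact this (hzF f hf))
        (fun h => hnot (h ▸ hp))
      refine hmax (F ⊔ Submodule.span ℝ {nz α}) ⟨hext, Submodule.mem_sup_left haF,
        Submodule.mem_sup_left heF⟩ ?_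
      show F < F ⊔ Submodule.span ℝ {nz α}
      refine lt_of_le_of_ne le_sup_left fun h => hnot ?_
      rw [h]
      exact Submodule.mem_sup_right (Submodule.mem_span_singleton_self _)
    subst hFtop
    obtain ⟨m, hm⟩ : ∃ m, Module.finrank ℝ E = m + 4 := ⟨Module.finrank ℝ E - 4, by omega⟩
    rw [hm]
    exact cov_full hm (fun r hr => hF1 r trivial hr) hK hKc hKi

end Pool.Agent.W396.Il
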