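import Pool.Agent.W396.Il.Main
import Pool.Agent.W396.Il.Gen

set_option autoImplicit false

/-!
Irreducible sets of reflections in dimension at least three: reduction to the types `A`, `D`, `E₆`
and `H₃`.
-/

namespace Pool.Agent.W396.Il

open Set

variable {E : Type*} [NormedAddCommGroup E] [InnerProductSpace ℝ E] {K : Set E} {G : Prop}

/-- an orthonormal basis, indexed by `ℕ` -/
noncomputable def on {n : ℕ} (o : Fin n → E) (k : ℕ) : E := if h : k < n then o ⟨k, h⟩ else 0

theorem on_of_lt {n : ℕ} (o : Fin n → E) {k : ℕ} (h : k < n) : on o k = o ⟨k, h⟩ := dif_pos h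

theorem inner_on {n : ℕ} {o : Fin n → E} (ho : Orthonormal ℝ o) {j k : ℕ} (hj : j < n)
    (hk : k < n) : inner ℝ (on o j) (on o k) = if j = k then (1 : ℝ) else 0 := by
  rw [on_of_lt o hj, on_of_lt o hk, orthonormal_iff_ite.1 ho]
  simp only [Fin.mk.injEq]

theorem inner_c (x y : E) : inner ℝ ((√2)⁻¹ • x) ((√2)⁻¹ • y) = (inner ℝ x y / 2 : ℝ) := by
  rw [inner_smul_left, inner_smul_right]
  simp only [RCLike.conj_to_real]
  have hs := Cox.sqrt2_mul
  have hs' := Cox.sqrt2_pos
  have h1 : (√2)⁻¹ * (√2)⁻¹ = (1 / 2 : ℝ) := by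
    rw [← mul_inv, hs]; norm_num
  rw [← mul_assoc, h1]
  ring

/-- the roots of type `D` -/
noncomputable def rD {n : ℕ} (o : Fin n → E) (i : Fin n) : E :=
  if i.val + 1 < n then (√2)⁻¹ • (on o i.val - on o (i.val + 1))
  else (√2)⁻¹ • (on o (n - 2) + on o (n - 1))

theorem rD_1 {n : ℕ} (o : Fin n → E) {i : Fin n} (h : i.val + 1 < n) :
    rD o i = (√2)⁻¹ • (on o i.val - on o (i.val + 1)) := if_pos h

theorem rD_2 {n : ℕ} (o : Fin n → E) {i : Fin n} (h : ¬ i.val + 1 < n) :
    rD o i = (√2)⁻¹ • (on o (n - 2) + on o (n - 1)) := if_neg h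

theorem gram_rD {n : ℕ} {o : Fin n → E} (ho : Orthonormal ℝ o) (hn : 3 ≤ n) (i j : Fin n) :
    inner ℝ (rD o i) (rD o j) = if i = j then (1 : ℝ) else
      if i.val + 1 = j.val ∧ j.val + 2 ≤ n then -(1 / 2) else
      if j.val + 1 = i.val ∧ i.val + 2 ≤ n then -(1 / 2) else
      if i.val + 3 = n ∧ j.val + 1 = n then -(1 / 2) else
      if j.val + 3 = n ∧ i.val + 1 = n then -(1 / 2) else 0 := by
  have hi' := i.isLt
  have hj' := j.isLt
  by_cases hi : i.val + 1 < n <;> by_cases hj : j.val + 1 < n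
  · rw [rD_1 o hi, rD_1 o hj, inner_c]
    simp only [inner_sub_left, inner_sub_right]
    rw [inner_on ho (by omega) (by omega), inner_on ho (by omega) (by omega),
      inner_on ho (by omega) (by omega), inner_on ho (by omega) (by omega)]
    simp only [Fin.ext_iff]
    split_ifs <;> first | omega | norm_num
  · rw [rD_1 o hi, rD_2 o hj, inner_c]
    simp only [inner_sub_left, inner_add_right]
    rw [inner_on ho (by omega) (by omega), inner_on ho (by omega) (by omega),
      inner_on ho (by omega) (by omega), inner_on ho (by omega) (by omega)]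
    simp only [Fin.ext_iff]
    split_ifs <;> first | omega | norm_num
  · rw [rD_2 o hi, rD_1 o hj, inner_c]
    simp only [inner_add_left, inner_sub_right]
    rw [inner_on ho (by omega) (by omega), inner_on ho (by omega) (by omega),
      inner_on ho (by omega) (by omega), inner_on ho (by omega) (by omega)]
    simp only [Fin.ext_iff]
    split_ifs <;> first | omega | norm_num
  · rw [rD_2 o hi, rD_2 o hj, inner_c]
    simp only [inner_add_left, inner_add_right]
    rw [inner_on ho (by omega) (by omega), inner_on ho (by omega) (by omega),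
      inner_on ho (by omega) (by omega), inner_on ho (by omega) (by omega)]
    simp only [Fin.ext_iff]
    split_ifs <;> first | omega | norm_num

theorem li_rD {n : ℕ} (o : OrthonormalBasis (Fin n) ℝ E) (hn : 3 ≤ n) :
    LinearIndependent ℝ (rD o) := by
  haveI : Nonempty (Fin n) := ⟨⟨0, by omega⟩⟩
  haveI : FiniteDimensional ℝ E := o.toBasis.finiteDimensional_of_finite
  have hs := Cox.sqrt2_mul
  have hs' := Cox.sqrt2_pos
  refine linearIndependent_of_top_le_span_of_card_eq_finrank ?_ ?_
  · have key : ∀ t, t < n → on o (n - 1 - t) ∈ Submodule.span ℝ (Set.range (rD o)) := by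
      intro t
      induction t with
      | zero =>
        intro _
        obtain ⟨p, hp⟩ : ∃ p : Fin n, p.val = n - 1 := ⟨⟨n - 1, by omega⟩, rfl⟩
        obtain ⟨q, hq⟩ : ∃ q : Fin n, q.val = n - 2 := ⟨⟨n - 2, by omega⟩, rfl⟩
        have h1 : on o (n - 1 - 0) = (√2 / 2) • (rD o p - rD o q) := by
          rw [rD_2 o (by omega), rD_1 o (by omega), hq, show n - 2 + 1 = n - 1 by omega,
            show n - 1 - 0 = n - 1 by omega, ← smul_sub, smul_smul,
            show √2 / 2 * (√2)⁻¹ = (1 / 2 : ℝ) by field_simp]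
          module
        rw [h1]
        exact Submodule.smul_mem _ _ (Submodule.sub_mem _ (Submodule.subset_span ⟨_, rfl⟩)
          (Submodule.subset_span ⟨_, rfl⟩))
      | succ t ih =>
        intro ht
        obtain ⟨q, hq⟩ : ∃ q : Fin n, q.val = n - 1 - (t + 1) := ⟨⟨n - 1 - (t + 1), by omega⟩, rfl⟩
        have h1 : on o (n - 1 - (t + 1)) = √2 • rD o q + on o (n - 1 - t) := by
          rw [rD_1 o (by omega), hq, show n - 1 - (t + 1) + 1 = n - 1 - t by omega, smul_smul,
            mul_inv_cancel₀ hs'.ne']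
          module
        rw [h1]
        exact Submodule.add_mem _ (Submodule.smul_mem _ _ (Submodule.subset_span ⟨_, rfl⟩))
          (ih (by omega))
    rw [← o.toBasis.span_eq, Submodule.span_le]
    rintro _ ⟨i, rfl⟩
    have h1 := key (n - 1 - i.val) (by omega)
    rw [show n - 1 - (n - 1 - i.val) = i.val by omega, on_of_lt o i.isLt] at h1
    simpa using h1
  · rw [Fintype.card_fin, Module.finrank_eq_card_basis o.toBasis, Fintype.card_fin]

/-- all reflections -/
theorem full (hd : 3 ≤ Module.finrank ℝ E) (hU : ∀ r : E, inner ℝ r r = (1 : ℝ) → U K r)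
    (hE : Gen.Eng K G) : G := by
  haveI : FiniteDimensional ℝ E := Module.finite_of_finrank_pos (by omega)
  rcases Nat.lt_or_ge (Module.finrank ℝ E) 4 with h4 | h4
  · have h3 : Module.finrank ℝ E = 3 := by omega
    obtain ⟨o⟩ : Nonempty (OrthonormalBasis (Fin 3) ℝ E) :=
      ⟨(stdOrthonormalBasis ℝ E).reindex (finCongr h3)⟩
    have hg := gram_rD o.orthonormal le_rfl
    obtain ⟨s, hs⟩ : ∃ s : Fin 3 → Fin 3, s = ![1, 0, 2] := ⟨_, rfl⟩
    refine hE.A le_rfl (fun i => rD o (s i)) (fun i => hU _ (by rw [hg, if_pos rfl])) ?_ ?_ h3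
    · intro i j
      rw [hg, hs]
      fin_cases i <;> fin_cases j <;> simp
    · refine (li_rD o le_rfl).comp s ?_
      rw [hs]; decide
  · obtain ⟨m, hm⟩ : ∃ m, Module.finrank ℝ E = m + 4 := ⟨Module.finrank ℝ E - 4, by omega⟩
    obtain ⟨o⟩ : Nonempty (OrthonormalBasis (Fin (m + 4)) ℝ E) :=
      ⟨(stdOrthonormalBasis ℝ E).reindex (finCongr hm)⟩
    have hg := gram_rD o.orthonormal (by omega)
    refine hE.D (rD o) (fun i => hU _ (by rw [hg, if_pos rfl])) ?_ (li_rD o (by omega)) hm
    intro i j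
    rw [hg]
    have hi := i.isLt
    have hj := j.isLt
    simp only [Fin.ext_iff]
    split_ifs <;> first | rfl | omega

/-- the theorem in dimension at least three -/
theorem goal_irr (Φ : Set E) (h0 : ∀ α ∈ Φ, α ≠ 0) (hspan : Submodule.span ℝ Φ = ⊤)
    (hirr : IrrS Φ) (hd : 3 ≤ Module.finrank ℝ E) (hKc : IsClosed K)
    (hΦ : ∀ α ∈ Φ, ∀ x ∈ K, x - (2 * inner ℝ α x / inner ℝ α α) • α ∈ K)
    (hE : Gen.Eng K G) : G := by
  classical
  have : FiniteDimensional ℝ E := Module.finite_of_finrank_pos (by omega)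
  have hU : ∀ α ∈ Φ, U K (nz α) := fun α hα => U_nz (h0 α hα) (hΦ α hα)
  have hCR := cr_of_body (K := K) hKc
  have : Nontrivial E := Module.nontrivial_of_finrank_pos (R := ℝ) (by omega)
  have hne : Φ.Nonempty := by
    rw [Set.nonempty_iff_ne_empty]
    rintro rfl
    rw [Submodule.span_empty] at hspan
    exact bot_ne_top hspan
  rcases Set.finite_or_infinite {r : E | U K r} with hfin | hinf
  · -- finite case
    obtain ⟨R, hR⟩ : ∃ R : Finset E, R = hfin.toFinset := ⟨_, rfl⟩
    have hRm : ∀ r, r ∈ R ↔ U K r := by intro r; rw [hR]; simp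
    have hRS : Ch.RS R := ⟨fun r hr => ((hRm r).1 hr).unit, fun r hr x hx =>
      (hRm _).2 (((hRm r).1 hr).refl ((hRm x).1 hx))⟩
    have hsp : Submodule.span ℝ (R : Set E) = ⊤ := by
      rw [eq_top_iff, ← hspan, Submodule.span_le]
      intro α hα
      rw [SetLike.mem_coe, ← nz_smul (h0 α hα)]
      exact Submodule.smul_mem _ _ (Submodule.subset_span ((hRm _).2 (hU α hα)))
    have hirr' : Ch.Irr R := by
      intro S hS hSne hSR
      by_contra hcon
      push Not at hcon
      obtain ⟨A, hA⟩ : ∃ A : Set E, A = {α ∈ Φ | nz α ∈ S} := ⟨_, rfl⟩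
      have hAm : ∀ α, α ∈ A ↔ α ∈ Φ ∧ nz α ∈ S := by intro α; rw [hA]; rfl
      have hRu : ∀ r ∈ R, r ≠ 0 := fun r hr h1 => by
        have := hRS.unit r hr
        rw [h1, inner_zero_left] at this
        norm_num at this
      rcases A.eq_empty_or_nonempty with h1 | h1
      · obtain ⟨s, hs⟩ := hSne
        refine hRu s (hS hs) (span_eq_zero hspan fun α hα => ?_)
        by_contra h2
        refine inner_nz_ne (h0 α hα) h2 (hcon s hs _ ((hRm _).2 (hU α hα)) fun h3 => ?_)
        have : α ∈ A := (hAm α).2 ⟨hα, h3⟩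
        rw [h1] at this
        exact this
      · by_cases h2 : A = Φ
        · obtain ⟨r', hr', hr'S⟩ := Finset.exists_of_ssubset (hS.ssubset_of_ne hSR)
          refine hRu r' hr' (span_eq_zero hspan fun α hα => ?_)
          by_contra h3
          have h4 : nz α ∈ S := ((hAm α).1 (h2 ▸ hα)).2
          have h5 := hcon _ h4 r' hr' hr'S
          rw [real_inner_comm] at h5
          exact inner_nz_ne (h0 α hα) h3 h5
        · obtain ⟨α, hα, β, hβ, hβA, h3⟩ := hirr A (fun x hx => ((hAm x).1 hx).1) h1 h2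
          have h4 := hcon _ ((hAm α).1 hα).2 (nz β) ((hRm _).2 (hU β hβ))
            (fun h => hβA ((hAm β).2 ⟨hβ, h⟩))
          rw [real_inner_comm] at h3
          have h5 := inner_nz_ne (h0 α ((hAm α).1 hα).1) h3
          rw [real_inner_comm] at h5
          exact inner_nz_ne (h0 β hβ) h5 h4
    have hRne : R.Nonempty := by
      obtain ⟨α, hα⟩ := hne
      exact ⟨_, (hRm _).2 (hU α hα)⟩
    obtain ⟨D, hDR, hsys, hfine, hconn, hcard⟩ := Ch.exists_sys hRS hsp hirr' hRne
    exact Gen.cov_sys hsys hfine hconn (fun i => (hRm _).1 (hDR i.2))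
      (by rw [hcard, Fintype.card_coe]) (by rw [Fintype.card_coe, ← hcard]; exact hd) hE
  · -- infinite case
    obtain ⟨a, e, haa, hee, hae, hfull⟩ := Inf.exists_plane hCR hinf
    obtain ⟨F, hF, hmax⟩ := (wellFounded_gt (α := Submodule ℝ E)).has_min
      {F : Submodule ℝ E | Inf.Full {r : E | U K r} F ∧ a ∈ F ∧ e ∈ F}
      ⟨_, hfull, Submodule.subset_span (by simp), Submodule.subset_span (by simp)⟩
    obtain ⟨hF1, haF, heF⟩ := hF
    have hFtop : F = ⊤ := by
      by_contra hFne
      -- a vector neither in `F` nor orthogonal to `F`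
      obtain ⟨α, hα, hαF, f, hf, hfα⟩ : ∃ α ∈ Φ, α ∉ F ∧ ∃ f ∈ F, inner ℝ f α ≠ (0 : ℝ) := by
        by_contra hcon
        push Not at hcon
        obtain ⟨A, hA⟩ : ∃ A : Set E, A = {α ∈ Φ | α ∈ F} := ⟨_, rfl⟩
        have hAm : ∀ α, α ∈ A ↔ α ∈ Φ ∧ α ∈ F := by intro α; rw [hA]; rfl
        rcases A.eq_empty_or_nonempty with h1 | h1
        · have h2 : a = 0 := span_eq_zero hspan fun α hα => hcon α hα (fun h3 => by
            have : α ∈ A := (hAm α).2 ⟨hα, h3⟩
            rw [h1] at this
            exact this) a haF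
          rw [h2, inner_zero_left] at haa
          norm_num at haa
        · by_cases h2 : A = Φ
          · apply hFne
            rw [eq_top_iff, ← hspan, Submodule.span_le]
            intro α hα
            exact ((hAm α).1 (h2 ▸ hα)).2
          · obtain ⟨α, hα, β, hβ, hβA, h3⟩ := hirr A (fun x hx => ((hAm x).1 hx).1) h1 h2
            exact h3 (hcon β hβ (fun h => hβA ((hAm β).2 ⟨hβ, h⟩)) α ((hAm α).1 hα).2)
      obtain ⟨p, hp, z, hz, hpz⟩ := F.exists_add_mem_mem_orthogonal (nz α)
      have hzF : ∀ g ∈ F, inner ℝ g z = (0 : ℝ) := fun g hg => (Submodule.mem_orthogonal F z).1 hz g hg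
      have hαn := h0 α hα
      have hnot : nz α ∉ F := fun h => hαF (by
        rw [← nz_smul hαn]; exact F.smul_mem _ h)
      have hext := Inf.Full.ext hCR hF1 haF heF haa hee hae (hU α hα) hp
        (fun g hg => by rw [hpz, add_sub_cancel_left]; exact hzF g hg)
        (fun hp0 => by
          have := inner_nz_ne hαn hfα
          rw [hpz, hp0, zero_add] at this
          exact this (hzF f hf))
        (fun h => hnot (h ▸ hp))
      refine hmax (F ⊔ Submodule.span ℝ {nz α}) ⟨hext, Submodule.mem_sup_left haF,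
        Submodule.mem_sup_left heF⟩ ?_
      show F < F ⊔ Submodule.span ℝ {nz α}
      refine lt_of_le_of_ne le_sup_left fun h => hnot ?_
      rw [h]
      exact Submodule.mem_sup_right (Submodule.mem_span_singleton_self _)
    subst hFtop
    exact full hd (fun r hr => hF1 r trivial hr) hE


end Pool.Agent.W396.Il
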