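import Pool.Agent.W396.Il.SimA
import Pool.Agent.W396.Il.Main2

set_option autoImplicit false

/-!
Separation of faces for pairs `(K, o)` invariant under an irreducible reflection group.
-/

namespace Pool.Agent.W396.Il

open Set Pool.Agent.H985.Sep
open scoped InnerProductSpace

variable {d : ℕ} {K : Set (EuclideanSpace ℝ (Fin d))} {o : EuclideanSpace ℝ (Fin d)}

open Pool.Agent.H153R2.Simplex in
/-- type `A`, from the starting file `SimplexSymmetric` -/
theorem simA (hd : 3 ≤ d) (hK : Convex ℝ K) (hKc : IsCompact K) (hoK : o ∈ interior K)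
    (h : ∃ p : Fin (d + 1) → EuclideanSpace ℝ (Fin d),
          AffineIndependent ℝ p ∧ ∑ i, p i = ((d : ℝ) + 1) • o ∧
          ∀ σ : Equiv.Perm (Fin (d + 1)),
            ∃ g : EuclideanSpace ℝ (Fin d) →ᵃ[ℝ] EuclideanSpace ℝ (Fin d),
              (∀ i, g (p i) = p (σ i)) ∧ g '' K = K) :
    ¬ Sepa (2 ^ d - 1) K o → Cross d K o := by
  obtain ⟨p, hp, ho, hsym⟩ := h
  have htop : affineSpan ℝ (Set.range p) = ⊤ := by
    rw [hp.affineSpan_eq_top_iff_card_eq_finrank_add_one, Fintype.card_fin, finrank_euclideanSpace,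
      Fintype.card_fin]
  obtain ⟨b, hb⟩ : ∃ b : AffineBasis (Fin (d + 1)) ℝ (EuclideanSpace ℝ (Fin d)), ∀ i, b i = p i :=
    ⟨⟨p, hp, htop⟩, fun i => rfl⟩
  have ho' : ∑ i, b i = ((d : ℝ) + 1) • o := by simpa only [hb] using ho
  have hbody : Body (Pool.Agent.H153R2.Simplex.co b '' K) := body_image ho' hK hKc hoK (by simpa only [hb] using hsym)
  have hcard : Fintype.card (Fin (d + 1)) = d + 1 := Fintype.card_fin _
  have hN : 4 ≤ Fintype.card (Fin (d + 1)) := by rw [hcard]; omega
  intro hno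
  have h := strict hbody hN
  rw [hcard, Nat.add_sub_cancel] at h
  rcases h with h | h
  · exact absurd (conc_transfer ho' h) hno
  · exact cross_transfer ho' h

theorem eng (hd : 3 ≤ d) (hK : Convex ℝ K) (hKc : IsCompact K) (ho : o ∈ interior K) :
    Gen.Eng {x | o + x ∈ K} (¬ Sepa (2 ^ d - 1) K o → Cross d K o) where
  A := by
    intro n hn r hr hG hli hdn
    rw [finrank_euclideanSpace, Fintype.card_fin] at hdn
    subst hdn
    exact simA hn hK hKc ho (exists_simplex r hr hG)
  D := by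
    intro m r hr hG hli hdn
    refine goal_of_str (by simp) (by omega) hK hKc ho ?_
    exact strD r (fun i => (hr i).polar) hG hli hdn zero_mem_polar (convex_polar K o)
      (isCompact_polar ho) (interior_polar_nonempty hKc ho)
  E6 := by
    intro r hr hG hli hdn
    refine goal_of_str (by simp) (by omega) hK hKc ho (Or.inl ?_)
    rw [hdn]
    exact (engE6' r (fun i => (hr i).polar) hG hli hdn (convex_polar K o)
      (isCompact_polar ho) (interior_polar_nonempty hKc ho)).mono (by norm_num)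
  H3 := by
    intro c0 c1 c2 h0 h1 h2 g01 g02 g12 hdn
    refine goal_of_str (by simp) (by omega) hK hKc ho (Or.inl ?_)
    rw [hdn]
    exact (engH3 c0 c1 c2 h0.polar h1.polar h2.polar g01 g02 g12 hdn (convex_polar K o)
      (isCompact_polar ho) (interior_polar_nonempty hKc ho)).mono (by norm_num)

/-- **Main theorem** -/
theorem main (hd : 3 ≤ d) (hK : Convex ℝ K) (hKc : IsCompact K) (ho : o ∈ interior K)
    (Φ : Set (EuclideanSpace ℝ (Fin d))) (h0 : ∀ α ∈ Φ, α ≠ 0)
    (hspan : Submodule.span ℝ Φ = ⊤) (hirr : IrrS Φ)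
    (hΦ : ∀ α ∈ Φ, ∀ x ∈ K, x - (2 * ⟪α, x - o⟫_ℝ / ⟪α, α⟫_ℝ) • α ∈ K) :
    Sepa (2 ^ d) K o ∧ (¬ Sepa (2 ^ d - 1) K o → Cross d K o) := by
  have hfr : Module.finrank ℝ (EuclideanSpace ℝ (Fin d)) = d := by simp
  have hK' : ∀ α ∈ Φ, ∀ x ∈ {x | o + x ∈ K}, x - (2 * inner ℝ α x / inner ℝ α α) • α ∈
      {x | o + x ∈ K} := by
    intro α hα x hx
    have h1 := hΦ α hα (o + x) hx
    rw [add_sub_cancel_left] at h1
    show o + (x - (2 * inner ℝ α x / inner ℝ α α) • α) ∈ K
    rwa [← add_sub_assoc]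
  have hUP : ∀ α ∈ Φ, U (polar K o) (nz α) := fun α hα => (U_nz (h0 α hα) (hK' α hα)).polar
  constructor
  · refine sepa_of_cov ho ?_
    have h2 := cov_irr_all Φ h0 hspan hirr (convex_polar K o) (isCompact_polar ho)
      (interior_polar_nonempty hKc ho) (by
        intro α hα x hx
        have h3 := (hUP α hα).inv x hx
        rw [Submodule.reflection_orthogonal_apply, Submodule.reflection_singleton_apply]
        convert h3 using 1
        have hn := norm_pos_iff.2 (h0 α hα)
        rw [nz, inner_smul_left]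
        simp only [RCLike.conj_to_real, RCLike.ofReal_real_eq_id, id_eq]
        rw [smul_smul]
        have e1 : 2 * (‖α‖⁻¹ * ⟪α, x⟫_ℝ) * ‖α‖⁻¹ = 2 * (⟪α, x⟫_ℝ / ‖α‖ ^ 2) := by field_simp
        rw [e1]
        module)
    rwa [hfr] at h2
  · exact goal_irr Φ h0 hspan hirr (by rw [hfr]; exact hd)
      (hKc.isClosed.preimage (f := fun x => o + x) (by fun_prop)) hK' (eng hd hK hKc ho)

end Pool.Agent.W396.Il
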