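import Pool.Agent.W396.Il.Dual
import Pool.Agent.W396.Il.Low
import Pool.Agent.H153R2.Transfer

set_option autoImplicit false

/-!
Type `A`: the simplex belonging to a simple system.
-/

namespace Pool.Agent.W396.Il

open Set
open scoped InnerProductSpace

variable {E : Type*} [NormedAddCommGroup E] [InnerProductSpace ℝ E] {K : Set E} {o : E}

/-- the affine reflection at the hyperplane through `o` orthogonal to `r` -/
noncomputable def ar (o r : E) : E →ᵃ[ℝ] E where
  toFun x := x - (2 * inner ℝ r (x - o)) • r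
  linear := rf r
  map_vadd' := by
    intro p v
    simp only [vadd_eq_add, rf_apply]
    have h1 : v + p - o = v + (p - o) := by abel
    rw [h1, inner_add_right]
    module

theorem ar_apply (o r x : E) : ar o r x = x - (2 * inner ℝ r (x - o)) • r := rfl

theorem ar_ar {r : E} (hr : inner ℝ r r = (1 : ℝ)) (x : E) : ar o r (ar o r x) = x := by
  rw [ar_apply, ar_apply]
  obtain ⟨c, hc⟩ : ∃ c, c = inner ℝ r (x - o) := ⟨_, rfl⟩
  rw [← hc]
  have h1 : x - (2 * c) • r - o = (x - o) - (2 * c) • r := by abel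
  rw [h1, inner_sub_right, inner_smul_right, hr, ← hc]
  module

theorem ar_image {r : E} (hr : U {x | o + x ∈ K} r) : ar o r '' K = K := by
  have h1 : ∀ x ∈ K, ar o r x ∈ K := by
    intro x hx
    have h2 := hr.inv (x - o) (by show o + (x - o) ∈ K; rwa [add_sub_cancel])
    have h3 : o + ((x - o) - (2 * inner ℝ r (x - o)) • r) ∈ K := h2
    rw [ar_apply]
    convert h3 using 1
    abel
  apply Set.Subset.antisymm
  · rintro _ ⟨x, hx, rfl⟩
    exact h1 x hx
  · intro x hx
    exact ⟨_, h1 x hx, ar_ar hr.unit x⟩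

theorem exists_simplex {n : ℕ} (r : Fin n → E) (hr : ∀ i, U {x | o + x ∈ K} (r i))
    (hG : ∀ i j : Fin n, inner ℝ (r i) (r j) = if i = j then (1 : ℝ) else
      if i.val + 1 = j.val ∨ j.val + 1 = i.val then -(1 / 2) else 0) :
    ∃ p : Fin (n + 1) → E, AffineIndependent ℝ p ∧ ∑ i, p i = ((n : ℝ) + 1) • o ∧
      ∀ σ : Equiv.Perm (Fin (n + 1)), ∃ g : E →ᵃ[ℝ] E, (∀ i, g (p i) = p (σ i)) ∧ g '' K = K := by
  have hn1 : (0 : ℝ) < n + 1 := by positivity
  obtain ⟨r', hr'⟩ : ∃ r' : ℕ → E, ∀ i : Fin n, r' i.val = r i :=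
    ⟨fun k => if h : k < n then r ⟨k, h⟩ else 0, fun i => by simp⟩
  obtain ⟨S, hS⟩ : ∃ S : ℕ → E, S = fun j => ∑ k ∈ Finset.range j, r' k := ⟨_, rfl⟩
  obtain ⟨w, hw⟩ : ∃ w : E, w = ((n : ℝ) + 1)⁻¹ • ∑ j : Fin (n + 1), S j.val := ⟨_, rfl⟩
  obtain ⟨q, hq⟩ : ∃ q : ℕ → E, ∀ j, q j = w - S j := ⟨_, fun j => rfl⟩
  have hqd : ∀ i : Fin n, q i.val - q (i.val + 1) = r i := by
    intro i
    rw [hq, hq, hS]
    simp only [Finset.sum_range_succ]
    rw [hr']
    abel
  have hq0 : ∑ j : Fin (n + 1), q j.val = 0 := by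
    simp only [hq, Finset.sum_sub_distrib, Finset.sum_const, Finset.card_univ, Fintype.card_fin]
    rw [hw, ← Nat.cast_smul_eq_nsmul ℝ, smul_smul]
    push_cast
    rw [mul_inv_cancel₀ hn1.ne', one_smul, sub_self]
  -- inner products
  have hin : ∀ i : Fin n, ∀ j : ℕ, j < n + 1 → ⟪q j, r i⟫_ℝ =
      ((if j = i.val then 1 else 0) - (if j = i.val + 1 then 1 else 0)) / 2 := by
    intro i
    obtain ⟨D, hD⟩ : ∃ D : ℕ → ℝ, ∀ j, D j = ⟪q j, r i⟫_ℝ -
      ((if j = i.val then 1 else 0) - (if j = i.val + 1 then 1 else 0)) / 2 := ⟨_, fun j => rfl⟩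
    have hst : ∀ j, j < n → D (j + 1) = D j := by
      intro j hj
      have h1 := hG ⟨j, hj⟩ i
      rw [← hqd ⟨j, hj⟩, inner_sub_left] at h1
      simp only [Fin.ext_iff] at h1
      rw [hD, hD]
      have h2 : ⟪q (j + 1), r i⟫_ℝ = ⟪q j, r i⟫_ℝ - (if j = i.val then (1 : ℝ) else
        if j + 1 = i.val ∨ i.val + 1 = j then -(1 / 2) else 0) := by linarith
      rw [h2]
      split_ifs <;> first | omega | ring
    have hc : ∀ j, j < n + 1 → D j = D 0 := by
      intro j
      induction j with
      | zero => intro _; rfl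
      | succ j ih => intro hj; rw [hst j (by omega), ih (by omega)]
    have hs : ∑ j : Fin (n + 1), D j.val = 0 := by
      simp only [hD, Finset.sum_sub_distrib]
      rw [← sum_inner, hq0, inner_zero_left, ← Finset.sum_div, Finset.sum_sub_distrib]
      have e1 : ∑ j : Fin (n + 1), (if j.val = i.val then (1 : ℝ) else 0) = 1 := by
        have : ∀ j : Fin (n + 1), (j.val = i.val) ↔ j = i.castSucc := by
          intro j; rw [Fin.ext_iff]; rfl
        simp only [this]
        rw [Finset.sum_ite_eq' Finset.univ _, if_pos (Finset.mem_univ _)]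
      have e2 : ∑ j : Fin (n + 1), (if j.val = i.val + 1 then (1 : ℝ) else 0) = 1 := by
        have : ∀ j : Fin (n + 1), (j.val = i.val + 1) ↔ j = i.succ := by
          intro j; rw [Fin.ext_iff]; rfl
        simp only [this]
        rw [Finset.sum_ite_eq' Finset.univ _, if_pos (Finset.mem_univ _)]
      rw [e1, e2]
      norm_num
    have hs2 : ∑ j : Fin (n + 1), D j.val = ((n : ℝ) + 1) * D 0 := by
      rw [Finset.sum_congr rfl fun j _ => hc j.val j.isLt]
      simp
    have hD0 : D 0 = 0 := by
      rw [hs] at hs2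
      rcases mul_eq_zero.1 hs2.symm with h | h
      · linarith
      · exact h
    intro j hj
    have := hc j hj
    rw [hD0, hD] at this
    linarith
  refine ⟨fun j => o + q j.val, ?_, ?_, ?_⟩
  · -- affine independence
    rw [affineIndependent_iff]
    intro s c hc0 hcs
    obtain ⟨c', hc'⟩ : ∃ c' : ℕ → ℝ, ∀ j : Fin (n + 1), c' j.val = if j ∈ s then c j else 0 :=
      ⟨fun k => if h : k < n + 1 then (if (⟨k, h⟩ : Fin (n + 1)) ∈ s then c ⟨k, h⟩ else 0) else 0,
        fun j => dif_pos j.isLt⟩
    have h0 : ∑ j : Fin (n + 1), c' j.val = 0 := by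
      simp only [hc']
      rw [Finset.sum_ite_mem, Finset.univ_inter]
      exact hc0
    have h1 : ∑ j : Fin (n + 1), c' j.val • q j.val = 0 := by
      have h2 : ∑ j : Fin (n + 1), c' j.val • (o + q j.val) = 0 := by
        rw [← hcs]
        simp only [hc', ite_smul, zero_smul]
        rw [Finset.sum_ite_mem, Finset.univ_inter]
      simp only [smul_add, Finset.sum_add_distrib] at h2
      rwa [← Finset.sum_smul, h0, zero_smul, zero_add] at h2
    have h3 : ∀ j, j < n → c' (j + 1) = c' j := by
      intro i hi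
      have h4 : ⟪∑ j : Fin (n + 1), c' j.val • q j.val, r ⟨i, hi⟩⟫_ℝ = 0 := by
        rw [h1, inner_zero_left]
      rw [sum_inner] at h4
      have h5 : ∀ j : Fin (n + 1), ⟪c' j.val • q j.val, r ⟨i, hi⟩⟫_ℝ =
          (if j = (⟨i, by omega⟩ : Fin (n + 1)) then c' i / 2 else 0) -
          (if j = (⟨i + 1, by omega⟩ : Fin (n + 1)) then c' (i + 1) / 2 else 0) := by
        intro j
        rw [real_inner_smul_left, hin _ _ j.isLt]
        simp only [Fin.ext_iff]
        split_ifs with k1 k2 k2
        · omega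
        · rw [k1]; ring
        · rw [k2]; ring
        · ring
      simp only [h5, Finset.sum_sub_distrib] at h4
      rw [Finset.sum_ite_eq' Finset.univ _, if_pos (Finset.mem_univ _),
        Finset.sum_ite_eq' Finset.univ _, if_pos (Finset.mem_univ _)] at h4
      linarith
    have h4 : ∀ j, j < n + 1 → c' j = c' 0 := by
      intro j
      induction j with
      | zero => intro _; rfl
      | succ j ih => intro hj; rw [h3 j (by omega), ih (by omega)]
    have h5 : ∑ j : Fin (n + 1), c' j.val = ((n : ℝ) + 1) * c' 0 := by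
      rw [Finset.sum_congr rfl fun j _ => h4 j.val j.isLt]
      simp
    have h6 : c' 0 = 0 := by
      rw [h0] at h5
      rcases mul_eq_zero.1 h5.symm with h | h
      · linarith
      · exact h
    intro j hj
    have h7 := h4 j.val j.isLt
    rw [h6, hc', if_pos hj] at h7
    exact h7
  · simp only [Finset.sum_add_distrib, hq0, add_zero, Finset.sum_const, Finset.card_univ,
      Fintype.card_fin]
    rw [← Nat.cast_smul_eq_nsmul ℝ]
    push_cast
    rfl
  · intro σ
    have hσ : σ ∈ Submonoid.closure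
        (Set.range fun i : Fin n ↦ Equiv.swap i.castSucc i.succ) := by
      rw [Equiv.Perm.mclosure_swap_castSucc_succ]; trivial
    induction hσ using Submonoid.closure_induction with
    | mem τ hτ =>
      obtain ⟨i, rfl⟩ := hτ
      refine ⟨ar o (r i), fun j => ?_, ar_image (hr i)⟩
      show ar o (r i) (o + q j.val) = o + q (Equiv.swap i.castSucc i.succ j).val
      rw [ar_apply, add_sub_cancel_left, real_inner_comm, hin i j.val j.isLt]
      have h1 := hqd i
      by_cases k1 : j = i.castSucc
      · subst k1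
        rw [Equiv.swap_apply_left]
        simp only [Fin.val_castSucc, Fin.val_succ]
        rw [if_pos trivial, if_neg (by omega), ← h1]
        module
      · by_cases k2 : j = i.succ
        · subst k2
          rw [Equiv.swap_apply_right]
          simp only [Fin.val_castSucc, Fin.val_succ]
          rw [if_neg (by omega), if_pos trivial, ← h1]
          module
        · rw [Equiv.swap_apply_of_ne_of_ne k1 k2,
            if_neg (fun h => k1 (Fin.ext (by simpa using h))),
            if_neg (fun h => k2 (Fin.ext (by simpa using h)))]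
          simp
    | one => exact ⟨AffineMap.id ℝ E, fun i => rfl, by simp⟩
    | mul σ τ _ _ h1 h2 =>
      obtain ⟨g1, h3, h4⟩ := h1
      obtain ⟨g2, h5, h6⟩ := h2
      refine ⟨g1.comp g2, fun i => ?_, ?_⟩
      · rw [AffineMap.comp_apply, h5, h3]; rfl
      · rw [AffineMap.coe_comp, image_comp, h6, h4]

end Pool.Agent.W396.Il
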