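import Pool.Agent.W396.Il.DnV
import Pool.Agent.W396.Il.DnW
import Pool.Agent.W396.Il.Cox3

set_option autoImplicit false

/-!
Type `D`: one direction less, if the body is not a parallelepiped.
-/

namespace Pool.Agent.W396.Il

open Set Finset

section coord

variable {E : Type*} [NormedAddCommGroup E] [NormedSpace ℝ E]

/-- coordinates for a simple system of type `D` -/
theorem coordD {m : ℕ} (b : Module.Basis (Fin (m + 4)) ℝ E) (φ : Fin (m + 4) → E →ₗ[ℝ] ℝ)
    (hφ : ∀ i j : Fin (m + 4), φ i (b j) = if i = j then 2 else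
      if i.val + 1 = j.val ∧ j.val + 2 < m + 4 then -1 else
      if j.val + 1 = i.val ∧ i.val + 2 < m + 4 then -1 else
      if i.val + 3 = m + 4 ∧ (j.val + 2 = m + 4 ∨ j.val + 1 = m + 4) then -1 else
      if j.val + 3 = m + 4 ∧ (i.val + 2 = m + 4 ∨ i.val + 1 = m + 4) then -1 else 0)
    {K : Set E} (hK : Convex ℝ K) (hKc : IsCompact K) (hKi : (interior K).Nonempty)
    (hr : ∀ i, ∀ x ∈ K, x - φ i x • b i ∈ K) :
    ∃ e : E ≃L[ℝ] (Fin (m + 4) → ℝ), (∀ x (k : Fin (m + 4)), e x k = yD b k.val x) ∧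
      DBody (e '' K) := by
  classical
  have hD0 : ∀ k : ℕ, yD b k = yA b k + if k = m + 2 then co b (m + 3) else 0 := by
    intro k
    rw [yD]
    congr 1
    have : (k + 2 = m + 4) ↔ k = m + 2 := by omega
    simp only [this]
    rfl
  obtain ⟨e, he⟩ := exists_equiv b (LinearMap.pi fun k : Fin (m + 4) => yD b k.val) (by
    rw [← LinearMap.ker_eq_bot, LinearMap.ker_eq_bot']
    intro x hx
    have hx' : ∀ k : ℕ, k < m + 4 → yD b k x = 0 := fun k hk => congrFun hx ⟨k, hk⟩
    -- coordinates below `m + 2`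
    have h1 : ∀ k, k < m + 2 → co b k x = 0 := by
      intro k
      induction k with
      | zero =>
        intro hk
        have := hx' 0 (by omega)
        rw [hD0, if_neg (by omega)] at this
        simpa [yA, cop] using this
      | succ k ih =>
        intro hk
        have := hx' (k + 1) (by omega)
        rw [hD0, if_neg (by omega)] at this
        simpa [yA, cop, ih (by omega)] using this
    have h2 := hx' (m + 2) (by omega)
    rw [hD0, if_pos rfl] at h2
    have h3 := hx' (m + 3) (by omega)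
    rw [hD0, if_neg (by omega)] at h3
    simp only [yA, cop, LinearMap.add_apply, LinearMap.sub_apply, h1 (m + 1) (by omega),
      LinearMap.zero_apply] at h2 h3
    have h4 : co b (m + 2) x = 0 := by linarith
    have h5 : co b (m + 3) x = 0 := by linarith
    apply b.ext_elem
    intro i
    have h6 : co b i.val x = 0 := by
      have := i.isLt
      rcases Nat.lt_or_ge i.val (m + 2) with h | h
      · exact h1 _ h
      · rcases (show i.val = m + 2 ∨ i.val = m + 3 by omega) with h | h
        · rw [h]; exact h4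
        · rw [h]; exact h5
    simp only [co, i.isLt, dif_pos] at h6
    simpa using h6)
  have he' : ∀ x (k : Fin (m + 4)), e x k = yD b k.val x := fun x k => by rw [he]; rfl
  refine ⟨e, he', ?_⟩
  -- the functionals
  have hφ1 : ∀ i : Fin (m + 4), i.val + 1 < m + 4 → φ i = yD b i.val - yD b (i.val + 1) := by
    intro i hi
    refine b.ext fun j => ?_
    rw [hφ, LinearMap.sub_apply, yD_apply, yD_apply]
    simp only [Fin.ext_iff]
    have hj := j.isLt
    split_ifs <;> first | omega | norm_num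
  have hφ2 : ∀ i : Fin (m + 4), i.val + 1 = m + 4 → φ i = yD b (m + 2) + yD b (m + 3) := by
    intro i hi
    refine b.ext fun j => ?_
    rw [hφ, LinearMap.add_apply, yD_apply, yD_apply]
    simp only [Fin.ext_iff, true_and]
    have hj := j.isLt
    split_ifs <;> first | omega | norm_num
  have hadj : ∀ i j : Fin (m + 4), i.val + 1 = j.val → ∀ x ∈ e '' K,
      (fun a => x (Equiv.swap i j a)) ∈ e '' K := by
    rintro i j hij _ ⟨x, hx, rfl⟩
    have hj := j.isLt
    refine ⟨_, hr i x hx, ?_⟩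
    ext k
    have hk := k.isLt
    rw [he', map_sub, map_smul, yD_apply, hφ1 i (by omega), LinearMap.sub_apply, smul_eq_mul, hij,
      ← he' x j, ← he' x i, ← he' x k]
    rw [if_neg (by omega : ¬ (k.val + 2 = m + 4 ∧ m + 4 = j.val))]
    by_cases h1 : k = i
    · subst h1
      rw [Equiv.swap_apply_left, if_pos rfl, if_neg (by omega)]
      ring
    · by_cases h2 : k = j
      · subst h2
        rw [Equiv.swap_apply_right, if_neg (by omega), if_pos rfl]
        ring
      · rw [Equiv.swap_apply_of_ne_of_ne h1 h2, if_neg (fun h => h1 (Fin.ext h)),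
          if_neg (fun h => h2 (Fin.ext h))]
        ring
  have hperm := perm_of_adj' hadj
  obtain ⟨p, hp⟩ : ∃ p : Fin (m + 4), p.val = m + 2 := ⟨⟨m + 2, by omega⟩, rfl⟩
  obtain ⟨q, hq⟩ : ∃ q : Fin (m + 4), q.val = m + 3 := ⟨⟨m + 3, by omega⟩, rfl⟩
  have hpq : p ≠ q := by
    intro h; have := congrArg Fin.val h; omega
  have hlast : ∀ x ∈ e '' K, (fun a => if a = p ∨ a = q then - x a else x a) ∈ e '' K := by
    intro x hx
    have h1 := hperm (Equiv.swap p q) x hx
    obtain ⟨y, hy, hyx⟩ := h1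
    refine ⟨_, hr q y hy, ?_⟩
    ext k
    have hk := k.isLt
    rw [he', map_sub, map_smul, yD_apply, hφ2 q (by omega), LinearMap.add_apply, smul_eq_mul,
      ← hp, ← hq, ← he' y p, ← he' y q, ← he' y k, hyx]
    simp only [Equiv.swap_apply_left, Equiv.swap_apply_right]
    by_cases h1 : k = p
    · subst h1
      rw [Equiv.swap_apply_left, if_neg (by omega), if_neg (by omega), if_pos (by omega),
        if_pos (Or.inl rfl)]
      ring
    · by_cases h2 : k = q
      · subst h2
        rw [Equiv.swap_apply_right, if_pos rfl, if_neg (by omega), if_neg (by omega),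
          if_pos (Or.inr rfl)]
        ring
      · have h3 : k.val ≠ m + 2 := fun h => h1 (Fin.ext (by omega))
        have h4 : k.val ≠ m + 3 := fun h => h2 (Fin.ext (by omega))
        rw [Equiv.swap_apply_of_ne_of_ne h1 h2, if_neg (by omega), if_neg (by omega),
          if_neg (by omega), if_neg (by tauto)]
        ring
  have hflip : ∀ i j : Fin (m + 4), i ≠ j → ∀ x ∈ e '' K,
      (fun a => if a = i ∨ a = j then - x a else x a) ∈ e '' K := by
    intro i j hij x hx
    -- a permutation with `i ↦ p`, `j ↦ q`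
    obtain ⟨σ, h1, h2⟩ : ∃ σ : Equiv.Perm (Fin (m + 4)), σ i = p ∧ σ j = q := by
      refine ⟨(Equiv.swap (Equiv.swap i p j) q) * (Equiv.swap i p), ?_, ?_⟩
      · rw [Equiv.Perm.mul_apply, Equiv.swap_apply_left, Equiv.swap_apply_of_ne_of_ne _ hpq]
        intro h
        apply hij
        have := congrArg (Equiv.swap i p) h
        simpa using this
      · rw [Equiv.Perm.mul_apply, Equiv.swap_apply_left]
    have h3 := hperm σ _ (hlast _ (hperm σ⁻¹ x hx))
    convert h3 using 1
    ext a
    have e1 : (σ a = p ∨ σ a = q) ↔ (a = i ∨ a = j) := by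
      rw [← h1, ← h2]
      simp
    simp only [e1]
    simp
  refine ⟨hK.linear_image e.toLinearMap, hKc.image e.continuous, ?_, hperm, ?_⟩
  · have h1 : interior (e '' K) = e '' interior K := (e.toHomeomorph.image_interior K).symm
    rw [h1]
    exact hKi.image _
  · exact sgn_of_flip2 hflip

end coord

/-- the hypothesis of `strict4` from the comparison of the three kinds of weights -/
theorem DBody.hH_of {K : Set (Fin 4 → ℝ)} (h : DBody K)
    (hmin : ∀ s : ℝ, 0 ≤ s → Pi.single 0 s ∈ K →
      Pt (fun _ => false) (s / 2) ∈ K ∧ Pt (fun i => decide (i = 3)) (s / 2) ∈ K) :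
    ∀ x ∈ K, ∀ i, ∀ ε, Pt ε (|x i| / 2) ∈ K := by
  obtain ⟨a, ha, hsingle, hle⟩ := h.exists_a (by omega)
  intro x hx i ε
  have h1 := hle x hx i
  have h0 := abs_nonneg (x i)
  have h2 : Pi.single (0 : Fin 4) |x i| ∈ K := by
    have h3 := h.conv (hsingle 0 1 (Or.inl rfl)) (interior_subset (h.zero_int (by omega)))
      (a := |x i| / a) (b := 1 - |x i| / a) (by positivity)
      (by rw [sub_nonneg, div_le_one ha]; exact h1) (by ring)
    convert h3 using 1
    rw [smul_zero, add_zero, ← Pi.single_smul, smul_eq_mul, one_mul, div_mul_cancel₀ _ ha.ne']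
  obtain ⟨h3, h4⟩ := hmin _ h0 h2
  have e1 : par (fun _ : Fin 4 => false) = 1 := by
    norm_num [par, sg]
  have e2 : par (fun i : Fin 4 => decide (i = 3)) = -1 := by
    simp [par, sg, Fin.prod_univ_four]
  rcases par_cases ε with hp | hp
  · exact h.Pt_mem (e1.trans hp.symm) h3
  · exact h.Pt_mem (e2.trans hp.symm) h4

variable {E : Type*} [NormedAddCommGroup E] [InnerProductSpace ℝ E] {K : Set E}

/-- parallelepipeds -/
def Par (K : Set E) : Prop :=
  ∃ (n : ℕ) (v : Fin n → E), LinearIndependent ℝ v ∧ Module.finrank ℝ E = n ∧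
    K = {x | ∀ i, |inner ℝ (v i) x| ≤ 1}

theorem par_of {n : ℕ} (hd : Module.finrank ℝ E = n) [FiniteDimensional ℝ E]
    (e : E ≃L[ℝ] (Fin n → ℝ)) {t : ℝ} (ht : 0 < t)
    (h : e '' K = {x | ∀ i, |x i| ≤ t}) : Par K := by
  haveI : CompleteSpace E := FiniteDimensional.complete ℝ E
  obtain ⟨v, hv⟩ : ∃ v : Fin n → E, ∀ i x, inner ℝ (v i) x = t⁻¹ * e x i := by
    refine ⟨fun i => (InnerProductSpace.toDual ℝ E).symm
      (t⁻¹ • ((ContinuousLinearMap.proj i).comp (e : E →L[ℝ] (Fin n → ℝ)))), fun i x => ?_⟩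
    rw [InnerProductSpace.toDual_symm_apply]
    rfl
  refine ⟨n, v, ?_, hd, ?_⟩
  · rw [Fintype.linearIndependent_iff]
    intro g hg i
    have h1 : inner ℝ (∑ j, g j • v j) (e.symm (Pi.single i 1)) = (0 : ℝ) := by
      rw [hg, inner_zero_left]
    rw [sum_inner] at h1
    simp only [inner_smul_left, RCLike.conj_to_real, hv, ContinuousLinearEquiv.apply_symm_apply]
      at h1
    rw [Finset.sum_eq_single i] at h1
    · rw [Pi.single_eq_same, mul_one] at h1
      rcases mul_eq_zero.1 h1 with h2 | h2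
      · exact h2
      · exact absurd h2 (inv_pos.2 ht).ne'
    · intro j _ hj
      rw [Pi.single_eq_of_ne hj]; ring
    · simp
  · ext x
    have h1 : x ∈ K ↔ e x ∈ e '' K := by
      constructor
      · exact fun hx => mem_image_of_mem _ hx
      · rintro ⟨y, hy, hxy⟩
        rwa [← e.injective hxy]
    rw [h1, h]
    simp only [mem_setOf_eq, hv, abs_mul, abs_of_pos (inv_pos.2 ht)]
    refine forall_congr' fun i => ?_
    rw [inv_mul_le_iff₀ ht, mul_one]

/-- one direction less, or a parallelepiped -/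
def Str (K : Set E) : Prop := Cov (2 ^ Module.finrank ℝ E - 1) K ∨ Par K

/-- a basis from independent roots -/
theorem exists_basis {n : ℕ} (hn : 0 < n) {r : Fin n → E} (hli : LinearIndependent ℝ r)
    (hd : Module.finrank ℝ E = n) : ∃ B : Module.Basis (Fin n) ℝ E, ∀ i, B i = r i := by
  haveI : Nonempty (Fin n) := ⟨⟨0, hn⟩⟩
  exact ⟨basisOfLinearIndependentOfCardEqFinrank hli (by rw [Fintype.card_fin, hd]), fun i => by simp⟩

theorem strD5 {m : ℕ} (r : Fin (m + 5) → E) (hr : ∀ i, U K (r i))
    (hG : ∀ i j : Fin (m + 5), inner ℝ (r i) (r j) = if i = j then (1 : ℝ) else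
      if i.val + 1 = j.val ∧ j.val + 2 < m + 5 then -(1 / 2) else
      if j.val + 1 = i.val ∧ i.val + 2 < m + 5 then -(1 / 2) else
      if i.val + 3 = m + 5 ∧ (j.val + 2 = m + 5 ∨ j.val + 1 = m + 5) then -(1 / 2) else
      if j.val + 3 = m + 5 ∧ (i.val + 2 = m + 5 ∨ i.val + 1 = m + 5) then -(1 / 2) else 0)
    (hli : LinearIndependent ℝ r) (hd : Module.finrank ℝ E = m + 5)
    (hK : Convex ℝ K) (hKc : IsCompact K) (hKi : (interior K).Nonempty) : Str K := by
  haveI : FiniteDimensional ℝ E := Module.finite_of_finrank_pos (by omega)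
  obtain ⟨B, hB⟩ := exists_basis (by omega) hli hd
  obtain ⟨e, -, hD⟩ := coordD (m := m + 1) B (fun i => fn (r i)) (by
    intro i j
    rw [fn_apply, hB, hG]
    have hi := i.isLt
    have hj := j.isLt
    split_ifs <;> first | omega | norm_num) hK hKc hKi (by
    intro i x hx
    rw [hB]
    exact (hr i).fn_inv x hx)
  rcases DBody.strict5 hD with ⟨t, ht, h⟩ | h
  · exact Or.inr (par_of hd e ht h)
  · left
    rw [hd]
    exact Cov.of_image e h

/-- `D₄`, the leaf `r0` having the smallest weight -/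
theorem strD4_aux (r0 r1 r2 r3 : E) (h0 : U K r0) (h1 : U K r1) (h2 : U K r2) (h3 : U K r3)
    (g01 : inner ℝ r0 r1 = -(1 / 2 : ℝ)) (g02 : inner ℝ r0 r2 = (0 : ℝ))
    (g03 : inner ℝ r0 r3 = (0 : ℝ)) (g12 : inner ℝ r1 r2 = -(1 / 2 : ℝ))
    (g13 : inner ℝ r1 r3 = -(1 / 2 : ℝ)) (g23 : inner ℝ r2 r3 = (0 : ℝ))
    (hd : Module.finrank ℝ E = 4)
    (hmin : ∀ t : ℝ, 0 ≤ t → t • ((2 : ℝ) • r0 + (2 : ℝ) • r1 + r2 + r3) ∈ K →
      t • (r0 + (2 : ℝ) • r1 + (2 : ℝ) • r2 + r3) ∈ K ∧
      t • (r0 + (2 : ℝ) • r1 + r2 + (2 : ℝ) • r3) ∈ K)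
    (hK : Convex ℝ K) (hKc : IsCompact K) (hKi : (interior K).Nonempty) : Str K := by
  haveI : FiniteDimensional ℝ E := Module.finite_of_finrank_pos (by omega)
  have g10 : inner ℝ r1 r0 = -(1 / 2 : ℝ) := by rw [real_inner_comm]; exact g01
  have g20 : inner ℝ r2 r0 = (0 : ℝ) := by rw [real_inner_comm]; exact g02
  have g30 : inner ℝ r3 r0 = (0 : ℝ) := by rw [real_inner_comm]; exact g03
  have g21 : inner ℝ r2 r1 = -(1 / 2 : ℝ) := by rw [real_inner_comm]; exact g12
  have g31 : inner ℝ r3 r1 = -(1 / 2 : ℝ) := by rw [real_inner_comm]; exact g13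
  have g32 : inner ℝ r3 r2 = (0 : ℝ) := by rw [real_inner_comm]; exact g23
  have hG : ∀ i j : Fin 4, inner ℝ (![r0, r1, r2, r3] i) (![r0, r1, r2, r3] j) =
      (!![1, -(1 / 2), 0, 0; -(1 / 2), 1, -(1 / 2), -(1 / 2); 0, -(1 / 2), 1, 0;
        0, -(1 / 2), 0, (1 : ℝ)] : Matrix (Fin 4) (Fin 4) ℝ) i j := by
    intro i j
    fin_cases i <;> fin_cases j
    · exact h0.unit
    · exact g01
    · exact g02
    · exact g03
    · exact g10
    · exact h1.unit
    · exact g12
    · exact g13
    · exact g20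
    · exact g21
    · exact h2.unit
    · exact g23
    · exact g30
    · exact g31
    · exact g32
    · exact h3.unit
  have hli : LinearIndependent ℝ ![r0, r1, r2, r3] := by
    refine li_of_gram _ _ hG fun x hx => ?_
    have e0 := hx 0
    have e1 := hx 1
    have e2 := hx 2
    have e3 := hx 3
    rw [Fin.sum_univ_four] at e0 e1 e2 e3
    simp at e0 e1 e2 e3
    ext i
    fin_cases i <;> simp <;> linarith
  have hr : ∀ i, U K (![r0, r1, r2, r3] i) := by
    intro i
    fin_cases i
    · exact h0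
    · exact h1
    · exact h2
    · exact h3
  obtain ⟨B, hB⟩ := exists_basis (by omega) hli hd
  obtain ⟨e, he, hD⟩ := coordD (m := 0) B (fun i => fn (![r0, r1, r2, r3] i)) (by
    intro i j
    rw [fn_apply, hB, hG]
    fin_cases i <;> fin_cases j <;> norm_num) hK hKc hKi (by
    intro i x hx
    rw [hB]
    exact (hr i).fn_inv x hx)
  have hBe : ∀ j k : Fin 4, e (![r0, r1, r2, r3] j) k = ((if k.val = j.val then 1 else 0) -
      if k.val = j.val + 1 then 1 else 0) + if k.val + 2 = 4 ∧ 4 = j.val + 1 then 1 else 0 := by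
    intro j k
    rw [← hB, he, yD_apply]
  have hb0 : e r0 = ![1, -1, 0, 0] := by
    funext k
    have := hBe 0 k
    fin_cases k <;> simpa using this
  have hb1 : e r1 = ![0, 1, -1, 0] := by
    funext k
    have := hBe 1 k
    fin_cases k <;> simpa using this
  have hb2 : e r2 = ![0, 0, 1, -1] := by
    funext k
    have := hBe 2 k
    fin_cases k <;> simpa using this
  have hb3 : e r3 = ![0, 0, 1, 1] := by
    funext k
    have := hBe 3 k
    fin_cases k <;> simpa using this
  have hmem : ∀ x, e x ∈ e '' K → x ∈ K := by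
    rintro x ⟨y, hy, hxy⟩
    rwa [← e.injective hxy]
  have hH := hD.hH_of (by
    intro s hs hsK
    have k1 : e ((s / 2) • ((2 : ℝ) • r0 + (2 : ℝ) • r1 + r2 + r3)) = Pi.single 0 s := by
      simp only [map_smul, map_add, hb0, hb1, hb2, hb3]
      funext k
      fin_cases k <;> simp
      right
      norm_num
    obtain ⟨k2, k3⟩ := hmin (s / 2) (by positivity) (hmem _ (k1 ▸ hsK))
    refine ⟨⟨_, k3, ?_⟩, ⟨_, k2, ?_⟩⟩
    · simp only [map_smul, map_add, hb0, hb1, hb2, hb3]
      funext k
      fin_cases k <;> simp [Pt, sg] <;> ring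
    · simp only [map_smul, map_add, hb0, hb1, hb2, hb3]
      funext k
      fin_cases k <;> simp [Pt, sg] <;> ring)
  rcases DBody.strict4 hD hH with ⟨t, ht, h⟩ | h
  · exact Or.inr (par_of hd e ht h)
  · left
    rw [hd]
    exact Cov.of_image e (by simpa using h)

end Pool.Agent.W396.Il
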