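import Pool.Agent.W396.Il.StrD
import Pool.Agent.W396.Il.E6b
import Pool.Agent.W396.Il.H3b

set_option autoImplicit false

/-!
Type `D₄` without normalization, types `E₆` and `H₃`: one direction less, if the body is not a
parallelepiped.
-/

namespace Pool.Agent.W396.Il

open Set

variable {E : Type*} [NormedAddCommGroup E] [InnerProductSpace ℝ E] {K : Set E}

/-- comparison of the multiples in `K` of two vectors -/
def Le (K : Set E) (v w : E) : Prop := ∀ t : ℝ, 0 ≤ t → t • v ∈ K → t • w ∈ K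

theorem Le.trans {u v w : E} (h1 : Le K u v) (h2 : Le K v w) : Le K u w :=
  fun t ht hu => h2 t ht (h1 t ht hu)

theorem Le.total (hK : Convex ℝ K) (h0 : (0 : E) ∈ K) (v w : E) : Le K v w ∨ Le K w v := by
  by_contra hcon
  push Not at hcon
  obtain ⟨h1, h2⟩ := hcon
  unfold Le at h1 h2
  push Not at h1 h2
  obtain ⟨t, ht, htv, htw⟩ := h1
  obtain ⟨s, hs, hsw, hsv⟩ := h2
  have key : ∀ (x : E) (a b : ℝ), 0 ≤ a → a ≤ b → b • x ∈ K → a • x ∈ K := by
    intro x a b ha hab hb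
    rcases (ha.trans hab).lt_or_eq with hb0 | hb0
    · have h3 := hK hb h0 (a := a / b) (b := 1 - a / b) (by positivity)
        (by rw [sub_nonneg, div_le_one hb0]; exact hab) (by ring)
      rwa [smul_zero, add_zero, smul_smul, div_mul_cancel₀ _ hb0.ne'] at h3
    · have : a = b := le_antisymm hab (hb0 ▸ ha)
      rw [this]; exact hb
  rcases le_total t s with h | h
  · exact htw (key w t s ht h hsw)
  · exact hsv (key v s t hs h htv)

/-- a least one among three -/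
theorem Le.least (hK : Convex ℝ K) (h0 : (0 : E) ∈ K) (u v w : E) :
    (Le K u v ∧ Le K u w) ∨ (Le K v u ∧ Le K v w) ∨ (Le K w u ∧ Le K w v) := by
  rcases Le.total hK h0 u v with h | h
  · rcases Le.total hK h0 u w with h' | h'
    · exact Or.inl ⟨h, h'⟩
    · exact Or.inr (Or.inr ⟨h', h'.trans h⟩)
  · rcases Le.total hK h0 v w with h' | h'
    · exact Or.inr (Or.inl ⟨h, h'⟩)
    · exact Or.inr (Or.inr ⟨h'.trans h, h'⟩)

/-- `D₄` -/
theorem strD4 (r0 r1 r2 r3 : E) (h0 : U K r0) (h1 : U K r1) (h2 : U K r2) (h3 : U K r3)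
    (g01 : inner ℝ r0 r1 = -(1 / 2 : ℝ)) (g02 : inner ℝ r0 r2 = (0 : ℝ))
    (g03 : inner ℝ r0 r3 = (0 : ℝ)) (g12 : inner ℝ r1 r2 = -(1 / 2 : ℝ))
    (g13 : inner ℝ r1 r3 = -(1 / 2 : ℝ)) (g23 : inner ℝ r2 r3 = (0 : ℝ))
    (hd : Module.finrank ℝ E = 4) (h0K : (0 : E) ∈ K)
    (hK : Convex ℝ K) (hKc : IsCompact K) (hKi : (interior K).Nonempty) : Str K := by
  have g20 : inner ℝ r2 r0 = (0 : ℝ) := by rw [real_inner_comm]; exact g02
  have g30 : inner ℝ r3 r0 = (0 : ℝ) := by rw [real_inner_comm]; exact g03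
  have g32 : inner ℝ r3 r2 = (0 : ℝ) := by rw [real_inner_comm]; exact g23
  have g10 : inner ℝ r1 r0 = -(1 / 2 : ℝ) := by rw [real_inner_comm]; exact g01
  have g21 : inner ℝ r2 r1 = -(1 / 2 : ℝ) := by rw [real_inner_comm]; exact g12
  have g31 : inner ℝ r3 r1 = -(1 / 2 : ℝ) := by rw [real_inner_comm]; exact g13
  rcases Le.least hK h0K ((2 : ℝ) • r0 + (2 : ℝ) • r1 + r2 + r3)
    (r0 + (2 : ℝ) • r1 + (2 : ℝ) • r2 + r3) (r0 + (2 : ℝ) • r1 + r2 + (2 : ℝ) • r3) with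
    ⟨a, b⟩ | ⟨a, b⟩ | ⟨a, b⟩
  · exact strD4_aux r0 r1 r2 r3 h0 h1 h2 h3 g01 g02 g03 g12 g13 g23 hd
      (fun t ht hm => ⟨a t ht hm, b t ht hm⟩) hK hKc hKi
  · refine strD4_aux r2 r1 r0 r3 h2 h1 h0 h3 g21 g20 g23 g10 g13 g03 hd
      (fun t ht hm => ?_) hK hKc hKi
    have e1 : (2 : ℝ) • r2 + (2 : ℝ) • r1 + r0 + r3 = r0 + (2 : ℝ) • r1 + (2 : ℝ) • r2 + r3 := by
      abel
    have e2 : r2 + (2 : ℝ) • r1 + (2 : ℝ) • r0 + r3 = (2 : ℝ) • r0 + (2 : ℝ) • r1 + r2 + r3 := by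
      abel
    have e3 : r2 + (2 : ℝ) • r1 + r0 + (2 : ℝ) • r3 = r0 + (2 : ℝ) • r1 + r2 + (2 : ℝ) • r3 := by
      abel
    rw [e1] at hm
    rw [e2, e3]
    exact ⟨a t ht hm, b t ht hm⟩
  · refine strD4_aux r3 r1 r0 r2 h3 h1 h0 h2 g31 g30 g32 g10 g12 g02 hd
      (fun t ht hm => ?_) hK hKc hKi
    have e1 : (2 : ℝ) • r3 + (2 : ℝ) • r1 + r0 + r2 = r0 + (2 : ℝ) • r1 + r2 + (2 : ℝ) • r3 := by
      abel
    have e2 : r3 + (2 : ℝ) • r1 + (2 : ℝ) • r0 + r2 = (2 : ℝ) • r0 + (2 : ℝ) • r1 + r2 + r3 := by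
      abel
    have e3 : r3 + (2 : ℝ) • r1 + r0 + (2 : ℝ) • r2 = r0 + (2 : ℝ) • r1 + (2 : ℝ) • r2 + r3 := by
      abel
    rw [e1] at hm
    rw [e2, e3]
    exact ⟨a t ht hm, b t ht hm⟩

/-- all types `D` -/
theorem strD {m : ℕ} (r : Fin (m + 4) → E) (hr : ∀ i, U K (r i))
    (hG : ∀ i j : Fin (m + 4), inner ℝ (r i) (r j) = if i = j then (1 : ℝ) else
      if i.val + 1 = j.val ∧ j.val + 2 < m + 4 then -(1 / 2) else
      if j.val + 1 = i.val ∧ i.val + 2 < m + 4 then -(1 / 2) else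
      if i.val + 3 = m + 4 ∧ (j.val + 2 = m + 4 ∨ j.val + 1 = m + 4) then -(1 / 2) else
      if j.val + 3 = m + 4 ∧ (i.val + 2 = m + 4 ∨ i.val + 1 = m + 4) then -(1 / 2) else 0)
    (hli : LinearIndependent ℝ r) (hd : Module.finrank ℝ E = m + 4) (h0K : (0 : E) ∈ K)
    (hK : Convex ℝ K) (hKc : IsCompact K) (hKi : (interior K).Nonempty) : Str K := by
  cases m with
  | zero =>
    refine strD4 (r 0) (r 1) (r 2) (r 3) (hr _) (hr _) (hr _) (hr _) ?_ ?_ ?_ ?_ ?_ ?_ hd h0K hK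
      hKc hKi
    · rw [hG]; simp
    · rw [hG]; simp
    · rw [hG]; simp
    · rw [hG]; simp
    · rw [hG]; simp
    · rw [hG]; simp
  | succ m =>
    exact strD5 r hr hG hli hd hK hKc hKi

/-- type `E₆`, 54 directions -/
theorem engE6' (r : Fin 6 → E) (hr : ∀ i, U K (r i))
    (hG : ∀ i j : Fin 6, inner ℝ (r i) (r j) = ((CartanMatrix.E₆ i j : ℤ) : ℝ) / 2)
    (hli : LinearIndependent ℝ r) (hd : Module.finrank ℝ E = 6)
    (hK : Convex ℝ K) (hKc : IsCompact K) (hKi : (interior K).Nonempty) : Cov 54 K := by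
  obtain ⟨B, hB⟩ := exists_basis (by norm_num) hli hd
  obtain ⟨e, he⟩ := exists_equiv B (LinearMap.pi fun k : Fin 6 => fn (r k)) (by
    rw [← LinearMap.ker_eq_bot, LinearMap.ker_eq_bot']
    intro x hx
    have h1 : ∀ i, inner ℝ (r i) x = (0 : ℝ) := by
      intro i
      have := congrFun hx i
      simp only [LinearMap.pi_apply, fn_apply, Pi.zero_apply] at this
      linarith
    have h2 : inner ℝ x x = (0 : ℝ) := by
      conv_lhs => rw [← B.sum_repr x]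
      rw [sum_inner]
      refine Finset.sum_eq_zero fun i _ => ?_
      rw [inner_smul_left, hB]
      conv_lhs => rw [B.sum_repr x]
      rw [h1, mul_zero]
    exact inner_self_eq_zero.1 h2)
  refine Cov.of_image e ?_
  have he' : ∀ x (k : Fin 6), e x k = 2 * inner ℝ (r k) x := fun x k => by
    rw [he]; exact fn_apply _ _
  have hE : E6.EBody (e '' K) := by
    refine ⟨hK.linear_image e.toLinearMap, hKc.image e.continuous, ?_, ?_⟩
    · have h1 : interior (e '' K) = e '' interior K := (e.toHomeomorph.image_interior K).symm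
      rw [h1]
      exact hKi.image _
    · rintro i _ ⟨x, hx, rfl⟩
      refine ⟨_, (hr i).inv x hx, ?_⟩
      rw [E6.sU_eq]
      ext j
      rw [he', inner_sub_right, inner_smul_right, hG, Pi.sub_apply, Pi.smul_apply, smul_eq_mul,
        he', he']
      have h2 : ((CartanMatrix.E₆ j i : ℤ) : ℝ) = E6.gw (E6.un i) j := by
        fin_cases i <;> fin_cases j <;> simp [CartanMatrix.E₆, E6.gw, E6.un]
      rw [h2]
      ring
  exact hE.cov54

theorem Cov.mono {N M : ℕ} {F : Type*} [NormedAddCommGroup F] [NormedSpace ℝ F] {C : Set F}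
    (h : Cov N C) (hNM : N ≤ M) : Cov M C := by
  obtain ⟨T, hT, hc⟩ := h
  exact ⟨T, hT.trans hNM, hc⟩

end Pool.Agent.W396.Il
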